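import Mathlib

set_option autoImplicit false
open Set

namespace Pool.Agent.H858R2

noncomputable section

/-- continuous functions on `[0, 1]` -/
def CI : Type := C(↥(Icc (0 : ℝ) 1), ℝ)

instance : NormedCommRing CI := inferInstanceAs (NormedCommRing C(↥(Icc (0 : ℝ) 1), ℝ))
instance : NormedAlgebra ℝ CI := inferInstanceAs (NormedAlgebra ℝ C(↥(Icc (0 : ℝ) 1), ℝ))
instance : CompleteSpace CI := inferInstanceAs (CompleteSpace C(↥(Icc (0 : ℝ) 1), ℝ))
instance : NormOneClass CI := inferInstanceAs (NormOneClass C(↥(Icc (0 : ℝ) 1), ℝ))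

/-- the underlying continuous map -/
def CI.toC (f : CI) : C(↥(Icc (0 : ℝ) 1), ℝ) := f

/-- the element of `C[0,1]` given by a continuous function on `ℝ` -/
def CI.of (f : ℝ → ℝ) (hf : Continuous f) : CI :=
  (⟨fun t => f t, hf.comp continuous_subtype_val⟩ : C(↥(Icc (0 : ℝ) 1), ℝ))

/-- value at a real number (extended by the end values) -/
def ev (f : CI) (t : ℝ) : ℝ := f.toC (projIcc 0 1 zero_le_one t)

/-- evaluation as an algebra homomorphism -/
def evH (t : ℝ) : CI →ₐ[ℝ] ℝ where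
  toFun f := ev f t
  map_one' := rfl
  map_zero' := rfl
  map_add' _ _ := rfl
  map_mul' _ _ := rfl
  commutes' _ := rfl

@[simp] theorem evH_apply (t : ℝ) (f : CI) : evH t f = ev f t := rfl
@[simp] theorem ev_add (f g : CI) (t : ℝ) : ev (f + g) t = ev f t + ev g t := rfl
@[simp] theorem ev_sub (f g : CI) (t : ℝ) : ev (f - g) t = ev f t - ev g t := rfl
@[simp] theorem ev_neg (f : CI) (t : ℝ) : ev (-f) t = -ev f t := rfl
@[simp] theorem ev_mul (f g : CI) (t : ℝ) : ev (f * g) t = ev f t * ev g t := rfl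
@[simp] theorem ev_smul (r : ℝ) (f : CI) (t : ℝ) : ev (r • f) t = r * ev f t := rfl
@[simp] theorem ev_zero (t : ℝ) : ev 0 t = 0 := rfl
@[simp] theorem ev_one (t : ℝ) : ev 1 t = 1 := rfl

theorem ev_of (f : ℝ → ℝ) (hf : Continuous f) {t : ℝ} (ht : t ∈ Icc (0:ℝ) 1) :
    ev (CI.of f hf) t = f t := by
  show f (projIcc 0 1 zero_le_one t) = f t
  rw [projIcc_of_mem zero_le_one ht]

theorem CI.ext_ev {f g : CI} (h : ∀ t ∈ Icc (0:ℝ) 1, ev f t = ev g t) : f = g := by
  apply ContinuousMap.ext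
  intro t
  have := h t.1 t.2
  unfold ev at this
  rwa [projIcc_val] at this

theorem abs_ev_le (f : CI) (t : ℝ) : |ev f t| ≤ ‖f‖ :=
  ContinuousMap.norm_coe_le_norm f.toC _

theorem norm_evH_le (t : ℝ) (f : CI) : ‖evH t f‖ ≤ ‖f‖ := abs_ev_le f t

theorem CI.norm_le {f : CI} {C : ℝ} (hC : 0 ≤ C) (h : ∀ t ∈ Icc (0:ℝ) 1, |ev f t| ≤ C) :
    ‖f‖ ≤ C := by
  apply (ContinuousMap.norm_le f.toC hC).2
  intro t
  have := h t.1 t.2
  unfold ev at this
  rwa [projIcc_val] at this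

theorem continuous_ev (f : CI) : Continuous (ev f) :=
  f.toC.continuous.comp continuous_projIcc

end

end Pool.Agent.H858R2
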