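import Mathlib
import Pool.Agent.H858R2.CI

set_option autoImplicit false
open Set

namespace Pool.Agent.H858R2

open MeasureTheory intervalIntegral

namespace Duh83

noncomputable def dF (ω : ℝ) (f : CI) (t : ℝ) : ℝ :=
  Real.exp (-ω * t) * ∫ s in (0 : ℝ)..t, Real.exp (ω * s) * ev f s

theorem cont_int (ω : ℝ) (f : CI) : Continuous fun s => Real.exp (ω * s) * ev f s :=
  (by fun_prop : Continuous fun s : ℝ => Real.exp (ω * s)).mul (continuous_ev f)

theorem cont_dF (ω : ℝ) (f : CI) : Continuous (dF ω f) := by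
  unfold dF
  refine (by fun_prop : Continuous fun t : ℝ => Real.exp (-ω * t)).mul ?_
  exact intervalIntegral.continuous_primitive (fun a b => (cont_int ω f).intervalIntegrable a b) 0

theorem hasDeriv_dF (ω : ℝ) (f : CI) (t : ℝ) :
    HasDerivAt (dF ω f) (-ω * dF ω f t + ev f t) t := by
  have h1 : HasDerivAt (fun u => ∫ s in (0 : ℝ)..u, Real.exp (ω * s) * ev f s)
      (Real.exp (ω * t) * ev f t) t :=
    intervalIntegral.integral_hasDerivAt_right ((cont_int ω f).intervalIntegrable _ _)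
      ((cont_int ω f).stronglyMeasurableAtFilter _ _) (cont_int ω f).continuousAt
  have h2 : HasDerivAt (fun t : ℝ => Real.exp (-ω * t)) (Real.exp (-ω * t) * (-ω)) t := by
    have := ((hasDerivAt_id t).const_mul (-ω)).exp
    simpa using this
  have h3 := h2.mul h1
  have h4 : Real.exp (-ω * t) * Real.exp (ω * t) = 1 := by
    rw [← Real.exp_add]; simp
  refine h3.congr_deriv ?_
  unfold dF
  linear_combination (ev f t) * h4

theorem exp_int_le (ω : ℝ) (f : CI) (t : ℝ) (h0 : 0 ≤ t) :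
    |∫ s in (0 : ℝ)..t, Real.exp (ω * s) * ev f s| ≤ ∫ s in (0 : ℝ)..t, Real.exp (ω * s) * ‖f‖ := by
  have h1 : |∫ s in (0 : ℝ)..t, Real.exp (ω * s) * ev f s| ≤
      ∫ s in (0 : ℝ)..t, |Real.exp (ω * s) * ev f s| :=
    intervalIntegral.abs_integral_le_integral_abs h0
  refine h1.trans ?_
  apply intervalIntegral.integral_mono_on h0
  · exact ((cont_int ω f).abs).intervalIntegrable _ _
  · exact (by fun_prop : Continuous fun s : ℝ => Real.exp (ω * s) * ‖f‖).intervalIntegrable _ _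
  · intro s _
    rw [abs_mul, abs_of_pos (Real.exp_pos _)]
    exact mul_le_mul_of_nonneg_left (abs_ev_le f s) (Real.exp_pos _).le

theorem dF_le_one (ω : ℝ) (hω : 0 ≤ ω) (f : CI) (t : ℝ) (ht : t ∈ Icc (0 : ℝ) 1) :
    |dF ω f t| ≤ 1 * ‖f‖ := by
  unfold dF
  rw [abs_mul, abs_of_pos (Real.exp_pos _)]
  have h1 := exp_int_le ω f t ht.1
  have h2 : ∫ s in (0 : ℝ)..t, Real.exp (ω * s) * ‖f‖ ≤ ∫ s in (0 : ℝ)..t, Real.exp (ω * t) * ‖f‖ := by
    apply intervalIntegral.integral_mono_on ht.1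
    · exact (by fun_prop : Continuous fun s : ℝ => Real.exp (ω * s) * ‖f‖).intervalIntegrable _ _
    · exact (continuous_const).intervalIntegrable _ _
    · intro s hs
      apply mul_le_mul_of_nonneg_right _ (norm_nonneg f)
      apply Real.exp_le_exp.2
      exact mul_le_mul_of_nonneg_left hs.2 hω
  rw [intervalIntegral.integral_const, smul_eq_mul, sub_zero] at h2
  have h3 := h1.trans h2
  calc Real.exp (-ω * t) * |∫ s in (0 : ℝ)..t, Real.exp (ω * s) * ev f s|
      ≤ Real.exp (-ω * t) * (t * (Real.exp (ω * t) * ‖f‖)) := by gcongr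
    _ = (Real.exp (-ω * t) * Real.exp (ω * t)) * (t * ‖f‖) := by ring
    _ = t * ‖f‖ := by rw [← Real.exp_add]; simp
    _ ≤ 1 * ‖f‖ := mul_le_mul_of_nonneg_right ht.2 (norm_nonneg f)

theorem dF_le_omega (ω : ℝ) (hω : 0 < ω) (f : CI) (t : ℝ) (ht : t ∈ Icc (0 : ℝ) 1) :
    |dF ω f t| ≤ ω⁻¹ * ‖f‖ := by
  unfold dF
  rw [abs_mul, abs_of_pos (Real.exp_pos _)]
  have h1 := exp_int_le ω f t ht.1
  have h2 : ∫ s in (0 : ℝ)..t, Real.exp (ω * s) * ‖f‖ = ω⁻¹ * (Real.exp (ω * t) - 1) * ‖f‖ := by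
    rw [intervalIntegral.integral_mul_const]
    congr 1
    rw [intervalIntegral.integral_comp_mul_left (fun x => Real.exp x) hω.ne', integral_exp]
    simp
  rw [h2] at h1
  calc Real.exp (-ω * t) * |∫ s in (0 : ℝ)..t, Real.exp (ω * s) * ev f s|
      ≤ Real.exp (-ω * t) * (ω⁻¹ * (Real.exp (ω * t) - 1) * ‖f‖) := by gcongr
    _ = (Real.exp (-ω * t) * Real.exp (ω * t) - Real.exp (-ω * t)) * (ω⁻¹ * ‖f‖) := by ring
    _ = (1 - Real.exp (-ω * t)) * (ω⁻¹ * ‖f‖) := by rw [← Real.exp_add]; simp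
    _ ≤ 1 * (ω⁻¹ * ‖f‖) := by
        apply mul_le_mul_of_nonneg_right
        · linarith [Real.exp_pos (-ω * t)]
        · positivity
    _ = ω⁻¹ * ‖f‖ := one_mul _

noncomputable def DL (ω : ℝ) : CI →ₗ[ℝ] CI where
  toFun f := CI.of (dF ω f) (cont_dF ω f)
  map_add' f g := by
    apply CI.ext_ev
    intro t ht
    rw [ev_add, ev_of _ _ ht, ev_of _ _ ht, ev_of _ _ ht]
    unfold dF
    rw [← mul_add, ← intervalIntegral.integral_add ((cont_int ω f).intervalIntegrable _ _)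
      ((cont_int ω g).intervalIntegrable _ _)]
    congr 1
    apply intervalIntegral.integral_congr
    intro s _
    simp only [ev_add]
    ring
  map_smul' r f := by
    apply CI.ext_ev
    intro t ht
    rw [RingHom.id_apply, ev_smul, ev_of _ _ ht, ev_of _ _ ht]
    unfold dF
    have h : (∫ s in (0 : ℝ)..t, Real.exp (ω * s) * ev (r • f) s) =
        r * ∫ s in (0 : ℝ)..t, Real.exp (ω * s) * ev f s := by
      rw [← intervalIntegral.integral_const_mul]
      apply intervalIntegral.integral_congr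
      intro s _
      simp only [ev_smul]
      ring
    rw [h]
    ring

theorem ev_DL (ω : ℝ) (f : CI) (t : ℝ) (ht : t ∈ Icc (0 : ℝ) 1) : ev (DL ω f) t = dF ω f t :=
  ev_of (dF ω f) (cont_dF ω f) ht

end Duh83

/-! ## TARGET: the Duhamel operator `(D_ω f)(t) = ∫_0^t exp(-ω (t - s)) f(s) ds` on `C[0,1]`. -/
open Duh83 in
theorem duhamel_exists (ω : ℝ) (hω : 0 ≤ ω) : ∃ D : CI →L[ℝ] CI,
    ‖D‖ ≤ 1 ∧ ω * ‖D‖ ≤ 1 ∧
    (∀ f, ev (D f) 0 = 0) ∧
    (∀ f : CI, ∀ t ∈ Ioo (0 : ℝ) 1,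
      HasDerivAt (fun τ => ev (D f) τ) (-ω * ev (D f) t + ev f t) t) := by
  have hb : ∀ f, ‖DL ω f‖ ≤ 1 * ‖f‖ := fun f => CI.norm_le (by positivity) fun t ht => by
    rw [ev_DL ω f t ht]
    exact dF_le_one ω hω f t ht
  refine ⟨(DL ω).mkContinuous 1 hb, LinearMap.mkContinuous_norm_le _ zero_le_one _, ?_, ?_, ?_⟩
  · rcases hω.eq_or_lt with h | h
    · have h0 : ω * ‖(DL ω).mkContinuous 1 hb‖ = 0 := mul_eq_zero_of_left h.symm _
      rw [h0]
      exact zero_le_one
    · have : ‖(DL ω).mkContinuous 1 hb‖ ≤ ω⁻¹ := by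
        apply ContinuousLinearMap.opNorm_le_bound _ (by positivity)
        intro f
        rw [LinearMap.mkContinuous_apply]
        refine CI.norm_le (by positivity) fun t ht => ?_
        rw [ev_DL ω f t ht]
        exact dF_le_omega ω h f t ht
      calc ω * ‖(DL ω).mkContinuous 1 hb‖ ≤ ω * ω⁻¹ := by gcongr
        _ = 1 := mul_inv_cancel₀ h.ne'
  · intro f
    rw [LinearMap.mkContinuous_apply, ev_DL ω f 0 (by simp)]
    simp [dF]
  · intro f t ht
    simp only [LinearMap.mkContinuous_apply]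
    rw [ev_DL ω f t ⟨ht.1.le, ht.2.le⟩]
    refine (hasDeriv_dF ω f t).congr_of_eventuallyEq ?_
    filter_upwards [isOpen_Ioo.mem_nhds ht] with τ hτ
    exact ev_DL ω f τ ⟨hτ.1.le, hτ.2.le⟩

end Pool.Agent.H858R2
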