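import Mathlib
import Pool.Agent.H858R2.Defs

set_option autoImplicit false
open scoped ContDiff Manifold Topology Matrix
open Set

namespace Pool.Agent.H858R2

open Pool.Agent.QTot

instance : Fact (Module.finrank ℝ (EuclideanSpace ℝ (Fin 6)) = 5 + 1) := ⟨by simp⟩

/-- the unit sphere `S⁵` with Mathlib's smooth structure -/
abbrev S5 : Type := Metric.sphere (0 : EuclideanSpace ℝ (Fin 6)) 1

/-- the ambient coordinates of a point of the sphere -/
def amb (x : S5) : Fin 6 → ℝ := WithLp.ofLp (x : EuclideanSpace ℝ (Fin 6))


end Pool.Agent.H858R2
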