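import Mathlib
import Pool.Agent.H858R2.G1Def

set_option autoImplicit false
set_option linter.all false
open scoped ContDiff Manifold Topology Matrix RealInnerProductSpace
open Set

namespace Pool.Agent.H858R2.G1h844

open Pool.Agent.QTot Pool.Agent.H858R2

abbrev E6 : Type := EuclideanSpace ℝ (Fin 6)

theorem contDiff_ofLp6 : ContDiff ℝ ∞ (fun x : E6 => WithLp.ofLp x) :=
  (PiLp.continuousLinearEquiv 2 ℝ (fun _ : Fin 6 => ℝ)).contDiff

theorem contDiff_toLp6 : ContDiff ℝ ∞ (fun x : Fin 6 → ℝ => (WithLp.toLp 2 x : E6)) :=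
  (PiLp.continuousLinearEquiv 2 ℝ (fun _ : Fin 6 => ℝ)).symm.contDiff

theorem contDiff_ofLp5 : ContDiff ℝ ∞ (fun x : En 5 => WithLp.ofLp x) :=
  (PiLp.continuousLinearEquiv 2 ℝ (fun _ : Fin 5 => ℝ)).contDiff

theorem contDiff_toLp5 : ContDiff ℝ ∞ (fun x : Eu 5 => (WithLp.toLp 2 x : En 5)) :=
  (PiLp.continuousLinearEquiv 2 ℝ (fun _ : Fin 5 => ℝ)).symm.contDiff

theorem chart_pkg (e : OpenPartialHomeomorph S5 (En 5)) (he : e ∈ atlas (En 5) S5) :
    e.target = univ ∧ ∃ (P : Eu 5 → (Fin 6 → ℝ)) (R : (Fin 6 → ℝ) → Eu 5) (O : Set (Fin 6 → ℝ)),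
      ContDiff ℝ ∞ P ∧ IsOpen O ∧ ContDiffOn ℝ ∞ R O ∧
      (∀ y, P y ∈ O) ∧ (∀ y, R (P y) = y) ∧
      (∀ y, amb (e.symm (WithLp.toLp 2 y)) = P y) ∧
      (∀ x : S5, x ∈ e.source ↔ amb x ∈ O) ∧
      (∀ x : S5, x ∈ e.source → WithLp.ofLp (e x) = R (amb x)) ∧
      (∀ x : S5, x ∈ e.source → P (R (amb x)) = amb x) ∧
      (∀ y, ∑ i, P y i ^ 2 = 1) := by
  obtain ⟨v, rfl⟩ : ∃ v : S5, e = stereographic' 5 v := he
  have htar : (stereographic' 5 v).target = univ := stereographic'_target v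
  refine ⟨htar, ?_⟩
  have hv : ‖(v : E6)‖ = 1 := norm_eq_of_mem_sphere v
  set U : (ℝ ∙ (v : E6))ᗮ ≃ₗᵢ[ℝ] En 5 :=
    (OrthonormalBasis.fromOrthogonalSpanSingleton (𝕜 := ℝ) 5 (ne_zero_of_mem_unit_sphere v)).repr
    with hU
  have hsymm : ∀ z : En 5, (((stereographic' 5 v).symm z : S5) : E6) =
      stereoInvFunAux (v : E6) ((U.symm z : (ℝ ∙ (v : E6))ᗮ) : E6) := fun z => rfl
  have happ : ∀ x : S5, (stereographic' 5 v) x = U (stereoToFun (v : E6) (x : E6)) := fun x => rfl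
  have hsrc : ∀ x : S5, x ∈ (stereographic' 5 v).source ↔ innerSL ℝ (v : E6) (x : E6) ≠ 1 := by
    intro x
    rw [stereographic'_source]
    simp only [Set.mem_compl_iff, Set.mem_singleton_iff, innerSL_apply_apply, ne_eq]
    rw [sphere_ext_iff, real_inner_comm]
  refine ⟨fun y => WithLp.ofLp (stereoInvFunAux (v : E6) ((U.symm (WithLp.toLp 2 y) :
      (ℝ ∙ (v : E6))ᗮ) : E6)), fun x => WithLp.ofLp (U (stereoToFun (v : E6) (WithLp.toLp 2 x))),
    {x | innerSL ℝ (v : E6) (WithLp.toLp 2 x : E6) ≠ 1}, ?_, ?_, ?_, ?_, ?_, ?_, ?_, ?_, ?_, ?_⟩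
  · refine contDiff_ofLp6.comp ?_
    refine (contDiff_stereoInvFunAux (m := ∞) (v := (v : E6))).comp ?_
    exact ((ℝ ∙ (v : E6))ᗮ.subtypeL.contDiff.comp U.symm.contDiff).comp contDiff_toLp5
  · have hc : Continuous fun x : Fin 6 → ℝ => innerSL ℝ (v : E6) (WithLp.toLp 2 x : E6) :=
      (innerSL ℝ (v : E6)).continuous.comp contDiff_toLp6.continuous
    exact isOpen_ne_fun hc continuous_const
  · refine contDiff_ofLp5.comp_contDiffOn ?_
    refine U.contDiff.comp_contDiffOn ?_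
    exact (contDiffOn_stereoToFun (n := ∞) (v := (v : E6))).comp contDiff_toLp6.contDiffOn
      (fun x hx => hx)
  · intro y
    have h1 : (stereographic' 5 v).symm (WithLp.toLp 2 y) ∈ (stereographic' 5 v).source :=
      (stereographic' 5 v).map_target (by rw [htar]; trivial)
    exact (hsrc _).1 h1
  · intro y
    have h1 : (stereographic' 5 v) ((stereographic' 5 v).symm (WithLp.toLp 2 y)) = WithLp.toLp 2 y :=
      (stereographic' 5 v).right_inv (by rw [htar]; trivial)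
    have h2 := congrArg WithLp.ofLp h1
    exact h2
  · intro y
    rfl
  · intro x
    exact hsrc x
  · intro x _
    rfl
  · intro x hx
    have h1 : (stereographic' 5 v).symm ((stereographic' 5 v) x) = x :=
      (stereographic' 5 v).left_inv hx
    have h2 := congrArg amb h1
    exact h2
  · intro y
    have h1 : ‖(((stereographic' 5 v).symm (WithLp.toLp 2 y) : S5) : E6)‖ = 1 :=
      norm_eq_of_mem_sphere _
    have h2 := EuclideanSpace.norm_sq_eq (((stereographic' 5 v).symm (WithLp.toLp 2 y) : S5) : E6)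
    rw [h1] at h2
    simp only [Real.norm_eq_abs, sq_abs, one_pow] at h2
    exact h2.symm

end Pool.Agent.H858R2.G1h844
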