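import Mathlib
import Pool.Agent.H858R2.G1_helper844

set_option autoImplicit false
open scoped ContDiff Manifold Topology Matrix
open Set

namespace Pool.Agent.H858R2

open Pool.Agent.QTot

/-! ## TARGET: concrete description of the charts (stereographic projections) of `S⁵`.
`P` is the inverse chart in coordinates, `R` a smooth extension of the chart to an open subset of
the ambient space. -/
theorem chart_pkg (e : OpenPartialHomeomorph S5 (En 5)) (he : e ∈ atlas (En 5) S5) :
    e.target = univ ∧ ∃ (P : Eu 5 → (Fin 6 → ℝ)) (R : (Fin 6 → ℝ) → Eu 5) (O : Set (Fin 6 → ℝ)),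
      ContDiff ℝ ∞ P ∧ IsOpen O ∧ ContDiffOn ℝ ∞ R O ∧
      (∀ y, P y ∈ O) ∧ (∀ y, R (P y) = y) ∧
      (∀ y, amb (e.symm (WithLp.toLp 2 y)) = P y) ∧
      (∀ x : S5, x ∈ e.source ↔ amb x ∈ O) ∧
      (∀ x : S5, x ∈ e.source → WithLp.ofLp (e x) = R (amb x)) ∧
      (∀ x : S5, x ∈ e.source → P (R (amb x)) = amb x) ∧
      (∀ y, ∑ i, P y i ^ 2 = 1) :=
  G1h844.chart_pkg e he

end Pool.Agent.H858R2
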