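import Mathlib

set_option autoImplicit false

namespace Pool.Agent.H858R2

/-! The Ricci flow of the metrics `U ⟨a_z,b_z⟩ + V ⟨a_y,b_y⟩ + W ⟨z,a_z⟩⟨z,b_z⟩` on `S⁵ ⊂ ℝ³ × ℝ³`
(`U, V, W` functions of `s = |z|²`) as a system for `U, V, W`; `c = 1 - s`;
`U1, U2` are the first and second `s`-derivatives; `iU, iV, iE` the inverses of `U, V, E`. -/

section
variable {A : Type*} [CommRing A]

def cE (s U V W : A) : A := (1 - s) * U + s * V + s * (1 - s) * W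
def cE1 (s U V W U1 V1 W1 : A) : A :=
  V - U + (1 - s) * U1 + s * V1 + (1 - 2 * s) * W + s * (1 - s) * W1
def cQ (s U V W : A) : A := V - U + (1 - s) * W
def cR (s U V W : A) : A := U - V + s * W
def cQ1 (s U1 V1 W W1 : A) : A := V1 - U1 - W + (1 - s) * W1
def cR1 (s U1 V1 W W1 : A) : A := U1 - V1 + W + s * W1

/-- `E` times the sectional curvatures -/
def kRF (s U V W U1 V1 W1 U2 iU iE : A) : A :=
  1 - ((3 * (1 - s) - s) * U1 + 2 * s * (1 - s) * U2) * iU + s * (1 - s) * U1 ^ 2 * iU ^ 2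
    + (1 - s) * cE1 s U V W U1 V1 W1 * (1 + s * U1 * iU) * iE
def kRH (s U V W U1 V1 W1 V2 iV iE : A) : A :=
  1 + ((3 * s - (1 - s)) * V1 - 2 * s * (1 - s) * V2) * iV + s * (1 - s) * V1 ^ 2 * iV ^ 2
    - s * cE1 s U V W U1 V1 W1 * (1 - (1 - s) * V1 * iV) * iE
def kFF (s U V W U1 iU : A) : A :=
  1 + cQ s U V W * iU - 2 * (1 - s) * U1 * iU - s * (1 - s) * U1 ^ 2 * iU ^ 2
def kHH (s U V W V1 iV : A) : A :=
  1 + cR s U V W * iV + 2 * s * V1 * iV - s * (1 - s) * V1 ^ 2 * iV ^ 2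
def kFH (s U1 V1 iU iV : A) : A := (1 + s * U1 * iU) * (1 - (1 - s) * V1 * iV)

/-- `∂_t U` -/
def fU (s U V W U1 V1 W1 U2 iV iE : A) : A :=
  iE * (4 * s * (1 - s) * U2 + (10 * (1 - s) - 6 * s) * U1 - 8 * U - 2 * cQ s U V W
    - 2 * (1 - s) * (U + s * U1) * (cE1 s U V W U1 V1 W1 * iE - 2 * V1 * iV))
/-- `∂_t V` -/
def fV (s U V W U1 V1 W1 V2 iU iE : A) : A :=
  iE * (4 * s * (1 - s) * V2 - (10 * s - 6 * (1 - s)) * V1 - 8 * V - 2 * cR s U V W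
    + 2 * s * (V - (1 - s) * V1) * (cE1 s U V W U1 V1 W1 * iE - 2 * U1 * iU))
def a1 (s U V W U1 V1 W1 U2 iU iE : A) : A :=
  (cQ s U V W ^ 2 + cQ s U V W * U1 - U * cQ1 s U1 V1 W W1) * iU * iE
    + cE1 s U V W U1 V1 W1 * iE - 2 * U1 * iU + 2 * (1 - s) * U2 * iU
    - 2 * (1 - s) * U1 ^ 2 * iU ^ 2 - (1 - s) * cE1 s U V W U1 V1 W1 * U1 * iU * iE
def a2 (s U V W U1 V1 W1 V2 iU iV iE : A) : A :=
  U1 * iU - 3 * V1 * iV - (1 - s) * U1 * V1 * iU * iV + 2 * (1 - s) * V2 * iV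
    - (1 - s) * V1 ^ 2 * iV ^ 2 + cE1 s U V W U1 V1 W1 * (1 - (1 - s) * V1 * iV) * iE
def b1 (s U V W U1 V1 W1 V2 iV iE : A) : A :=
  (cR s U V W ^ 2 - cR s U V W * V1 + V * cR1 s U1 V1 W W1) * iV * iE
    - cE1 s U V W U1 V1 W1 * iE + 2 * V1 * iV + 2 * s * V2 * iV
    - 2 * s * V1 ^ 2 * iV ^ 2 - s * cE1 s U V W U1 V1 W1 * V1 * iV * iE
def b2 (s U V W U1 V1 W1 U2 iU iV iE : A) : A :=
  -V1 * iV + 3 * U1 * iU - s * U1 * V1 * iU * iV + 2 * s * U2 * iU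
    - s * U1 ^ 2 * iU ^ 2 - cE1 s U V W U1 V1 W1 * (1 + s * U1 * iU) * iE
/-- `∂_t W` -/
def fW (s U V W U1 V1 W1 U2 V2 iU iV iE : A) : A :=
  iE * (2 * U * (a1 s U V W U1 V1 W1 U2 iU iE + 2 * a2 s U V W U1 V1 W1 V2 iU iV iE)
    + 2 * V * (b1 s U V W U1 V1 W1 V2 iV iE + 2 * b2 s U V W U1 V1 W1 U2 iU iV iE)
    - 4 * W * (kRF s U V W U1 V1 W1 U2 iU iE + kRH s U V W U1 V1 W1 V2 iV iE))

end

/-! The evolution equations in terms of curvatures (over a field). -/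

variable {s U V W U1 V1 W1 U2 V2 : ℝ}

theorem fU_eq (hU : U ≠ 0) (hV : V ≠ 0) (hE : cE s U V W ≠ 0) :
    fU s U V W U1 V1 W1 U2 V⁻¹ (cE s U V W)⁻¹ =
      -2 * U * (cE s U V W)⁻¹ * (kRF s U V W U1 V1 W1 U2 U⁻¹ (cE s U V W)⁻¹ + kFF s U V W U1 U⁻¹
        + 2 * kFH s U1 V1 U⁻¹ V⁻¹) := by
  simp only [fU, kRF, kFF, kFH]
  generalize cE1 s U V W U1 V1 W1 = E1
  generalize hQ : cQ s U V W = Q
  generalize cE s U V W = E at *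
  field_simp
  ring

theorem fV_eq (hU : U ≠ 0) (hV : V ≠ 0) (hE : cE s U V W ≠ 0) :
    fV s U V W U1 V1 W1 V2 U⁻¹ (cE s U V W)⁻¹ =
      -2 * V * (cE s U V W)⁻¹ * (kRH s U V W U1 V1 W1 V2 V⁻¹ (cE s U V W)⁻¹ + kHH s U V W V1 V⁻¹
        + 2 * kFH s U1 V1 U⁻¹ V⁻¹) := by
  simp only [fV, kRH, kHH, kFH]
  generalize cE1 s U V W U1 V1 W1 = E1
  generalize hQ : cR s U V W = Q
  generalize cE s U V W = E at *
  field_simp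
  ring

theorem fE_eq (hU : U ≠ 0) (hV : V ≠ 0) (hE : cE s U V W ≠ 0) :
    cE s (fU s U V W U1 V1 W1 U2 V⁻¹ (cE s U V W)⁻¹) (fV s U V W U1 V1 W1 V2 U⁻¹ (cE s U V W)⁻¹)
      (fW s U V W U1 V1 W1 U2 V2 U⁻¹ V⁻¹ (cE s U V W)⁻¹) =
      -4 * (kRF s U V W U1 V1 W1 U2 U⁻¹ (cE s U V W)⁻¹
        + kRH s U V W U1 V1 W1 V2 V⁻¹ (cE s U V W)⁻¹) := by
  have h1 : kFF s U V W U1 U⁻¹ - kRF s U V W U1 V1 W1 U2 U⁻¹ (cE s U V W)⁻¹ =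
      s * a1 s U V W U1 V1 W1 U2 U⁻¹ (cE s U V W)⁻¹ := by
    simp only [kFF, kRF, a1]
    have hE' : cE s U V W * (cE s U V W)⁻¹ = 1 := mul_inv_cancel₀ hE
    field_simp
    simp only [cE, cE1, cQ, cQ1]
    ring
  have h2 : kFH s U1 V1 U⁻¹ V⁻¹ - kRH s U V W U1 V1 W1 V2 V⁻¹ (cE s U V W)⁻¹ =
      s * a2 s U V W U1 V1 W1 V2 U⁻¹ V⁻¹ (cE s U V W)⁻¹ := by
    simp only [kFH, kRH, a2]
    ring
  have h3 : kHH s U V W V1 V⁻¹ - kRH s U V W U1 V1 W1 V2 V⁻¹ (cE s U V W)⁻¹ =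
      (1 - s) * b1 s U V W U1 V1 W1 V2 V⁻¹ (cE s U V W)⁻¹ := by
    simp only [kHH, kRH, b1]
    field_simp
    simp only [cE, cE1, cR, cR1]
    ring
  have h4 : kFH s U1 V1 U⁻¹ V⁻¹ - kRF s U V W U1 V1 W1 U2 U⁻¹ (cE s U V W)⁻¹ =
      (1 - s) * b2 s U V W U1 V1 W1 U2 U⁻¹ V⁻¹ (cE s U V W)⁻¹ := by
    simp only [kFH, kRF, b2]
    ring
  have e0 : cE s (fU s U V W U1 V1 W1 U2 V⁻¹ (cE s U V W)⁻¹)
      (fV s U V W U1 V1 W1 V2 U⁻¹ (cE s U V W)⁻¹)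
      (fW s U V W U1 V1 W1 U2 V2 U⁻¹ V⁻¹ (cE s U V W)⁻¹) =
      (1 - s) * fU s U V W U1 V1 W1 U2 V⁻¹ (cE s U V W)⁻¹
      + s * fV s U V W U1 V1 W1 V2 U⁻¹ (cE s U V W)⁻¹
      + s * (1 - s) * fW s U V W U1 V1 W1 U2 V2 U⁻¹ V⁻¹ (cE s U V W)⁻¹ := rfl
  rw [e0, fU_eq hU hV hE, fV_eq hU hV hE]
  have hE' : cE s U V W * (cE s U V W)⁻¹ = 1 := mul_inv_cancel₀ hE
  have hEe : cE s U V W = (1 - s) * U + s * V + s * (1 - s) * W := rfl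
  simp only [fW]
  generalize kRF s U V W U1 V1 W1 U2 U⁻¹ (cE s U V W)⁻¹ = rf at *
  generalize kRH s U V W U1 V1 W1 V2 V⁻¹ (cE s U V W)⁻¹ = rh at *
  generalize kFF s U V W U1 U⁻¹ = ff at *
  generalize kHH s U V W V1 V⁻¹ = hh at *
  generalize kFH s U1 V1 U⁻¹ V⁻¹ = fh at *
  generalize a1 s U V W U1 V1 W1 U2 U⁻¹ (cE s U V W)⁻¹ = x1 at *
  generalize a2 s U V W U1 V1 W1 V2 U⁻¹ V⁻¹ (cE s U V W)⁻¹ = x2 at *
  generalize b1 s U V W U1 V1 W1 V2 V⁻¹ (cE s U V W)⁻¹ = y1 at *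
  generalize b2 s U V W U1 V1 W1 U2 U⁻¹ V⁻¹ (cE s U V W)⁻¹ = y2 at *
  generalize (cE s U V W)⁻¹ = iE at *
  generalize cE s U V W = E at *
  linear_combination (-4 * (rf + rh)) * hE' + (-2 * (1 - s) * U * iE) * h1
    + (-4 * (1 - s) * U * iE) * h2 + (-2 * s * V * iE) * h3 + (-4 * s * V * iE) * h4
    + (4 * iE * (rf + rh)) * hEe

end Pool.Agent.H858R2
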