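import Mathlib
import Pool.Agent.H858R2.Defs
import Pool.Agent.H858R2.Sys
import Pool.Agent.H858R2.G1
import Pool.Agent.H858R2.G2

set_option autoImplicit false
set_option linter.all false
open scoped ContDiff Manifold Topology Matrix
open Set

namespace Pool.Agent.H858R2

open Pool.Agent.QTot

/-- `|z|²` for `x = (z, y) ∈ ℝ³ × ℝ³` -/
def sz (x : Fin 6 → ℝ) : ℝ := x 0 ^ 2 + x 1 ^ 2 + x 2 ^ 2

/-- the `z`-part of `x` -/
def zp (x : Fin 6 → ℝ) (a : Fin 6) : ℝ := if a.val < 3 then x a else 0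

/-- the ambient form `U ⟨a_z,b_z⟩ + V ⟨a_y,b_y⟩ + W ⟨z,a_z⟩⟨z,b_z⟩` at `x = (z, y)`,
with `U, V, W` evaluated at `|z|²` -/
noncomputable def ambG (U V W : ℝ → ℝ) (x : Fin 6 → ℝ) : Matrix (Fin 6) (Fin 6) ℝ :=
  Matrix.of fun a b => (if a = b then (if a.val < 3 then U (sz x) else V (sz x)) else 0)
    + W (sz x) * zp x a * zp x b

/-- Jacobian matrix of a map `ℝ⁵ → ℝ⁶` -/
noncomputable def JP (P : Eu 5 → (Fin 6 → ℝ)) (y : Eu 5) : Matrix (Fin 6) (Fin 5) ℝ :=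
  Matrix.of fun a i => pd i (fun y => P y a) y

/-- pull-back of the ambient form by a map `ℝ⁵ → ℝ⁶` -/
noncomputable def pullA (P : Eu 5 → (Fin 6 → ℝ)) (U V W : ℝ → ℝ) (y : Eu 5) : Mt 5 :=
  (JP P y)ᵀ * ambG U V W (P y) * JP P y

/-- `E, F, H` as functions of `r`, where `s = sin² r` -/
noncomputable def Er (U V W : ℝ → ℝ) (r : ℝ) : ℝ :=
  cE (Real.sin r ^ 2) (U (Real.sin r ^ 2)) (V (Real.sin r ^ 2)) (W (Real.sin r ^ 2))
noncomputable def Fr (U : ℝ → ℝ) (r : ℝ) : ℝ := Real.sin r ^ 2 * U (Real.sin r ^ 2)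
noncomputable def Hr (V : ℝ → ℝ) (r : ℝ) : ℝ := Real.cos r ^ 2 * V (Real.sin r ^ 2)

/-- the inverse of the chart `e` of `S⁵`, as a map `ℝ⁵ → ℝ⁶` -/
noncomputable def Pinv (e : OpenPartialHomeomorph S5 (En 5)) (y : Eu 5) : Fin 6 → ℝ :=
  amb (e.symm (WithLp.toLp 2 y))

end Pool.Agent.H858R2
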