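import Mathlib
import Pool.Agent.H858R2.G3Def

set_option autoImplicit false
set_option linter.all false
open scoped ContDiff Manifold Topology Matrix
open Set

namespace Pool.Agent.H858R2.G3P

open Pool.Agent.QTot Pool.Agent.H858R2

/-- a partial derivative is the derivative of the restriction to the coordinate line -/
theorem pd_of_line {n : ℕ} {f : Eu n → ℝ} {u : Eu n} (i : Fin n) (hf : DifferentiableAt ℝ f u)
    {d : ℝ} (h : HasDerivAt (fun t => f (Function.update u i t)) d (u i)) : pd i f u = d := by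
  have h1 : HasDerivAt (Function.update u i) (Pi.single i (1:ℝ)) (u i) := by
    exact hasDerivAt_update u i (u i)
  have h2 : HasDerivAt (fun t => f (Function.update u i t)) (fderiv ℝ f u (Pi.single i 1)) (u i) := by
    have h3 : HasFDerivAt f (fderiv ℝ f u) (Function.update u i (u i)) := by
      rw [Function.update_eq_self]; exact hf.hasFDerivAt
    exact h3.comp_hasDerivAt (u i) h1
  exact h2.unique h

/-- orthonormal frames of `ℝ³` -/
theorem frame (a b c : ℝ) (h : a ^ 2 + b ^ 2 + c ^ 2 = 1) :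
    ∃ e f : Fin 3 → ℝ, e 0 ^ 2 + e 1 ^ 2 + e 2 ^ 2 = 1 ∧ f 0 ^ 2 + f 1 ^ 2 + f 2 ^ 2 = 1 ∧
      a * e 0 + b * e 1 + c * e 2 = 0 ∧ a * f 0 + b * f 1 + c * f 2 = 0 ∧
      e 0 * f 0 + e 1 * f 1 + e 2 * f 2 = 0 := by
  by_cases h0 : a ^ 2 + b ^ 2 = 0
  · have ha : a = 0 := by nlinarith [sq_nonneg a, sq_nonneg b]
    have hb : b = 0 := by nlinarith [sq_nonneg a, sq_nonneg b]
    refine ⟨![1, 0, 0], ![0, 1, 0], ?_, ?_, ?_, ?_, ?_⟩ <;> simp [ha, hb]
  · have hp : 0 < a ^ 2 + b ^ 2 := lt_of_le_of_ne (by positivity) (Ne.symm h0)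
    set s := Real.sqrt (a ^ 2 + b ^ 2) with hs
    have hsp : 0 < s := Real.sqrt_pos.2 hp
    have hs2 : s ^ 2 = a ^ 2 + b ^ 2 := Real.sq_sqrt hp.le
    refine ⟨![-b / s, a / s, 0], ![-c * a / s, -c * b / s, s], ?_, ?_, ?_, ?_, ?_⟩
    · simp only [Matrix.cons_val_zero, Matrix.cons_val_one, Matrix.cons_val]
      field_simp
      linear_combination -hs2
    · simp only [Matrix.cons_val_zero, Matrix.cons_val_one, Matrix.cons_val]
      field_simp
      linear_combination (s ^ 2 - c ^ 2) * hs2 + s ^ 2 * h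
    · simp only [Matrix.cons_val_zero, Matrix.cons_val_one, Matrix.cons_val]
      field_simp
      ring
    · simp only [Matrix.cons_val_zero, Matrix.cons_val_one, Matrix.cons_val]
      field_simp
      linear_combination c * hs2
    · simp only [Matrix.cons_val_zero, Matrix.cons_val_one, Matrix.cons_val]
      field_simp
      ring

/-- stereographic parametrization of `S²`, one component -/
noncomputable def st (n e f p q : ℝ) : ℝ :=
  ((1 - (p ^ 2 + q ^ 2) / 4) * n + p * e + q * f) / (1 + (p ^ 2 + q ^ 2) / 4)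

theorem den_pos (p q : ℝ) : 0 < 1 + (p ^ 2 + q ^ 2) / 4 := by positivity

theorem st_hasDeriv_p (n e f p q : ℝ) : HasDerivAt (fun t => st n e f t q)
    ((-p / (1 + (p ^ 2 + q ^ 2) / 4) ^ 2) * n
      + ((1 + (q ^ 2 - p ^ 2) / 4) / (1 + (p ^ 2 + q ^ 2) / 4) ^ 2) * e
      + (-(p * q / 2) / (1 + (p ^ 2 + q ^ 2) / 4) ^ 2) * f) p := by
  have hd := (den_pos p q).ne'
  have h2 : HasDerivAt (fun t : ℝ => t ^ 2) (2 * p) p := by
    simpa using hasDerivAt_pow 2 p
  have h1 : HasDerivAt (fun t : ℝ => (1 - (t ^ 2 + q ^ 2) / 4) * n + t * e + q * f)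
      (-(p / 2) * n + e) p :=
    ((((((h2.add_const (q ^ 2)).div_const 4).const_sub 1).mul_const n).add
      ((hasDerivAt_id p).mul_const e)).add_const (q * f)).congr_deriv (by ring)
  have h3 : HasDerivAt (fun t : ℝ => 1 + (t ^ 2 + q ^ 2) / 4) (p / 2) p :=
    (((h2.add_const (q ^ 2)).div_const 4).const_add 1).congr_deriv (by ring)
  refine (h1.div h3 hd).congr_deriv ?_
  field_simp
  ring

theorem st_hasDeriv_q (n e f p q : ℝ) : HasDerivAt (fun t => st n e f p t)
    ((-q / (1 + (p ^ 2 + q ^ 2) / 4) ^ 2) * n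
      + (-(p * q / 2) / (1 + (p ^ 2 + q ^ 2) / 4) ^ 2) * e
      + ((1 + (p ^ 2 - q ^ 2) / 4) / (1 + (p ^ 2 + q ^ 2) / 4) ^ 2) * f) q := by
  have h := st_hasDeriv_p n f e q p
  have e1 : (fun t => st n f e t p) = (fun t => st n e f p t) := by
    funext t
    unfold st
    have : (1:ℝ) + (t ^ 2 + p ^ 2) / 4 = 1 + (p ^ 2 + t ^ 2) / 4 := by ring
    rw [this]
    congr 1
    ring
  rw [e1] at h
  refine h.congr_deriv ?_
  have : (1:ℝ) + (q ^ 2 + p ^ 2) / 4 = 1 + (p ^ 2 + q ^ 2) / 4 := by ring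
  rw [this]
  ring

/-- `∂_p` of `st` -/
noncomputable def stp (n e f p q : ℝ) : ℝ :=
  (-p / (1 + (p ^ 2 + q ^ 2) / 4) ^ 2) * n
      + ((1 + (q ^ 2 - p ^ 2) / 4) / (1 + (p ^ 2 + q ^ 2) / 4) ^ 2) * e
      + (-(p * q / 2) / (1 + (p ^ 2 + q ^ 2) / 4) ^ 2) * f
/-- `∂_q` of `st` -/
noncomputable def stq (n e f p q : ℝ) : ℝ :=
  (-q / (1 + (p ^ 2 + q ^ 2) / 4) ^ 2) * n
      + (-(p * q / 2) / (1 + (p ^ 2 + q ^ 2) / 4) ^ 2) * e
      + ((1 + (p ^ 2 - q ^ 2) / 4) / (1 + (p ^ 2 + q ^ 2) / 4) ^ 2) * f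

/-- sum over the first three coordinates -/
def dA (v w : Fin 6 → ℝ) : ℝ := v 0 * w 0 + v 1 * w 1 + v 2 * w 2
/-- sum over the last three coordinates -/
def dB (v w : Fin 6 → ℝ) : ℝ := v 3 * w 3 + v 4 * w 4 + v 5 * w 5

/-- orthonormality -/
structure ONA (n e f : Fin 6 → ℝ) : Prop where
  nn : dA n n = 1
  ee : dA e e = 1
  ff : dA f f = 1
  ne : dA n e = 0
  nf : dA n f = 0
  ef : dA e f = 0

structure ONB (n e f : Fin 6 → ℝ) : Prop where
  nn : dB n n = 1
  ee : dB e e = 1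
  ff : dB f f = 1
  ne : dB n e = 0
  nf : dB n f = 0
  ef : dB e f = 0

theorem dot_key {n e f : Fin 6 → ℝ} (h : ONA n e f) (a b c a' b' c' : ℝ) :
    dA (fun i => a * n i + b * e i + c * f i) (fun i => a' * n i + b' * e i + c' * f i) =
      a * a' + b * b' + c * c' := by
  obtain ⟨h1, h2, h3, h4, h5, h6⟩ := h
  simp only [dA] at *
  linear_combination (a * a') * h1 + (b * b') * h2 + (c * c') * h3 + (a * b' + b * a') * h4
    + (a * c' + c * a') * h5 + (b * c' + c * b') * h6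

theorem dot_keyB {n e f : Fin 6 → ℝ} (h : ONB n e f) (a b c a' b' c' : ℝ) :
    dB (fun i => a * n i + b * e i + c * f i) (fun i => a' * n i + b' * e i + c' * f i) =
      a * a' + b * b' + c * c' := by
  obtain ⟨h1, h2, h3, h4, h5, h6⟩ := h
  simp only [dB] at *
  linear_combination (a * a') * h1 + (b * b') * h2 + (c * c') * h3 + (a * b' + b * a') * h4
    + (a * c' + c * a') * h5 + (b * c' + c * b') * h6

theorem st_eq (n e f p q : ℝ) : st n e f p q =
    ((1 - (p ^ 2 + q ^ 2) / 4) / (1 + (p ^ 2 + q ^ 2) / 4)) * n + (p / (1 + (p ^ 2 + q ^ 2) / 4)) * e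
      + (q / (1 + (p ^ 2 + q ^ 2) / 4)) * f := by
  unfold st
  ring

section
variable {n e f : Fin 6 → ℝ} (p q : ℝ)

/-- the three vectors -/
noncomputable def vs (n e f : Fin 6 → ℝ) (p q : ℝ) (a : Fin 6) : ℝ := st (n a) (e a) (f a) p q
noncomputable def vp (n e f : Fin 6 → ℝ) (p q : ℝ) (a : Fin 6) : ℝ := stp (n a) (e a) (f a) p q
noncomputable def vq (n e f : Fin 6 → ℝ) (p q : ℝ) (a : Fin 6) : ℝ := stq (n a) (e a) (f a) p q

theorem vs_eq : vs n e f p q = fun a =>
    ((1 - (p ^ 2 + q ^ 2) / 4) / (1 + (p ^ 2 + q ^ 2) / 4)) * n a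
      + (p / (1 + (p ^ 2 + q ^ 2) / 4)) * e a + (q / (1 + (p ^ 2 + q ^ 2) / 4)) * f a := by
  funext a; exact st_eq _ _ _ _ _
theorem vp_eq : vp n e f p q = fun a => (-p / (1 + (p ^ 2 + q ^ 2) / 4) ^ 2) * n a
      + ((1 + (q ^ 2 - p ^ 2) / 4) / (1 + (p ^ 2 + q ^ 2) / 4) ^ 2) * e a
      + (-(p * q / 2) / (1 + (p ^ 2 + q ^ 2) / 4) ^ 2) * f a := rfl
theorem vq_eq : vq n e f p q = fun a => (-q / (1 + (p ^ 2 + q ^ 2) / 4) ^ 2) * n a
      + (-(p * q / 2) / (1 + (p ^ 2 + q ^ 2) / 4) ^ 2) * e a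
      + ((1 + (p ^ 2 - q ^ 2) / 4) / (1 + (p ^ 2 + q ^ 2) / 4) ^ 2) * f a := rfl

theorem A_ss (h : ONA n e f) : dA (vs n e f p q) (vs n e f p q) = 1 := by
  rw [vs_eq, dot_key h]
  have hd := (den_pos p q).ne'
  field_simp
  ring
theorem A_sp (h : ONA n e f) : dA (vs n e f p q) (vp n e f p q) = 0 := by
  rw [vs_eq, vp_eq, dot_key h]
  have hd := (den_pos p q).ne'
  field_simp
  ring
theorem A_sq (h : ONA n e f) : dA (vs n e f p q) (vq n e f p q) = 0 := by
  rw [vs_eq, vq_eq, dot_key h]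
  have hd := (den_pos p q).ne'
  field_simp
  ring
theorem A_pp (h : ONA n e f) : dA (vp n e f p q) (vp n e f p q) = sg p q := by
  rw [vp_eq, dot_key h, sg]
  have hd := (den_pos p q).ne'
  field_simp
  ring
theorem A_pq (h : ONA n e f) : dA (vp n e f p q) (vq n e f p q) = 0 := by
  rw [vp_eq, vq_eq, dot_key h]
  have hd := (den_pos p q).ne'
  field_simp
  ring
theorem A_qq (h : ONA n e f) : dA (vq n e f p q) (vq n e f p q) = sg p q := by
  rw [vq_eq, dot_key h, sg]
  have hd := (den_pos p q).ne'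
  field_simp
  ring
theorem B_ss (h : ONB n e f) : dB (vs n e f p q) (vs n e f p q) = 1 := by
  rw [vs_eq, dot_keyB h]
  have hd := (den_pos p q).ne'
  field_simp
  ring
theorem B_sp (h : ONB n e f) : dB (vs n e f p q) (vp n e f p q) = 0 := by
  rw [vs_eq, vp_eq, dot_keyB h]
  have hd := (den_pos p q).ne'
  field_simp
  ring
theorem B_sq (h : ONB n e f) : dB (vs n e f p q) (vq n e f p q) = 0 := by
  rw [vs_eq, vq_eq, dot_keyB h]
  have hd := (den_pos p q).ne'
  field_simp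
  ring
theorem B_pp (h : ONB n e f) : dB (vp n e f p q) (vp n e f p q) = sg p q := by
  rw [vp_eq, dot_keyB h, sg]
  have hd := (den_pos p q).ne'
  field_simp
  ring
theorem B_pq (h : ONB n e f) : dB (vp n e f p q) (vq n e f p q) = 0 := by
  rw [vp_eq, vq_eq, dot_keyB h]
  have hd := (den_pos p q).ne'
  field_simp
  ring
theorem B_qq (h : ONB n e f) : dB (vq n e f p q) (vq n e f p q) = sg p q := by
  rw [vq_eq, dot_keyB h, sg]
  have hd := (den_pos p q).ne'
  field_simp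
  ring
end

/-- the parametrization -/
noncomputable def Psi (n e f : Fin 6 → ℝ) (u : Eu 5) (a : Fin 6) : ℝ :=
  if a.val < 3 then Real.sin (u 0) * vs n e f (u 1) (u 2) a
  else Real.cos (u 0) * vs n e f (u 3) (u 4) a

theorem st_smooth {m : ℕ} (n e f : ℝ) {P Q : Eu m → ℝ} (hP : ContDiff ℝ ∞ P) (hQ : ContDiff ℝ ∞ Q) :
    ContDiff ℝ ∞ (fun u => st n e f (P u) (Q u)) := by
  unfold st
  refine ContDiff.div ?_ ?_ (fun u => (den_pos _ _).ne')
  · fun_prop
  · fun_prop

theorem Psi_smooth (n e f : Fin 6 → ℝ) : ContDiff ℝ ∞ (Psi n e f) := by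
  rw [contDiff_pi]
  intro a
  unfold Psi
  split_ifs with h
  · refine ContDiff.mul ?_ (st_smooth _ _ _ ?_ ?_)
    · exact Real.contDiff_sin.comp (contDiff_apply ℝ ℝ 0)
    · exact contDiff_apply ℝ ℝ 1
    · exact contDiff_apply ℝ ℝ 2
  · refine ContDiff.mul ?_ (st_smooth _ _ _ ?_ ?_)
    · exact Real.contDiff_cos.comp (contDiff_apply ℝ ℝ 0)
    · exact contDiff_apply ℝ ℝ 3
    · exact contDiff_apply ℝ ℝ 4

/-- the columns of the Jacobian on the first three coordinates -/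
noncomputable def JA (n e f : Fin 6 → ℝ) (u : Eu 5) (i : Fin 5) (a : Fin 6) : ℝ :=
  match i with
  | 0 => Real.cos (u 0) * vs n e f (u 1) (u 2) a
  | 1 => Real.sin (u 0) * vp n e f (u 1) (u 2) a
  | 2 => Real.sin (u 0) * vq n e f (u 1) (u 2) a
  | 3 => 0
  | 4 => 0

/-- the columns of the Jacobian on the last three coordinates -/
noncomputable def JB (n e f : Fin 6 → ℝ) (u : Eu 5) (i : Fin 5) (a : Fin 6) : ℝ :=
  match i with
  | 0 => -Real.sin (u 0) * vs n e f (u 3) (u 4) a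
  | 1 => 0
  | 2 => 0
  | 3 => Real.cos (u 0) * vp n e f (u 3) (u 4) a
  | 4 => Real.cos (u 0) * vq n e f (u 3) (u 4) a

theorem JP_Psi (n e f : Fin 6 → ℝ) (u : Eu 5) (a : Fin 6) (i : Fin 5) :
    JP (Psi n e f) u a i = if a.val < 3 then JA n e f u i a else JB n e f u i a := by
  have hdiff : DifferentiableAt ℝ (fun y => Psi n e f y a) u :=
    ((contDiff_pi.1 (Psi_smooth n e f) a).differentiable (by simp)).differentiableAt
  simp only [JP, Matrix.of_apply]
  refine pd_of_line i hdiff ?_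
  by_cases ha : a.val < 3
  · simp only [Psi, if_pos ha]
    fin_cases i
    · simp only [JA, Function.update_self, Fin.zero_eta, Fin.isValue, ne_eq, Fin.reduceEq,
        not_false_eq_true, Function.update_of_ne, one_ne_zero]
      exact (Real.hasDerivAt_sin (u 0)).mul_const _
    · simp only [JA, Function.update_self, Fin.zero_eta, Fin.isValue, ne_eq, Fin.reduceEq,
        not_false_eq_true, Function.update_of_ne, Fin.mk_one, zero_ne_one]
      exact (st_hasDeriv_p _ _ _ _ _).const_mul _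
    · simp only [JA, Function.update_self, Fin.zero_eta, Fin.isValue, ne_eq, Fin.reduceEq,
        not_false_eq_true, Function.update_of_ne, Fin.reduceFinMk]
      exact (st_hasDeriv_q _ _ _ _ _).const_mul _
    · simp only [JA, Function.update_self, Fin.zero_eta, Fin.isValue, ne_eq, Fin.reduceEq,
        not_false_eq_true, Function.update_of_ne, Fin.reduceFinMk]
      exact hasDerivAt_const _ _
    · simp only [JA, Function.update_self, Fin.zero_eta, Fin.isValue, ne_eq, Fin.reduceEq,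
        not_false_eq_true, Function.update_of_ne, Fin.reduceFinMk]
      exact hasDerivAt_const _ _
  · simp only [Psi, if_neg ha]
    fin_cases i
    · simp only [JB, Function.update_self, Fin.zero_eta, Fin.isValue, ne_eq, Fin.reduceEq,
        not_false_eq_true, Function.update_of_ne, one_ne_zero]
      exact (Real.hasDerivAt_cos (u 0)).mul_const _
    · simp only [JB, Function.update_self, Fin.zero_eta, Fin.isValue, ne_eq, Fin.reduceEq,
        not_false_eq_true, Function.update_of_ne, Fin.mk_one, zero_ne_one]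
      exact hasDerivAt_const _ _
    · simp only [JB, Function.update_self, Fin.zero_eta, Fin.isValue, ne_eq, Fin.reduceEq,
        not_false_eq_true, Function.update_of_ne, Fin.reduceFinMk]
      exact hasDerivAt_const _ _
    · simp only [JB, Function.update_self, Fin.zero_eta, Fin.isValue, ne_eq, Fin.reduceEq,
        not_false_eq_true, Function.update_of_ne, Fin.reduceFinMk]
      exact (st_hasDeriv_p _ _ _ _ _).const_mul _
    · simp only [JB, Function.update_self, Fin.zero_eta, Fin.isValue, ne_eq, Fin.reduceEq,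
        not_false_eq_true, Function.update_of_ne, Fin.reduceFinMk]
      exact (st_hasDeriv_q _ _ _ _ _).const_mul _

theorem pullA_entry (P : Eu 5 → (Fin 6 → ℝ)) (U V W : ℝ → ℝ) (u : Eu 5) (i j : Fin 5) :
    pullA P U V W u i j =
      U (sz (P u)) * dA (fun a => JP P u a i) (fun a => JP P u a j)
      + V (sz (P u)) * dB (fun a => JP P u a i) (fun a => JP P u a j)
      + W (sz (P u)) * dA (P u) (fun a => JP P u a i) * dA (P u) (fun a => JP P u a j) := by
  simp only [pullA, Matrix.mul_apply, ambG, Matrix.of_apply, Matrix.transpose_apply, Fin.sum_univ_six,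
    dA, dB, zp]
  simp [Fin.ext_iff]
  ring

/-- coefficients -/
noncomputable def gA (u : Eu 5) (i j : Fin 5) : ℝ :=
  match i, j with
  | 0, 0 => Real.cos (u 0) ^ 2
  | 1, 1 => Real.sin (u 0) ^ 2 * sg (u 1) (u 2)
  | 2, 2 => Real.sin (u 0) ^ 2 * sg (u 1) (u 2)
  | _, _ => 0

noncomputable def gB (u : Eu 5) (i j : Fin 5) : ℝ :=
  match i, j with
  | 0, 0 => Real.sin (u 0) ^ 2
  | 3, 3 => Real.cos (u 0) ^ 2 * sg (u 3) (u 4)
  | 4, 4 => Real.cos (u 0) ^ 2 * sg (u 3) (u 4)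
  | _, _ => 0

theorem dA_comm (v w : Fin 6 → ℝ) : dA v w = dA w v := by simp only [dA]; ring
theorem dB_comm (v w : Fin 6 → ℝ) : dB v w = dB w v := by simp only [dB]; ring
theorem dA_smul (c d : ℝ) (v w : Fin 6 → ℝ) :
    dA (fun a => c * v a) (fun a => d * w a) = c * d * dA v w := by simp only [dA]; ring
theorem dB_smul (c d : ℝ) (v w : Fin 6 → ℝ) :
    dB (fun a => c * v a) (fun a => d * w a) = c * d * dB v w := by simp only [dB]; ring
theorem dA_zl (w : Fin 6 → ℝ) : dA (fun _ => 0) w = 0 := by simp [dA]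
theorem dA_zr (w : Fin 6 → ℝ) : dA w (fun _ => 0) = 0 := by simp [dA]
theorem dB_zl (w : Fin 6 → ℝ) : dB (fun _ => 0) w = 0 := by simp [dB]
theorem dB_zr (w : Fin 6 → ℝ) : dB w (fun _ => 0) = 0 := by simp [dB]

theorem dA_JA {n e f : Fin 6 → ℝ} (h : ONA n e f) (u : Eu 5) (i j : Fin 5) :
    dA (JA n e f u i) (JA n e f u j) = gA u i j := by
  have hps : dA (vp n e f (u 1) (u 2)) (vs n e f (u 1) (u 2)) = 0 := by rw [dA_comm, A_sp _ _ h]
  have hqs : dA (vq n e f (u 1) (u 2)) (vs n e f (u 1) (u 2)) = 0 := by rw [dA_comm, A_sq _ _ h]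
  have hqp : dA (vq n e f (u 1) (u 2)) (vp n e f (u 1) (u 2)) = 0 := by rw [dA_comm, A_pq _ _ h]
  fin_cases i <;> fin_cases j <;>
    first
    | (change dA (fun a => _ * _) (fun a => _ * _) = _
       rw [dA_smul]
       simp only [A_ss _ _ h, A_sp _ _ h, A_sq _ _ h, A_pp _ _ h, A_pq _ _ h, A_qq _ _ h, hps, hqs, hqp, gA,
         mul_zero, mul_one, Fin.zero_eta, Fin.mk_one, Fin.reduceFinMk]
       try ring)
    | (change dA _ (fun a => 0) = _
       rw [dA_zr]; rfl)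
    | (change dA (fun a => 0) _ = _
       rw [dA_zl]; rfl)

theorem dB_JB {n e f : Fin 6 → ℝ} (h : ONB n e f) (u : Eu 5) (i j : Fin 5) :
    dB (JB n e f u i) (JB n e f u j) = gB u i j := by
  have hps : dB (vp n e f (u 3) (u 4)) (vs n e f (u 3) (u 4)) = 0 := by rw [dB_comm, B_sp _ _ h]
  have hqs : dB (vq n e f (u 3) (u 4)) (vs n e f (u 3) (u 4)) = 0 := by rw [dB_comm, B_sq _ _ h]
  have hqp : dB (vq n e f (u 3) (u 4)) (vp n e f (u 3) (u 4)) = 0 := by rw [dB_comm, B_pq _ _ h]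
  fin_cases i <;> fin_cases j <;>
    first
    | (change dB (fun a => _ * _) (fun a => _ * _) = _
       rw [dB_smul]
       simp only [B_ss _ _ h, B_sp _ _ h, B_sq _ _ h, B_pp _ _ h, B_pq _ _ h, B_qq _ _ h, hps, hqs, hqp, gB,
         mul_zero, mul_one, Fin.zero_eta, Fin.mk_one, Fin.reduceFinMk]
       try ring)
    | (change dB _ (fun a => 0) = _
       rw [dB_zr]; rfl)
    | (change dB (fun a => 0) _ = _
       rw [dB_zl]; rfl)

theorem sz_Psi {n e f : Fin 6 → ℝ} (h : ONA n e f) (u : Eu 5) :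
    sz (Psi n e f u) = Real.sin (u 0) ^ 2 := by
  have := A_ss (u 1) (u 2) h
  simp only [dA] at this
  simp only [sz, Psi]
  norm_num
  linear_combination (Real.sin (u 0)) ^ 2 * this

theorem sum_Psi {n e f : Fin 6 → ℝ} (h : ONA n e f) (h' : ONB n e f) (u : Eu 5) :
    ∑ i, Psi n e f u i ^ 2 = 1 := by
  have h1 := A_ss (u 1) (u 2) h
  have h2 := B_ss (u 3) (u 4) h'
  simp only [dA] at h1
  simp only [dB] at h2
  have h3 := Real.sin_sq_add_cos_sq (u 0)
  rw [Fin.sum_univ_six]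
  have e0 : Psi n e f u 0 = Real.sin (u 0) * vs n e f (u 1) (u 2) 0 := by simp [Psi]
  have e1 : Psi n e f u 1 = Real.sin (u 0) * vs n e f (u 1) (u 2) 1 := by simp [Psi]
  have e2 : Psi n e f u 2 = Real.sin (u 0) * vs n e f (u 1) (u 2) 2 := by simp [Psi]
  have e3 : Psi n e f u 3 = Real.cos (u 0) * vs n e f (u 3) (u 4) 3 := by simp [Psi]
  have e4 : Psi n e f u 4 = Real.cos (u 0) * vs n e f (u 3) (u 4) 4 := by simp [Psi]
  have e5 : Psi n e f u 5 = Real.cos (u 0) * vs n e f (u 3) (u 4) 5 := by simp [Psi]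
  rw [e0, e1, e2, e3, e4, e5]
  linear_combination (Real.sin (u 0)) ^ 2 * h1 + (Real.cos (u 0)) ^ 2 * h2 + h3

theorem pull_Psi {n e f : Fin 6 → ℝ} (h : ONA n e f) (h' : ONB n e f) (U V W : ℝ → ℝ) (u : Eu 5) :
    pullA (Psi n e f) U V W u = DG (Er U V W) (Fr U) (Hr V) u := by
  ext i j
  rw [pullA_entry, sz_Psi h]
  have h1 : ∀ i j, dA (fun a => JP (Psi n e f) u a i) (fun a => JP (Psi n e f) u a j) = gA u i j := by
    intro i j
    rw [← dA_JA h]; simp [dA, JP_Psi]
  have h2 : ∀ i j, dB (fun a => JP (Psi n e f) u a i) (fun a => JP (Psi n e f) u a j) = gB u i j := by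
    intro i j
    rw [← dB_JB h']; simp [dB, JP_Psi]
  have h3 : ∀ i, dA (Psi n e f u) (fun a => JP (Psi n e f) u a i) =
      if i = 0 then Real.sin (u 0) * Real.cos (u 0) else 0 := by
    intro i
    have e1 : dA (Psi n e f u) (fun a => JP (Psi n e f) u a i) =
        dA (fun a => Real.sin (u 0) * vs n e f (u 1) (u 2) a) (JA n e f u i) := by
      simp [dA, JP_Psi, Psi]
    rw [e1]
    fin_cases i
    · change dA _ (fun a => _ * _) = _
      rw [dA_smul, A_ss _ _ h]; simp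
    · change dA _ (fun a => _ * _) = _
      rw [dA_smul, A_sp _ _ h]; simp
    · change dA _ (fun a => _ * _) = _
      rw [dA_smul, A_sq _ _ h]; simp
    · change dA _ (fun a => 0) = _
      rw [dA_zr]; simp
    · change dA _ (fun a => 0) = _
      rw [dA_zr]; simp
  rw [h1, h2, h3, h3]
  have hc : Real.cos (u 0) ^ 2 = 1 - Real.sin (u 0) ^ 2 := by
    linear_combination Real.sin_sq_add_cos_sq (u 0)
  fin_cases i <;> fin_cases j <;>
    simp [gA, gB, DG, dgv, Er, Fr, Hr, cE, Matrix.diagonal]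
  · linear_combination (U (Real.sin (u 0) ^ 2) + W (Real.sin (u 0) ^ 2) * Real.sin (u 0) ^ 2) * hc
  · ring
  · ring
  · ring
  · ring

/-- `Psi` at the base point -/
theorem Psi_pt (n e f : Fin 6 → ℝ) (r : ℝ) (a : Fin 6) :
    Psi n e f (pt r) a = if a.val < 3 then Real.sin r * n a else Real.cos r * n a := by
  simp [Psi, pt, vs, st]

theorem param_exists (x : Fin 6 → ℝ) (hx : ∑ i, x i ^ 2 = 1) (h0 : 0 < sz x) (h1 : sz x < 1) :
    ∃ (Ψ : Eu 5 → (Fin 6 → ℝ)) (r : ℝ), 0 < r ∧ r < Real.pi / 2 ∧ ContDiff ℝ ∞ Ψ ∧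
      Ψ (pt r) = x ∧ (∀ u, ∑ i, Ψ u i ^ 2 = 1) ∧ (∀ u, sz (Ψ u) = Real.sin (u 0) ^ 2) ∧
      ∀ (U V W : ℝ → ℝ) (u : Eu 5),
        pullA Ψ U V W u = DG (Er U V W) (Fr U) (Hr V) u := by
  set s := Real.sqrt (sz x) with hs
  have hs0 : 0 < s := Real.sqrt_pos.2 h0
  have hs2 : s ^ 2 = sz x := Real.sq_sqrt h0.le
  have hs1 : s < 1 := by nlinarith
  set r := Real.arcsin s with hr
  have hsin : Real.sin r = s := Real.sin_arcsin (by linarith) hs1.le
  have hr0 : 0 < r := Real.arcsin_pos.2 hs0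
  have hr1 : r < Real.pi / 2 := Real.arcsin_lt_pi_div_two.2 hs1
  have hcos0 : 0 < Real.cos r := Real.cos_pos_of_mem_Ioo ⟨by linarith [Real.pi_pos], hr1⟩
  have hcs := Real.sin_sq_add_cos_sq r
  rw [hsin] at hcs
  set c := Real.cos r with hc
  rw [Fin.sum_univ_six] at hx
  have hsz : sz x = x 0 ^ 2 + x 1 ^ 2 + x 2 ^ 2 := rfl
  have hA : (x 0 / s) ^ 2 + (x 1 / s) ^ 2 + (x 2 / s) ^ 2 = 1 := by
    field_simp
    linear_combination -hs2 - hsz
  have hB : (x 3 / c) ^ 2 + (x 4 / c) ^ 2 + (x 5 / c) ^ 2 = 1 := by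
    field_simp
    linear_combination hx - hcs + hs2 + hsz
  obtain ⟨e, f, a1, a2, a3, a4, a5⟩ := frame _ _ _ hA
  obtain ⟨e', f', b1, b2, b3, b4, b5⟩ := frame _ _ _ hB
  have hna : ONA ![x 0 / s, x 1 / s, x 2 / s, x 3 / c, x 4 / c, x 5 / c] ![e 0, e 1, e 2, e' 0, e' 1, e' 2]
      ![f 0, f 1, f 2, f' 0, f' 1, f' 2] := by
    constructor
    · simp only [dA]; simp; linear_combination hA
    · simp only [dA]; simp; linear_combination a1
    · simp only [dA]; simp; linear_combination a2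
    · simp only [dA]; simp; linear_combination a3
    · simp only [dA]; simp; linear_combination a4
    · simp only [dA]; simp; linear_combination a5
  have hnb : ONB ![x 0 / s, x 1 / s, x 2 / s, x 3 / c, x 4 / c, x 5 / c] ![e 0, e 1, e 2, e' 0, e' 1, e' 2]
      ![f 0, f 1, f 2, f' 0, f' 1, f' 2] := by
    constructor
    · simp only [dB]; simp; linear_combination hB
    · simp only [dB]; simp; linear_combination b1
    · simp only [dB]; simp; linear_combination b2
    · simp only [dB]; simp; linear_combination b3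
    · simp only [dB]; simp; linear_combination b4
    · simp only [dB]; simp; linear_combination b5
  refine ⟨Psi _ _ _, r, hr0, hr1, Psi_smooth _ _ _, ?_, sum_Psi hna hnb, sz_Psi hna, pull_Psi hna hnb⟩
  funext a
  rw [Psi_pt]
  rw [hsin, ← hc]
  have hs' : s ≠ 0 := hs0.ne'
  have hc' : c ≠ 0 := hcos0.ne'
  fin_cases a <;> simp <;> field_simp

theorem JP_comp {P : Eu 5 → (Fin 6 → ℝ)} {χ : Eu 5 → Eu 5} {u : Eu 5} (hP : ContDiff ℝ ∞ P)
    (hχ : DifferentiableAt ℝ χ u) :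
    JP (fun v => P (χ v)) u = JP P (χ u) * Jac χ u := by
  ext a i
  simp only [JP, Matrix.of_apply, Matrix.mul_apply]
  exact N2.pd_comp' (F := fun y => P y a) hχ
    (((contDiff_pi.1 hP a).differentiable (by simp)).differentiableAt)

theorem JP_congr {P Q : Eu 5 → (Fin 6 → ℝ)} {u : Eu 5} (h : P =ᶠ[𝓝 u] Q) : JP P u = JP Q u := by
  ext a i
  simp only [JP, Matrix.of_apply]
  exact N2.pd_congr (h.mono fun y hy => by simp only [hy])

theorem det_DG_pt {r : ℝ} (h0 : 0 < r) (h1 : r < Real.pi / 2) :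
    (DG (Er (fun _ => 1) (fun _ => 1) (fun _ => 0)) (Fr fun _ => 1) (Hr fun _ => 1) (pt r)).det ≠ 0 := by
  have hs : 0 < Real.sin r := Real.sin_pos_of_pos_of_lt_pi h0 (by linarith [Real.pi_pos])
  have hc : 0 < Real.cos r := Real.cos_pos_of_mem_Ioo ⟨by linarith [Real.pi_pos], h1⟩
  rw [DG, Matrix.det_diagonal, Fin.prod_univ_five]
  simp [dgv, pt, Er, Fr, Hr, sg, cE]
  exact ⟨hs.ne', hc.ne'⟩

theorem chart_pull (e : OpenPartialHomeomorph S5 (En 5)) (he : e ∈ atlas (En 5) S5) (y₀ : Eu 5)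
    (h0 : 0 < sz (Pinv e y₀)) (h1 : sz (Pinv e y₀) < 1) :
    ∃ (χ : Eu 5 → Eu 5) (r : ℝ), 0 < r ∧ r < Real.pi / 2 ∧ Real.sin r ^ 2 = sz (Pinv e y₀) ∧
      ContDiffAt ℝ ∞ χ (pt r) ∧ χ (pt r) = y₀ ∧ (Jac χ (pt r)).det ≠ 0 ∧
      ∀ U V W : ℝ → ℝ, pull χ (pullA (Pinv e) U V W) =ᶠ[𝓝 (pt r)] DG (Er U V W) (Fr U) (Hr V) := by
  obtain ⟨htar, P, R, O, hP, hO, hR, hPO, hRP, hPe, hsrc, hRe, hPR, hsum⟩ := chart_pkg e he
  have hPinv : Pinv e = P := by
    funext y; exact hPe y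
  rw [hPinv] at h0 h1 ⊢
  obtain ⟨Ψ, r, hr0, hr1, hΨ, hΨx, hΨs, hΨz, hΨG⟩ := param_exists (P y₀) (hsum y₀) h0 h1
  have hsin : Real.sin r ^ 2 = sz (P y₀) := by
    rw [← hΨx, hΨz]; simp [pt]
  have hmem : ∀ᶠ u in 𝓝 (pt r), Ψ u ∈ O :=
    (hΨ.continuous.continuousAt).eventually_mem (hO.mem_nhds (by rw [hΨx]; exact hPO y₀))
  have hPχ : ∀ u, Ψ u ∈ O → P (R (Ψ u)) = Ψ u := by
    intro u hu
    have hmemS : (WithLp.toLp 2 (Ψ u) : EuclideanSpace ℝ (Fin 6)) ∈
        Metric.sphere (0 : EuclideanSpace ℝ (Fin 6)) 1 := by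
      rw [mem_sphere_zero_iff_norm, EuclideanSpace.norm_eq]
      have : ∑ i, ‖(WithLp.toLp 2 (Ψ u) : EuclideanSpace ℝ (Fin 6)) i‖ ^ 2 = 1 := by
        simpa using hΨs u
      rw [this, Real.sqrt_one]
    have h2 : amb ⟨_, hmemS⟩ = Ψ u := rfl
    have h3 := hPR ⟨_, hmemS⟩ ((hsrc _).2 (by rw [h2]; exact hu))
    rw [h2] at h3
    exact h3
  have hχs : ∀ u, Ψ u ∈ O → ContDiffAt ℝ ∞ (fun u => R (Ψ u)) u := by
    intro u hu
    exact ((hR.contDiffAt (hO.mem_nhds hu))).comp u hΨ.contDiffAt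
  have hkey : ∀ U V W : ℝ → ℝ, pull (fun u => R (Ψ u)) (pullA P U V W) =ᶠ[𝓝 (pt r)]
      DG (Er U V W) (Fr U) (Hr V) := by
    intro U V W
    filter_upwards [hmem.eventually_nhds] with u hu
    have hu0 : Ψ u ∈ O := hu.self_of_nhds
    have h4 : (fun v => P (R (Ψ v))) =ᶠ[𝓝 u] Ψ := hu.mono fun v hv => hPχ v hv
    have h5 : JP Ψ u = JP P (R (Ψ u)) * Jac (fun u => R (Ψ u)) u := by
      rw [← JP_congr h4]
      exact JP_comp (χ := fun u => R (Ψ u)) hP ((hχs u hu0).differentiableAt (by simp))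
    rw [← hΨG U V W u]
    simp only [pull, pullA]
    rw [h5, Matrix.transpose_mul, hPχ u hu0]
    simp only [Matrix.mul_assoc]
  refine ⟨fun u => R (Ψ u), r, hr0, hr1, hsin, hχs _ hmem.self_of_nhds, ?_, ?_, hkey⟩
  · simp only
    rw [hΨx, hRP]
  · intro hdet
    have h6 := (hkey (fun _ => 1) (fun _ => 1) (fun _ => 0)).self_of_nhds
    apply det_DG_pt hr0 hr1
    rw [← h6, pull, Matrix.det_mul, hdet, mul_zero]

theorem good_dense (e : OpenPartialHomeomorph S5 (En 5)) (he : e ∈ atlas (En 5) S5) :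
    Dense {y : Eu 5 | 0 < sz (Pinv e y) ∧ sz (Pinv e y) < 1} := by
  obtain ⟨htar, P, R, O, hP, hO, hR, hPO, hRP, hPe, hsrc, hRe, hPR, hsum⟩ := chart_pkg e he
  have hPinv : Pinv e = P := by
    funext y; exact hPe y
  rw [hPinv]
  -- no open ball is mapped into a coordinate subspace of dimension 3
  have hinj : ∀ y, Function.Injective (fderiv ℝ P y) := by
    intro y
    have hPd : DifferentiableAt ℝ P y := (hP.differentiable (by simp)).differentiableAt
    have hRd : DifferentiableAt ℝ R (P y) :=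
      (hR.contDiffAt (hO.mem_nhds (hPO y))).differentiableAt (by simp)
    have h1 : HasFDerivAt (R ∘ P) ((fderiv ℝ R (P y)).comp (fderiv ℝ P y)) y :=
      hRd.hasFDerivAt.comp y hPd.hasFDerivAt
    have h2 : R ∘ P = id := by funext z; exact hRP z
    rw [h2] at h1
    have h3 := h1.unique (hasFDerivAt_id y)
    intro v w hvw
    have h4 : ∀ v, fderiv ℝ R (P y) (fderiv ℝ P y v) = v := by
      intro v
      have := congrArg (fun L => L v) h3
      simpa using this
    rw [← h4 v, ← h4 w, hvw]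
  have hdim : ∀ (y : Eu 5) (ι : Fin 3 → Fin 6),
      (∀ a, a ∉ range ι → (fun z => P z a) =ᶠ[𝓝 y] fun _ => 0) → False := by
    intro y ι hι
    have hPd : DifferentiableAt ℝ P y := (hP.differentiable (by simp)).differentiableAt
    have h0 : ∀ a, a ∉ range ι → ∀ v, fderiv ℝ P y v a = 0 := by
      intro a ha v
      have h1 : HasFDerivAt (fun z => P z a) ((ContinuousLinearMap.proj a).comp (fderiv ℝ P y)) y :=
        (hasFDerivAt_pi'.1 hPd.hasFDerivAt) a
      have h2 : HasFDerivAt (fun z => P z a) (0 : Eu 5 →L[ℝ] ℝ) y :=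
        (hasFDerivAt_const (0:ℝ) y).congr_of_eventuallyEq (hι a ha)
      have h3 := h1.unique h2
      have := congrArg (fun L => L v) h3
      simpa using this
    let L : Eu 5 →ₗ[ℝ] (Fin 3 → ℝ) :=
      (LinearMap.funLeft ℝ ℝ ι).comp (fderiv ℝ P y).toLinearMap
    have hL : Function.Injective L := by
      intro v w hvw
      apply hinj y
      funext a
      by_cases ha : a ∈ range ι
      · obtain ⟨b, rfl⟩ := ha
        exact congrFun hvw b
      · rw [h0 a ha, h0 a ha]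
    have := LinearMap.finrank_le_finrank_of_injective hL
    simp at this
  have hsz : Continuous fun y => sz (P y) := by
    have hPc : Continuous P := hP.continuous
    unfold sz
    fun_prop
  have hsz1 : ∀ y, sz (P y) + (P y 3 ^ 2 + P y 4 ^ 2 + P y 5 ^ 2) = 1 := by
    intro y
    have := hsum y
    rw [Fin.sum_univ_six] at this
    simp only [sz]
    linarith
  rw [dense_iff_inter_open]
  intro V hV ⟨y, hy⟩
  by_contra hne
  have hno : ∀ z ∈ V, ¬ (0 < sz (P z) ∧ sz (P z) < 1) := by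
    intro z hz hz'
    exact hne ⟨z, hz, hz'⟩
  have hnn : ∀ z, 0 ≤ sz (P z) := fun z => by unfold sz; positivity
  have hle : ∀ z, sz (P z) ≤ 1 := by
    intro z
    have := hsz1 z
    nlinarith [sq_nonneg (P z 3), sq_nonneg (P z 4), sq_nonneg (P z 5)]
  have hVn : ∀ᶠ z in 𝓝 y, z ∈ V := hV.mem_nhds hy
  rcases lt_or_ge (sz (P y)) 1 with hlt | hge
  · -- `z = 0` near `y`
    have h1 : ∀ᶠ z in 𝓝 y, sz (P z) < 1 := (hsz.continuousAt (x := y)).eventually_lt continuousAt_const hlt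
    have h2 : ∀ᶠ z in 𝓝 y, sz (P z) = 0 := by
      filter_upwards [h1, hVn] with z hz hzV
      have := hno z hzV
      by_contra h3
      exact this ⟨lt_of_le_of_ne (hnn z) (Ne.symm h3), hz⟩
    refine hdim y ![3, 4, 5] ?_
    intro a ha
    filter_upwards [h2] with z hz
    have h3 : P z 0 = 0 ∧ P z 1 = 0 ∧ P z 2 = 0 := by
      unfold sz at hz
      refine ⟨?_, ?_, ?_⟩ <;> nlinarith [sq_nonneg (P z 0), sq_nonneg (P z 1), sq_nonneg (P z 2)]
    fin_cases a
    · exact h3.1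
    · exact h3.2.1
    · exact h3.2.2
    · exact absurd ⟨0, rfl⟩ ha
    · exact absurd ⟨1, rfl⟩ ha
    · exact absurd ⟨2, rfl⟩ ha
  · have h1 : ∀ᶠ z in 𝓝 y, 0 < sz (P z) :=
      continuousAt_const.eventually_lt (hsz.continuousAt (x := y)) (by linarith)
    have h2 : ∀ᶠ z in 𝓝 y, sz (P z) = 1 := by
      filter_upwards [h1, hVn] with z hz hzV
      have := hno z hzV
      by_contra h3
      exact this ⟨hz, lt_of_le_of_ne (hle z) h3⟩
    refine hdim y ![0, 1, 2] ?_
    intro a ha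
    filter_upwards [h2] with z hz
    have h3 : P z 3 = 0 ∧ P z 4 = 0 ∧ P z 5 = 0 := by
      have h4 := hsz1 z
      refine ⟨?_, ?_, ?_⟩ <;> nlinarith [sq_nonneg (P z 3), sq_nonneg (P z 4), sq_nonneg (P z 5)]
    fin_cases a
    · exact absurd ⟨0, rfl⟩ ha
    · exact absurd ⟨1, rfl⟩ ha
    · exact absurd ⟨2, rfl⟩ ha
    · exact h3.1
    · exact h3.2.1
    · exact h3.2.2

end Pool.Agent.H858R2.G3P
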