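import Mathlib
import Pool.Agent.H858R2.G3_helper927

set_option autoImplicit false
set_option linter.all false
open scoped ContDiff Manifold Topology Matrix
open Set

namespace Pool.Agent.H858R2

open Pool.Agent.QTot

theorem param_exists (x : Fin 6 → ℝ) (hx : ∑ i, x i ^ 2 = 1) (h0 : 0 < sz x) (h1 : sz x < 1) :
    ∃ (Ψ : Eu 5 → (Fin 6 → ℝ)) (r : ℝ), 0 < r ∧ r < Real.pi / 2 ∧ ContDiff ℝ ∞ Ψ ∧
      Ψ (pt r) = x ∧ (∀ u, ∑ i, Ψ u i ^ 2 = 1) ∧ (∀ u, sz (Ψ u) = Real.sin (u 0) ^ 2) ∧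
      ∀ (U V W : ℝ → ℝ) (u : Eu 5),
        pullA Ψ U V W u = DG (Er U V W) (Fr U) (Hr V) u :=
  G3P.param_exists x hx h0 h1

theorem chart_pull (e : OpenPartialHomeomorph S5 (En 5)) (he : e ∈ atlas (En 5) S5) (y₀ : Eu 5)
    (h0 : 0 < sz (Pinv e y₀)) (h1 : sz (Pinv e y₀) < 1) :
    ∃ (χ : Eu 5 → Eu 5) (r : ℝ), 0 < r ∧ r < Real.pi / 2 ∧ Real.sin r ^ 2 = sz (Pinv e y₀) ∧
      ContDiffAt ℝ ∞ χ (pt r) ∧ χ (pt r) = y₀ ∧ (Jac χ (pt r)).det ≠ 0 ∧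
      ∀ U V W : ℝ → ℝ, pull χ (pullA (Pinv e) U V W) =ᶠ[𝓝 (pt r)] DG (Er U V W) (Fr U) (Hr V) :=
  G3P.chart_pull e he y₀ h0 h1

theorem good_dense (e : OpenPartialHomeomorph S5 (En 5)) (he : e ∈ atlas (En 5) S5) :
    Dense {y : Eu 5 | 0 < sz (Pinv e y) ∧ sz (Pinv e y) < 1} :=
  G3P.good_dense e he

end Pool.Agent.H858R2
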