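import Mathlib
import Pool.Agent.H858R2.Sys

set_option autoImplicit false
set_option linter.all false
open Set

namespace Pool.Agent.H858R2

/-- initial data -/
noncomputable def U0 (s : ℝ) : ℝ := 1 + 323/1000*s
noncomputable def V0 (δ s : ℝ) : ℝ := 69/125 + 37037/125000*s + 18963/125000*s^2 - δ*s*(1-s)
noncomputable def W0 (δ s : ℝ) : ℝ := 1/8 + (18963/125000+δ)*s
/-- first and second derivatives of the initial data (`U0'' = 0`) -/
noncomputable def U0' : ℝ := 323/1000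
noncomputable def V0' (δ s : ℝ) : ℝ := 37037/125000 + 18963/62500*s - δ*(1-2*s)
noncomputable def W0' (δ : ℝ) : ℝ := 18963/125000+δ
noncomputable def V0'' (δ : ℝ) : ℝ := 18963/62500 + 2*δ

theorem cE_init (δ s : ℝ) : cE s (U0 s) (V0 δ s) (W0 δ s) = 1 := by
  simp only [cE, U0, V0, W0]; ring

theorem cE1_init (δ s : ℝ) :
    cE1 s (U0 s) (V0 δ s) (W0 δ s) U0' (V0' δ s) (W0' δ) = 0 := by
  simp only [cE1, U0, V0, W0, U0', V0', W0']; ring

theorem U0_pos {s : ℝ} (h0 : 0 ≤ s) : 0 < U0 s := by simp only [U0]; positivity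

theorem V0_pos {δ s : ℝ} (hδ : δ ≤ 1/10000) (h0 : 0 ≤ s) (h1 : s ≤ 1) :
    0 < V0 δ s := by
  simp only [V0]
  have h2 : δ * (s * (1 - s)) ≤ 1/10000 * (s * (1 - s)) :=
    mul_le_mul_of_nonneg_right hδ (by nlinarith)
  nlinarith [mul_nonneg h0 (sub_nonneg.2 h1)]

noncomputable def prf (s : ℝ) : ℝ :=
  ((31/1000) + (864671/500000)*s + (104329/250000)*s^2)

noncomputable def pff (s : ℝ) : ℝ :=
  ((31/1000) + (218671/250000)*s + (104329/250000)*s^2)

noncomputable def prh (δ s : ℝ) : ℝ :=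
  ((2205447/15625000) + (1870659/3906250)*s + (21698217583/15625000000)*s^2 + (569591631/976562500)*s^3 + (3236358321/15625000000)*s^4) + δ*((69/125) + (-828/125)*s + (307741/62500)*s^2 + (22148/15625)*s^3 + (170667/62500)*s^4) + δ^2*((7)*s^2 + (-16)*s^3 + (9)*s^4)

noncomputable def phh (δ s : ℝ) : ℝ :=
  ((69/125) + (12232991631/15625000000)*s + (12292569583/15625000000)*s^2 + (1469841093/3125000000)*s^3 + (3236358321/15625000000)*s^4) + δ*((-94463/62500)*s + (59741/62500)*s^2 + (10311/12500)*s^3 + (170667/62500)*s^4) + δ^2*((-1)*s + (7)*s^2 + (-15)*s^3 + (9)*s^4)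

noncomputable def pfh (δ s : ℝ) : ℝ :=
  ((31963/125000) + (28398049/62500000)*s + (2507519/3906250)*s^2 + (18375147/62500000)*s^3) + δ*((1) + (-1677/500)*s + (52/125)*s^2 + (969/500)*s^3)

theorem rf_init (δ s : ℝ) (hU : U0 s ≠ 0) :
    kRF s (U0 s) (V0 δ s) (W0 δ s) U0' (V0' δ s) (W0' δ) 0 (U0 s)⁻¹ 1 = prf s / U0 s ^ 2 := by
  have hE1 := cE1_init δ s
  simp only [kRF, hE1, mul_zero, zero_mul, add_zero, sub_zero]
  field_simp
  simp only [cQ, cR, U0, V0, W0, U0', V0', W0', V0'', prf]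
  ring

theorem ff_init (δ s : ℝ) (hU : U0 s ≠ 0) :
    kFF s (U0 s) (V0 δ s) (W0 δ s) U0' (U0 s)⁻¹ = pff s / U0 s ^ 2 := by
  have hE1 := cE1_init δ s
  simp only [kFF, hE1, mul_zero, zero_mul, add_zero, sub_zero]
  field_simp
  simp only [cQ, cR, U0, V0, W0, U0', V0', W0', V0'', pff]
  ring

theorem rh_init (δ s : ℝ) (hV : V0 δ s ≠ 0) :
    kRH s (U0 s) (V0 δ s) (W0 δ s) U0' (V0' δ s) (W0' δ) (V0'' δ) (V0 δ s)⁻¹ 1 = prh δ s / V0 δ s ^ 2 := by
  have hE1 := cE1_init δ s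
  simp only [kRH, hE1, mul_zero, zero_mul, add_zero, sub_zero]
  field_simp
  simp only [cQ, cR, U0, V0, W0, U0', V0', W0', V0'', prh]
  ring

theorem hh_init (δ s : ℝ) (hV : V0 δ s ≠ 0) :
    kHH s (U0 s) (V0 δ s) (W0 δ s) (V0' δ s) (V0 δ s)⁻¹ = phh δ s / V0 δ s ^ 2 := by
  have hE1 := cE1_init δ s
  simp only [kHH, hE1, mul_zero, zero_mul, add_zero, sub_zero]
  field_simp
  simp only [cQ, cR, U0, V0, W0, U0', V0', W0', V0'', phh]
  ring

theorem fh_init (δ s : ℝ) (hU : U0 s ≠ 0) (hV : V0 δ s ≠ 0) :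
    kFH s U0' (V0' δ s) (U0 s)⁻¹ (V0 δ s)⁻¹ = pfh δ s / (U0 s * V0 δ s) := by
  have hE1 := cE1_init δ s
  simp only [kFH, hE1, mul_zero, zero_mul, add_zero, sub_zero]
  field_simp
  simp only [cQ, cR, U0, V0, W0, U0', V0', W0', V0'', pfh]
  ring

noncomputable def dd0 (s : ℝ) : ℝ :=
  ((87673059472149/244140625000000000)*s + (1568618212357862591/61035156250000000000)*s^2 + (317215531603883231958039/122070312500000000000000)*s^3 + (49242782984410492011768961/15258789062500000000000000)*s^4 + (634229889123287053466060497117/244140625000000000000000000000)*s^5 + (112343518043146945384661826124949/61035156250000000000000000000000)*s^6 + (19000775219963628854635628374171/15258789062500000000000000000000)*s^7 + (20872962184997084747120814329611/30517578125000000000000000000000)*s^8 + (8170745258941405714373267618577/30517578125000000000000000000000)*s^9 + (4277009546862463111218271234677/61035156250000000000000000000000)*s^10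 + (20823602754956290233629109201/1907348632812500000000000000000)*s^11 + (1407467157188890476156264801/1907348632812500000000000000000)*s^12)

noncomputable def dd1 (s : ℝ) : ℝ :=
  ((30551337/488281250) + (3727110662019/976562500000)*s + (-11245915739707121/976562500000000)*s^2 + (10550749395046521927/976562500000000000)*s^3 + (-15479333855986782871913/976562500000000000000)*s^4 + (-16857736451612119907056389/488281250000000000000000)*s^5 + (-3825225817227786137550612627/122070312500000000000000000)*s^6 + (-807361483607413318654204141/61035156250000000000000000)*s^7 + (-25228770344544186231449939/30517578125000000000000000)*s^8 + (57795615057495904120575477/30517578125000000000000000)*s^9 + (124430425348829397155595279/122070312500000000000000000)*s^10 + (441178306723686622619151/1907348632812500000000000)*s^11 + (74221755903015898125627/3814697265625000000000000)*s^12)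

noncomputable def dd2 (s : ℝ) : ℝ :=
  ((-4280139/15625000)*s + (-40245633783/390625000)*s^2 + (2781129779623863/15625000000000)*s^3 + (631013748077719131/7812500000000000)*s^4 + (264245602043161236103/7812500000000000000)*s^5 + (-221425114338561322009037/1953125000000000000000)*s^6 + (-30466505919704285736199/244140625000000000000)*s^7 + (-56007972351367060639493/976562500000000000000)*s^8 + (-9230453629095091373351/976562500000000000000)*s^9 + (6777755238606992196599/1953125000000000000000)*s^10 + (105457316108946782337/61035156250000000000)*s^11 + (11742090793073231787/61035156250000000000)*s^12)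

noncomputable def dd3 (s : ℝ) : ℝ :=
  ((2340973/62500)*s^2 + (219361962/1953125)*s^3 + (-38460277627579/62500000000)*s^4 + (2525224515890287/6250000000000)*s^5 + (2029706318112942417/7812500000000000)*s^6 + (48821558462562461/3906250000000000)*s^7 + (-123802276456374953/976562500000000)*s^8 + (-40579541540970723/488281250000000)*s^9 + (-53448181785419609/7812500000000000)*s^10 + (313431995839977/61035156250000)*s^11 + (206403536590083/244140625000000)*s^12)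

noncomputable def dd4 (s : ℝ) : ℝ :=
  ((-4)*s^2 + (-23907/1000)*s^3 + (15722881/500000)*s^4 + (298486542461/1000000000)*s^5 + (-166408815413491/250000000000)*s^6 + (18733987104161/62500000000)*s^7 + (24308082406951/125000000000)*s^8 + (-12522363628043/125000000000)*s^9 + (-9056348432443/250000000000)*s^10 + (34473327141/7812500000)*s^11 + (10884540241/7812500000)*s^12)

theorem det_expand (δ s : ℝ) :
    (4 * prf s - pff s) * (4 * prh δ s - phh δ s) * (U0 s * V0 δ s) ^ 2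
      - 4 * (prf s * V0 δ s ^ 2 + prh δ s * U0 s ^ 2 - pfh δ s * (U0 s * V0 δ s)) ^ 2 =
    dd0 s + δ * dd1 s + δ ^ 2 * dd2 s + δ ^ 3 * dd3 s + δ ^ 4 * dd4 s := by
  simp only [prf, pff, prh, phh, pfh, U0, V0, dd0, dd1, dd2, dd3, dd4]
  ring

theorem pw {s : ℝ} (h0 : 0 ≤ s) (h1 : s ≤ 1) (k : ℕ) : 0 ≤ s ^ k ∧ s ^ (k + 1) ≤ s ^ k := by
  have h2 : 0 ≤ s ^ k := pow_nonneg h0 k
  refine ⟨h2, ?_⟩
  rw [pow_succ]
  nlinarith

section
variable {δ s : ℝ} (hd0 : 0 ≤ δ) (hd1 : δ ≤ 1/10000) (h0 : 0 ≤ s) (h1 : s ≤ 1)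
include h0 h1

theorem prf_pos : 0 < prf s := by simp only [prf]; positivity
theorem pff_pos : 0 < pff s := by simp only [pff]; positivity
theorem P_pos : 0 < 4 * prf s - pff s := by
  have : 4 * prf s - pff s = 93/1000 + (1510671/250000)*s + (312987/250000)*s^2 := by
    simp only [prf, pff]; ring
  rw [this]; positivity

include hd0 hd1
theorem prh_pos : 0 < prh δ s := by
  obtain ⟨a1, c1⟩ := pw h0 h1 1
  obtain ⟨a2, c2⟩ := pw h0 h1 2
  obtain ⟨a3, c3⟩ := pw h0 h1 3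
  obtain ⟨a4, c4⟩ := pw h0 h1 4
  simp only [prh]
  have b : -(7 : ℝ) ≤ (69/125) + (-828/125)*s + (307741/62500)*s^2 + (22148/15625)*s^3 + (170667/62500)*s^4 := by
    nlinarith
  have c : -(16 : ℝ) ≤ (7)*s^2 + (-16)*s^3 + (9)*s^4 := by nlinarith
  nlinarith [mul_le_mul_of_nonneg_left b hd0, mul_le_mul_of_nonneg_left c (sq_nonneg δ)]
theorem phh_pos : 0 < phh δ s := by
  obtain ⟨a1, c1⟩ := pw h0 h1 1
  obtain ⟨a2, c2⟩ := pw h0 h1 2
  obtain ⟨a3, c3⟩ := pw h0 h1 3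
  obtain ⟨a4, c4⟩ := pw h0 h1 4
  simp only [phh]
  have b : -(2 : ℝ) ≤ (-94463/62500)*s + (59741/62500)*s^2 + (10311/12500)*s^3 + (170667/62500)*s^4 := by
    nlinarith
  have c : -(16 : ℝ) ≤ (-1)*s + (7)*s^2 + (-15)*s^3 + (9)*s^4 := by nlinarith
  nlinarith [mul_le_mul_of_nonneg_left b hd0, mul_le_mul_of_nonneg_left c (sq_nonneg δ)]
theorem pfh_pos : 0 < pfh δ s := by
  obtain ⟨a1, c1⟩ := pw h0 h1 1
  obtain ⟨a2, c2⟩ := pw h0 h1 2
  obtain ⟨a3, c3⟩ := pw h0 h1 3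
  simp only [pfh]
  have b : -(4 : ℝ) ≤ (1) + (-1677/500)*s + (52/125)*s^2 + (969/500)*s^3 := by
    nlinarith
  nlinarith [mul_le_mul_of_nonneg_left b hd0]

theorem det_pos (hd : 0 < δ) : 0 < (4 * prf s - pff s) * (4 * prh δ s - phh δ s) * (U0 s * V0 δ s) ^ 2
      - 4 * (prf s * V0 δ s ^ 2 + prh δ s * U0 s ^ 2 - pfh δ s * (U0 s * V0 δ s)) ^ 2 := by
  rw [det_expand]
  obtain ⟨a0, c0⟩ := pw h0 h1 0
  obtain ⟨a1, c1⟩ := pw h0 h1 1
  obtain ⟨a2, c2⟩ := pw h0 h1 2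
  obtain ⟨a3, c3⟩ := pw h0 h1 3
  obtain ⟨a4, c4⟩ := pw h0 h1 4
  obtain ⟨a5, c5⟩ := pw h0 h1 5
  obtain ⟨a6, c6⟩ := pw h0 h1 6
  obtain ⟨a7, c7⟩ := pw h0 h1 7
  obtain ⟨a8, c8⟩ := pw h0 h1 8
  obtain ⟨a9, c9⟩ := pw h0 h1 9
  obtain ⟨a10, c10⟩ := pw h0 h1 10
  obtain ⟨a11, c11⟩ := pw h0 h1 11
  obtain ⟨a12, c12⟩ := pw h0 h1 12
  norm_num at a0 c0 a1 c1 c2 c3 c4 c5 c6 c7 c8 c9 c10 c11 c12
  have e0 : (1/40) * s ^ 2 ≤ dd0 s := by simp only [dd0]; linarith
  have e1 : 1/20 + 3 * s - 110 * s ^ 2 ≤ dd1 s := by simp only [dd1]; linarith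
  have e2 : -(600 * s) ≤ dd2 s := by simp only [dd2]; linarith
  have e3 : -(1000 * s) ≤ dd3 s := by simp only [dd3]; linarith
  have e4 : -(1000 * s) ≤ dd4 s := by simp only [dd4]; linarith
  have f1 := mul_le_mul_of_nonneg_left e1 hd0
  have f2 := mul_le_mul_of_nonneg_left e2 (pow_nonneg hd0 2)
  have f3 := mul_le_mul_of_nonneg_left e3 (pow_nonneg hd0 3)
  have f4 := mul_le_mul_of_nonneg_left e4 (pow_nonneg hd0 4)
  have g1 : δ * s ^ 2 ≤ 1/10000 * s ^ 2 := mul_le_mul_of_nonneg_right hd1 (by positivity)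
  have g0 : 0 ≤ δ * s := mul_nonneg hd0 h0
  have g2 : δ ^ 2 * s ≤ 1/10000 * (δ * s) := by
    have := mul_le_mul_of_nonneg_right hd1 g0
    nlinarith
  have g2' : 0 ≤ δ ^ 2 * s := by positivity
  have g3 : δ ^ 3 * s ≤ 1/10000 * (δ ^ 2 * s) := by
    have := mul_le_mul_of_nonneg_right hd1 g2'
    nlinarith
  have g3' : 0 ≤ δ ^ 3 * s := by positivity
  have g4 : δ ^ 4 * s ≤ 1/10000 * (δ ^ 3 * s) := by
    have := mul_le_mul_of_nonneg_right hd1 g3'
    nlinarith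
  linarith
end

/-- The initial metric has positive curvature operator of the second kind. -/
theorem init_pos {δ s : ℝ} (hd : 0 < δ) (hd1 : δ ≤ 1/10000) (h0 : 0 ≤ s) (h1 : s ≤ 1) :
    0 < kRF s (U0 s) (V0 δ s) (W0 δ s) U0' (V0' δ s) (W0' δ) 0 (U0 s)⁻¹ 1 ∧
    0 < kFF s (U0 s) (V0 δ s) (W0 δ s) U0' (U0 s)⁻¹ ∧
    0 < kRH s (U0 s) (V0 δ s) (W0 δ s) U0' (V0' δ s) (W0' δ) (V0'' δ) (V0 δ s)⁻¹ 1 ∧
    0 < kHH s (U0 s) (V0 δ s) (W0 δ s) (V0' δ s) (V0 δ s)⁻¹ ∧
    0 < kFH s U0' (V0' δ s) (U0 s)⁻¹ (V0 δ s)⁻¹ ∧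
    0 < 4 * kRF s (U0 s) (V0 δ s) (W0 δ s) U0' (V0' δ s) (W0' δ) 0 (U0 s)⁻¹ 1
        - kFF s (U0 s) (V0 δ s) (W0 δ s) U0' (U0 s)⁻¹ ∧
    0 < (4 * kRF s (U0 s) (V0 δ s) (W0 δ s) U0' (V0' δ s) (W0' δ) 0 (U0 s)⁻¹ 1
        - kFF s (U0 s) (V0 δ s) (W0 δ s) U0' (U0 s)⁻¹) *
      (4 * kRH s (U0 s) (V0 δ s) (W0 δ s) U0' (V0' δ s) (W0' δ) (V0'' δ) (V0 δ s)⁻¹ 1
        - kHH s (U0 s) (V0 δ s) (W0 δ s) (V0' δ s) (V0 δ s)⁻¹) -
      4 * (kRF s (U0 s) (V0 δ s) (W0 δ s) U0' (V0' δ s) (W0' δ) 0 (U0 s)⁻¹ 1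
        + kRH s (U0 s) (V0 δ s) (W0 δ s) U0' (V0' δ s) (W0' δ) (V0'' δ) (V0 δ s)⁻¹ 1
        - kFH s U0' (V0' δ s) (U0 s)⁻¹ (V0 δ s)⁻¹) ^ 2 := by
  have hU := U0_pos h0
  have hV := V0_pos hd1 h0 h1
  rw [rf_init δ s hU.ne', ff_init δ s hU.ne', rh_init δ s hV.ne', hh_init δ s hV.ne',
    fh_init δ s hU.ne' hV.ne']
  refine ⟨div_pos (prf_pos h0 h1) (by positivity), div_pos (pff_pos h0 h1) (by positivity),
    div_pos (prh_pos hd.le hd1 h0 h1) (by positivity),
    div_pos (phh_pos hd.le hd1 h0 h1) (by positivity),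
    div_pos (pfh_pos hd.le hd1 h0 h1) (by positivity), ?_, ?_⟩
  · have : 4 * (prf s / U0 s ^ 2) - pff s / U0 s ^ 2 = (4 * prf s - pff s) / U0 s ^ 2 := by ring
    rw [this]
    exact div_pos (P_pos h0 h1) (by positivity)
  · have : (4 * (prf s / U0 s ^ 2) - pff s / U0 s ^ 2) * (4 * (prh δ s / V0 δ s ^ 2) - phh δ s / V0 δ s ^ 2)
        - 4 * (prf s / U0 s ^ 2 + prh δ s / V0 δ s ^ 2 - pfh δ s / (U0 s * V0 δ s)) ^ 2 =
        ((4 * prf s - pff s) * (4 * prh δ s - phh δ s) * (U0 s * V0 δ s) ^ 2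
      - 4 * (prf s * V0 δ s ^ 2 + prh δ s * U0 s ^ 2 - pfh δ s * (U0 s * V0 δ s)) ^ 2) /
        (U0 s * V0 δ s) ^ 4 := by
      field_simp
    rw [this]
    exact div_pos (det_pos hd.le hd1 h0 h1 hd) (by positivity)

end Pool.Agent.H858R2
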