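import Mathlib
import Pool.Agent.H858R2.G3
import Pool.Agent.H858R2.Init

set_option autoImplicit false
set_option linter.all false
open scoped ContDiff Manifold Topology Matrix
open Set

namespace Pool.Agent.H858R2

open Pool.Agent.QTot

/-- a neighbourhood of `[0, 1]` -/
def Is : Set ℝ := Ioo (-1/16) (17/16)

/-- smooth near `[0,1]` -/
def SmI (u : ℝ → ℝ) : Prop := ContDiffOn ℝ ∞ u Is

/-- the algebraic conditions for positivity of the curvature operator of the second kind -/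
def PosK (s u v w u1 v1 w1 u2 v2 : ℝ) : Prop :=
  let iE := (cE s u v w)⁻¹
  let rf := kRF s u v w u1 v1 w1 u2 u⁻¹ iE
  let ff := kFF s u v w u1 u⁻¹
  let rh := kRH s u v w u1 v1 w1 v2 v⁻¹ iE
  let hh := kHH s u v w v1 v⁻¹
  let fh := kFH s u1 v1 u⁻¹ v⁻¹
  0 < rf ∧ 0 < ff ∧ 0 < rh ∧ 0 < hh ∧ 0 < fh ∧ 0 < 4 * rf - ff ∧
    0 < (4 * rf - ff) * (4 * rh - hh) - 4 * (rf + rh - fh) ^ 2

/-- `15 E` times the value of the curvature operator of the second kind on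
`diag(2,2,2,-3,-3)/√30` -/
noncomputable def EE (s u v w u1 v1 w1 u2 v2 : ℝ) : ℝ :=
  24 * kFH s u1 v1 u⁻¹ v⁻¹ + 12 * kRH s u v w u1 v1 w1 v2 v⁻¹ (cE s u v w)⁻¹
    - 9 * kHH s u v w v1 v⁻¹ - 8 * kRF s u v w u1 v1 w1 u2 u⁻¹ (cE s u v w)⁻¹
    - 4 * kFF s u v w u1 u⁻¹

end Pool.Agent.H858R2
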