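import Mathlib
import Pool.Agent.H858R2.G1_helper844
import Pool.Agent.H858R2.G4Def

set_option autoImplicit false
set_option linter.all false
open scoped ContDiff Manifold Topology Matrix
open Set

namespace Pool.Agent.H858R2.G1h844

open Pool.Agent.QTot Pool.Agent.QTot.N2 Pool.Agent.H858R2

/-! The ambient form -/

theorem ambG_posDef (U V W : ℝ → ℝ) (x : Fin 6 → ℝ) (hU : 0 < U (sz x)) (hV : 0 < V (sz x))
    (hW : 0 ≤ W (sz x)) : (ambG U V W x).PosDef := by
  have e1 : ambG U V W x = Matrix.diagonal (fun a : Fin 6 => if a.val < 3 then U (sz x) else V (sz x))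
      + W (sz x) • Matrix.vecMulVec (zp x) (star (zp x)) := by
    ext a b
    simp only [ambG, Matrix.of_apply, Matrix.add_apply, Matrix.smul_apply, Matrix.vecMulVec_apply,
      Matrix.diagonal_apply, smul_eq_mul, Pi.star_apply, star_trivial]
    ring
  rw [e1]
  refine Matrix.PosDef.add_posSemidef (Matrix.PosDef.diagonal ?_) ?_
  · intro a
    show 0 < if a.val < 3 then U (sz x) else V (sz x)
    split_ifs
    · exact hU
    · exact hV
  · exact (Matrix.posSemidef_vecMulVec_self_star (zp x)).smul hW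

theorem sz_mem {x : Fin 6 → ℝ} (hx : ∑ i, x i ^ 2 = 1) : sz x ∈ Icc (0:ℝ) 1 := by
  have h : sz x + (x 3 ^ 2 + x 4 ^ 2 + x 5 ^ 2) = 1 := by
    rw [← hx, Fin.sum_univ_six]
    simp only [sz]
    ring
  constructor
  · simp only [sz]; positivity
  · have : 0 ≤ x 3 ^ 2 + x 4 ^ 2 + x 5 ^ 2 := by positivity
    linarith

theorem JP_mulVec {P : Eu 5 → (Fin 6 → ℝ)} {y : Eu 5} (hP : DifferentiableAt ℝ P y) (ξ : Eu 5) :
    (JP P y).mulVec ξ = fderiv ℝ P y ξ := by
  ext a
  have h2 : ∀ i, JP P y a i = (fderiv ℝ P y (Pi.single i 1)) a := by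
    intro i
    have := (hasFDerivAt_pi'.1 hP.hasFDerivAt a).fderiv
    simp only [JP, Matrix.of_apply, pd]
    rw [this]
    rfl
  have h3 : ξ = ∑ d, ξ d • (Pi.single d 1 : Eu 5) := by
    ext e
    simp [Finset.sum_apply, Pi.single_apply]
  conv_rhs => rw [h3]
  rw [map_sum, Finset.sum_apply]
  simp only [Matrix.mulVec, dotProduct]
  refine Finset.sum_congr rfl fun d _ => ?_
  rw [map_smul, Pi.smul_apply, smul_eq_mul, h2 d, mul_comm]

theorem JP_inj {P : Eu 5 → (Fin 6 → ℝ)} {R : (Fin 6 → ℝ) → Eu 5} {y : Eu 5}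
    (hP : DifferentiableAt ℝ P y) (hR : DifferentiableAt ℝ R (P y)) (hRP : ∀ y, R (P y) = y) :
    Function.Injective (JP P y).mulVec := by
  intro ξ η h
  rw [JP_mulVec hP, JP_mulVec hP] at h
  have h1 : HasFDerivAt (fun z => R (P z)) ((fderiv ℝ R (P y)).comp (fderiv ℝ P y)) y :=
    hR.hasFDerivAt.comp y hP.hasFDerivAt
  have h2 : HasFDerivAt (fun z => R (P z)) (ContinuousLinearMap.id ℝ (Eu 5)) y := by
    have : (fun z => R (P z)) = fun z => z := funext hRP
    rw [this]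
    exact hasFDerivAt_id y
  have h3 := h1.unique h2
  have h4 : ∀ ζ, fderiv ℝ R (P y) (fderiv ℝ P y ζ) = ζ := by
    intro ζ
    have := congrArg (fun L : Eu 5 →L[ℝ] Eu 5 => L ζ) h3
    exact this
  rw [← h4 ξ, ← h4 η, h]

/-- chain rule for `JP` -/
theorem JP_comp {P : Eu 5 → (Fin 6 → ℝ)} {φ : Eu 5 → Eu 5} {y : Eu 5}
    (hφ : DifferentiableAt ℝ φ y) (hP : DifferentiableAt ℝ P (φ y)) :
    JP (fun z => P (φ z)) y = JP P (φ y) * Jac φ y := by
  ext a i
  simp only [JP, Matrix.of_apply, Matrix.mul_apply]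
  exact pd_comp' (F := fun z => P z a) hφ (differentiableAt_pi.1 hP a)

theorem JP_congr {P Q : Eu 5 → (Fin 6 → ℝ)} {y : Eu 5} (h : P =ᶠ[𝓝 y] Q) : JP P y = JP Q y := by
  ext a i
  simp only [JP, Matrix.of_apply]
  exact pd_congr (h.mono fun z hz => by simp only [hz])

theorem contDiff_JP {P : Eu 5 → (Fin 6 → ℝ)} (hP : ContDiff ℝ ∞ P) (a : Fin 6) (i : Fin 5) :
    ContDiff ℝ ∞ (fun y => JP P y a i) := by
  have h1 : ContDiff ℝ ∞ (fun y => P y a) := contDiff_pi.1 hP a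
  have h2 : ContDiff ℝ ∞ (fderiv ℝ (fun y => P y a)) := h1.fderiv_right (by simp)
  exact h2.clm_apply contDiff_const

theorem contDiff_sz {P : Eu 5 → (Fin 6 → ℝ)} (hP : ContDiff ℝ ∞ P) :
    ContDiff ℝ ∞ (fun y => sz (P y)) := by
  have h := contDiff_pi.1 hP
  exact (((h 0).pow 2).add ((h 1).pow 2)).add ((h 2).pow 2)

theorem contDiff_zp {P : Eu 5 → (Fin 6 → ℝ)} (hP : ContDiff ℝ ∞ P) (a : Fin 6) :
    ContDiff ℝ ∞ (fun y => zp (P y) a) := by
  have h := contDiff_pi.1 hP a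
  unfold zp
  split_ifs
  · exact h
  · exact contDiff_const

theorem mem_Is {s : ℝ} (hs : s ∈ Icc (0:ℝ) 1) : s ∈ Is := by
  constructor
  · have := hs.1; linarith
  · have := hs.2; linarith

theorem comp_SmI {u : ℝ → ℝ} (hu : SmI u) {P : Eu 5 → (Fin 6 → ℝ)} (hP : ContDiff ℝ ∞ P)
    (h1 : ∀ y, ∑ i, P y i ^ 2 = 1) : ContDiff ℝ ∞ (fun y => u (sz (P y))) := by
  have h2 : ContDiffOn ℝ ∞ (fun y => u (sz (P y))) univ :=
    ContDiffOn.comp (t := Is) hu (contDiff_sz hP).contDiffOn (fun y _ => mem_Is (sz_mem (h1 y)))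
  exact contDiffOn_univ.1 h2

theorem contDiff_pullA {u v w : ℝ → ℝ} (hu : SmI u) (hv : SmI v) (hw : SmI w)
    {P : Eu 5 → (Fin 6 → ℝ)} (hP : ContDiff ℝ ∞ P) (h1 : ∀ y, ∑ i, P y i ^ 2 = 1) (i j : Fin 5) :
    ContDiff ℝ ∞ (fun y => pullA P u v w y i j) := by
  have hA : ∀ a b, ContDiff ℝ ∞ (fun y => ambG u v w (P y) a b) := by
    intro a b
    simp only [ambG, Matrix.of_apply]
    refine ContDiff.add ?_ (((comp_SmI hw hP h1).mul (contDiff_zp hP a)).mul (contDiff_zp hP b))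
    split_ifs
    · exact comp_SmI hu hP h1
    · exact comp_SmI hv hP h1
    · exact contDiff_const
  simp only [pullA, Matrix.mul_apply, Matrix.transpose_apply]
  refine ContDiff.sum fun b _ => ContDiff.mul (ContDiff.sum fun a _ => ContDiff.mul ?_ ?_) ?_
  · exact contDiff_JP hP a i
  · exact hA a b
  · exact contDiff_JP hP b j

theorem metric_of (u v w : ℝ → ℝ) (hu : SmI u) (hv : SmI v) (hw : SmI w)
    (hpos : ∀ s ∈ Icc (0:ℝ) 1, 0 < u s ∧ 0 < v s ∧ 0 ≤ w s) :
    ∃ g : Metric 5 S5, ∀ e, g.G e = pullA (Pinv e) u v w := by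
  refine ⟨⟨fun e => pullA (Pinv e) u v w, ?_, ?_, ?_⟩, fun e => rfl⟩
  · intro e he i j
    obtain ⟨htar, P, R, O, hP, hO, hR, hPO, hRP, hP', hs, hR', hPR, h1⟩ := G1h844.chart_pkg e he
    have hPe : Pinv e = P := funext hP'
    rw [hPe]
    exact (contDiff_pullA hu hv hw hP h1 i j).contDiffOn
  · intro e he y hy
    obtain ⟨htar, P, R, O, hP, hO, hR, hPO, hRP, hP', hs, hR', hPR, h1⟩ := G1h844.chart_pkg e he
    have hPe : Pinv e = P := funext hP'
    rw [hPe]
    obtain ⟨p1, p2, p3⟩ := hpos _ (sz_mem (h1 y))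
    have hPd : DifferentiableAt ℝ P y := hP.differentiable (by simp) y
    have hRd : DifferentiableAt ℝ R (P y) :=
      (hR.contDiffAt (hO.mem_nhds (hPO y))).differentiableAt (by simp)
    have h := (ambG_posDef u v w (P y) p1 p2 p3).conjTranspose_mul_mul_same (JP_inj hPd hRd hRP)
    rwa [Matrix.conjTranspose_eq_transpose_of_trivial] at h
  · intro e he e' he' y hy hs'
    obtain ⟨htar, P, R, O, hP, hO, hR, hPO, hRP, hP', hs, hR', hPR, h1⟩ := G1h844.chart_pkg e he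
    obtain ⟨htar2, Q, R2, O2, hQ, hO2, hR2, hQO2, hRQ2, hQ', hs2, hR2', hQR2, h12⟩ :=
      G1h844.chart_pkg e' he'
    have hPe : Pinv e = P := funext hP'
    have hQe : Pinv e' = Q := funext hQ'
    simp only [hPe, hQe]
    have hin : P y ∈ O2 := by rw [← hP' y]; exact (hs2 _).1 hs'
    have hc : ∀ z, P z ∈ O2 → ctrn e e' z = R2 (P z) := by
      intro z hz
      have hz' : e.symm (WithLp.toLp 2 z) ∈ e'.source := (hs2 _).2 (by rw [hP' z]; exact hz)
      rw [← hP' z]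
      exact hR2' _ hz'
    have hq : ∀ z, P z ∈ O2 → Q (ctrn e e' z) = P z := by
      intro z hz
      have hz' : e.symm (WithLp.toLp 2 z) ∈ e'.source := (hs2 _).2 (by rw [hP' z]; exact hz)
      rw [hc z hz, ← hP' z]
      exact hQR2 _ hz'
    have hnh : ∀ᶠ z in 𝓝 y, P z ∈ O2 := hP.continuous.continuousAt.eventually (hO2.mem_nhds hin)
    have hPd : DifferentiableAt ℝ P y := hP.differentiable (by simp) y
    have hRd : DifferentiableAt ℝ R2 (P y) :=
      (hR2.contDiffAt (hO2.mem_nhds hin)).differentiableAt (by simp)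
    have hcd : DifferentiableAt ℝ (ctrn e e') y := by
      have h := hRd.comp y hPd
      exact h.congr_of_eventuallyEq (hnh.mono fun z hz => hc z hz)
    have hQd : DifferentiableAt ℝ Q (ctrn e e' y) := hQ.differentiable (by simp) _
    have hJ : JP P y = JP Q (ctrn e e' y) * Jac (ctrn e e') y := by
      rw [← JP_comp hcd hQd]
      exact JP_congr (hnh.mono fun z hz => (hq z hz).symm)
    simp only [pullA]
    rw [hJ, hq y hin, Matrix.transpose_mul]
    simp only [Matrix.mul_assoc]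

end Pool.Agent.H858R2.G1h844
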