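import Mathlib
import Pool.Agent.H858R2.G1b_helper844

set_option autoImplicit false
set_option linter.all false
open scoped ContDiff Manifold Topology Matrix
open Set

namespace Pool.Agent.H858R2

open Pool.Agent.QTot

theorem metric_of (u v w : ℝ → ℝ) (hu : SmI u) (hv : SmI v) (hw : SmI w)
    (hpos : ∀ s ∈ Icc (0:ℝ) 1, 0 < u s ∧ 0 < v s ∧ 0 ≤ w s) :
    ∃ g : Metric 5 S5, ∀ e, g.G e = pullA (Pinv e) u v w :=
  G1h844.metric_of u v w hu hv hw hpos

end Pool.Agent.H858R2
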