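import Mathlib
import Pool.Agent.H858R2.G4m
import Pool.Agent.H858R2.G3
import Pool.Agent.H858R2.G3_helper927

set_option autoImplicit false
set_option linter.all false
open scoped ContDiff Manifold Topology Matrix
open Set

namespace Pool.Agent.H858R2.G4aP

open Pool.Agent.QTot Pool.Agent.H858R2

theorem isOpen_Is : IsOpen Is := isOpen_Ioo

theorem sin_mem (ρ : ℝ) : Real.sin ρ ^ 2 ∈ Is := by
  have h1 := Real.sin_sq_le_one ρ
  have h2 := sq_nonneg (Real.sin ρ)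
  constructor <;> linarith

theorem SmI.at {φ : ℝ → ℝ} (hφ : SmI φ) {s : ℝ} (hs : s ∈ Is) : ContDiffAt ℝ ∞ φ s :=
  ContDiffOn.contDiffAt hφ (isOpen_Is.mem_nhds hs)

theorem SmI.hd {φ : ℝ → ℝ} (hφ : SmI φ) {s : ℝ} (hs : s ∈ Is) : HasDerivAt φ (deriv φ s) s :=
  ((SmI.at hφ hs).differentiableAt (by simp)).hasDerivAt

theorem SmI.der {φ : ℝ → ℝ} (hφ : SmI φ) : SmI (deriv φ) :=
  ContDiffOn.deriv_of_isOpen hφ isOpen_Is (by simp)

theorem sinsq_hd (ρ : ℝ) : HasDerivAt (fun ρ => Real.sin ρ ^ 2) (2 * Real.sin ρ * Real.cos ρ) ρ := by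
  have := (Real.hasDerivAt_sin ρ).pow 2
  refine this.congr_deriv ?_
  norm_num

theorem chain1 {φ ψ : ℝ → ℝ} (h : ∀ s ∈ Is, HasDerivAt φ (ψ s) s) (ρ : ℝ) :
    HasDerivAt (fun ρ => φ (Real.sin ρ ^ 2))
      (2 * Real.sin ρ * Real.cos ρ * ψ (Real.sin ρ ^ 2)) ρ :=
  ((h _ (sin_mem ρ)).comp ρ (sinsq_hd ρ)).congr_deriv (by ring)

theorem chain1' {φ ψ : ℝ → ℝ} (h : ∀ s ∈ Is, HasDerivAt φ (ψ s) s) :
    deriv (fun ρ => φ (Real.sin ρ ^ 2)) =
      fun ρ => 2 * Real.sin ρ * Real.cos ρ * ψ (Real.sin ρ ^ 2) :=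
  funext fun ρ => (chain1 h ρ).deriv

theorem chain2 {φ ψ χ : ℝ → ℝ} (h : ∀ s ∈ Is, HasDerivAt φ (ψ s) s)
    (h' : ∀ s ∈ Is, HasDerivAt ψ (χ s) s) (ρ : ℝ) :
    deriv (deriv (fun ρ => φ (Real.sin ρ ^ 2))) ρ =
      2 * (1 - 2 * Real.sin ρ ^ 2) * ψ (Real.sin ρ ^ 2) +
        4 * Real.sin ρ ^ 2 * (1 - Real.sin ρ ^ 2) * χ (Real.sin ρ ^ 2) := by
  rw [chain1' h]
  have h1 : HasDerivAt (fun ρ => 2 * Real.sin ρ * Real.cos ρ)
      (2 * Real.cos ρ * Real.cos ρ + 2 * Real.sin ρ * (-Real.sin ρ)) ρ :=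
    ((Real.hasDerivAt_sin ρ).const_mul 2).mul (Real.hasDerivAt_cos ρ)
  have h2 : HasDerivAt (fun ρ => 2 * Real.sin ρ * Real.cos ρ * ψ (Real.sin ρ ^ 2)) _ ρ :=
    h1.mul (chain1 h' ρ)
  rw [h2.deriv]
  have hc := Real.sin_sq_add_cos_sq ρ
  linear_combination (2 * ψ (Real.sin ρ ^ 2) + 4 * Real.sin ρ ^ 2 * χ (Real.sin ρ ^ 2)) * hc

section
variable {u v w : ℝ → ℝ}

theorem F1 (hu : SmI u) : ∀ s ∈ Is, HasDerivAt (fun s => s * u s) (u s + s * deriv u s) s := by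
  intro s hs
  exact ((hasDerivAt_id s).mul (SmI.hd hu hs)).congr_deriv (by simp)

theorem F2 (hu : SmI u) : ∀ s ∈ Is, HasDerivAt (fun s => u s + s * deriv u s)
    (2 * deriv u s + s * deriv (deriv u) s) s := by
  intro s hs
  exact ((SmI.hd hu hs).add ((hasDerivAt_id s).mul (SmI.hd (SmI.der hu) hs))).congr_deriv
    (by simp; ring)

theorem H1 (hv : SmI v) : ∀ s ∈ Is, HasDerivAt (fun s => (1 - s) * v s)
    (-v s + (1 - s) * deriv v s) s := by
  intro s hs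
  exact (((hasDerivAt_id s).const_sub 1).mul (SmI.hd hv hs)).congr_deriv (by simp)

theorem H2 (hv : SmI v) : ∀ s ∈ Is, HasDerivAt (fun s => -v s + (1 - s) * deriv v s)
    (-2 * deriv v s + (1 - s) * deriv (deriv v) s) s := by
  intro s hs
  exact ((SmI.hd hv hs).neg.add (((hasDerivAt_id s).const_sub 1).mul
    (SmI.hd (SmI.der hv) hs))).congr_deriv (by simp; ring)

theorem E1 (hu : SmI u) (hv : SmI v) (hw : SmI w) : ∀ s ∈ Is,
    HasDerivAt (fun s => cE s (u s) (v s) (w s))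
      (cE1 s (u s) (v s) (w s) (deriv u s) (deriv v s) (deriv w s)) s := by
  intro s hs
  have h1 := ((hasDerivAt_id s).const_sub 1).mul (SmI.hd hu hs)
  have h2 := (hasDerivAt_id s).mul (SmI.hd hv hs)
  have h3 := ((hasDerivAt_id s).mul ((hasDerivAt_id s).const_sub 1)).mul (SmI.hd hw hs)
  refine ((h1.add h2).add h3).congr_deriv ?_
  simp [cE1]
  ring

end

theorem alg_rf {s u v w u1 v1 w1 u2 : ℝ} (hs : s ≠ 0) (hu : u ≠ 0) (hE : cE s u v w ≠ 0) :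
    -((2 * (1 - 2 * s) * (u + s * u1) + 4 * s * (1 - s) * (2 * u1 + s * u2)) / (2 * (s * u))
      - (4 * s * (1 - s) * (u + s * u1) ^ 2) / (4 * (s * u) ^ 2)
      - (4 * s * (1 - s) * ((u + s * u1) * cE1 s u v w u1 v1 w1)) / (4 * (s * u) * cE s u v w))
      / cE s u v w = (cE s u v w)⁻¹ * kRF s u v w u1 v1 w1 u2 u⁻¹ (cE s u v w)⁻¹ := by
  simp only [kRF]
  generalize cE1 s u v w u1 v1 w1 = E1
  generalize cE s u v w = E at *
  field_simp
  ring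

theorem alg_rh {s u v w u1 v1 w1 v2 : ℝ} (hs : 1 - s ≠ 0) (hv : v ≠ 0) (hE : cE s u v w ≠ 0) :
    -((2 * (1 - 2 * s) * (-v + (1 - s) * v1) + 4 * s * (1 - s) * (-2 * v1 + (1 - s) * v2))
        / (2 * ((1 - s) * v))
      - (4 * s * (1 - s) * (-v + (1 - s) * v1) ^ 2) / (4 * ((1 - s) * v) ^ 2)
      - (4 * s * (1 - s) * ((-v + (1 - s) * v1) * cE1 s u v w u1 v1 w1))
        / (4 * ((1 - s) * v) * cE s u v w))
      / cE s u v w = (cE s u v w)⁻¹ * kRH s u v w u1 v1 w1 v2 v⁻¹ (cE s u v w)⁻¹ := by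
  simp only [kRH]
  generalize cE1 s u v w u1 v1 w1 = E1
  generalize cE s u v w = E at *
  field_simp
  ring

theorem alg_ff {s u v w u1 : ℝ} (hs : s ≠ 0) (hu : u ≠ 0) (hE : cE s u v w ≠ 0) :
    1 / (s * u) - (4 * s * (1 - s) * (u + s * u1) ^ 2) / (4 * (s * u) ^ 2 * cE s u v w) =
      (cE s u v w)⁻¹ * kFF s u v w u1 u⁻¹ := by
  simp only [kFF]
  have h : cE s u v w = (1 - s) * u + s * v + s * (1 - s) * w := rfl
  field_simp
  rw [h]
  simp only [cQ]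
  ring

theorem alg_hh {s u v w v1 : ℝ} (hs : 1 - s ≠ 0) (hv : v ≠ 0) (hE : cE s u v w ≠ 0) :
    1 / ((1 - s) * v) - (4 * s * (1 - s) * (-v + (1 - s) * v1) ^ 2)
        / (4 * ((1 - s) * v) ^ 2 * cE s u v w) =
      (cE s u v w)⁻¹ * kHH s u v w v1 v⁻¹ := by
  simp only [kHH]
  have h : cE s u v w = (1 - s) * u + s * v + s * (1 - s) * w := rfl
  field_simp
  rw [h]
  simp only [cR]
  ring

theorem alg_fh {s u v w u1 v1 : ℝ} (hs : s ≠ 0) (hs' : 1 - s ≠ 0) (hu : u ≠ 0) (hv : v ≠ 0)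
    (hE : cE s u v w ≠ 0) :
    -(4 * s * (1 - s) * ((u + s * u1) * (-v + (1 - s) * v1)))
      / (4 * (s * u) * ((1 - s) * v) * cE s u v w) =
      (cE s u v w)⁻¹ * kFH s u1 v1 u⁻¹ v⁻¹ := by
  simp only [kFH]
  field_simp
  ring

theorem Er_eq (u v w : ℝ → ℝ) : Er u v w =
    fun ρ => (fun s => cE s (u s) (v s) (w s)) (Real.sin ρ ^ 2) := rfl
theorem Fr_eq (u : ℝ → ℝ) : Fr u = fun ρ => (fun s => s * u s) (Real.sin ρ ^ 2) := rfl
theorem Hr_eq (v : ℝ → ℝ) : Hr v = fun ρ => (fun s => (1 - s) * v s) (Real.sin ρ ^ 2) := by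
  funext ρ
  simp only [Hr]
  rw [← Real.cos_sq']

theorem cE_pos {s u v w : ℝ} (h0 : 0 ≤ s) (h1 : s ≤ 1) (hu : 0 < u) (hv : 0 < v) (hw : 0 ≤ w) :
    0 < cE s u v w := by
  unfold cE
  rcases eq_or_lt_of_le h0 with h | h
  · subst h; simp; exact hu
  · have : 0 < s * v := mul_pos h hv
    have h2 : 0 ≤ (1 - s) * u := mul_nonneg (by linarith) hu.le
    have h3 : 0 ≤ s * (1 - s) * w := mul_nonneg (mul_nonneg h0 (by linarith)) hw
    linarith

theorem K_of (u v w : ℝ → ℝ) (hu : SmI u) (hv : SmI v) (hw : SmI w)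
    (hpos : ∀ s ∈ Icc (0:ℝ) 1, 0 < u s ∧ 0 < v s ∧ 0 ≤ w s) (r s : ℝ) (h0 : 0 < r)
    (h1 : r < Real.pi / 2) (hs : s = Real.sin r ^ 2) :
    Krf (Er u v w) (Fr u) r = (cE s (u s) (v s) (w s))⁻¹ *
      kRF s (u s) (v s) (w s) (deriv u s) (deriv v s) (deriv w s) (deriv (deriv u) s)
        (u s)⁻¹ (cE s (u s) (v s) (w s))⁻¹ ∧
    Krf (Er u v w) (Hr v) r = (cE s (u s) (v s) (w s))⁻¹ *
      kRH s (u s) (v s) (w s) (deriv u s) (deriv v s) (deriv w s) (deriv (deriv v) s)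
        (v s)⁻¹ (cE s (u s) (v s) (w s))⁻¹ ∧
    Kff (Er u v w) (Fr u) r = (cE s (u s) (v s) (w s))⁻¹ *
      kFF s (u s) (v s) (w s) (deriv u s) (u s)⁻¹ ∧
    Kff (Er u v w) (Hr v) r = (cE s (u s) (v s) (w s))⁻¹ *
      kHH s (u s) (v s) (w s) (deriv v s) (v s)⁻¹ ∧
    Kfh (Er u v w) (Fr u) (Hr v) r = (cE s (u s) (v s) (w s))⁻¹ *
      kFH s (deriv u s) (deriv v s) (u s)⁻¹ (v s)⁻¹ := by
  have hsin : 0 < Real.sin r := Real.sin_pos_of_pos_of_lt_pi h0 (by linarith [Real.pi_pos])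
  have hcos : 0 < Real.cos r := Real.cos_pos_of_mem_Ioo ⟨by linarith [Real.pi_pos], h1⟩
  have hsc := Real.sin_sq_add_cos_sq r
  have hs0 : 0 < s := by rw [hs]; positivity
  have hs1 : 0 < 1 - s := by
    have : 0 < Real.cos r ^ 2 := by positivity
    rw [hs]; linarith
  obtain ⟨hu0, hv0, hw0⟩ := hpos s ⟨hs0.le, by linarith⟩
  have hE0 := cE_pos hs0.le (by linarith) hu0 hv0 hw0
  have dF : deriv (Fr u) r = 2 * Real.sin r * Real.cos r * (u s + s * deriv u s) := by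
    rw [Fr_eq, chain1' (F1 hu), hs]
  have dH : deriv (Hr v) r = 2 * Real.sin r * Real.cos r * (-v s + (1 - s) * deriv v s) := by
    rw [Hr_eq, chain1' (H1 hv), hs]
  have dE : deriv (Er u v w) r = 2 * Real.sin r * Real.cos r *
      cE1 s (u s) (v s) (w s) (deriv u s) (deriv v s) (deriv w s) := by
    rw [Er_eq, chain1' (E1 hu hv hw), hs]
  have ddF : deriv (deriv (Fr u)) r = 2 * (1 - 2 * s) * (u s + s * deriv u s)
      + 4 * s * (1 - s) * (2 * deriv u s + s * deriv (deriv u) s) := by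
    rw [Fr_eq, chain2 (F1 hu) (F2 hu), hs]
  have ddH : deriv (deriv (Hr v)) r = 2 * (1 - 2 * s) * (-v s + (1 - s) * deriv v s)
      + 4 * s * (1 - s) * (-2 * deriv v s + (1 - s) * deriv (deriv v) s) := by
    rw [Hr_eq, chain2 (H1 hv) (H2 hv), hs]
  have vF : Fr u r = s * u s := by rw [Fr, hs]
  have vH : Hr v r = (1 - s) * v s := by rw [Hr, hs, ← Real.cos_sq']
  have vE : Er u v w r = cE s (u s) (v s) (w s) := by rw [Er, hs]
  have hss : (2 * Real.sin r * Real.cos r) * (2 * Real.sin r * Real.cos r) = 4 * s * (1 - s) := by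
    rw [hs, ← Real.cos_sq']; ring
  have p1 : ∀ x y : ℝ, (2 * Real.sin r * Real.cos r * x) * (2 * Real.sin r * Real.cos r * y) =
      4 * s * (1 - s) * (x * y) := by
    intro x y
    rw [← hss]; ring
  have p2 : ∀ x : ℝ, (2 * Real.sin r * Real.cos r * x) ^ 2 = 4 * s * (1 - s) * x ^ 2 := by
    intro x
    rw [← hss]; ring
  refine ⟨?_, ?_, ?_, ?_, ?_⟩
  · unfold Krf
    rw [dF, dE, ddF, vF, vE, p1, p2]
    exact alg_rf hs0.ne' hu0.ne' hE0.ne'
  · unfold Krf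
    rw [dH, dE, ddH, vH, vE, p1, p2]
    exact alg_rh hs1.ne' hv0.ne' hE0.ne'
  · unfold Kff
    rw [dF, vF, vE, p2]
    exact alg_ff hs0.ne' hu0.ne' hE0.ne'
  · unfold Kff
    rw [dH, vH, vE, p2]
    exact alg_hh hs1.ne' hv0.ne' hE0.ne'
  · unfold Kfh
    rw [dF, dH, vF, vH, vE, p1]
    exact alg_fh hs0.ne' hs1.ne' hu0.ne' hv0.ne' hE0.ne'

theorem gam_congr {n : ℕ} {G G' : Eu n → Mt n} {x : Eu n} (h : G =ᶠ[𝓝 x] G') (k i j : Fin n) :
    Gam G k i j x = Gam G' k i j x := by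
  unfold Gam
  rw [h.self_of_nhds]
  have h1 : ∀ a b c : Fin n, pd c (fun y => G y a b) x = pd c (fun y => G' y a b) x := by
    intro a b c
    exact N2.pd_congr (h.mono fun y hy => by simp only [hy])
  simp only [h1]

theorem ric_congr {n : ℕ} {G G' : Eu n → Mt n} {x : Eu n} (h : G =ᶠ[𝓝 x] G') :
    Ric G x = Ric G' x := by
  have h1 : ∀ k i j, Gam G k i j =ᶠ[𝓝 x] Gam G' k i j := by
    intro k i j
    exact h.eventuallyEq_nhds.mono fun y hy => gam_congr hy k i j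
  ext i j
  simp only [Ric, Matrix.of_apply]
  have h2 : ∀ m k i j, pd m (Gam G k i j) x = pd m (Gam G' k i j) x := fun m k i j =>
    N2.pd_congr (h1 k i j)
  have h3 : ∀ k i j, Gam G k i j x = Gam G' k i j x := fun k i j => (h1 k i j).self_of_nhds
  simp only [h2, h3]

theorem ric_cont {n : ℕ} {G : Eu n → Mt n} (hG : ∀ i j, ContDiff ℝ ∞ (fun y => G y i j))
    (hd : ∀ y, (G y).det ≠ 0) (i j : Fin n) : Continuous (fun y => Ric G y i j) := by
  have h1 : ∀ k i j, ContDiff ℝ 1 (Gam G k i j) := by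
    intro k i j
    rw [contDiff_iff_contDiffAt]
    intro x
    exact N2.gam_smooth (k := 1) (fun i j => ((hG i j).contDiffAt).of_le (WithTop.coe_le_coe.2 le_top)) (hd x) k i j
  have h2 : ∀ k i j, Continuous (Gam G k i j) := fun k i j => (h1 k i j).continuous
  have h3 : ∀ m k i j, Continuous (pd m (Gam G k i j)) := by
    intro m k i j
    have : ContDiff ℝ 0 (pd m (Gam G k i j)) := by
      rw [contDiff_iff_contDiffAt]
      intro x
      exact N2.pd_smooth (k := 0) ((h1 k i j).contDiffAt)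
    exact this.continuous
  simp only [Ric, Matrix.of_apply]
  fun_prop

open _root_.Pool.Agent.H858R2.G3P (dA dB dA_comm dB_comm pullA_entry)

theorem sz_mem {x : Fin 6 → ℝ} (hx : ∑ i, x i ^ 2 = 1) : sz x ∈ Icc (0:ℝ) 1 := by
  rw [Fin.sum_univ_six] at hx
  unfold sz
  constructor
  · positivity
  · nlinarith [sq_nonneg (x 3), sq_nonneg (x 4), sq_nonneg (x 5)]

theorem Icc_sub_Is {s : ℝ} (h : s ∈ Icc (0:ℝ) 1) : s ∈ Is := by
  constructor <;> linarith [h.1, h.2]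

theorem pd_smooth_inf {n : ℕ} {f : Eu n → ℝ} (hf : ContDiff ℝ ∞ f) (i : Fin n) :
    ContDiff ℝ ∞ (pd i f) := by
  unfold pd
  exact (hf.fderiv_right (m := ∞) (by simp)).clm_apply contDiff_const

theorem JP_smooth {P : Eu 5 → (Fin 6 → ℝ)} (hP : ContDiff ℝ ∞ P) (a : Fin 6) (i : Fin 5) :
    ContDiff ℝ ∞ (fun y => JP P y a i) := by
  simp only [JP, Matrix.of_apply]
  exact pd_smooth_inf (contDiff_pi.1 hP a) i

theorem sz_smooth {P : Eu 5 → (Fin 6 → ℝ)} (hP : ContDiff ℝ ∞ P) :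
    ContDiff ℝ ∞ (fun y => sz (P y)) := by
  have := contDiff_pi.1 hP
  unfold sz
  exact (((this 0).pow 2).add ((this 1).pow 2)).add ((this 2).pow 2)

theorem cA_smooth {P : Eu 5 → (Fin 6 → ℝ)} (hP : ContDiff ℝ ∞ P) (i j : Fin 5) :
    ContDiff ℝ ∞ (fun y => dA (fun a => JP P y a i) (fun a => JP P y a j)) := by
  simp only [dA]
  exact (((JP_smooth hP 0 i).mul (JP_smooth hP 0 j)).add ((JP_smooth hP 1 i).mul (JP_smooth hP 1 j))).add
    ((JP_smooth hP 2 i).mul (JP_smooth hP 2 j))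

theorem cB_smooth {P : Eu 5 → (Fin 6 → ℝ)} (hP : ContDiff ℝ ∞ P) (i j : Fin 5) :
    ContDiff ℝ ∞ (fun y => dB (fun a => JP P y a i) (fun a => JP P y a j)) := by
  simp only [dB]
  exact (((JP_smooth hP 3 i).mul (JP_smooth hP 3 j)).add ((JP_smooth hP 4 i).mul (JP_smooth hP 4 j))).add
    ((JP_smooth hP 5 i).mul (JP_smooth hP 5 j))

theorem cP_smooth {P : Eu 5 → (Fin 6 → ℝ)} (hP : ContDiff ℝ ∞ P) (i : Fin 5) :
    ContDiff ℝ ∞ (fun y => dA (P y) (fun a => JP P y a i)) := by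
  have := contDiff_pi.1 hP
  simp only [dA]
  exact (((this 0).mul (JP_smooth hP 0 i)).add ((this 1).mul (JP_smooth hP 1 i))).add
    ((this 2).mul (JP_smooth hP 2 i))

theorem pullA_smooth {P : Eu 5 → (Fin 6 → ℝ)} (hP : ContDiff ℝ ∞ P) (hs : ∀ y, ∑ i, P y i ^ 2 = 1)
    {u v w : ℝ → ℝ} (hu : SmI u) (hv : SmI v) (hw : SmI w) (i j : Fin 5) :
    ContDiff ℝ ∞ (fun y => pullA P u v w y i j) := by
  have hc : ∀ {φ : ℝ → ℝ}, SmI φ → ContDiff ℝ ∞ (fun y => φ (sz (P y))) := by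
    intro φ hφ
    rw [contDiff_iff_contDiffAt]
    intro y
    exact (SmI.at hφ (Icc_sub_Is (sz_mem (hs y)))).comp y (sz_smooth hP).contDiffAt
  have e : (fun y => pullA P u v w y i j) = fun y =>
      u (sz (P y)) * dA (fun a => JP P y a i) (fun a => JP P y a j)
      + v (sz (P y)) * dB (fun a => JP P y a i) (fun a => JP P y a j)
      + w (sz (P y)) * dA (P y) (fun a => JP P y a i) * dA (P y) (fun a => JP P y a j) := by
    funext y; exact pullA_entry _ _ _ _ _ _ _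
  rw [e]
  exact (((hc hu).mul (cA_smooth hP i j)).add ((hc hv).mul (cB_smooth hP i j))).add
    (((hc hw).mul (cP_smooth hP i)).mul (cP_smooth hP j))

theorem pullA_symm (P : Eu 5 → (Fin 6 → ℝ)) (u v w : ℝ → ℝ) (y : Eu 5) :
    (pullA P u v w y).IsSymm := by
  ext i j
  rw [Matrix.transpose_apply, pullA_entry, pullA_entry, dA_comm, dB_comm]
  ring

theorem pullA_cont {P : Eu 5 → (Fin 6 → ℝ)} (hP : ContDiff ℝ ∞ P) (hs : ∀ y, ∑ i, P y i ^ 2 = 1)
    {u v w : ℝ → ℝ} (hu : ContinuousOn u Is) (hv : ContinuousOn v Is) (hw : ContinuousOn w Is)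
    (i j : Fin 5) : Continuous (fun y => pullA P u v w y i j) := by
  have hc : ∀ {φ : ℝ → ℝ}, ContinuousOn φ Is → Continuous (fun y => φ (sz (P y))) := by
    intro φ hφ
    exact hφ.comp_continuous (sz_smooth hP).continuous (fun y => Icc_sub_Is (sz_mem (hs y)))
  have e : (fun y => pullA P u v w y i j) = fun y =>
      u (sz (P y)) * dA (fun a => JP P y a i) (fun a => JP P y a j)
      + v (sz (P y)) * dB (fun a => JP P y a i) (fun a => JP P y a j)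
      + w (sz (P y)) * dA (P y) (fun a => JP P y a i) * dA (P y) (fun a => JP P y a j) := by
    funext y; exact pullA_entry _ _ _ _ _ _ _
  rw [e]
  exact (((hc hu).mul (cA_smooth hP i j).continuous).add ((hc hv).mul (cB_smooth hP i j).continuous)).add
    (((hc hw).mul (cP_smooth hP i).continuous).mul (cP_smooth hP j).continuous)

theorem pullA_det (e : OpenPartialHomeomorph S5 (En 5)) (he : e ∈ atlas (En 5) S5)
    {u v w : ℝ → ℝ} (hu : SmI u) (hv : SmI v) (hw : SmI w)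
    (hpos : ∀ s ∈ Icc (0:ℝ) 1, 0 < u s ∧ 0 < v s ∧ 0 ≤ w s) (y : Eu 5) :
    (pullA (Pinv e) u v w y).det ≠ 0 := by
  obtain ⟨g, hg⟩ := metric_of u v w hu hv hw hpos
  have h1 := g.posDef e he y (by
    have := (chart_pkg e he).1
    simp only [ctarget, mem_setOf_eq, this, mem_univ])
  rw [hg] at h1
  exact h1.det_pos.ne'

theorem sumKK0 (E F H : ℝ → ℝ) (r : ℝ) : ∑ k, KK E F H r k 0 = 2 * Krf E F r + 2 * Krf E H r := by
  rw [Fin.sum_univ_five]
  simp [KK]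
  ring
theorem sumKK1 (E F H : ℝ → ℝ) (r : ℝ) (i : Fin 5) (hi : i = 1 ∨ i = 2) :
    ∑ k, KK E F H r k i = Krf E F r + Kff E F r + 2 * Kfh E F H r := by
  rw [Fin.sum_univ_five]
  rcases hi with rfl | rfl <;> simp [KK] <;> ring
theorem sumKK3 (E F H : ℝ → ℝ) (r : ℝ) (i : Fin 5) (hi : i = 3 ∨ i = 4) :
    ∑ k, KK E F H r k i = Krf E H r + Kff E H r + 2 * Kfh E F H r := by
  rw [Fin.sum_univ_five]
  rcases hi with rfl | rfl <;> simp [KK] <;> ring

theorem conj_cancel {n : ℕ} {J X Y : Mt n} (hJ : J.det ≠ 0) (h : Jᵀ * X * J = Jᵀ * Y * J) : X = Y := by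
  have h1 : IsUnit J.det := isUnit_iff_ne_zero.2 hJ
  have h2 : IsUnit Jᵀ.det := by rw [Matrix.det_transpose]; exact h1
  have h3 : Jᵀ * X = Jᵀ * Y := by
    rw [← Matrix.mul_nonsing_inv_cancel_right J (Jᵀ * X) h1, h,
      Matrix.mul_nonsing_inv_cancel_right J (Jᵀ * Y) h1]
  rw [← Matrix.nonsing_inv_mul_cancel_left Jᵀ X h2, h3, Matrix.nonsing_inv_mul_cancel_left Jᵀ Y h2]

theorem ric_diag (u v w ud vd wd : ℝ → ℝ) (hu : SmI u) (hv : SmI v) (hw : SmI w)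
    (hpos : ∀ s ∈ Icc (0:ℝ) 1, 0 < u s ∧ 0 < v s ∧ 0 ≤ w s) (r : ℝ) (h0 : 0 < r)
    (h1 : r < Real.pi / 2)
    (hud : ∀ s ∈ Ioo (0:ℝ) 1, ud s = fU s (u s) (v s) (w s) (deriv u s) (deriv v s) (deriv w s)
        (deriv (deriv u) s) (v s)⁻¹ (cE s (u s) (v s) (w s))⁻¹)
    (hvd : ∀ s ∈ Ioo (0:ℝ) 1, vd s = fV s (u s) (v s) (w s) (deriv u s) (deriv v s) (deriv w s)
        (deriv (deriv v) s) (u s)⁻¹ (cE s (u s) (v s) (w s))⁻¹)
    (hwd : ∀ s ∈ Ioo (0:ℝ) 1, wd s = fW s (u s) (v s) (w s) (deriv u s) (deriv v s) (deriv w s)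
        (deriv (deriv u) s) (deriv (deriv v) s) (u s)⁻¹ (v s)⁻¹ (cE s (u s) (v s) (w s))⁻¹) :
    DG (Er ud vd wd) (Fr ud) (Hr vd) (pt r) =
      (-2 : ℝ) • Ric (DG (Er u v w) (Fr u) (Hr v)) (pt r) := by
  set s := Real.sin r ^ 2 with hs
  have hsin : 0 < Real.sin r := Real.sin_pos_of_pos_of_lt_pi h0 (by linarith [Real.pi_pos])
  have hcos : 0 < Real.cos r := Real.cos_pos_of_mem_Ioo ⟨by linarith [Real.pi_pos], h1⟩
  have hcos2 : Real.cos r ^ 2 = 1 - s := by rw [hs, ← Real.cos_sq']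
  have hs0 : 0 < s := by rw [hs]; positivity
  have hs1 : 0 < 1 - s := by rw [← hcos2]; positivity
  obtain ⟨hu0, hv0, hw0⟩ := hpos s ⟨hs0.le, by linarith⟩
  have hE0 := cE_pos hs0.le (by linarith) hu0 hv0 hw0
  obtain ⟨k1, k2, k3, k4, k5⟩ := K_of u v w hu hv hw hpos r s h0 h1 hs
  have smE : ContDiffAt ℝ ∞ (Er u v w) r := by
    have h2 : ContDiffAt ℝ ∞ (fun s => cE s (u s) (v s) (w s)) (Real.sin r ^ 2) := by
      have a1 := SmI.at hu (sin_mem r)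
      have a2 := SmI.at hv (sin_mem r)
      have a3 := SmI.at hw (sin_mem r)
      unfold cE
      exact (((contDiffAt_const.sub contDiffAt_id).mul a1).add (contDiffAt_id.mul a2)).add
        ((contDiffAt_id.mul (contDiffAt_const.sub contDiffAt_id)).mul a3)
    exact h2.comp r ((Real.contDiff_sin.pow 2).contDiffAt)
  have smF : ContDiffAt ℝ ∞ (Fr u) r := by
    have h2 : ContDiffAt ℝ ∞ (fun s => s * u s) (Real.sin r ^ 2) :=
      contDiffAt_id.mul (SmI.at hu (sin_mem r))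
    exact h2.comp r ((Real.contDiff_sin.pow 2).contDiffAt)
  have smH : ContDiffAt ℝ ∞ (Hr v) r := by
    have h2 : ContDiffAt ℝ ∞ (fun s => (1 - s) * v s) (Real.sin r ^ 2) :=
      (contDiffAt_const.sub contDiffAt_id).mul (SmI.at hv (sin_mem r))
    rw [Hr_eq]
    exact h2.comp r ((Real.contDiff_sin.pow 2).contDiffAt)
  have vE : Er u v w r = cE s (u s) (v s) (w s) := rfl
  have vF : Fr u r = s * u s := rfl
  have vH : Hr v r = (1 - s) * v s := by rw [Hr, hcos2]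
  have pE : 0 < Er u v w r := by rw [vE]; exact hE0
  have pF : 0 < Fr u r := by rw [vF]; positivity
  have pH : 0 < Hr v r := by rw [vH]; positivity
  have hsm : s ∈ Ioo (0:ℝ) 1 := ⟨hs0, by linarith⟩
  have eU := hud s hsm
  have eV := hvd s hsm
  have eW := hwd s hsm
  have dE : Er ud vd wd r = cE s (ud s) (vd s) (wd s) := rfl
  have dF : Fr ud r = s * ud s := rfl
  have dH : Hr vd r = (1 - s) * vd s := by rw [Hr, hcos2]
  have hE' : cE s (u s) (v s) (w s) * (cE s (u s) (v s) (w s))⁻¹ = 1 := mul_inv_cancel₀ hE0.ne'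
  have fu := fU_eq (s := s) (U1 := deriv u s) (V1 := deriv v s) (W1 := deriv w s)
    (U2 := deriv (deriv u) s) hu0.ne' hv0.ne' hE0.ne'
  have fv := fV_eq (s := s) (U1 := deriv u s) (V1 := deriv v s) (W1 := deriv w s)
    (V2 := deriv (deriv v) s) hu0.ne' hv0.ne' hE0.ne'
  have fe := fE_eq (s := s) (U1 := deriv u s) (V1 := deriv v s) (W1 := deriv w s)
    (U2 := deriv (deriv u) s) (V2 := deriv (deriv v) s) hu0.ne' hv0.ne' hE0.ne'
  have sg0 : sg 0 0 = 1 := by simp [sg]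
  -- the three diagonal identities
  have d0 : Er ud vd wd r = -2 * (Er u v w r * (2 * Krf (Er u v w) (Fr u) r + 2 * Krf (Er u v w) (Hr v) r)) := by
    rw [dE, eU, eV, eW, fe, vE, k1, k2]
    generalize kRF s (u s) (v s) (w s) (deriv u s) (deriv v s) (deriv w s) (deriv (deriv u) s)
        (u s)⁻¹ (cE s (u s) (v s) (w s))⁻¹ = x1
    generalize kRH s (u s) (v s) (w s) (deriv u s) (deriv v s) (deriv w s) (deriv (deriv v) s)
        (v s)⁻¹ (cE s (u s) (v s) (w s))⁻¹ = x2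
    linear_combination (4 * (x1 + x2)) * hE'
  have d1 : Fr ud r = -2 * (Fr u r * (Krf (Er u v w) (Fr u) r + Kff (Er u v w) (Fr u) r
      + 2 * Kfh (Er u v w) (Fr u) (Hr v) r)) := by
    rw [dF, eU, fu, vF, k1, k3, k5]
    ring
  have d3 : Hr vd r = -2 * (Hr v r * (Krf (Er u v w) (Hr v) r + Kff (Er u v w) (Hr v) r
      + 2 * Kfh (Er u v w) (Fr u) (Hr v) r)) := by
    rw [dH, eV, fv, vH, k2, k4, k5]
    ring
  ext i j
  rw [Matrix.smul_apply, Ric_DG smE smF smH pE pF pH, smul_eq_mul]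
  by_cases hij : i = j
  · subst hij
    rw [if_pos rfl, DG, Matrix.diagonal_apply_eq]
    fin_cases i
    · show Er ud vd wd (pt r 0) = -2 * (Er u v w (pt r 0) * ∑ k, KK (Er u v w) (Fr u) (Hr v) r k 0)
      rw [sumKK0]
      exact d0
    · show Fr ud (pt r 0) * sg 0 0 = -2 * (Fr u (pt r 0) * sg 0 0 * ∑ k, KK (Er u v w) (Fr u) (Hr v) r k 1)
      rw [sumKK1 _ _ _ _ _ (Or.inl rfl), sg0, mul_one, mul_one]
      exact d1
    · show Fr ud (pt r 0) * sg 0 0 = -2 * (Fr u (pt r 0) * sg 0 0 * ∑ k, KK (Er u v w) (Fr u) (Hr v) r k 2)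
      rw [sumKK1 _ _ _ _ _ (Or.inr rfl), sg0, mul_one, mul_one]
      exact d1
    · show Hr vd (pt r 0) * sg 0 0 = -2 * (Hr v (pt r 0) * sg 0 0 * ∑ k, KK (Er u v w) (Fr u) (Hr v) r k 3)
      rw [sumKK3 _ _ _ _ _ (Or.inl rfl), sg0, mul_one, mul_one]
      exact d3
    · show Hr vd (pt r 0) * sg 0 0 = -2 * (Hr v (pt r 0) * sg 0 0 * ∑ k, KK (Er u v w) (Fr u) (Hr v) r k 4)
      rw [sumKK3 _ _ _ _ _ (Or.inr rfl), sg0, mul_one, mul_one]
      exact d3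
  · rw [if_neg hij, DG, Matrix.diagonal_apply_ne _ hij, mul_zero]

theorem ricci_good (e : OpenPartialHomeomorph S5 (En 5)) (he : e ∈ atlas (En 5) S5)
    (u v w ud vd wd : ℝ → ℝ) (hu : SmI u) (hv : SmI v) (hw : SmI w)
    (hpos : ∀ s ∈ Icc (0:ℝ) 1, 0 < u s ∧ 0 < v s ∧ 0 ≤ w s)
    (hud : ∀ s ∈ Ioo (0:ℝ) 1, ud s = fU s (u s) (v s) (w s) (deriv u s) (deriv v s) (deriv w s)
        (deriv (deriv u) s) (v s)⁻¹ (cE s (u s) (v s) (w s))⁻¹)
    (hvd : ∀ s ∈ Ioo (0:ℝ) 1, vd s = fV s (u s) (v s) (w s) (deriv u s) (deriv v s) (deriv w s)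
        (deriv (deriv v) s) (u s)⁻¹ (cE s (u s) (v s) (w s))⁻¹)
    (hwd : ∀ s ∈ Ioo (0:ℝ) 1, wd s = fW s (u s) (v s) (w s) (deriv u s) (deriv v s) (deriv w s)
        (deriv (deriv u) s) (deriv (deriv v) s) (u s)⁻¹ (v s)⁻¹ (cE s (u s) (v s) (w s))⁻¹)
    (y : Eu 5) (h0 : 0 < sz (Pinv e y)) (h1 : sz (Pinv e y) < 1) :
    pullA (Pinv e) ud vd wd y = (-2 : ℝ) • Ric (pullA (Pinv e) u v w) y := by
  have hsm : ∀ i j, ContDiff ℝ ∞ (fun y => pullA (Pinv e) u v w y i j) := by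
    obtain ⟨htar, P, R, O, hP, hO, hR, hPO, hRP, hPe, hsrc, hRe, hPR, hsum⟩ := chart_pkg e he
    have hPinv : Pinv e = P := by
      funext y; exact hPe y
    rw [hPinv]
    exact pullA_smooth hP hsum hu hv hw
  obtain ⟨χ, r, hr0, hr1, hsin, hχ, hχy, hdet, hpull⟩ := G3P.chart_pull e he y h0 h1
  have hG := hpull u v w
  have hG' := (hpull ud vd wd).self_of_nhds
  have hR := N2.ric_pull hχ hdet (G := pullA (Pinv e) u v w) (fun i j => (hsm i j).contDiffAt)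
    (Filter.Eventually.of_forall fun x => pullA_symm _ _ _ _ x) (pullA_det e he hu hv hw hpos _)
  rw [ric_congr hG] at hR
  have hD := ric_diag u v w ud vd wd hu hv hw hpos r hr0 hr1 hud hvd hwd
  rw [← hG', hR, pull, hχy] at hD
  refine conj_cancel hdet ?_
  rw [hD, Matrix.mul_smul, Matrix.smul_mul]

theorem ricci_of (T : ℝ) (U V W : ℝ → ℝ → ℝ)
    (hU : ContDiffOn ℝ ∞ (fun p : ℝ × ℝ => U p.1 p.2) (Ioo 0 T ×ˢ Is))
    (hV : ContDiffOn ℝ ∞ (fun p : ℝ × ℝ => V p.1 p.2) (Ioo 0 T ×ˢ Is))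
    (hW : ContDiffOn ℝ ∞ (fun p : ℝ × ℝ => W p.1 p.2) (Ioo 0 T ×ˢ Is))
    (hpos : ∀ t ∈ Ioo 0 T, ∀ s ∈ Icc (0:ℝ) 1, 0 < U t s ∧ 0 < V t s ∧ 0 ≤ W t s)
    (hpU : ∀ t ∈ Ioo 0 T, ∀ s ∈ Ioo (0:ℝ) 1, HasDerivAt (fun τ => U τ s)
      (fU s (U t s) (V t s) (W t s) (deriv (U t) s) (deriv (V t) s) (deriv (W t) s)
        (deriv (deriv (U t)) s) (V t s)⁻¹ (cE s (U t s) (V t s) (W t s))⁻¹) t)
    (hpV : ∀ t ∈ Ioo 0 T, ∀ s ∈ Ioo (0:ℝ) 1, HasDerivAt (fun τ => V τ s)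
      (fV s (U t s) (V t s) (W t s) (deriv (U t) s) (deriv (V t) s) (deriv (W t) s)
        (deriv (deriv (V t)) s) (U t s)⁻¹ (cE s (U t s) (V t s) (W t s))⁻¹) t)
    (hpW : ∀ t ∈ Ioo 0 T, ∀ s ∈ Ioo (0:ℝ) 1, HasDerivAt (fun τ => W τ s)
      (fW s (U t s) (V t s) (W t s) (deriv (U t) s) (deriv (V t) s) (deriv (W t) s)
        (deriv (deriv (U t)) s) (deriv (deriv (V t)) s) (U t s)⁻¹ (V t s)⁻¹
        (cE s (U t s) (V t s) (W t s))⁻¹) t) :
    ∀ e ∈ atlas (En 5) S5,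
      (∀ i j, ContDiffOn ℝ ∞
        (fun p : ℝ × Eu 5 => pullA (Pinv e) (U p.1) (V p.1) (W p.1) p.2 i j)
        (Ioo 0 T ×ˢ univ)) ∧
      ∀ t ∈ Ioo 0 T, ∀ y i j, HasDerivAt (fun τ => pullA (Pinv e) (U τ) (V τ) (W τ) y i j)
        (-2 * Ric (pullA (Pinv e) (U t) (V t) (W t)) y i j) t := by
  intro e he
  have hopen : IsOpen (Ioo 0 T ×ˢ Is) := isOpen_Ioo.prod isOpen_Is
  obtain ⟨htar, P, R, O, hP, hO, hR, hPO, hRP, hPe, hsrc, hRe, hPR, hsum⟩ := chart_pkg e he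
  have hPinv : Pinv e = P := by
    funext y; exact hPe y
  have hmemS : ∀ y, sz (P y) ∈ Is := fun y => Icc_sub_Is (sz_mem (hsum y))
  refine ⟨?_, ?_⟩
  · rw [hPinv]
    intro i j
    have hmap : MapsTo (fun p : ℝ × Eu 5 => (p.1, sz (P p.2))) (Ioo 0 T ×ˢ univ) (Ioo 0 T ×ˢ Is) :=
      fun p hp => ⟨hp.1, hmemS p.2⟩
    have hsmap : ContDiffOn ℝ ∞ (fun p : ℝ × Eu 5 => (p.1, sz (P p.2))) (Ioo 0 T ×ˢ univ) :=
      (contDiff_fst.prodMk ((sz_smooth hP).comp contDiff_snd)).contDiffOn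
    have cU := hU.comp hsmap hmap
    have cV := hV.comp hsmap hmap
    have cW := hW.comp hsmap hmap
    have e1 : (fun p : ℝ × Eu 5 => pullA P (U p.1) (V p.1) (W p.1) p.2 i j) = fun p =>
        U p.1 (sz (P p.2)) * dA (fun a => JP P p.2 a i) (fun a => JP P p.2 a j)
        + V p.1 (sz (P p.2)) * dB (fun a => JP P p.2 a i) (fun a => JP P p.2 a j)
        + W p.1 (sz (P p.2)) * dA (P p.2) (fun a => JP P p.2 a i)
          * dA (P p.2) (fun a => JP P p.2 a j) := by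
      funext p; exact pullA_entry _ _ _ _ _ _ _
    rw [e1]
    have c1 : ContDiffOn ℝ ∞ (fun p : ℝ × Eu 5 => dA (fun a => JP P p.2 a i) (fun a => JP P p.2 a j))
        (Ioo 0 T ×ˢ univ) := ((cA_smooth hP i j).comp contDiff_snd).contDiffOn
    have c2 : ContDiffOn ℝ ∞ (fun p : ℝ × Eu 5 => dB (fun a => JP P p.2 a i) (fun a => JP P p.2 a j))
        (Ioo 0 T ×ˢ univ) := ((cB_smooth hP i j).comp contDiff_snd).contDiffOn
    have c3 : ∀ i, ContDiffOn ℝ ∞ (fun p : ℝ × Eu 5 => dA (P p.2) (fun a => JP P p.2 a i))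
        (Ioo 0 T ×ˢ univ) := fun i => ((cP_smooth hP i).comp contDiff_snd).contDiffOn
    exact ((cU.mul c1).add (cV.mul c2)).add ((cW.mul (c3 i)).mul (c3 j))
  · intro t ht
    -- time derivatives
    have hslice : ∀ {X : ℝ → ℝ → ℝ}, ContDiffOn ℝ ∞ (fun p : ℝ × ℝ => X p.1 p.2) (Ioo 0 T ×ˢ Is) →
        SmI (X t) := by
      intro X hX
      have : ContDiffOn ℝ ∞ (fun s : ℝ => (t, s)) Is := (contDiff_const.prodMk contDiff_id).contDiffOn
      exact hX.comp this (fun s hs => ⟨ht, hs⟩)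
    have htime : ∀ {X : ℝ → ℝ → ℝ}, ContDiffOn ℝ ∞ (fun p : ℝ × ℝ => X p.1 p.2) (Ioo 0 T ×ˢ Is) →
        ∀ s ∈ Is, HasDerivAt (fun τ => X τ s)
          (fderiv ℝ (fun p : ℝ × ℝ => X p.1 p.2) (t, s) (1, 0)) t := by
      intro X hX s hs
      have h1 : DifferentiableAt ℝ (fun p : ℝ × ℝ => X p.1 p.2) (t, s) :=
        (hX.contDiffAt (hopen.mem_nhds ⟨ht, hs⟩)).differentiableAt (by simp)
      have h2 : HasDerivAt (fun τ : ℝ => ((τ, s) : ℝ × ℝ)) ((1, 0) : ℝ × ℝ) t :=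
        (hasDerivAt_id t).prodMk (hasDerivAt_const t s)
      exact h1.hasFDerivAt.comp_hasDerivAt t h2
    have hcont : ∀ {X : ℝ → ℝ → ℝ}, ContDiffOn ℝ ∞ (fun p : ℝ × ℝ => X p.1 p.2) (Ioo 0 T ×ˢ Is) →
        ContinuousOn (fun s => fderiv ℝ (fun p : ℝ × ℝ => X p.1 p.2) (t, s) (1, 0)) Is := by
      intro X hX
      have h1 := hX.continuousOn_fderiv_of_isOpen hopen (by simp)
      have h2 : ContinuousOn (fun s : ℝ => fderiv ℝ (fun p : ℝ × ℝ => X p.1 p.2) (t, s)) Is :=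
        h1.comp (by fun_prop) (fun s hs => ⟨ht, hs⟩)
      exact h2.clm_apply continuousOn_const
    set Ud : ℝ → ℝ := fun s => fderiv ℝ (fun p : ℝ × ℝ => U p.1 p.2) (t, s) (1, 0) with hUd
    set Vd : ℝ → ℝ := fun s => fderiv ℝ (fun p : ℝ × ℝ => V p.1 p.2) (t, s) (1, 0) with hVd
    set Wd : ℝ → ℝ := fun s => fderiv ℝ (fun p : ℝ × ℝ => W p.1 p.2) (t, s) (1, 0) with hWd
    have hder : ∀ y i j, HasDerivAt (fun τ => pullA (Pinv e) (U τ) (V τ) (W τ) y i j)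
        (pullA (Pinv e) Ud Vd Wd y i j) t := by
      intro y i j
      rw [hPinv, pullA_entry]
      have e1 : (fun τ => pullA P (U τ) (V τ) (W τ) y i j) = fun τ =>
          U τ (sz (P y)) * dA (fun a => JP P y a i) (fun a => JP P y a j)
          + V τ (sz (P y)) * dB (fun a => JP P y a i) (fun a => JP P y a j)
          + W τ (sz (P y)) * dA (P y) (fun a => JP P y a i) * dA (P y) (fun a => JP P y a j) := by
        funext τ; exact pullA_entry _ _ _ _ _ _ _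
      rw [e1]
      exact (((htime hU _ (hmemS y)).mul_const _).add ((htime hV _ (hmemS y)).mul_const _)).add
        (((htime hW _ (hmemS y)).mul_const _).mul_const _)
    have hIoo : ∀ s ∈ Ioo (0:ℝ) 1, s ∈ Is := fun s hs => Icc_sub_Is ⟨hs.1.le, hs.2.le⟩
    have hsu := hslice hU
    have hsv := hslice hV
    have hsw := hslice hW
    have hgood : ∀ y, 0 < sz (Pinv e y) ∧ sz (Pinv e y) < 1 →
        pullA (Pinv e) Ud Vd Wd y = (-2 : ℝ) • Ric (pullA (Pinv e) (U t) (V t) (W t)) y := by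
      intro y hy
      refine ricci_good e he (U t) (V t) (W t) Ud Vd Wd hsu hsv hsw (hpos t ht) ?_ ?_ ?_ y hy.1 hy.2
      · intro s hs
        exact (htime hU s (hIoo s hs)).unique (hpU t ht s hs)
      · intro s hs
        exact (htime hV s (hIoo s hs)).unique (hpV t ht s hs)
      · intro s hs
        exact (htime hW s (hIoo s hs)).unique (hpW t ht s hs)
    intro y i j
    have hfun : (fun y => pullA (Pinv e) Ud Vd Wd y i j) =
        fun y => -2 * Ric (pullA (Pinv e) (U t) (V t) (W t)) y i j := by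
      refine Continuous.ext_on (G3P.good_dense e he) ?_ ?_ ?_
      · rw [hPinv]
        exact pullA_cont hP hsum (hcont hU) (hcont hV) (hcont hW) i j
      · refine continuous_const.mul (ric_cont ?_ (pullA_det e he hsu hsv hsw (hpos t ht)) i j)
        rw [hPinv]
        exact pullA_smooth hP hsum hsu hsv hsw
      · intro y hy
        simp only
        rw [hgood y hy, Matrix.smul_apply, smul_eq_mul]
    have h3 : pullA (Pinv e) Ud Vd Wd y i j =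
        -2 * Ric (pullA (Pinv e) (U t) (V t) (W t)) y i j := congrFun hfun y
    rw [← h3]
    exact hder y i j

end Pool.Agent.H858R2.G4aP
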