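import Mathlib
import Pool.Agent.H858R2.G4a_helper927

set_option autoImplicit false
set_option linter.all false
open scoped ContDiff Manifold Topology Matrix
open Set

namespace Pool.Agent.H858R2

open Pool.Agent.QTot

theorem K_of (u v w : ℝ → ℝ) (hu : SmI u) (hv : SmI v) (hw : SmI w)
    (hpos : ∀ s ∈ Icc (0:ℝ) 1, 0 < u s ∧ 0 < v s ∧ 0 ≤ w s) (r s : ℝ) (h0 : 0 < r)
    (h1 : r < Real.pi / 2) (hs : s = Real.sin r ^ 2) :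
    Krf (Er u v w) (Fr u) r = (cE s (u s) (v s) (w s))⁻¹ *
      kRF s (u s) (v s) (w s) (deriv u s) (deriv v s) (deriv w s) (deriv (deriv u) s)
        (u s)⁻¹ (cE s (u s) (v s) (w s))⁻¹ ∧
    Krf (Er u v w) (Hr v) r = (cE s (u s) (v s) (w s))⁻¹ *
      kRH s (u s) (v s) (w s) (deriv u s) (deriv v s) (deriv w s) (deriv (deriv v) s)
        (v s)⁻¹ (cE s (u s) (v s) (w s))⁻¹ ∧
    Kff (Er u v w) (Fr u) r = (cE s (u s) (v s) (w s))⁻¹ *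
      kFF s (u s) (v s) (w s) (deriv u s) (u s)⁻¹ ∧
    Kff (Er u v w) (Hr v) r = (cE s (u s) (v s) (w s))⁻¹ *
      kHH s (u s) (v s) (w s) (deriv v s) (v s)⁻¹ ∧
    Kfh (Er u v w) (Fr u) (Hr v) r = (cE s (u s) (v s) (w s))⁻¹ *
      kFH s (deriv u s) (deriv v s) (u s)⁻¹ (v s)⁻¹ :=
  G4aP.K_of u v w hu hv hw hpos r s h0 h1 hs

theorem ricci_of (T : ℝ) (U V W : ℝ → ℝ → ℝ)
    (hU : ContDiffOn ℝ ∞ (fun p : ℝ × ℝ => U p.1 p.2) (Ioo 0 T ×ˢ Is))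
    (hV : ContDiffOn ℝ ∞ (fun p : ℝ × ℝ => V p.1 p.2) (Ioo 0 T ×ˢ Is))
    (hW : ContDiffOn ℝ ∞ (fun p : ℝ × ℝ => W p.1 p.2) (Ioo 0 T ×ˢ Is))
    (hpos : ∀ t ∈ Ioo 0 T, ∀ s ∈ Icc (0:ℝ) 1, 0 < U t s ∧ 0 < V t s ∧ 0 ≤ W t s)
    (hpU : ∀ t ∈ Ioo 0 T, ∀ s ∈ Ioo (0:ℝ) 1, HasDerivAt (fun τ => U τ s)
      (fU s (U t s) (V t s) (W t s) (deriv (U t) s) (deriv (V t) s) (deriv (W t) s)
        (deriv (deriv (U t)) s) (V t s)⁻¹ (cE s (U t s) (V t s) (W t s))⁻¹) t)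
    (hpV : ∀ t ∈ Ioo 0 T, ∀ s ∈ Ioo (0:ℝ) 1, HasDerivAt (fun τ => V τ s)
      (fV s (U t s) (V t s) (W t s) (deriv (U t) s) (deriv (V t) s) (deriv (W t) s)
        (deriv (deriv (V t)) s) (U t s)⁻¹ (cE s (U t s) (V t s) (W t s))⁻¹) t)
    (hpW : ∀ t ∈ Ioo 0 T, ∀ s ∈ Ioo (0:ℝ) 1, HasDerivAt (fun τ => W τ s)
      (fW s (U t s) (V t s) (W t s) (deriv (U t) s) (deriv (V t) s) (deriv (W t) s)
        (deriv (deriv (U t)) s) (deriv (deriv (V t)) s) (U t s)⁻¹ (V t s)⁻¹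
        (cE s (U t s) (V t s) (W t s))⁻¹) t) :
    ∀ e ∈ atlas (En 5) S5,
      (∀ i j, ContDiffOn ℝ ∞
        (fun p : ℝ × Eu 5 => pullA (Pinv e) (U p.1) (V p.1) (W p.1) p.2 i j)
        (Ioo 0 T ×ˢ univ)) ∧
      ∀ t ∈ Ioo 0 T, ∀ y i j, HasDerivAt (fun τ => pullA (Pinv e) (U τ) (V τ) (W τ) y i j)
        (-2 * Ric (pullA (Pinv e) (U t) (V t) (W t)) y i j) t :=
  G4aP.ricci_of T U V W hU hV hW hpos hpU hpV hpW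

end Pool.Agent.H858R2
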