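import Mathlib
import Pool.Agent.H858R2.G4k

set_option autoImplicit false
set_option linter.all false
open scoped ContDiff Manifold Topology Matrix
open Set Filter

namespace Pool.Agent.H858R2.G4b

open Pool.Agent.QTot Pool.Agent.H858R2

/-- the quadratic form of a curvature tensor on symmetric contravariant tensors -/
noncomputable def Q2 {n : ℕ} (R : Fin n → Fin n → Fin n → Fin n → ℝ) (Φ : Mt n) : ℝ :=
  ∑ a, ∑ b, ∑ c, ∑ d, R a b c d * Φ a c * Φ b d

theorem sum4 {n : ℕ} (f : Fin n → Fin n → Fin n → Fin n → ℝ) :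
    ∑ i, ∑ j, ∑ k, ∑ l, f i j k l =
      ∑ p : Fin n × Fin n × Fin n × Fin n, f p.1 p.2.1 p.2.2.1 p.2.2.2 := by
  simp only [Fintype.sum_prod_type]

theorem cong_apply {n : ℕ} (F φ : Mt n) (a c : Fin n) :
    (F * φ * Fᵀ) a c = ∑ i, ∑ j, F a i * φ i j * F c j := by
  simp only [Matrix.mul_apply, Matrix.transpose_apply, Finset.sum_mul]
  rw [Finset.sum_comm]

theorem cong_prod {n : ℕ} (F φ : Mt n) (a b c d : Fin n) :
    (F * φ * Fᵀ) a c * (F * φ * Fᵀ) b d =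
      ∑ i, ∑ j, ∑ k, ∑ l, F a i * F b k * F c j * F d l * φ k l * φ i j := by
  rw [cong_apply, cong_apply, Finset.sum_mul]
  refine Finset.sum_congr rfl fun i _ => ?_
  rw [Finset.sum_mul]
  refine Finset.sum_congr rfl fun j _ => ?_
  rw [Finset.mul_sum]
  refine Finset.sum_congr rfl fun k _ => ?_
  rw [Finset.mul_sum]
  refine Finset.sum_congr rfl fun l _ => ?_
  ring

theorem second_eq {n : ℕ} (G : Eu n → Mt n) (x : Eu n) (F φ : Mt n) :
    second G x F φ = Q2 (fun a b c d => R4 G a b c d x) (F * φ * Fᵀ) := by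
  have h : ∀ a b c d, R4 G a b c d x * (F * φ * Fᵀ) a c * (F * φ * Fᵀ) b d =
      ∑ q : Fin n × Fin n × Fin n × Fin n,
        R4 G a b c d x * (F a q.1 * F b q.2.2.1 * F c q.2.1 * F d q.2.2.2 * φ q.2.2.1 q.2.2.2 *
          φ q.1 q.2.1) := by
    intro a b c d
    rw [mul_assoc, cong_prod, sum4, Finset.mul_sum]
  have h2 : ∀ i j k l, RV G x (fun a => F a i) (fun a => F a k) (fun a => F a j)
      (fun a => F a l) * φ k l * φ i j =
      ∑ q : Fin n × Fin n × Fin n × Fin n, R4 G q.1 q.2.1 q.2.2.1 q.2.2.2 x *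
        F q.1 i * F q.2.1 k * F q.2.2.1 j * F q.2.2.2 l * φ k l * φ i j := by
    intro i j k l
    unfold RV
    rw [sum4, Finset.sum_mul, Finset.sum_mul]
  unfold second Q2
  simp only [h, h2]
  rw [sum4, sum4, Finset.sum_comm]
  refine Finset.sum_congr rfl fun p _ => Finset.sum_congr rfl fun q _ => ?_
  ring

/-- behaviour of `R4` under pull-back -/
theorem R4_pull {n : ℕ} {χ : Eu n → Eu n} {x₀ : Eu n} (hφ : ContDiffAt ℝ ∞ χ x₀)
    (hJ : (Jac χ x₀).det ≠ 0)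
    {G : Eu n → Mt n} (hG : ∀ i j, ContDiffAt ℝ ∞ (fun x => G x i j) (χ x₀))
    (hs : ∀ᶠ x in 𝓝 (χ x₀), (G x).IsSymm) (hd : (G (χ x₀)).det ≠ 0) (i j k l : Fin n) :
    R4 (pull χ G) i j k l x₀ =
      ∑ a, ∑ b, ∑ c, ∑ d, R4 G a b c d (χ x₀) * Jac χ x₀ a i * Jac χ x₀ b j * Jac χ x₀ c k *
        Jac χ x₀ d l := by
  have h1 : ∀ q, ∑ a, Jac χ x₀ q a * N2.Rm (pull χ G) a k i j x₀ =
      ∑ b, ∑ c, ∑ d, N2.Rm G q b c d (χ x₀) * Jac χ x₀ b k * Jac χ x₀ c i * Jac χ x₀ d j :=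
    fun q => N2.rm_pull hφ hJ hG hs hd q k i j
  have h2 : R4 (pull χ G) i j k l x₀ =
      ∑ p, ∑ q, Jac χ x₀ p l * G (χ x₀) p q * ∑ a, Jac χ x₀ q a * N2.Rm (pull χ G) a k i j x₀ := by
    unfold R4
    have : ∀ a, pull χ G x₀ l a = ∑ p, ∑ q, Jac χ x₀ p l * G (χ x₀) p q * Jac χ x₀ q a := by
      intro a
      unfold pull
      rw [Matrix.mul_apply]
      simp only [Matrix.mul_apply, Matrix.transpose_apply, Finset.sum_mul]
      rw [Finset.sum_comm]
    simp only [this, Finset.sum_mul, Finset.mul_sum]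
    rw [Finset.sum_comm]
    refine Finset.sum_congr rfl fun p _ => ?_
    rw [Finset.sum_comm]
    refine Finset.sum_congr rfl fun q _ => Finset.sum_congr rfl fun a _ => ?_
    ring
  rw [h2]
  simp only [h1]
  unfold R4
  simp only [Finset.mul_sum, Finset.sum_mul]
  -- LHS : ∑ p q b c d ; RHS : ∑ a b c d q
  have h3 : ∀ p q, ∑ b, ∑ c, ∑ d, Jac χ x₀ p l * G (χ x₀) p q *
      (N2.Rm G q b c d (χ x₀) * Jac χ x₀ b k * Jac χ x₀ c i * Jac χ x₀ d j) =
      ∑ c, ∑ d, ∑ b, G (χ x₀) p q * N2.Rm G q b c d (χ x₀) * Jac χ x₀ c i * Jac χ x₀ d j *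
        Jac χ x₀ b k * Jac χ x₀ p l := by
    intro p q
    rw [Finset.sum_comm]
    refine Finset.sum_congr rfl fun c _ => ?_
    rw [Finset.sum_comm]
    refine Finset.sum_congr rfl fun d _ => Finset.sum_congr rfl fun b _ => ?_
    ring
  simp only [h3]
  calc ∑ p, ∑ q, ∑ c, ∑ d, ∑ b, G (χ x₀) p q * N2.Rm G q b c d (χ x₀) * Jac χ x₀ c i *
          Jac χ x₀ d j * Jac χ x₀ b k * Jac χ x₀ p l
      = ∑ p, ∑ c, ∑ q, ∑ d, ∑ b, G (χ x₀) p q * N2.Rm G q b c d (χ x₀) * Jac χ x₀ c i *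
          Jac χ x₀ d j * Jac χ x₀ b k * Jac χ x₀ p l :=
        Finset.sum_congr rfl fun p _ => Finset.sum_comm
    _ = ∑ c, ∑ p, ∑ q, ∑ d, ∑ b, G (χ x₀) p q * N2.Rm G q b c d (χ x₀) * Jac χ x₀ c i *
          Jac χ x₀ d j * Jac χ x₀ b k * Jac χ x₀ p l := Finset.sum_comm
    _ = ∑ c, ∑ p, ∑ d, ∑ q, ∑ b, G (χ x₀) p q * N2.Rm G q b c d (χ x₀) * Jac χ x₀ c i *
          Jac χ x₀ d j * Jac χ x₀ b k * Jac χ x₀ p l :=
        Finset.sum_congr rfl fun c _ => Finset.sum_congr rfl fun p _ => Finset.sum_comm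
    _ = ∑ c, ∑ d, ∑ p, ∑ q, ∑ b, G (χ x₀) p q * N2.Rm G q b c d (χ x₀) * Jac χ x₀ c i *
          Jac χ x₀ d j * Jac χ x₀ b k * Jac χ x₀ p l :=
        Finset.sum_congr rfl fun c _ => Finset.sum_comm
    _ = ∑ c, ∑ d, ∑ p, ∑ b, ∑ q, G (χ x₀) p q * N2.Rm G q b c d (χ x₀) * Jac χ x₀ c i *
          Jac χ x₀ d j * Jac χ x₀ b k * Jac χ x₀ p l :=
        Finset.sum_congr rfl fun c _ => Finset.sum_congr rfl fun d _ =>
          Finset.sum_congr rfl fun p _ => Finset.sum_comm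
    _ = ∑ c, ∑ d, ∑ b, ∑ p, ∑ q, G (χ x₀) p q * N2.Rm G q b c d (χ x₀) * Jac χ x₀ c i *
          Jac χ x₀ d j * Jac χ x₀ b k * Jac χ x₀ p l :=
        Finset.sum_congr rfl fun c _ => Finset.sum_congr rfl fun d _ => Finset.sum_comm

theorem Q2_pull {n : ℕ} {χ : Eu n → Eu n} {x₀ : Eu n} (hφ : ContDiffAt ℝ ∞ χ x₀)
    (hJ : (Jac χ x₀).det ≠ 0)
    {G : Eu n → Mt n} (hG : ∀ i j, ContDiffAt ℝ ∞ (fun x => G x i j) (χ x₀))
    (hs : ∀ᶠ x in 𝓝 (χ x₀), (G x).IsSymm) (hd : (G (χ x₀)).det ≠ 0) (Φ : Mt n) :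
    Q2 (fun a b c d => R4 (pull χ G) a b c d x₀) Φ =
      Q2 (fun a b c d => R4 G a b c d (χ x₀)) (Jac χ x₀ * Φ * (Jac χ x₀)ᵀ) := by
  unfold Q2
  have h : ∀ a b c d, R4 G a b c d (χ x₀) * (Jac χ x₀ * Φ * (Jac χ x₀)ᵀ) a c *
      (Jac χ x₀ * Φ * (Jac χ x₀)ᵀ) b d =
      ∑ q : Fin n × Fin n × Fin n × Fin n,
        R4 G a b c d (χ x₀) * (Jac χ x₀ a q.1 * Jac χ x₀ b q.2.2.1 * Jac χ x₀ c q.2.1 *
          Jac χ x₀ d q.2.2.2 * Φ q.2.2.1 q.2.2.2 * Φ q.1 q.2.1) := by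
    intro a b c d
    rw [mul_assoc, cong_prod, sum4, Finset.mul_sum]
  simp only [h, R4_pull hφ hJ hG hs hd]
  have h2 : ∀ i j k l, (∑ a, ∑ b, ∑ c, ∑ d, R4 G a b c d (χ x₀) * Jac χ x₀ a i * Jac χ x₀ b j *
      Jac χ x₀ c k * Jac χ x₀ d l) * Φ i k * Φ j l =
      ∑ q : Fin n × Fin n × Fin n × Fin n, R4 G q.1 q.2.1 q.2.2.1 q.2.2.2 (χ x₀) *
        Jac χ x₀ q.1 i * Jac χ x₀ q.2.1 j * Jac χ x₀ q.2.2.1 k * Jac χ x₀ q.2.2.2 l *
          Φ i k * Φ j l := by
    intro i j k l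
    rw [sum4, Finset.sum_mul, Finset.sum_mul]
  simp only [h2]
  rw [sum4, sum4, Finset.sum_comm]
  refine Finset.sum_congr rfl fun p _ => ?_
  -- reindex the inner sum : swap second and third components
  refine Fintype.sum_equiv ⟨fun q => (q.1, q.2.2.1, q.2.1, q.2.2.2),
    fun q => (q.1, q.2.2.1, q.2.1, q.2.2.2), fun q => rfl, fun q => rfl⟩ _ _ fun q => ?_
  simp only [Equiv.coe_fn_mk]
  ring

/-! ### dependence on the germ -/

theorem Gam_congr {n : ℕ} {G G' : Eu n → Mt n} {x : Eu n} (h : G =ᶠ[𝓝 x] G') (a b c : Fin n) :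
    Gam G a b c =ᶠ[𝓝 x] Gam G' a b c := by
  filter_upwards [h.eventuallyEq_nhds] with y hy
  have h1 : ∀ i k l, pd i (fun z => G z k l) y = pd i (fun z => G' z k l) y := by
    intro i k l
    exact N2.pd_congr (hy.mono fun z hz => by simp only [hz])
  unfold Gam
  simp only [h1, hy.eq_of_nhds]

theorem R4_congr {n : ℕ} {G G' : Eu n → Mt n} {x : Eu n} (h : G =ᶠ[𝓝 x] G') (i j k l : Fin n) :
    R4 G i j k l x = R4 G' i j k l x := by
  unfold R4 N2.Rm
  have h1 : ∀ m a b c, pd m (Gam G a b c) x = pd m (Gam G' a b c) x := fun m a b c =>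
    N2.pd_congr (Gam_congr h a b c)
  have h2 : ∀ a b c, Gam G a b c x = Gam G' a b c x := fun a b c =>
    (Gam_congr h a b c).eq_of_nhds
  simp only [h1, h2, h.eq_of_nhds]

/-! ### the algebraic form -/

/-- the matrix of sectional curvatures -/
def KM (rf ff rh hh fh : ℝ) (i j : Fin 5) : ℝ :=
  if i = j then 0
  else if i = 0 then (if j = 1 ∨ j = 2 then rf else rh)
  else if j = 0 then (if i = 1 ∨ i = 2 then rf else rh)
  else if (i = 1 ∨ i = 2) ∧ (j = 1 ∨ j = 2) then ff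
  else if (i = 3 ∨ i = 4) ∧ (j = 3 ∨ j = 4) then hh
  else fh

theorem KK_eq (E F H : ℝ → ℝ) (r : ℝ) : KK E F H r =
    KM (Krf E F r) (Kff E F r) (Krf E H r) (Kff E H r) (Kfh E F H r) := rfl

theorem Q2_diag {n : ℕ} (K : Fin n → Fin n → ℝ) (g : Fin n → ℝ) (Φ : Mt n) :
    Q2 (fun a b c d => K a b * g a * g b *
        ((if b = c ∧ a = d then 1 else 0) - (if a = c ∧ b = d then 1 else 0))) Φ =
      ∑ a, ∑ b, K a b * g a * g b * (Φ a b * Φ b a - Φ a a * Φ b b) := by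
  unfold Q2
  refine Finset.sum_congr rfl fun a _ => Finset.sum_congr rfl fun b _ => ?_
  have h1 : ∀ c d, K a b * g a * g b *
      ((if b = c ∧ a = d then (1:ℝ) else 0) - (if a = c ∧ b = d then 1 else 0)) * Φ a c * Φ b d =
      (if b = c then (if a = d then K a b * g a * g b * Φ a c * Φ b d else 0) else 0) -
      (if a = c then (if b = d then K a b * g a * g b * Φ a c * Φ b d else 0) else 0) := by
    intro c d
    simp only [ite_and]
    split_ifs <;> ring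
  simp only [h1, Finset.sum_sub_distrib]
  have h2 : ∀ c, ∑ d, (if b = c then (if a = d then K a b * g a * g b * Φ a c * Φ b d else 0) else 0)
      = if b = c then K a b * g a * g b * Φ a c * Φ b a else 0 := by
    intro c
    split_ifs
    · simp
    · simp
  have h3 : ∀ c, ∑ d, (if a = c then (if b = d then K a b * g a * g b * Φ a c * Φ b d else 0) else 0)
      = if a = c then K a b * g a * g b * Φ a c * Φ b b else 0 := by
    intro c
    split_ifs
    · simp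
    · simp
  simp only [h2, h3, Finset.sum_ite_eq, Finset.mem_univ, if_true]
  ring

/-- positivity conditions for the five sectional curvatures -/
def PosN (rf ff rh hh fh : ℝ) : Prop :=
  0 < rf ∧ 0 < ff ∧ 0 < rh ∧ 0 < hh ∧ 0 < fh ∧ 0 < 4 * rf - ff ∧
    0 < (4 * rf - ff) * (4 * rh - hh) - 4 * (rf + rh - fh) ^ 2

/-- a lower bound of the form -/
noncomputable def cst (rf ff rh hh fh : ℝ) : ℝ :=
  min (min rf ff) (min (min rh hh) (min fh
    (((4 * rf - ff) * (4 * rh - hh) - 4 * (rf + rh - fh) ^ 2) /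
      (5 * ((4 * rf - ff) + (4 * rh - hh))))))

theorem PosN.sec {rf ff rh hh fh : ℝ} (h : PosN rf ff rh hh fh) : 0 < 4 * rh - hh := by
  obtain ⟨_, _, _, _, _, h6, h7⟩ := h
  by_contra hc
  push Not at hc
  nlinarith [sq_nonneg (rf + rh - fh), mul_nonneg h6.le (sub_nonneg.2 hc)]

theorem cst_pos {rf ff rh hh fh : ℝ} (h : PosN rf ff rh hh fh) : 0 < cst rf ff rh hh fh := by
  have h8 := h.sec
  obtain ⟨h1, h2, h3, h4, h5, h6, h7⟩ := h
  unfold cst
  refine lt_min (lt_min h1 h2) (lt_min (lt_min h3 h4) (lt_min h5 ?_))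
  exact div_pos h7 (by positivity)

theorem form_lower {rf ff rh hh fh c : ℝ} (h : PosN rf ff rh hh fh) (hc : c ≤ cst rf ff rh hh fh)
    (hc0 : 0 ≤ c) (g : Fin 5 → ℝ) (hg : ∀ i, 0 < g i) (Φ : Mt 5) (hΦ : Φ.IsSymm)
    (htr : ∑ a, g a * Φ a a = 0) :
    c * ∑ a, ∑ b, g a * g b * Φ a b ^ 2 ≤
      ∑ a, ∑ b, KM rf ff rh hh fh a b * g a * g b * (Φ a b * Φ b a - Φ a a * Φ b b) := by
  have h8 := h.sec
  obtain ⟨h1, h2, h3, h4, h5, h6, h7⟩ := h
  unfold cst at hc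
  rw [le_min_iff, le_min_iff, le_min_iff, le_min_iff, le_min_iff] at hc
  obtain ⟨⟨c1, c2⟩, ⟨c3, c4⟩, c5, c6⟩ := hc
  have hS : 0 < (4 * rf - ff) + (4 * rh - hh) := by linarith
  have c7 : 5 * c * ((4 * rf - ff) + (4 * rh - hh)) ≤
      (4 * rf - ff) * (4 * rh - hh) - 4 * (rf + rh - fh) ^ 2 := by
    rw [le_div_iff₀ (by positivity)] at c6
    linarith
  -- the two-dimensional form
  have key : ∀ p q : ℝ, 5 * c * (p ^ 2 + q ^ 2) ≤
      (4 * rf - ff) * p ^ 2 + (4 * rh - hh) * q ^ 2 + 4 * (rf + rh - fh) * p * q := by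
    intro p q
    set A := 4 * rf - ff with hA
    set B := 4 * rh - hh with hB
    set C := 2 * (rf + rh - fh) with hC
    have c8 : 5 * c * (A + B) ≤ A * B - C ^ 2 := by rw [hC]; linarith
    set l := 5 * c with hl
    have hl0 : 0 ≤ l := by positivity
    have e1 : 0 < A - l := by
      have : l * (A + B) < A * (A + B) := by nlinarith [sq_nonneg C, sq_nonneg A]
      have := lt_of_mul_lt_mul_right this hS.le
      linarith
    have e2 : C ^ 2 ≤ (A - l) * (B - l) := by nlinarith [sq_nonneg l]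
    have e3 : 0 ≤ (A - l) * ((A - l) * p ^ 2 + (B - l) * q ^ 2 + 2 * C * p * q) := by
      have : (A - l) * ((A - l) * p ^ 2 + (B - l) * q ^ 2 + 2 * C * p * q) =
          ((A - l) * p + C * q) ^ 2 + ((A - l) * (B - l) - C ^ 2) * q ^ 2 := by ring
      rw [this]
      have : 0 ≤ ((A - l) * (B - l) - C ^ 2) * q ^ 2 :=
        mul_nonneg (by linarith) (sq_nonneg q)
      positivity
    have e4 := nonneg_of_mul_nonneg_right e3 e1
    have : 4 * (rf + rh - fh) * p * q = 2 * C * p * q := by rw [hC]; ring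
    rw [this]
    nlinarith
  have sy : ∀ a b, Φ a b = Φ b a := fun a b => hΦ.apply b a
  -- off-diagonal terms
  have off : ∀ (K : ℝ) a b, c ≤ K → c * (g a * g b * Φ a b ^ 2) ≤ K * (g a * g b * Φ a b ^ 2) := by
    intro K a b hK
    have := hg a
    have := hg b
    exact mul_le_mul_of_nonneg_right hK (by positivity)
  -- diagonal terms
  set x : Fin 5 → ℝ := fun a => g a * Φ a a with hx
  have hx0 : x 0 + x 1 + x 2 + x 3 + x 4 = 0 := by
    rw [Fin.sum_univ_five] at htr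
    exact htr
  have hxx : x 0 = -(x 1 + x 2) - (x 3 + x 4) := by linarith
  have dg : c * (x 0 ^ 2 + x 1 ^ 2 + x 2 ^ 2 + x 3 ^ 2 + x 4 ^ 2) ≤
      -2 * (rf * x 0 * (x 1 + x 2) + rh * x 0 * (x 3 + x 4) + ff * x 1 * x 2 + hh * x 3 * x 4 +
        fh * (x 1 + x 2) * (x 3 + x 4)) := by
    rw [hxx]
    have k := key (x 1 + x 2) (x 3 + x 4)
    have k2 := mul_le_mul_of_nonneg_right c2 (sq_nonneg (x 1 - x 2))
    have k3 := mul_le_mul_of_nonneg_right c4 (sq_nonneg (x 3 - x 4))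
    have k4 := mul_nonneg hc0 (sq_nonneg ((x 1 + x 2) - (x 3 + x 4)))
    nlinarith
  simp only [Fin.sum_univ_five, KM]
  simp only [show (0:Fin 5) ≠ 1 by decide, show (0:Fin 5) ≠ 2 by decide, show (0:Fin 5) ≠ 3 by decide,
    show (0:Fin 5) ≠ 4 by decide, show (1:Fin 5) ≠ 0 by decide, show (1:Fin 5) ≠ 2 by decide,
    show (1:Fin 5) ≠ 3 by decide, show (1:Fin 5) ≠ 4 by decide, show (2:Fin 5) ≠ 0 by decide,
    show (2:Fin 5) ≠ 1 by decide, show (2:Fin 5) ≠ 3 by decide, show (2:Fin 5) ≠ 4 by decide,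
    show (3:Fin 5) ≠ 0 by decide, show (3:Fin 5) ≠ 1 by decide, show (3:Fin 5) ≠ 2 by decide,
    show (3:Fin 5) ≠ 4 by decide, show (4:Fin 5) ≠ 0 by decide, show (4:Fin 5) ≠ 1 by decide,
    show (4:Fin 5) ≠ 2 by decide, show (4:Fin 5) ≠ 3 by decide, if_true, if_false, true_or, or_true,
    false_or, or_false, and_true, true_and, and_false, false_and, or_self, and_self]
  rw [sy 1 0, sy 2 0, sy 3 0, sy 4 0, sy 2 1, sy 3 1, sy 4 1, sy 3 2, sy 4 2, sy 4 3]
  have o01 := off rf 0 1 c1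
  have o02 := off rf 0 2 c1
  have o03 := off rh 0 3 c3
  have o04 := off rh 0 4 c3
  have o12 := off ff 1 2 c2
  have o34 := off hh 3 4 c4
  have o13 := off fh 1 3 c5
  have o14 := off fh 1 4 c5
  have o23 := off fh 2 3 c5
  have o24 := off fh 2 4 c5
  simp only [hx] at dg
  linarith

/-! ### one-variable functions -/

theorem Icc_sub_Is {s : ℝ} (hs : s ∈ Icc (0:ℝ) 1) : s ∈ Is := by
  refine ⟨?_, ?_⟩
  · linarith [hs.1]
  · linarith [hs.2]

theorem SmI.d {u : ℝ → ℝ} (hu : SmI u) : SmI (deriv u) :=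
  hu.deriv_of_isOpen isOpen_Ioo (by simp)

theorem SmI.cont {u : ℝ → ℝ} (hu : SmI u) : ContinuousOn u (Icc (0:ℝ) 1) :=
  hu.continuousOn.mono fun _ hs => Icc_sub_Is hs

theorem SmI.at {u : ℝ → ℝ} (hu : SmI u) {s : ℝ} (hs : s ∈ Icc (0:ℝ) 1) : ContDiffAt ℝ ∞ u s :=
  hu.contDiffAt (isOpen_Ioo.mem_nhds (Icc_sub_Is hs))

section curv
variable (u v w : ℝ → ℝ) (s : ℝ)

noncomputable def eS : ℝ := cE s (u s) (v s) (w s)
noncomputable def rfS : ℝ := (cE s (u s) (v s) (w s))⁻¹ *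
      kRF s (u s) (v s) (w s) (deriv u s) (deriv v s) (deriv w s) (deriv (deriv u) s)
        (u s)⁻¹ (cE s (u s) (v s) (w s))⁻¹
noncomputable def rhS : ℝ := (cE s (u s) (v s) (w s))⁻¹ *
      kRH s (u s) (v s) (w s) (deriv u s) (deriv v s) (deriv w s) (deriv (deriv v) s)
        (v s)⁻¹ (cE s (u s) (v s) (w s))⁻¹
noncomputable def ffS : ℝ := (cE s (u s) (v s) (w s))⁻¹ *
      kFF s (u s) (v s) (w s) (deriv u s) (u s)⁻¹
noncomputable def hhS : ℝ := (cE s (u s) (v s) (w s))⁻¹ *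
      kHH s (u s) (v s) (w s) (deriv v s) (v s)⁻¹
noncomputable def fhS : ℝ := (cE s (u s) (v s) (w s))⁻¹ *
      kFH s (deriv u s) (deriv v s) (u s)⁻¹ (v s)⁻¹
end curv

theorem cE_pos {s U V W : ℝ} (hs : s ∈ Icc (0:ℝ) 1) (hU : 0 < U) (hV : 0 < V) (hW : 0 ≤ W) :
    0 < cE s U V W := by
  obtain ⟨h0, h1⟩ := hs
  simp only [cE]
  have h2 : 0 ≤ s * (1 - s) * W := mul_nonneg (mul_nonneg h0 (by linarith)) hW
  rcases h0.eq_or_lt with h | h
  · subst h; simp; exact hU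
  · have := mul_pos h hV
    have := mul_nonneg (sub_nonneg.2 h1) hU.le
    linarith

theorem PosN_of_PosK {u v w : ℝ → ℝ} {s : ℝ} (hE : 0 < cE s (u s) (v s) (w s))
    (hK : PosK s (u s) (v s) (w s) (deriv u s) (deriv v s) (deriv w s)
      (deriv (deriv u) s) (deriv (deriv v) s)) :
    PosN (rfS u v w s) (ffS u v w s) (rhS u v w s) (hhS u v w s) (fhS u v w s) := by
  unfold PosK at hK
  simp only at hK
  obtain ⟨h1, h2, h3, h4, h5, h6, h7⟩ := hK
  have hi : 0 < (cE s (u s) (v s) (w s))⁻¹ := inv_pos.2 hE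
  unfold rfS ffS rhS hhS fhS
  refine ⟨mul_pos hi h1, mul_pos hi h2, mul_pos hi h3, mul_pos hi h4, mul_pos hi h5, ?_, ?_⟩
  · have := mul_pos hi h6
    linarith
  · have := mul_pos (mul_pos hi hi) h7
    nlinarith

section cont
variable {u v w : ℝ → ℝ} (hu : SmI u) (hv : SmI v) (hw : SmI w)
    (hpos : ∀ s ∈ Icc (0:ℝ) 1, 0 < u s ∧ 0 < v s ∧ 0 ≤ w s)
include hu hv hw hpos

theorem all_cont :
    ContinuousOn (eS u v w) (Icc (0:ℝ) 1) ∧ ContinuousOn (rfS u v w) (Icc (0:ℝ) 1) ∧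
    ContinuousOn (ffS u v w) (Icc (0:ℝ) 1) ∧ ContinuousOn (rhS u v w) (Icc (0:ℝ) 1) ∧
    ContinuousOn (hhS u v w) (Icc (0:ℝ) 1) ∧ ContinuousOn (fhS u v w) (Icc (0:ℝ) 1) := by
  have cu := SmI.cont hu
  have cv := SmI.cont hv
  have cw := SmI.cont hw
  have cu1 := SmI.cont (SmI.d hu)
  have cv1 := SmI.cont (SmI.d hv)
  have cw1 := SmI.cont (SmI.d hw)
  have cu2 := SmI.cont (SmI.d (SmI.d hu))
  have cv2 := SmI.cont (SmI.d (SmI.d hv))
  have ciu : ContinuousOn (fun s => (u s)⁻¹) (Icc (0:ℝ) 1) := cu.inv₀ fun s hs => (hpos s hs).1.ne'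
  have civ : ContinuousOn (fun s => (v s)⁻¹) (Icc (0:ℝ) 1) := cv.inv₀ fun s hs => (hpos s hs).2.1.ne'
  have ce : ContinuousOn (fun s => cE s (u s) (v s) (w s)) (Icc (0:ℝ) 1) := by
    simp only [cE]; fun_prop
  have cie : ContinuousOn (fun s => (cE s (u s) (v s) (w s))⁻¹) (Icc (0:ℝ) 1) :=
    ce.inv₀ fun s hs => (cE_pos hs (hpos s hs).1 (hpos s hs).2.1 (hpos s hs).2.2).ne'
  refine ⟨ce, ?_, ?_, ?_, ?_, ?_⟩
  · unfold rfS
    refine cie.mul ?_
    simp only [kRF, cE1]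
    fun_prop
  · unfold ffS
    refine cie.mul ?_
    simp only [kFF, cQ]
    fun_prop
  · unfold rhS
    refine cie.mul ?_
    simp only [kRH, cE1]
    fun_prop
  · unfold hhS
    refine cie.mul ?_
    simp only [kHH, cR]
    fun_prop
  · unfold fhS
    refine cie.mul ?_
    simp only [kFH]
    fun_prop

theorem exists_c
    (hK : ∀ s ∈ Icc (0:ℝ) 1, PosK s (u s) (v s) (w s) (deriv u s) (deriv v s) (deriv w s)
      (deriv (deriv u) s) (deriv (deriv v) s)) :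
    ∃ c : ℝ, 0 < c ∧ ∀ s ∈ Icc (0:ℝ) 1,
      PosN (rfS u v w s) (ffS u v w s) (rhS u v w s) (hhS u v w s) (fhS u v w s) ∧
      c ≤ cst (rfS u v w s) (ffS u v w s) (rhS u v w s) (hhS u v w s) (fhS u v w s) := by
  obtain ⟨_, c1, c2, c3, c4, c5⟩ := all_cont hu hv hw hpos
  have hN : ∀ s ∈ Icc (0:ℝ) 1,
      PosN (rfS u v w s) (ffS u v w s) (rhS u v w s) (hhS u v w s) (fhS u v w s) := fun s hs =>
    PosN_of_PosK (cE_pos hs (hpos s hs).1 (hpos s hs).2.1 (hpos s hs).2.2) (hK s hs)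
  have hc : ContinuousOn (fun s => cst (rfS u v w s) (ffS u v w s) (rhS u v w s) (hhS u v w s)
      (fhS u v w s)) (Icc (0:ℝ) 1) := by
    unfold cst
    refine ContinuousOn.inf (ContinuousOn.inf c1 c2) (ContinuousOn.inf (ContinuousOn.inf c3 c4)
      (ContinuousOn.inf c5 ?_))
    refine ContinuousOn.div (by fun_prop) (by fun_prop) ?_
    intro s hs
    have h1 := (hN s hs).sec
    obtain ⟨_, _, _, _, _, h6, h7⟩ := hN s hs
    positivity
  obtain ⟨s₀, hs₀, hmin⟩ := isCompact_Icc.exists_isMinOn (⟨0, by simp⟩ : (Icc (0:ℝ) 1).Nonempty) hc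
  exact ⟨_, cst_pos (hN s₀ hs₀), fun s hs => ⟨hN s hs, hmin hs⟩⟩

theorem sm_r {r : ℝ} :
    ContDiffAt ℝ ∞ (Er u v w) r ∧ ContDiffAt ℝ ∞ (Fr u) r ∧ ContDiffAt ℝ ∞ (Hr v) r := by
  have hs : Real.sin r ^ 2 ∈ Icc (0:ℝ) 1 := ⟨sq_nonneg _, Real.sin_sq_le_one r⟩
  have hsin : ContDiffAt ℝ ∞ (fun r => Real.sin r ^ 2) r := (Real.contDiff_sin.pow 2).contDiffAt
  have hcos : ContDiffAt ℝ ∞ (fun r => Real.cos r ^ 2) r := (Real.contDiff_cos.pow 2).contDiffAt
  have h1 : ContDiffAt ℝ ∞ (fun r => u (Real.sin r ^ 2)) r :=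
    ContDiffAt.comp (g := u) (f := fun r => Real.sin r ^ 2) r (SmI.at hu hs) hsin
  have h2 : ContDiffAt ℝ ∞ (fun r => v (Real.sin r ^ 2)) r :=
    ContDiffAt.comp (g := v) (f := fun r => Real.sin r ^ 2) r (SmI.at hv hs) hsin
  have h3 : ContDiffAt ℝ ∞ (fun r => w (Real.sin r ^ 2)) r :=
    ContDiffAt.comp (g := w) (f := fun r => Real.sin r ^ 2) r (SmI.at hw hs) hsin
  refine ⟨?_, ?_, ?_⟩
  · unfold Er
    simp only [cE]
    exact (((contDiffAt_const.sub hsin).mul h1).add (hsin.mul h2)).add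
      ((hsin.mul (contDiffAt_const.sub hsin)).mul h3)
  · exact hsin.mul h1
  · exact hcos.mul h2

theorem pos_r {r : ℝ} (h0 : 0 < r) (h1 : r < Real.pi / 2) :
    0 < Er u v w r ∧ 0 < Fr u r ∧ 0 < Hr v r := by
  have hs : Real.sin r ^ 2 ∈ Icc (0:ℝ) 1 := ⟨sq_nonneg _, Real.sin_sq_le_one r⟩
  have a1 : 0 < Real.sin r := Real.sin_pos_of_pos_of_lt_pi h0 (by linarith [Real.pi_pos])
  have a2 : 0 < Real.cos r := Real.cos_pos_of_mem_Ioo ⟨by linarith [Real.pi_pos], h1⟩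
  have := (hpos _ hs).1
  have := (hpos _ hs).2.1
  refine ⟨cE_pos hs (hpos _ hs).1 (hpos _ hs).2.1 (hpos _ hs).2.2, ?_, ?_⟩
  · unfold Fr; positivity
  · unfold Hr; positivity
end cont

theorem dgv_pos {E F H : ℝ → ℝ} {r : ℝ} (hE : 0 < E r) (hF : 0 < F r) (hH : 0 < H r) (i : Fin 5) :
    0 < dgv E F H i (pt r) := by
  have hsg : ∀ a b, 0 < sg a b := by
    intro a b
    unfold sg
    positivity
  fin_cases i
  · simpa [dgv, pt] using hE
  · exact mul_pos hF (hsg _ _)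
  · exact mul_pos hF (hsg _ _)
  · exact mul_pos hH (hsg _ _)
  · exact mul_pos hH (hsg _ _)

/-! ### the good points -/

theorem ctarget_univ {e : OpenPartialHomeomorph S5 (En 5)} (he : e ∈ atlas (En 5) S5) :
    ctarget e = univ := by
  have := (chart_pkg e he).1
  unfold ctarget
  rw [this]
  simp

section good
variable {u v w : ℝ → ℝ} (hu : SmI u) (hv : SmI v) (hw : SmI w)
    (hpos : ∀ s ∈ Icc (0:ℝ) 1, 0 < u s ∧ 0 < v s ∧ 0 ≤ w s)
include hu hv hw hpos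

/-- the form at the point `(r, 0, 0, 0, 0)` of the doubly warped product -/
theorem Q2_DG {r : ℝ} (h0 : 0 < r) (h1 : r < Real.pi / 2) (Φ : Mt 5) :
    Q2 (fun a b c d => R4 (DG (Er u v w) (Fr u) (Hr v)) a b c d (pt r)) Φ =
      ∑ a, ∑ b, KM (rfS u v w (Real.sin r ^ 2)) (ffS u v w (Real.sin r ^ 2))
        (rhS u v w (Real.sin r ^ 2)) (hhS u v w (Real.sin r ^ 2)) (fhS u v w (Real.sin r ^ 2)) a b *
        dgv (Er u v w) (Fr u) (Hr v) a (pt r) * dgv (Er u v w) (Fr u) (Hr v) b (pt r) *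
        (Φ a b * Φ b a - Φ a a * Φ b b) := by
  obtain ⟨sE, sF, sH⟩ := sm_r hu hv hw hpos (r := r)
  obtain ⟨pE, pF, pH⟩ := pos_r hu hv hw hpos h0 h1
  obtain ⟨k1, k2, k3, k4, k5⟩ := K_of u v w hu hv hw hpos r _ h0 h1 rfl
  simp only [R4_DG sE sF sH pE pF pH]
  rw [Q2_diag (KK (Er u v w) (Fr u) (Hr v) r) (fun i => dgv (Er u v w) (Fr u) (Hr v) i (pt r)),
    KK_eq, k1, k2, k3, k4, k5]
  rfl

theorem good_lower {c : ℝ} (hc0 : 0 ≤ c)
    (hc : ∀ s ∈ Icc (0:ℝ) 1,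
      PosN (rfS u v w s) (ffS u v w s) (rhS u v w s) (hhS u v w s) (fhS u v w s) ∧
      c ≤ cst (rfS u v w s) (ffS u v w s) (rhS u v w s) (hhS u v w s) (fhS u v w s))
    (g : Metric 5 S5) (e : OpenPartialHomeomorph S5 (En 5)) (he : e ∈ atlas (En 5) S5)
    (hg : g.G e = pullA (Pinv e) u v w) {y : Eu 5} (h0 : 0 < sz (Pinv e y))
    (h1 : sz (Pinv e y) < 1) (Ψ : Mt 5) (hΨ : Ψ.IsSymm) (htr : (g.G e y * Ψ).trace = 0) :
    c * (g.G e y * Ψ * (g.G e y * Ψ)).trace ≤ Q2 (fun a b c d => R4 (g.G e) a b c d y) Ψ := by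
  obtain ⟨χ, r, hr0, hr1, hr2, hχ, hχy, hJ, hpull⟩ := chart_pull e he y h0 h1
  have hp := hpull u v w
  rw [← hg] at hp
  have hu' := ctarget_univ he
  have hG : ∀ i j, ContDiffAt ℝ ∞ (fun x => g.G e x i j) (χ (pt r)) := by
    intro i j
    have := g.smooth e he i j
    rw [hu'] at this
    exact (contDiffOn_univ.1 this).contDiffAt
  have hPD : ∀ x, (g.G e x).PosDef := fun x => g.posDef e he x (by rw [hu']; trivial)
  have hsym : ∀ x, (g.G e x).IsSymm := by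
    intro x
    have := (hPD x).isHermitian
    rwa [Matrix.IsHermitian, Matrix.conjTranspose_eq_transpose_of_trivial] at this
  have hd : (g.G e (χ (pt r))).det ≠ 0 := (hPD _).det_pos.ne'
  set J := Jac χ (pt r) with hJdef
  have hJu : IsUnit J.det := isUnit_iff_ne_zero.2 hJ
  set Φ : Mt 5 := J⁻¹ * Ψ * (J⁻¹)ᵀ with hΦdef
  have hΦΨ : J * Φ * Jᵀ = Ψ := by
    have e1 : (J⁻¹)ᵀ * Jᵀ = 1 := by
      rw [← Matrix.transpose_mul, Matrix.mul_nonsing_inv _ hJu, Matrix.transpose_one]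
    calc J * Φ * Jᵀ = (J * J⁻¹) * Ψ * ((J⁻¹)ᵀ * Jᵀ) := by
          rw [hΦdef]; simp only [Matrix.mul_assoc]
      _ = Ψ := by rw [Matrix.mul_nonsing_inv _ hJu, e1, Matrix.one_mul, Matrix.mul_one]
  have hΦs : Φ.IsSymm := by
    unfold Matrix.IsSymm
    rw [hΦdef, Matrix.transpose_mul, Matrix.transpose_mul, Matrix.transpose_transpose, hΨ.eq,
      Matrix.mul_assoc]
  set D := DG (Er u v w) (Fr u) (Hr v) (pt r) with hD
  have hDJ : Jᵀ * g.G e y * J = D := by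
    have := hp.eq_of_nhds
    unfold pull at this
    rw [hχy] at this
    exact this
  have t1 : (g.G e y * Ψ).trace = (D * Φ).trace := by
    rw [← hΦΨ, ← hDJ]
    calc (g.G e y * (J * Φ * Jᵀ)).trace = ((g.G e y * J * Φ) * Jᵀ).trace := by
          simp only [Matrix.mul_assoc]
      _ = (Jᵀ * (g.G e y * J * Φ)).trace := Matrix.trace_mul_comm _ _
      _ = _ := by simp only [Matrix.mul_assoc]
  have t2 : (g.G e y * Ψ * (g.G e y * Ψ)).trace = (D * Φ * (D * Φ)).trace := by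
    rw [← hΦΨ, ← hDJ]
    calc (g.G e y * (J * Φ * Jᵀ) * (g.G e y * (J * Φ * Jᵀ))).trace
        = ((g.G e y * J * Φ * Jᵀ * g.G e y * J * Φ) * Jᵀ).trace := by
          simp only [Matrix.mul_assoc]
      _ = (Jᵀ * (g.G e y * J * Φ * Jᵀ * g.G e y * J * Φ)).trace := Matrix.trace_mul_comm _ _
      _ = _ := by simp only [Matrix.mul_assoc]
  have hDd : D = Matrix.diagonal (fun i => dgv (Er u v w) (Fr u) (Hr v) i (pt r)) := rfl
  obtain ⟨pE, pF, pH⟩ := pos_r hu hv hw hpos hr0 hr1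
  have hgp : ∀ i, 0 < dgv (Er u v w) (Fr u) (Hr v) i (pt r) := dgv_pos pE pF pH
  have hs : Real.sin r ^ 2 ∈ Icc (0:ℝ) 1 := ⟨sq_nonneg _, Real.sin_sq_le_one r⟩
  have t3 : ∑ a, dgv (Er u v w) (Fr u) (Hr v) a (pt r) * Φ a a = 0 := by
    rw [← htr, t1, hDd]
    simp [Matrix.trace, Matrix.diagonal_mul]
  have t4 : (D * Φ * (D * Φ)).trace = ∑ a, ∑ b, dgv (Er u v w) (Fr u) (Hr v) a (pt r) *
      dgv (Er u v w) (Fr u) (Hr v) b (pt r) * Φ a b ^ 2 := by
    have hm : ∀ a b, (D * Φ) a b = dgv (Er u v w) (Fr u) (Hr v) a (pt r) * Φ a b := by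
      intro a b
      rw [hDd, Matrix.diagonal_mul]
    have ht : (D * Φ * (D * Φ)).trace = ∑ a, ∑ b, (D * Φ) a b * (D * Φ) b a := by
      simp only [Matrix.trace, Matrix.diag_apply]
      refine Finset.sum_congr rfl fun a _ => ?_
      rw [Matrix.mul_apply]
    rw [ht]
    refine Finset.sum_congr rfl fun a _ => Finset.sum_congr rfl fun b _ => ?_
    rw [hm, hm, hΦs.apply a b]
    ring
  have main := form_lower (hc _ hs).1 (hc _ hs).2 hc0 _ hgp Φ hΦs t3
  rw [t2, t4]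
  have q1 := Q2_pull hχ hJ hG (Filter.Eventually.of_forall hsym) hd Φ
  rw [hχy, ← hJdef, hΦΨ] at q1
  rw [← q1]
  have q2 : (fun a b c d => R4 (pull χ (g.G e)) a b c d (pt r)) =
      (fun a b c d => R4 (DG (Er u v w) (Fr u) (Hr v)) a b c d (pt r)) := by
    funext a b c d
    exact R4_congr hp a b c d
  rw [q2, Q2_DG hu hv hw hpos hr0 hr1]
  exact main

end good

/-! ### continuity of the curvature -/

theorem R4_cont {n : ℕ} {G : Eu n → Mt n} {x : Eu n}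
    (hG : ∀ i j, ContDiffAt ℝ ∞ (fun x => G x i j) x) (hd : (G x).det ≠ 0) (i j k l : Fin n) :
    ContinuousAt (R4 G i j k l) x := by
  have hGk : ∀ m : ℕ, ∀ i j, ContDiffAt ℝ m (fun x => G x i j) x := fun m i j =>
    contDiffAt_infty.1 (hG i j) m
  have h1 : ∀ a b c, ContinuousAt (Gam G a b c) x := fun a b c =>
    (N2.gam_smooth (k := 0) (hGk 1) hd a b c).continuousAt
  have h2 : ∀ m a b c, ContinuousAt (pd m (Gam G a b c)) x := fun m a b c =>
    (N2.pd_smooth (k := 0) (N2.gam_smooth (k := 1) (hGk 2) hd a b c)).continuousAt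
  unfold R4 N2.Rm
  refine tendsto_finsetSum _ fun a _ => ?_
  refine ((hG l a).continuousAt).mul ?_
  refine ((h2 _ _ _ _).sub (h2 _ _ _ _)).add ?_
  refine tendsto_finsetSum _ fun b _ => ?_
  exact ((h1 _ _ _).mul (h1 _ _ _)).sub ((h1 _ _ _).mul (h1 _ _ _))

section final
variable {u v w : ℝ → ℝ} (hu : SmI u) (hv : SmI v) (hw : SmI w)
    (hpos : ∀ s ∈ Icc (0:ℝ) 1, 0 < u s ∧ 0 < v s ∧ 0 ≤ w s)
include hu hv hw hpos

theorem all_lower {c : ℝ} (hc0 : 0 ≤ c)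
    (hc : ∀ s ∈ Icc (0:ℝ) 1,
      PosN (rfS u v w s) (ffS u v w s) (rhS u v w s) (hhS u v w s) (fhS u v w s) ∧
      c ≤ cst (rfS u v w s) (ffS u v w s) (rhS u v w s) (hhS u v w s) (fhS u v w s))
    (g : Metric 5 S5) (e : OpenPartialHomeomorph S5 (En 5)) (he : e ∈ atlas (En 5) S5)
    (hg : g.G e = pullA (Pinv e) u v w) (y : Eu 5) (Ψ : Mt 5) (hΨ : Ψ.IsSymm)
    (htr : (g.G e y * Ψ).trace = 0) :
    c * (g.G e y * Ψ * (g.G e y * Ψ)).trace ≤ Q2 (fun a b c d => R4 (g.G e) a b c d y) Ψ := by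
  have hu' := ctarget_univ he
  have hG : ∀ x, ∀ i j, ContDiffAt ℝ ∞ (fun x => g.G e x i j) x := by
    intro x i j
    have := g.smooth e he i j
    rw [hu'] at this
    exact (contDiffOn_univ.1 this).contDiffAt
  have hPD : ∀ x, (g.G e x).PosDef := fun x => g.posDef e he x (by rw [hu']; trivial)
  have hsym : ∀ x, (g.G e x).IsSymm := by
    intro x
    have := (hPD x).isHermitian
    rwa [Matrix.IsHermitian, Matrix.conjTranspose_eq_transpose_of_trivial] at this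
  have hd : ∀ x, (g.G e x).det ≠ 0 := fun x => (hPD _).det_pos.ne'
  have hinvsym : ∀ x, ((g.G e x)⁻¹).IsSymm := by
    intro x
    unfold Matrix.IsSymm
    rw [Matrix.transpose_nonsing_inv, (hsym x).eq]
  -- continuity of all the ingredients
  have cR : ∀ a b c d, Continuous (R4 (g.G e) a b c d) := fun a b c d =>
    continuous_iff_continuousAt.2 fun x => R4_cont (hG x) (hd x) a b c d
  have cG : ∀ i j, Continuous (fun x => g.G e x i j) := fun i j =>
    continuous_iff_continuousAt.2 fun x => (hG x i j).continuousAt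
  have cI : ∀ i j, Continuous (fun x => (g.G e x)⁻¹ i j) := fun i j =>
    continuous_iff_continuousAt.2 fun x =>
      (N2.inv_smooth (k := 0) (fun i j => contDiffAt_infty.1 (hG x i j) 0) (hd x) i j).continuousAt
  have cT : Continuous (fun x => (g.G e x * Ψ).trace) := by
    simp only [Matrix.trace, Matrix.diag_apply, Matrix.mul_apply]
    exact continuous_finsetSum _ fun i _ => continuous_finsetSum _ fun j _ =>
      (cG i j).mul continuous_const
  let Ψ' : Eu 5 → Mt 5 := fun x => Ψ - ((g.G e x * Ψ).trace / 5) • (g.G e x)⁻¹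
  have cP : ∀ i j, Continuous (fun x => Ψ' x i j) := by
    intro i j
    simp only [Ψ', Matrix.sub_apply, Matrix.smul_apply, smul_eq_mul]
    exact continuous_const.sub ((cT.div_const _).mul (cI i j))
  have cQ : Continuous (fun x => Q2 (fun a b c d => R4 (g.G e) a b c d x) (Ψ' x)) := by
    unfold Q2
    exact continuous_finsetSum _ fun a _ => continuous_finsetSum _ fun b _ =>
      continuous_finsetSum _ fun c _ => continuous_finsetSum _ fun d _ =>
      ((cR a b c d).mul (cP a c)).mul (cP b d)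
  have cN : Continuous (fun x => c * (g.G e x * Ψ' x * (g.G e x * Ψ' x)).trace) := by
    refine continuous_const.mul ?_
    have hm : ∀ i j, Continuous (fun x => (g.G e x * Ψ' x) i j) := by
      intro i j
      simp only [Matrix.mul_apply]
      exact continuous_finsetSum _ fun k _ => (cG i k).mul (cP k j)
    have : ∀ x, (g.G e x * Ψ' x * (g.G e x * Ψ' x)).trace =
        ∑ i, ∑ j, (g.G e x * Ψ' x) i j * (g.G e x * Ψ' x) j i := by
      intro x
      simp only [Matrix.trace, Matrix.diag_apply]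
      refine Finset.sum_congr rfl fun a _ => ?_
      rw [Matrix.mul_apply]
    simp only [this]
    exact continuous_finsetSum _ fun i _ => continuous_finsetSum _ fun j _ => (hm i j).mul (hm j i)
  have hcl : IsClosed {x | c * (g.G e x * Ψ' x * (g.G e x * Ψ' x)).trace ≤
      Q2 (fun a b c d => R4 (g.G e) a b c d x) (Ψ' x)} := isClosed_le cN cQ
  have hden := good_dense e he
  have hsub : {x : Eu 5 | 0 < sz (Pinv e x) ∧ sz (Pinv e x) < 1} ⊆
      {x | c * (g.G e x * Ψ' x * (g.G e x * Ψ' x)).trace ≤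
      Q2 (fun a b c d => R4 (g.G e) a b c d x) (Ψ' x)} := by
    rintro x ⟨h0, h1⟩
    refine good_lower hu hv hw hpos hc0 hc g e he hg h0 h1 (Ψ' x) ?_ ?_
    · simp only [Ψ']
      exact hΨ.sub ((hinvsym x).smul _)
    · simp only [Ψ']
      rw [Matrix.mul_sub, Matrix.mul_smul, Matrix.mul_nonsing_inv _ (isUnit_iff_ne_zero.2 (hd x)),
        Matrix.trace_sub, Matrix.trace_smul, Matrix.trace_one]
      simp
  have hall := hcl.closure_subset_iff.2 hsub
  rw [hden.closure_eq] at hall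
  have := hall (mem_univ y)
  simp only [mem_setOf_eq, Ψ', htr, zero_div, zero_smul, sub_zero] at this
  exact this

end final

theorem pos_of (u v w : ℝ → ℝ) (hu : SmI u) (hv : SmI v) (hw : SmI w)
    (hpos : ∀ s ∈ Icc (0:ℝ) 1, 0 < u s ∧ 0 < v s ∧ 0 ≤ w s)
    (hK : ∀ s ∈ Icc (0:ℝ) 1, PosK s (u s) (v s) (w s) (deriv u s) (deriv v s) (deriv w s)
      (deriv (deriv u) s) (deriv (deriv v) s))
    (g : Metric 5 S5) (hg : ∀ e ∈ atlas (En 5) S5, g.G e = pullA (Pinv e) u v w) :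
    PosSecond g := by
  obtain ⟨c, hc, hcc⟩ := exists_c hu hv hw hpos hK
  intro e he y hy F hF φ hφ hφt hφ0
  rw [second_eq]
  have t1 : (g.G e y * (F * φ * Fᵀ)).trace = 0 := by
    calc (g.G e y * (F * φ * Fᵀ)).trace = ((g.G e y * F * φ) * Fᵀ).trace := by
          simp only [Matrix.mul_assoc]
      _ = (Fᵀ * (g.G e y * F * φ)).trace := Matrix.trace_mul_comm _ _
      _ = ((Fᵀ * g.G e y * F) * φ).trace := by simp only [Matrix.mul_assoc]
      _ = 0 := by rw [hF, Matrix.one_mul, hφt]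
  have t2 : (g.G e y * (F * φ * Fᵀ) * (g.G e y * (F * φ * Fᵀ))).trace = (φ * φ).trace := by
    calc (g.G e y * (F * φ * Fᵀ) * (g.G e y * (F * φ * Fᵀ))).trace
        = ((g.G e y * F * φ * Fᵀ * g.G e y * F * φ) * Fᵀ).trace := by
          simp only [Matrix.mul_assoc]
      _ = (Fᵀ * (g.G e y * F * φ * Fᵀ * g.G e y * F * φ)).trace := Matrix.trace_mul_comm _ _
      _ = ((Fᵀ * g.G e y * F) * φ * ((Fᵀ * g.G e y * F) * φ)).trace := by
          simp only [Matrix.mul_assoc]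
      _ = (φ * φ).trace := by rw [hF, Matrix.one_mul]
  have hs : (F * φ * Fᵀ).IsSymm := by
    unfold Matrix.IsSymm
    rw [Matrix.transpose_mul, Matrix.transpose_mul, Matrix.transpose_transpose, hφ.eq,
      Matrix.mul_assoc]
  have h := all_lower hu hv hw hpos hc.le hcc g e he (hg e he) y (F * φ * Fᵀ) hs t1
  rw [t2] at h
  refine lt_of_lt_of_le (mul_pos hc ?_) h
  have e1 : (φ * φ).trace = ∑ i, ∑ j, φ i j ^ 2 := by
    simp only [Matrix.trace, Matrix.diag_apply]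
    refine Finset.sum_congr rfl fun i _ => ?_
    rw [Matrix.mul_apply]
    refine Finset.sum_congr rfl fun j _ => ?_
    rw [hφ.apply i j]
    ring
  rw [e1]
  by_contra hcon
  push Not at hcon
  apply hφ0
  have h0 : ∑ i, ∑ j, φ i j ^ 2 = 0 :=
    le_antisymm hcon (Finset.sum_nonneg fun i _ => Finset.sum_nonneg fun j _ => sq_nonneg _)
  ext i j
  have h1 := (Finset.sum_eq_zero_iff_of_nonneg
    (fun i _ => Finset.sum_nonneg fun j _ => sq_nonneg (φ i j))).1 h0 i (Finset.mem_univ i)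
  have h2 := (Finset.sum_eq_zero_iff_of_nonneg (fun j _ => sq_nonneg (φ i j))).1 h1 j
    (Finset.mem_univ j)
  simpa using h2

/-! ### non-positivity -/

/-- the test tensor -/
def tt : Fin 5 → ℝ := ![2, 2, 2, -3, -3]

theorem KM_tt (rf ff rh hh fh : ℝ) :
    ∑ a, ∑ b, KM rf ff rh hh fh a b * (-(tt a * tt b)) =
      2 * (24 * fh + 12 * rh - 9 * hh - 8 * rf - 4 * ff) := by
  simp only [Fin.sum_univ_five, KM]
  simp only [show (0:Fin 5) ≠ 1 by decide, show (0:Fin 5) ≠ 2 by decide, show (0:Fin 5) ≠ 3 by decide,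
    show (0:Fin 5) ≠ 4 by decide, show (1:Fin 5) ≠ 0 by decide, show (1:Fin 5) ≠ 2 by decide,
    show (1:Fin 5) ≠ 3 by decide, show (1:Fin 5) ≠ 4 by decide, show (2:Fin 5) ≠ 0 by decide,
    show (2:Fin 5) ≠ 1 by decide, show (2:Fin 5) ≠ 3 by decide, show (2:Fin 5) ≠ 4 by decide,
    show (3:Fin 5) ≠ 0 by decide, show (3:Fin 5) ≠ 1 by decide, show (3:Fin 5) ≠ 2 by decide,
    show (3:Fin 5) ≠ 4 by decide, show (4:Fin 5) ≠ 0 by decide, show (4:Fin 5) ≠ 1 by decide,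
    show (4:Fin 5) ≠ 2 by decide, show (4:Fin 5) ≠ 3 by decide, if_true, if_false, true_or, or_true,
    false_or, or_false, and_true, true_and, and_false, false_and, or_self, and_self]
  simp only [show tt 0 = 2 from rfl, show tt 1 = 2 from rfl, show tt 2 = 2 from rfl,
    show tt 3 = -3 from rfl, show tt 4 = -3 from rfl]
  ring

/-- a point of the sphere with `|z|² = s` -/
noncomputable def xs (s : ℝ) : EuclideanSpace ℝ (Fin 6) :=
  WithLp.toLp 2 ![Real.sqrt s, 0, 0, Real.sqrt (1 - s), 0, 0]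

theorem xs_mem {s : ℝ} (h0 : 0 ≤ s) (h1 : s ≤ 1) :
    xs s ∈ Metric.sphere (0 : EuclideanSpace ℝ (Fin 6)) 1 := by
  rw [mem_sphere_zero_iff_norm, EuclideanSpace.norm_eq, Real.sqrt_eq_one]
  simp [xs, Fin.sum_univ_six, Real.sq_sqrt h0, Real.sq_sqrt (sub_nonneg.2 h1)]

theorem neg_of (u v w : ℝ → ℝ) (hu : SmI u) (hv : SmI v) (hw : SmI w)
    (hpos : ∀ s ∈ Icc (0:ℝ) 1, 0 < u s ∧ 0 < v s ∧ 0 ≤ w s)
    (hE : EE 0 (u 0) (v 0) (w 0) (deriv u 0) (deriv v 0) (deriv w 0)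
      (deriv (deriv u) 0) (deriv (deriv v) 0) < 0)
    (g : Metric 5 S5) (hg : ∀ e ∈ atlas (En 5) S5, g.G e = pullA (Pinv e) u v w) :
    ¬ PosSecond g := by
  intro hP
  obtain ⟨_, c1, c2, c3, c4, c5⟩ := all_cont hu hv hw hpos
  -- a point `s ∈ (0,1)` where the form is negative
  obtain ⟨s, hs0, hs1, hm⟩ : ∃ s : ℝ, 0 < s ∧ s < 1 ∧ 24 * fhS u v w s + 12 * rhS u v w s -
      9 * hhS u v w s - 8 * rfS u v w s - 4 * ffS u v w s < 0 := by
    have hc : ContinuousOn (fun s => 24 * fhS u v w s + 12 * rhS u v w s -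
      9 * hhS u v w s - 8 * rfS u v w s - 4 * ffS u v w s) (Icc (0:ℝ) 1) := by fun_prop
    have h0 : (0:ℝ) ∈ Icc (0:ℝ) 1 := by simp
    have hi : 0 < (cE 0 (u 0) (v 0) (w 0))⁻¹ :=
      inv_pos.2 (cE_pos h0 (hpos 0 h0).1 (hpos 0 h0).2.1 (hpos 0 h0).2.2)
    have hneg : 24 * fhS u v w 0 + 12 * rhS u v w 0 -
      9 * hhS u v w 0 - 8 * rfS u v w 0 - 4 * ffS u v w 0 < 0 := by
      have := mul_neg_of_pos_of_neg hi hE
      unfold EE at this
      unfold fhS rhS hhS rfS ffS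
      linarith
    have hw1 := (hc 0 h0).eventually (gt_mem_nhds hneg)
    have hw2 : ∀ᶠ s in 𝓝[>] (0:ℝ), 24 * fhS u v w s + 12 * rhS u v w s -
      9 * hhS u v w s - 8 * rfS u v w s - 4 * ffS u v w s < 0 := by
      have h3 : 𝓝[Ioo (0:ℝ) 1] 0 = 𝓝[>] (0:ℝ) := nhdsWithin_Ioo_eq_nhdsGT (by norm_num)
      rw [← h3]
      exact hw1.filter_mono (nhdsWithin_mono _ Ioo_subset_Icc_self)
    have hw3 : ∀ᶠ s in 𝓝[>] (0:ℝ), s < 1 :=
      nhdsWithin_le_nhds (gt_mem_nhds (by norm_num : (0:ℝ) < 1))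
    have hw4 : ∀ᶠ s in 𝓝[>] (0:ℝ), 0 < s := eventually_mem_nhdsWithin
    obtain ⟨s, h1, h2, h3⟩ := (hw2.and (hw3.and hw4)).exists
    exact ⟨s, h3, h2, h1⟩
  -- the point
  set x : S5 := ⟨xs s, xs_mem hs0.le hs1.le⟩ with hx
  set e := chartAt (En 5) x with he'
  have he : e ∈ atlas (En 5) S5 := chart_mem_atlas _ _
  set y : Eu 5 := WithLp.ofLp (e x) with hy
  have hPx : Pinv e y = amb x := by
    unfold Pinv
    rw [hy, WithLp.toLp_ofLp, e.left_inv (mem_chart_source _ _)]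
  have hsz : sz (Pinv e y) = s := by
    rw [hPx]
    unfold sz amb
    simp [hx, xs, Real.sq_sqrt hs0.le]
  obtain ⟨χ, r, hr0, hr1, hr2, hχ, hχy, hJ, hpull⟩ := chart_pull e he y (by rw [hsz]; exact hs0)
    (by rw [hsz]; exact hs1)
  rw [hsz] at hr2
  have hp := hpull u v w
  rw [← hg e he] at hp
  have hu' := ctarget_univ he
  have hG : ∀ i j, ContDiffAt ℝ ∞ (fun x => g.G e x i j) (χ (pt r)) := by
    intro i j
    have := g.smooth e he i j
    rw [hu'] at this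
    exact (contDiffOn_univ.1 this).contDiffAt
  have hPD : ∀ x, (g.G e x).PosDef := fun x => g.posDef e he x (by rw [hu']; trivial)
  have hsym : ∀ x, (g.G e x).IsSymm := by
    intro x
    have := (hPD x).isHermitian
    rwa [Matrix.IsHermitian, Matrix.conjTranspose_eq_transpose_of_trivial] at this
  have hd : (g.G e (χ (pt r))).det ≠ 0 := (hPD _).det_pos.ne'
  set J := Jac χ (pt r) with hJdef
  set D := DG (Er u v w) (Fr u) (Hr v) (pt r) with hD
  have hDJ : Jᵀ * g.G e y * J = D := by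
    have := hp.eq_of_nhds
    unfold pull at this
    rw [hχy] at this
    exact this
  set gg : Fin 5 → ℝ := fun i => dgv (Er u v w) (Fr u) (Hr v) i (pt r) with hgg
  have hDd : D = Matrix.diagonal gg := rfl
  obtain ⟨pE, pF, pH⟩ := pos_r hu hv hw hpos hr0 hr1
  have hgp : ∀ i, 0 < gg i := dgv_pos pE pF pH
  set S : Mt 5 := Matrix.diagonal (fun i => (Real.sqrt (gg i))⁻¹) with hS
  have hSt : Sᵀ = S := Matrix.diagonal_transpose _
  have hF : (J * S)ᵀ * g.G e y * (J * S) = 1 := by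
    have : (J * S)ᵀ * g.G e y * (J * S) = S * (Jᵀ * g.G e y * J) * S := by
      rw [Matrix.transpose_mul, hSt]
      simp only [Matrix.mul_assoc]
    rw [this, hDJ, hDd, hS, Matrix.diagonal_mul_diagonal, Matrix.diagonal_mul_diagonal,
      ← Matrix.diagonal_one]
    congr 1
    funext i
    have h1 := hgp i
    have h2 : 0 < Real.sqrt (gg i) := Real.sqrt_pos.2 h1
    have h3 : gg i = Real.sqrt (gg i) * Real.sqrt (gg i) := (Real.mul_self_sqrt h1.le).symm
    calc (Real.sqrt (gg i))⁻¹ * gg i * (Real.sqrt (gg i))⁻¹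
        = (Real.sqrt (gg i))⁻¹ * (Real.sqrt (gg i) * Real.sqrt (gg i)) * (Real.sqrt (gg i))⁻¹ := by
          rw [← h3]
      _ = 1 := by field_simp
  set φ : Mt 5 := Matrix.diagonal tt with hφ
  have hφs : φ.IsSymm := Matrix.diagonal_transpose _
  have hφt : φ.trace = 0 := by
    rw [hφ, Matrix.trace_diagonal, Fin.sum_univ_five]
    simp only [show tt 0 = 2 from rfl, show tt 1 = 2 from rfl, show tt 2 = 2 from rfl,
      show tt 3 = -3 from rfl, show tt 4 = -3 from rfl]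
    norm_num
  have hφ0 : φ ≠ 0 := by
    intro h
    have := congrFun (congrFun h 0) 0
    rw [hφ, Matrix.diagonal_apply_eq] at this
    simp only [show tt 0 = 2 from rfl, Matrix.zero_apply] at this
    norm_num at this
  have hpos2 := hP e he y (by rw [hu']; trivial) (J * S) hF φ hφs hφt hφ0
  rw [second_eq] at hpos2
  have hcong : J * S * φ * (J * S)ᵀ = J * (S * φ * S) * Jᵀ := by
    rw [Matrix.transpose_mul, hSt]
    simp only [Matrix.mul_assoc]
  have q1 := Q2_pull hχ hJ hG (Filter.Eventually.of_forall hsym) hd (S * φ * S)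
  rw [hχy, ← hJdef, ← hcong] at q1
  rw [← q1] at hpos2
  have q2 : (fun a b c d => R4 (pull χ (g.G e)) a b c d (pt r)) =
      (fun a b c d => R4 (DG (Er u v w) (Fr u) (Hr v)) a b c d (pt r)) := by
    funext a b c d
    exact R4_congr hp a b c d
  rw [q2, Q2_DG hu hv hw hpos hr0 hr1, hr2] at hpos2
  have hSS : S * φ * S = Matrix.diagonal (fun i => tt i / gg i) := by
    rw [hS, hφ, Matrix.diagonal_mul_diagonal, Matrix.diagonal_mul_diagonal]
    congr 1
    funext i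
    have h1 := hgp i
    have h2 : 0 < Real.sqrt (gg i) := Real.sqrt_pos.2 h1
    have h3 : Real.sqrt (gg i) * Real.sqrt (gg i) = gg i := Real.mul_self_sqrt h1.le
    rw [eq_div_iff h1.ne']
    calc (Real.sqrt (gg i))⁻¹ * tt i * (Real.sqrt (gg i))⁻¹ * gg i
        = (Real.sqrt (gg i))⁻¹ * tt i * (Real.sqrt (gg i))⁻¹ *
          (Real.sqrt (gg i) * Real.sqrt (gg i)) := by rw [h3]
      _ = tt i := by field_simp
  have hterm : ∀ a b, KM (rfS u v w s) (ffS u v w s) (rhS u v w s) (hhS u v w s) (fhS u v w s) a b *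
      dgv (Er u v w) (Fr u) (Hr v) a (pt r) * dgv (Er u v w) (Fr u) (Hr v) b (pt r) *
      ((S * φ * S) a b * (S * φ * S) b a - (S * φ * S) a a * (S * φ * S) b b) =
      KM (rfS u v w s) (ffS u v w s) (rhS u v w s) (hhS u v w s) (fhS u v w s) a b *
        (-(tt a * tt b)) := by
    intro a b
    rw [hSS]
    by_cases hab : a = b
    · subst hab
      simp [KM]
    · rw [Matrix.diagonal_apply_ne _ hab, Matrix.diagonal_apply_eq, Matrix.diagonal_apply_eq]
      have h1 : gg a * (tt a / gg a) = tt a := mul_div_cancel₀ _ (hgp a).ne'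
      have h2 : gg b * (tt b / gg b) = tt b := mul_div_cancel₀ _ (hgp b).ne'
      have h3 : dgv (Er u v w) (Fr u) (Hr v) a (pt r) = gg a := rfl
      have h4 : dgv (Er u v w) (Fr u) (Hr v) b (pt r) = gg b := rfl
      rw [h3, h4]
      calc _ = KM (rfS u v w s) (ffS u v w s) (rhS u v w s) (hhS u v w s) (fhS u v w s) a b *
            (-((gg a * (tt a / gg a)) * (gg b * (tt b / gg b)))) := by ring
        _ = _ := by rw [h1, h2]
  simp only [hterm] at hpos2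
  rw [KM_tt] at hpos2
  linarith

end Pool.Agent.H858R2.G4b
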