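import Mathlib
import Pool.Agent.H858R2.G4b

set_option autoImplicit false
set_option linter.all false
open scoped ContDiff Manifold Topology Matrix
open Set

namespace Pool.Agent.H858R2

open Pool.Agent.QTot

theorem pos_of (u v w : ℝ → ℝ) (hu : SmI u) (hv : SmI v) (hw : SmI w)
    (hpos : ∀ s ∈ Icc (0:ℝ) 1, 0 < u s ∧ 0 < v s ∧ 0 ≤ w s)
    (hK : ∀ s ∈ Icc (0:ℝ) 1, PosK s (u s) (v s) (w s) (deriv u s) (deriv v s) (deriv w s)
      (deriv (deriv u) s) (deriv (deriv v) s))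
    (g : Metric 5 S5) (hg : ∀ e ∈ atlas (En 5) S5, g.G e = pullA (Pinv e) u v w) :
    PosSecond g :=
  G4b.pos_of u v w hu hv hw hpos hK g hg

theorem neg_of (u v w : ℝ → ℝ) (hu : SmI u) (hv : SmI v) (hw : SmI w)
    (hpos : ∀ s ∈ Icc (0:ℝ) 1, 0 < u s ∧ 0 < v s ∧ 0 ≤ w s)
    (hE : EE 0 (u 0) (v 0) (w 0) (deriv u 0) (deriv v 0) (deriv w 0)
      (deriv (deriv u) 0) (deriv (deriv v) 0) < 0)
    (g : Metric 5 S5) (hg : ∀ e ∈ atlas (En 5) S5, g.G e = pullA (Pinv e) u v w) :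
    ¬ PosSecond g :=
  G4b.neg_of u v w hu hv hw hpos hE g hg

end Pool.Agent.H858R2
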