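import Mathlib
import Pool.Agent.H858R2.G4

set_option autoImplicit false
set_option linter.all false
open scoped ContDiff
open Set

namespace Pool.Agent.H858R2

/-- `U, V, W` (functions of time `t` and `s`) solve the Ricci flow system on `(0,T) × Is` with initial
data `U0, V0 δ, W0 δ`, and stay `η`-close to the initial data (with derivatives). -/
structure IsSol (T δ η : ℝ) (U V W : ℝ → ℝ → ℝ) : Prop where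
  smU : ContDiffOn ℝ ∞ (fun p : ℝ × ℝ => U p.1 p.2) (Ioo 0 T ×ˢ Is)
  smV : ContDiffOn ℝ ∞ (fun p : ℝ × ℝ => V p.1 p.2) (Ioo 0 T ×ˢ Is)
  smW : ContDiffOn ℝ ∞ (fun p : ℝ × ℝ => W p.1 p.2) (Ioo 0 T ×ˢ Is)
  eqU : ∀ t ∈ Ioo 0 T, ∀ s ∈ Is, HasDerivAt (fun τ => U τ s)
      (fU s (U t s) (V t s) (W t s) (deriv (U t) s) (deriv (V t) s) (deriv (W t) s)
        (deriv (deriv (U t)) s) (V t s)⁻¹ (cE s (U t s) (V t s) (W t s))⁻¹) t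
  eqV : ∀ t ∈ Ioo 0 T, ∀ s ∈ Is, HasDerivAt (fun τ => V τ s)
      (fV s (U t s) (V t s) (W t s) (deriv (U t) s) (deriv (V t) s) (deriv (W t) s)
        (deriv (deriv (V t)) s) (U t s)⁻¹ (cE s (U t s) (V t s) (W t s))⁻¹) t
  eqW : ∀ t ∈ Ioo 0 T, ∀ s ∈ Is, HasDerivAt (fun τ => W τ s)
      (fW s (U t s) (V t s) (W t s) (deriv (U t) s) (deriv (V t) s) (deriv (W t) s)
        (deriv (deriv (U t)) s) (deriv (deriv (V t)) s) (U t s)⁻¹ (V t s)⁻¹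
        (cE s (U t s) (V t s) (W t s))⁻¹) t
  init : ∀ s ∈ Is, U 0 s = U0 s ∧ V 0 s = V0 δ s ∧ W 0 s = W0 δ s
  cU : ContinuousOn (fun p : ℝ × ℝ => U p.1 p.2) (Ico 0 T ×ˢ Icc 0 1)
  cV : ContinuousOn (fun p : ℝ × ℝ => V p.1 p.2) (Ico 0 T ×ˢ Icc 0 1)
  cW : ContinuousOn (fun p : ℝ × ℝ => W p.1 p.2) (Ico 0 T ×ˢ Icc 0 1)
  cU1 : ContinuousOn (fun p : ℝ × ℝ => deriv (U p.1) p.2) (Ico 0 T ×ˢ Icc 0 1)
  cV1 : ContinuousOn (fun p : ℝ × ℝ => deriv (V p.1) p.2) (Ico 0 T ×ˢ Icc 0 1)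
  cW1 : ContinuousOn (fun p : ℝ × ℝ => deriv (W p.1) p.2) (Ico 0 T ×ˢ Icc 0 1)
  cU2 : ContinuousOn (fun p : ℝ × ℝ => deriv (deriv (U p.1)) p.2) (Ico 0 T ×ˢ Icc 0 1)
  cV2 : ContinuousOn (fun p : ℝ × ℝ => deriv (deriv (V p.1)) p.2) (Ico 0 T ×ˢ Icc 0 1)
  close : ∀ t ∈ Ioo 0 T, ∀ s ∈ Icc (0:ℝ) 1,
    |U t s - U0 s| ≤ η ∧ |V t s - V0 δ s| ≤ η ∧ |W t s - W0 δ s| ≤ η ∧
    |deriv (U t) s - U0'| ≤ η ∧ |deriv (V t) s - V0' δ s| ≤ η ∧ |deriv (W t) s - W0' δ| ≤ η ∧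
    |deriv (deriv (U t)) s| ≤ η ∧ |deriv (deriv (V t)) s - V0'' δ| ≤ η

end Pool.Agent.H858R2
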