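import Mathlib
import Pool.Agent.H858R2.P0

set_option autoImplicit false
set_option linter.all false
open scoped ContDiff
open Set

namespace Pool.Agent.H858R2

namespace NegAux

theorem mixed {F : ℝ → ℝ → ℝ} {Ω : Set (ℝ × ℝ)} (hΩ : IsOpen Ω)
    (hF : ContDiffOn ℝ ∞ (fun p : ℝ × ℝ => F p.1 p.2) Ω) {t s : ℝ} (h : (t, s) ∈ Ω) :
    ∃ L, HasDerivAt (fun τ => deriv (F τ) s) L t ∧
      HasDerivAt (fun σ => deriv (fun τ => F τ σ) t) L s := by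
  set G : ℝ × ℝ → ℝ := fun p => F p.1 p.2 with hG
  have hGat : ∀ p ∈ Ω, ContDiffAt ℝ ∞ G p := fun p hp => (hF p hp).contDiffAt (hΩ.mem_nhds hp)
  have hGd : ∀ p ∈ Ω, HasFDerivAt G (fderiv ℝ G p) p := fun p hp =>
    ((hGat p hp).differentiableAt (by simp)).hasFDerivAt
  have h1 : ∀ p ∈ Ω, deriv (F p.1) p.2 = fderiv ℝ G p (0, 1) := by
    intro p hp
    have e : HasDerivAt (fun σ : ℝ => (p.1, σ)) ((0 : ℝ), (1 : ℝ)) p.2 :=
      (hasDerivAt_const _ _).prodMk (hasDerivAt_id _)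
    have := (hGd p hp).comp_hasDerivAt (x := p.2) (f := fun σ : ℝ => (p.1, σ)) e
    exact this.deriv
  have h2 : ∀ p ∈ Ω, deriv (fun τ => F τ p.2) p.1 = fderiv ℝ G p (1, 0) := by
    intro p hp
    have e : HasDerivAt (fun τ : ℝ => (τ, p.2)) ((1 : ℝ), (0 : ℝ)) p.1 :=
      (hasDerivAt_id _).prodMk (hasDerivAt_const _ _)
    have := (hGd p hp).comp_hasDerivAt (x := p.1) (f := fun τ : ℝ => (τ, p.2)) e
    exact this.deriv
  have hD : HasFDerivAt (fderiv ℝ G) (fderiv ℝ (fderiv ℝ G) (t, s)) (t, s) := by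
    have : ContDiffAt ℝ 1 (fderiv ℝ G) (t, s) :=
      (hGat _ h).fderiv_right (m := 1) (by norm_cast)
    exact (this.differentiableAt (by simp)).hasFDerivAt
  have hsym : IsSymmSndFDerivAt ℝ G (t, s) :=
    (hGat _ h).isSymmSndFDerivAt (by simp only [minSmoothness_of_isRCLikeNormedField]; exact ENat.LEInfty.out)
  refine ⟨fderiv ℝ (fderiv ℝ G) (t, s) (1, 0) (0, 1), ?_, ?_⟩
  · have e : HasDerivAt (fun τ : ℝ => (τ, s)) ((1 : ℝ), (0 : ℝ)) t :=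
      (hasDerivAt_id _).prodMk (hasDerivAt_const _ _)
    have a := hD.comp_hasDerivAt (x := t) (f := fun τ : ℝ => (τ, s)) e
    have b : HasDerivAt (fun τ => fderiv ℝ G (τ, s) (0, 1))
        (fderiv ℝ (fderiv ℝ G) (t, s) (1, 0) (0, 1)) t := by
      have := a.clm_apply (hasDerivAt_const t ((0 : ℝ), (1 : ℝ)))
      simpa using this
    refine b.congr_of_eventuallyEq ?_
    have : ∀ᶠ τ in nhds t, (τ, s) ∈ Ω :=
      (Continuous.prodMk_left s).continuousAt.eventually (hΩ.mem_nhds h)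
    filter_upwards [this] with τ hτ
    exact h1 (τ, s) hτ
  · have e : HasDerivAt (fun σ : ℝ => (t, σ)) ((0 : ℝ), (1 : ℝ)) s :=
      (hasDerivAt_const _ _).prodMk (hasDerivAt_id _)
    have a := hD.comp_hasDerivAt (x := s) (f := fun σ : ℝ => (t, σ)) e
    have b : HasDerivAt (fun σ => fderiv ℝ G (t, σ) (1, 0))
        (fderiv ℝ (fderiv ℝ G) (t, s) (0, 1) (1, 0)) s := by
      have := a.clm_apply (hasDerivAt_const s ((1 : ℝ), (0 : ℝ)))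
      simpa using this
    rw [hsym.eq]
    refine b.congr_of_eventuallyEq ?_
    have : ∀ᶠ σ in nhds s, (t, σ) ∈ Ω :=
      (Continuous.prodMk_right t).continuousAt.eventually (hΩ.mem_nhds h)
    filter_upwards [this] with σ hσ
    exact h2 (t, σ) hσ

noncomputable def gU (u v w u1 v1 w1 u2 v2 : ℝ) : ℝ :=
  -((v - u + u1 + w) * (u⁻¹ * u⁻¹)) *
    (10 * u1 - 8 * u - 2 * (v - u + w) - 2 * u * ((v - u + u1 + w) * u⁻¹ - 2 * v1 * v⁻¹))
  + u⁻¹ * (4 * u2 - 16 * u1 + 10 * u2 - 8 * u1 - 2 * (v1 - u1 - w + w1)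
    + (2 * u - 4 * u1) * ((v - u + u1 + w) * u⁻¹ - 2 * v1 * v⁻¹)
    - 2 * u * ((2 * v1 - 2 * u1 + u2 - 2 * w + 2 * w1) * u⁻¹
        - (v - u + u1 + w) ^ 2 * (u⁻¹ * u⁻¹) - 2 * (v2 * v⁻¹ - v1 ^ 2 * (v⁻¹ * v⁻¹))))

noncomputable def gV (u v w u1 v1 w1 u2 v2 : ℝ) : ℝ :=
  -((v - u + u1 + w) * (u⁻¹ * u⁻¹)) * (6 * v1 - 8 * v - 2 * (u - v))
  + u⁻¹ * (4 * v2 - 16 * v1 + 6 * v2 - 8 * v1 - 2 * (u1 - v1 + w)
    + 2 * (v - v1) * ((v - u + u1 + w) * u⁻¹ - 2 * u1 * u⁻¹))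

theorem inv_deriv {f : ℝ → ℝ} {f' : ℝ} (h : HasDerivAt f f' 0) (h0 : f 0 ≠ 0) :
    HasDerivAt (fun s => (f s)⁻¹) (-(f' * ((f 0)⁻¹ * (f 0)⁻¹))) 0 := by
  have := h.inv h0
  refine HasDerivAt.congr_deriv this ?_
  field_simp

theorem dfU {u v w u1 v1 w1 u2 v2 w2 : ℝ → ℝ} {u3 : ℝ}
    (hu : HasDerivAt u (u1 0) 0) (hv : HasDerivAt v (v1 0) 0) (hw : HasDerivAt w (w1 0) 0)
    (hu1 : HasDerivAt u1 (u2 0) 0) (hv1 : HasDerivAt v1 (v2 0) 0) (hw1 : HasDerivAt w1 (w2 0) 0)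
    (hu2 : HasDerivAt u2 u3 0) (hu0 : u 0 ≠ 0) (hv0 : v 0 ≠ 0) :
    HasDerivAt (fun s => fU s (u s) (v s) (w s) (u1 s) (v1 s) (w1 s) (u2 s) (v s)⁻¹
      (cE s (u s) (v s) (w s))⁻¹) (gU (u 0) (v 0) (w 0) (u1 0) (v1 0) (w1 0) (u2 0) (v2 0)) 0 := by
  have hs : HasDerivAt (fun s : ℝ => s) 1 0 := hasDerivAt_id 0
  have hc : HasDerivAt (fun s : ℝ => 1 - s) (-1) 0 := by simpa using hs.const_sub 1
  have hE : HasDerivAt (fun s => cE s (u s) (v s) (w s)) (v 0 - u 0 + u1 0 + w 0) 0 := by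
    have := ((hc.mul hu).add (hs.mul hv)).add ((hs.mul hc).mul hw)
    refine HasDerivAt.congr_deriv this ?_
    simp; ring
  have hE0 : cE 0 (u 0) (v 0) (w 0) = u 0 := by simp [cE]
  have hiE := inv_deriv hE (by rw [hE0]; exact hu0)
  rw [hE0] at hiE
  have hiV := inv_deriv hv hv0
  have hE1 : HasDerivAt (fun s => cE1 s (u s) (v s) (w s) (u1 s) (v1 s) (w1 s))
      (2 * v1 0 - 2 * u1 0 + u2 0 - 2 * w 0 + 2 * w1 0) 0 := by
    have := (((((hv.sub hu).add (hc.mul hu1)).add (hs.mul hv1)).add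
      (((hs.const_mul 2).const_sub 1).mul hw)).add ((hs.mul hc).mul hw1))
    refine HasDerivAt.congr_deriv this ?_
    simp; ring
  have hQ : HasDerivAt (fun s => cQ s (u s) (v s) (w s)) (v1 0 - u1 0 - w 0 + w1 0) 0 := by
    have := (hv.sub hu).add (hc.mul hw)
    refine HasDerivAt.congr_deriv this ?_
    simp; ring
  have hall := hiE.mul (((((((hs.const_mul 4).mul hc).mul hu2).add
    ((((hc.const_mul 10).sub (hs.const_mul 6))).mul hu1)).sub (hu.const_mul 8)).sub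
    (hQ.const_mul 2)).sub (((hc.const_mul 2).mul (hu.add (hs.mul hu1))).mul
      ((hE1.mul hiE).sub ((hv1.const_mul 2).mul hiV))))
  refine HasDerivAt.congr_deriv hall ?_
  simp [gU, cE1, cQ, cE]
  exact Or.inl (by ring)

theorem dfV {u v w u1 v1 w1 u2 v2 w2 : ℝ → ℝ} {v3 : ℝ}
    (hu : HasDerivAt u (u1 0) 0) (hv : HasDerivAt v (v1 0) 0) (hw : HasDerivAt w (w1 0) 0)
    (hu1 : HasDerivAt u1 (u2 0) 0) (hv1 : HasDerivAt v1 (v2 0) 0) (hw1 : HasDerivAt w1 (w2 0) 0)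
    (hv2 : HasDerivAt v2 v3 0) (hu0 : u 0 ≠ 0) (hv0 : v 0 ≠ 0) :
    HasDerivAt (fun s => fV s (u s) (v s) (w s) (u1 s) (v1 s) (w1 s) (v2 s) (u s)⁻¹
      (cE s (u s) (v s) (w s))⁻¹) (gV (u 0) (v 0) (w 0) (u1 0) (v1 0) (w1 0) (u2 0) (v2 0)) 0 := by
  have hs : HasDerivAt (fun s : ℝ => s) 1 0 := hasDerivAt_id 0
  have hc : HasDerivAt (fun s : ℝ => 1 - s) (-1) 0 := by simpa using hs.const_sub 1
  have hE : HasDerivAt (fun s => cE s (u s) (v s) (w s)) (v 0 - u 0 + u1 0 + w 0) 0 := by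
    have := ((hc.mul hu).add (hs.mul hv)).add ((hs.mul hc).mul hw)
    refine HasDerivAt.congr_deriv this ?_
    simp; ring
  have hE0 : cE 0 (u 0) (v 0) (w 0) = u 0 := by simp [cE]
  have hiE := inv_deriv hE (by rw [hE0]; exact hu0)
  rw [hE0] at hiE
  have hiU := inv_deriv hu hu0
  have hE1 : HasDerivAt (fun s => cE1 s (u s) (v s) (w s) (u1 s) (v1 s) (w1 s))
      (2 * v1 0 - 2 * u1 0 + u2 0 - 2 * w 0 + 2 * w1 0) 0 := by
    have := (((((hv.sub hu).add (hc.mul hu1)).add (hs.mul hv1)).add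
      (((hs.const_mul 2).const_sub 1).mul hw)).add ((hs.mul hc).mul hw1))
    refine HasDerivAt.congr_deriv this ?_
    simp; ring
  have hR : HasDerivAt (fun s => cR s (u s) (v s) (w s)) (u1 0 - v1 0 + w 0) 0 := by
    have := (hu.sub hv).add (hs.mul hw)
    refine HasDerivAt.congr_deriv this ?_
    simp
  have hall := hiE.mul ((((((((hs.const_mul 4).mul hc).mul hv2).sub
    ((((hs.const_mul 10).sub (hc.const_mul 6))).mul hv1)).sub (hv.const_mul 8)).sub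
    (hR.const_mul 2))).add (((hs.const_mul 2).mul (hv.sub (hc.mul hv1))).mul
      ((hE1.mul hiE).sub ((hu1.const_mul 2).mul hiU))))
  refine HasDerivAt.congr_deriv hall ?_
  simp [gV, cE1, cR, cE]
  exact Or.inl (by ring)

noncomputable def kk (u v w u1 v1 : ℝ) : ℝ :=
  15 - 36 * (v1 * v⁻¹) - 9 * ((u - v) * v⁻¹) - 12 * ((v - u + w - 2 * u1) * u⁻¹)

theorem EE_zero (u v w u1 v1 w1 u2 v2 : ℝ) : EE 0 u v w u1 v1 w1 u2 v2 = kk u v w u1 v1 := by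
  simp only [EE, kFH, kRH, kHH, kRF, kFF, cE, cE1, cQ, cR, kk]
  ring

noncomputable def dk (u v w u1 v1 u' v' w' u1' v1' : ℝ) : ℝ :=
  -(36 * (v1' * v⁻¹ + v1 * -(v' * (v⁻¹ * v⁻¹))))
    - 9 * ((u' - v') * v⁻¹ + (u - v) * -(v' * (v⁻¹ * v⁻¹)))
    - 12 * ((v' - u' + w' - 2 * u1') * u⁻¹ + (v - u + w - 2 * u1) * -(u' * (u⁻¹ * u⁻¹)))

theorem inv_deriv' {f : ℝ → ℝ} {f' t : ℝ} (h : HasDerivAt f f' t) (h0 : f t ≠ 0) :
    HasDerivAt (fun s => (f s)⁻¹) (-(f' * ((f t)⁻¹ * (f t)⁻¹))) t := by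
  have := h.inv h0
  refine HasDerivAt.congr_deriv this ?_
  field_simp

theorem hasDerivAt_kk {u v w u1 v1 : ℝ → ℝ} {u' v' w' u1' v1' t : ℝ}
    (hu : HasDerivAt u u' t) (hv : HasDerivAt v v' t) (hw : HasDerivAt w w' t)
    (hu1 : HasDerivAt u1 u1' t) (hv1 : HasDerivAt v1 v1' t) (hu0 : u t ≠ 0) (hv0 : v t ≠ 0) :
    HasDerivAt (fun τ => kk (u τ) (v τ) (w τ) (u1 τ) (v1 τ))
      (dk (u t) (v t) (w t) (u1 t) (v1 t) u' v' w' u1' v1') t := by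
  have iu := inv_deriv' hu hu0
  have iv := inv_deriv' hv hv0
  have := ((((hv1.mul iv).const_mul 36).const_sub 15).sub
    (((hu.sub hv).mul iv).const_mul 9)).sub
    ((((((hv.sub hu).add hw).sub (hu1.const_mul 2))).mul iu).const_mul 12)
  refine HasDerivAt.congr_deriv this ?_
  simp only [dk, Pi.sub_apply, Pi.add_apply]

noncomputable def Phi (u v w u1 v1 w1 u2 v2 : ℝ) : ℝ :=
  dk u v w u1 v1 (fU 0 u v w u1 v1 w1 u2 v⁻¹ (cE 0 u v w)⁻¹) (fV 0 u v w u1 v1 w1 v2 u⁻¹ (cE 0 u v w)⁻¹)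
    (fW 0 u v w u1 v1 w1 u2 v2 u⁻¹ v⁻¹ (cE 0 u v w)⁻¹)
    (gU u v w u1 v1 w1 u2 v2) (gV u v w u1 v1 w1 u2 v2)

theorem Phi_val : Phi 1 (69/125) (1/8) (323/1000) (37037/125000) (18963/125000) 0 (18963/62500)
    < -1/2 := by
  simp only [Phi, dk, gU, gV, fU, fV, fW, a1, a2, b1, b2, kRF, kRH, cE, cE1, cQ, cR, cQ1, cR1]
  norm_num

theorem Phi_cont : ContinuousAt (fun p : ℝ × ℝ × ℝ × ℝ × ℝ × ℝ × ℝ × ℝ =>
    Phi p.1 p.2.1 p.2.2.1 p.2.2.2.1 p.2.2.2.2.1 p.2.2.2.2.2.1 p.2.2.2.2.2.2.1 p.2.2.2.2.2.2.2)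
    (1, 69/125, 1/8, 323/1000, 37037/125000, 18963/125000, 0, 18963/62500) := by
  simp only [Phi, dk, gU, gV, fU, fV, fW, a1, a2, b1, b2, kRF, kRH, cE, cE1, cQ, cR, cQ1, cR1]
  fun_prop (disch := norm_num)

theorem zero_mem_Is : (0 : ℝ) ∈ Is := by constructor <;> norm_num

theorem isOpen_dom (T : ℝ) : IsOpen (Ioo 0 T ×ˢ Is) := isOpen_Ioo.prod isOpen_Ioo

theorem slice {T : ℝ} {F : ℝ → ℝ → ℝ}
    (hF : ContDiffOn ℝ ∞ (fun p : ℝ × ℝ => F p.1 p.2) (Ioo 0 T ×ˢ Is)) {t : ℝ} (ht : t ∈ Ioo 0 T) :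
    HasDerivAt (F t) (deriv (F t) 0) 0 ∧ HasDerivAt (deriv (F t)) (deriv (deriv (F t)) 0) 0 ∧
      HasDerivAt (deriv (deriv (F t))) (deriv (deriv (deriv (F t))) 0) 0 := by
  have h0 : ContDiffOn ℝ ∞ (F t) Is := by
    have : ContDiffOn ℝ ∞ (fun σ : ℝ => (t, σ)) Is := contDiffOn_const.prodMk contDiffOn_id
    exact hF.comp this (fun σ hσ => ⟨ht, hσ⟩)
  have hI : IsOpen Is := isOpen_Ioo
  have h1 : ContDiffOn ℝ ∞ (deriv (F t)) Is := h0.deriv_of_isOpen hI (by simp)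
  have h2 : ContDiffOn ℝ ∞ (deriv (deriv (F t))) Is := h1.deriv_of_isOpen hI (by simp)
  have hm := hI.mem_nhds zero_mem_Is
  exact ⟨((h0.differentiableOn (by simp)).differentiableAt hm).hasDerivAt,
    ((h1.differentiableOn (by simp)).differentiableAt hm).hasDerivAt,
    ((h2.differentiableOn (by simp)).differentiableAt hm).hasDerivAt⟩

/-- derivative in time of the value of `EE` at `s = 0` -/
theorem deriv_EE {T δ η : ℝ} {U V W : ℝ → ℝ → ℝ} (h : IsSol T δ η U V W) {t : ℝ}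
    (ht : t ∈ Ioo 0 T) (hu0 : U t 0 ≠ 0) (hv0 : V t 0 ≠ 0) :
    HasDerivAt (fun τ => kk (U τ 0) (V τ 0) (W τ 0) (deriv (U τ) 0) (deriv (V τ) 0))
      (Phi (U t 0) (V t 0) (W t 0) (deriv (U t) 0) (deriv (V t) 0) (deriv (W t) 0)
        (deriv (deriv (U t)) 0) (deriv (deriv (V t)) 0)) t := by
  obtain ⟨hU0, hU1, hU2⟩ := slice h.smU ht
  obtain ⟨hV0, hV1, hV2⟩ := slice h.smV ht
  obtain ⟨hW0, hW1, hW2⟩ := slice h.smW ht
  have hmem : ((t, 0) : ℝ × ℝ) ∈ Ioo 0 T ×ˢ Is := ⟨ht, zero_mem_Is⟩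
  obtain ⟨LU, hLU1, hLU2⟩ := mixed (isOpen_dom T) h.smU hmem
  obtain ⟨LV, hLV1, hLV2⟩ := mixed (isOpen_dom T) h.smV hmem
  have dU := dfU (w2 := deriv (deriv (W t))) (v2 := deriv (deriv (V t))) hU0 hV0 hW0 hU1 hV1 hW1 hU2 hu0 hv0
  have dV := dfV (w2 := deriv (deriv (W t))) (u2 := deriv (deriv (U t))) hU0 hV0 hW0 hU1 hV1 hW1 hV2 hu0 hv0
  have hnear : ∀ᶠ σ in nhds (0:ℝ), σ ∈ Is := isOpen_Ioo.mem_nhds zero_mem_Is
  have eU : LU = gU (U t 0) (V t 0) (W t 0) (deriv (U t) 0) (deriv (V t) 0) (deriv (W t) 0)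
      (deriv (deriv (U t)) 0) (deriv (deriv (V t)) 0) := by
    refine hLU2.unique (dU.congr_of_eventuallyEq ?_)
    filter_upwards [hnear] with σ hσ
    exact (h.eqU t ht σ hσ).deriv
  have eV : LV = gV (U t 0) (V t 0) (W t 0) (deriv (U t) 0) (deriv (V t) 0) (deriv (W t) 0)
      (deriv (deriv (U t)) 0) (deriv (deriv (V t)) 0) := by
    refine hLV2.unique (dV.congr_of_eventuallyEq ?_)
    filter_upwards [hnear] with σ hσ
    exact (h.eqV t ht σ hσ).deriv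
  rw [eU] at hLU1
  rw [eV] at hLV1
  exact hasDerivAt_kk (h.eqU t ht 0 zero_mem_Is) (h.eqV t ht 0 zero_mem_Is)
    (h.eqW t ht 0 zero_mem_Is) hLU1 hLV1 hu0 hv0

/-- `Phi` is at most `-1/2` near the initial values -/
theorem exists_eta : ∃ η > 0, ∀ δ : ℝ, 0 ≤ δ → δ ≤ η → ∀ u v w u1 v1 w1 u2 v2 : ℝ,
    |u - 1| ≤ η → |v - 69/125| ≤ η → |w - 1/8| ≤ η → |u1 - 323/1000| ≤ η →
    |v1 - (37037/125000 - δ)| ≤ η → |w1 - (18963/125000 + δ)| ≤ η → |u2| ≤ η →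
    |v2 - (18963/62500 + 2 * δ)| ≤ η →
    u ≠ 0 ∧ v ≠ 0 ∧ Phi u v w u1 v1 w1 u2 v2 ≤ -1/2 := by
  have h := Phi_cont.eventually (gt_mem_nhds Phi_val)
  obtain ⟨ε, hε, hb⟩ := Metric.eventually_nhds_iff.1 h
  refine ⟨min (ε / 4) (1/4), by positivity, ?_⟩
  intro δ hδ0 hδ u v w u1 v1 w1 u2 v2 hu hv hw hu1 hv1 hw1 hu2 hv2
  have m1 : min (ε / 4) (1/4) ≤ ε / 4 := min_le_left _ _
  have m2 : min (ε / 4) (1/4) ≤ 1/4 := min_le_right _ _
  rw [abs_le] at hu hv hw hu1 hv1 hw1 hu2 hv2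
  refine ⟨by intro h0; rw [h0] at hu; linarith [hu.1], by intro h0; rw [h0] at hv; linarith [hv.1], ?_⟩
  have := hb (y := (u, v, w, u1, v1, w1, u2, v2)) (by
    simp only [Prod.dist_eq, Real.dist_eq, max_lt_iff, abs_lt]
    refine ⟨⟨by linarith [hu.1], by linarith [hu.2]⟩, ⟨by linarith [hv.1], by linarith [hv.2]⟩,
      ⟨by linarith [hw.1], by linarith [hw.2]⟩, ⟨by linarith [hu1.1], by linarith [hu1.2]⟩,
      ⟨by linarith [hv1.1], by linarith [hv1.2]⟩, ⟨by linarith [hw1.1], by linarith [hw1.2]⟩,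
      ⟨by linarith [hu2.1], by linarith [hu2.2]⟩, ⟨by linarith [hv2.1], by linarith [hv2.2]⟩⟩)
  exact this.le

end NegAux

open NegAux in
/-- ## TARGET NEG
Paper proof. At `s = 0` one has `EE = 36 (1 - v₁/v₀) - 9 (1 + (u₀-v₀)/v₀) - 12 (1 - 2u₁/u₀ + (v₀-u₀+w₀)/u₀)`
(`u₀ = U(t,0), u₁ = ∂_s U(t,0)`, ...; no second derivatives). Along the flow `u₀' = fU(0,..)`,
`v₀' = fV(0,..)`, `w₀' = fW(0,..)`, `u₁' = ∂_s (fU)|_{s=0}`, `v₁' = ∂_s (fV)|_{s=0}` (mixed partials of the smooth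
functions `U, V` commute; at `s = 0` only `u₀,v₀,w₀,u₁,v₁,w₁,u₂,v₂` enter, the third derivatives are
multiplied by `4 s (1-s) = 0`). So `(d/dt) EE = Φ(u₀,v₀,w₀,u₁,v₁,w₁,u₂,v₂)` with `Φ` an explicit rational function,
continuous near the initial values, and at the initial values with `δ = 0`
(`u₀=1, v₀=69/125, w₀=1/8, u₁=323/1000, v₁=37037/125000, w₁=18963/125000, u₂=0, v₂=18963/62500`)
`EE = 0` and `Φ = 15 * (-163083857/2975625000) ≈ -0.82209`. Hence for `η, δ` small `Φ ≤ -1/2`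
on the flow, and `EE(t) ≤ EE(0+) - t/2`, with `EE(0+) = 36 δ / v₀ ≤ 100 δ`. -/
theorem neg_exists : ∃ η > 0, ∀ T δ : ℝ, 0 ≤ δ → δ ≤ η → ∀ U V W : ℝ → ℝ → ℝ,
    IsSol T δ η U V W → ∀ t ∈ Ioo 0 T,
      EE 0 (U t 0) (V t 0) (W t 0) (deriv (U t) 0) (deriv (V t) 0) (deriv (W t) 0)
        (deriv (deriv (U t)) 0) (deriv (deriv (V t)) 0) ≤ 100 * δ - t / 2 := by
  obtain ⟨η, hη, hP⟩ := exists_eta
  refine ⟨η, hη, ?_⟩
  intro T δ hδ0 hδ U V W h t ht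
  rw [EE_zero]
  set f : ℝ → ℝ := fun τ => kk (U τ 0) (V τ 0) (W τ 0) (deriv (U τ) 0) (deriv (V τ) 0) with hf
  have h01 : (0:ℝ) ∈ Icc (0:ℝ) 1 := ⟨le_refl _, zero_le_one⟩
  have key : ∀ τ ∈ Ioo 0 T, U τ 0 ≠ 0 ∧ V τ 0 ≠ 0 ∧
      Phi (U τ 0) (V τ 0) (W τ 0) (deriv (U τ) 0) (deriv (V τ) 0) (deriv (W τ) 0)
        (deriv (deriv (U τ)) 0) (deriv (deriv (V τ)) 0) ≤ -1/2 := by
    intro τ hτ
    obtain ⟨c1, c2, c3, c4, c5, c6, c7, c8⟩ := h.close τ hτ 0 h01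
    have e1 : U0 0 = 1 := by simp [U0]
    have e2 : V0 δ 0 = 69/125 := by simp [V0]
    have e3 : W0 δ 0 = 1/8 := by simp [W0]
    have e4 : V0' δ 0 = 37037/125000 - δ := by simp [V0']
    rw [e1] at c1; rw [e2] at c2; rw [e3] at c3; rw [e4] at c5
    exact hP δ hδ0 hδ _ _ _ _ _ _ _ _ c1 c2 c3 c4 c5 c6 c7 c8
  have hinitU : U 0 =ᶠ[nhds 0] U0 := by
    filter_upwards [(isOpen_Ioo : IsOpen Is).mem_nhds zero_mem_Is] with s hs using (h.init s hs).1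
  have hinitV : V 0 =ᶠ[nhds 0] V0 δ := by
    filter_upwards [(isOpen_Ioo : IsOpen Is).mem_nhds zero_mem_Is] with s hs using (h.init s hs).2.1
  have dU0 : deriv (U 0) 0 = 323/1000 := by
    rw [hinitU.deriv_eq]
    have : HasDerivAt U0 (323/1000) 0 := by
      have := ((hasDerivAt_id (0:ℝ)).const_mul (323/1000)).const_add 1
      refine HasDerivAt.congr_deriv this ?_
      norm_num
    exact this.deriv
  have dV0 : deriv (V 0) 0 = 37037/125000 - δ := by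
    rw [hinitV.deriv_eq]
    have : HasDerivAt (V0 δ) (37037/125000 - δ) 0 := by
      have i0 : HasDerivAt (fun s : ℝ => s) 1 0 := hasDerivAt_id 0
      have := (((i0.const_mul (37037/125000)).const_add (69/125)).add
        ((i0.pow 2).const_mul (18963/125000))).sub
        ((i0.const_mul δ).mul (i0.const_sub 1))
      refine HasDerivAt.congr_deriv this ?_
      norm_num
    exact this.deriv
  have hT : 0 < T := ht.1.trans ht.2
  have hf0 : f 0 = 36 * δ / (69/125) := by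
    have a1 := h.init 0 zero_mem_Is
    have e1 : U0 0 = 1 := by simp [U0]
    have e2 : V0 δ 0 = 69/125 := by simp [V0]
    have e3 : W0 δ 0 = 1/8 := by simp [W0]
    simp only [hf, kk, a1.1, a1.2.1, a1.2.2, e1, e2, e3, dU0, dV0]
    ring
  have hcont : ContinuousOn f (Ico 0 T) := by
    have emb : ContinuousOn (fun τ : ℝ => (τ, (0:ℝ))) (Ico 0 T) := by fun_prop
    have hm : MapsTo (fun τ : ℝ => (τ, (0:ℝ))) (Ico 0 T) (Ico 0 T ×ˢ Icc 0 1) :=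
      fun τ hτ => ⟨hτ, h01⟩
    have cU := h.cU.comp emb hm
    have cV := h.cV.comp emb hm
    have cW := h.cW.comp emb hm
    have cU1 := h.cU1.comp emb hm
    have cV1 := h.cV1.comp emb hm
    simp only [Function.comp_def] at cU cV cW cU1 cV1
    have neU : ∀ τ ∈ Ico 0 T, U τ 0 ≠ 0 := by
      intro τ hτ
      rcases eq_or_lt_of_le hτ.1 with h0 | h0
      · rw [← h0, (h.init 0 zero_mem_Is).1]; simp [U0]
      · exact (key τ ⟨h0, hτ.2⟩).1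
    have neV : ∀ τ ∈ Ico 0 T, V τ 0 ≠ 0 := by
      intro τ hτ
      rcases eq_or_lt_of_le hτ.1 with h0 | h0
      · rw [← h0, (h.init 0 zero_mem_Is).2.1]; simp [V0]
      · exact (key τ ⟨h0, hτ.2⟩).2.1
    simp only [hf, kk]
    exact (((continuousOn_const.sub ((cV1.mul (cV.inv₀ neV)).const_mul 36)).sub
      (((cU.sub cV).mul (cV.inv₀ neV)).const_mul 9)).sub
      (((((cV.sub cU).add cW).sub (cU1.const_mul 2)).mul (cU.inv₀ neU)).const_mul 12))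
  have hd : ∀ τ ∈ Ioo 0 T, HasDerivAt f (Phi (U τ 0) (V τ 0) (W τ 0) (deriv (U τ) 0)
      (deriv (V τ) 0) (deriv (W τ) 0) (deriv (deriv (U τ)) 0) (deriv (deriv (V τ)) 0)) τ :=
    fun τ hτ => deriv_EE h hτ (key τ hτ).1 (key τ hτ).2.1
  have mv := (convex_Ico (0:ℝ) T).image_sub_le_mul_sub_of_deriv_le hcont
    (by rw [interior_Ico]; exact fun τ hτ => (hd τ hτ).differentiableAt.differentiableWithinAt)
    (C := -1/2) (by
      rw [interior_Ico]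
      intro τ hτ
      rw [(hd τ hτ).deriv]
      exact (key τ hτ).2.2) 0 ⟨le_refl _, hT⟩ t ⟨ht.1.le, ht.2⟩ ht.1.le
  rw [hf0] at mv
  have : 36 * δ / (69/125) ≤ 100 * δ := by
    rw [div_le_iff₀ (by norm_num)]; linarith
  have e : f t = kk (U t 0) (V t 0) (W t 0) (deriv (U t) 0) (deriv (V t) 0) := rfl
  rw [← e]
  linarith

end Pool.Agent.H858R2
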