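import Mathlib
import Pool.Agent.H858R2.Neg

set_option autoImplicit false
set_option linter.all false
open scoped ContDiff Topology
open Set Filter

namespace Pool.Agent.H858R2

namespace Fin83

theorem IsSol.mono {T δ η η' : ℝ} {U V W : ℝ → ℝ → ℝ} (h : IsSol T δ η U V W) (hη : η ≤ η') :
    IsSol T δ η' U V W :=
  { smU := h.smU, smV := h.smV, smW := h.smW, eqU := h.eqU, eqV := h.eqV, eqW := h.eqW
    init := h.init, cU := h.cU, cV := h.cV, cW := h.cW, cU1 := h.cU1, cV1 := h.cV1, cW1 := h.cW1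
    cU2 := h.cU2, cV2 := h.cV2
    close := fun t ht s hs => by
      obtain ⟨a, b, c, d, e, f, g, i⟩ := h.close t ht s hs
      exact ⟨a.trans hη, b.trans hη, c.trans hη, d.trans hη, e.trans hη, f.trans hη, g.trans hη,
        i.trans hη⟩ }

theorem posK_tendsto {ι : Type} {l : Filter ι} {s u v w u1 v1 w1 u2 v2 : ι → ℝ}
    {s' u' v' w' u1' v1' w1' u2' v2' : ℝ} (hs : Tendsto s l (𝓝 s')) (hu : Tendsto u l (𝓝 u'))
    (hv : Tendsto v l (𝓝 v')) (hw : Tendsto w l (𝓝 w')) (hu1 : Tendsto u1 l (𝓝 u1'))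
    (hv1 : Tendsto v1 l (𝓝 v1')) (hw1 : Tendsto w1 l (𝓝 w1')) (hu2 : Tendsto u2 l (𝓝 u2'))
    (hv2 : Tendsto v2 l (𝓝 v2')) (hu0 : u' ≠ 0) (hv0 : v' ≠ 0) (hE0 : cE s' u' v' w' ≠ 0)
    (h : PosK s' u' v' w' u1' v1' w1' u2' v2') :
    ∀ᶠ i in l, PosK (s i) (u i) (v i) (w i) (u1 i) (v1 i) (w1 i) (u2 i) (v2 i) := by
  have hiu := hu.inv₀ hu0
  have hiv := hv.inv₀ hv0
  have hE : Tendsto (fun i => cE (s i) (u i) (v i) (w i)) l (𝓝 (cE s' u' v' w')) := by
    unfold cE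
    repeat' (first | assumption | exact tendsto_const_nhds |
      apply Filter.Tendsto.sub | apply Filter.Tendsto.add |
      apply Filter.Tendsto.pow | apply Filter.Tendsto.mul)
  have hiE := hE.inv₀ hE0
  have h1 : Tendsto (fun i => kRF (s i) (u i) (v i) (w i) (u1 i) (v1 i) (w1 i) (u2 i) (u i)⁻¹
      (cE (s i) (u i) (v i) (w i))⁻¹) l (𝓝 (kRF s' u' v' w' u1' v1' w1' u2' u'⁻¹
      (cE s' u' v' w')⁻¹)) := by
    unfold kRF cE1
    repeat' (first | assumption | exact tendsto_const_nhds |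
      apply Filter.Tendsto.sub | apply Filter.Tendsto.add |
      apply Filter.Tendsto.pow | apply Filter.Tendsto.mul)
  have h2 : Tendsto (fun i => kFF (s i) (u i) (v i) (w i) (u1 i) (u i)⁻¹) l
      (𝓝 (kFF s' u' v' w' u1' u'⁻¹)) := by
    unfold kFF cQ
    repeat' (first | assumption | exact tendsto_const_nhds |
      apply Filter.Tendsto.sub | apply Filter.Tendsto.add |
      apply Filter.Tendsto.pow | apply Filter.Tendsto.mul)
  have h3 : Tendsto (fun i => kRH (s i) (u i) (v i) (w i) (u1 i) (v1 i) (w1 i) (v2 i) (v i)⁻¹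
      (cE (s i) (u i) (v i) (w i))⁻¹) l (𝓝 (kRH s' u' v' w' u1' v1' w1' v2' v'⁻¹
      (cE s' u' v' w')⁻¹)) := by
    unfold kRH cE1
    repeat' (first | assumption | exact tendsto_const_nhds |
      apply Filter.Tendsto.sub | apply Filter.Tendsto.add |
      apply Filter.Tendsto.pow | apply Filter.Tendsto.mul)
  have h4 : Tendsto (fun i => kHH (s i) (u i) (v i) (w i) (v1 i) (v i)⁻¹) l
      (𝓝 (kHH s' u' v' w' v1' v'⁻¹)) := by
    unfold kHH cR
    repeat' (first | assumption | exact tendsto_const_nhds |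
      apply Filter.Tendsto.sub | apply Filter.Tendsto.add |
      apply Filter.Tendsto.pow | apply Filter.Tendsto.mul)
  have h5 : Tendsto (fun i => kFH (s i) (u1 i) (v1 i) (u i)⁻¹ (v i)⁻¹) l
      (𝓝 (kFH s' u1' v1' u'⁻¹ v'⁻¹)) := by
    unfold kFH
    repeat' (first | assumption | exact tendsto_const_nhds |
      apply Filter.Tendsto.sub | apply Filter.Tendsto.add |
      apply Filter.Tendsto.pow | apply Filter.Tendsto.mul)
  have h6 := (h1.const_mul 4).sub h2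
  have h7 := (h6.mul ((h3.const_mul 4).sub h4)).sub ((((h1.add h3).sub h5).pow 2).const_mul 4)
  simp only [PosK] at h ⊢
  obtain ⟨p1, p2, p3, p4, p5, p6, p7⟩ := h
  filter_upwards [h1.eventually_const_lt p1, h2.eventually_const_lt p2, h3.eventually_const_lt p3,
    h4.eventually_const_lt p4, h5.eventually_const_lt p5, h6.eventually_const_lt p6,
    h7.eventually_const_lt p7] with i q1 q2 q3 q4 q5 q6 q7
  exact ⟨q1, q2, q3, q4, q5, q6, q7⟩

theorem Icc_sub_Is : Icc (0 : ℝ) 1 ⊆ Is := fun x hx => ⟨by linarith [hx.1], by linarith [hx.2]⟩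

theorem isOpen_Is : IsOpen Is := isOpen_Ioo

/-- derivative of a function equal to a given one on `Is` -/
theorem deriv_eq_Is {f g : ℝ → ℝ} (h : ∀ s ∈ Is, f s = g s) : ∀ s ∈ Is, deriv f s = deriv g s := by
  intro s hs
  apply Filter.EventuallyEq.deriv_eq
  filter_upwards [isOpen_Is.mem_nhds hs] with x hx
  exact h x hx

theorem deriv_U0 (s : ℝ) : deriv U0 s = U0' := by
  have : HasDerivAt U0 U0' s := by
    unfold U0 U0'
    have := ((hasDerivAt_id s).const_mul (323/1000 : ℝ)).const_add 1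
    simpa using this
  exact this.deriv

theorem deriv_V0 (δ s : ℝ) : deriv (V0 δ) s = V0' δ s := by
  have : HasDerivAt (V0 δ) (V0' δ s) s := by
    have h1 : HasDerivAt (fun s : ℝ => s) 1 s := hasDerivAt_id s
    have := (((h1.const_mul (37037/125000 : ℝ)).const_add (69/125)).add
      ((h1.pow 2).const_mul (18963/125000 : ℝ))).sub ((h1.const_mul δ).mul (h1.const_sub 1))
    refine this.congr_deriv ?_
    simp only [V0']
    push_cast
    ring
  exact this.deriv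

theorem deriv_W0 (δ s : ℝ) : deriv (W0 δ) s = W0' δ := by
  have : HasDerivAt (W0 δ) (W0' δ) s := by
    unfold W0 W0'
    have := ((hasDerivAt_id s).const_mul (18963/125000 + δ : ℝ)).const_add (1/8)
    simpa using this
  exact this.deriv

theorem deriv_V0' (δ s : ℝ) : deriv (V0' δ) s = V0'' δ := by
  have : HasDerivAt (V0' δ) (V0'' δ) s := by
    have h1 : HasDerivAt (fun s : ℝ => s) 1 s := hasDerivAt_id s
    have := ((h1.const_mul (18963/62500 : ℝ)).const_add (37037/125000)).sub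
      (((h1.const_mul (2 : ℝ)).const_sub 1).const_mul δ)
    refine this.congr_deriv ?_
    simp only [V0'']
    ring
  exact this.deriv

end Fin83

open Fin83

/-! ## TARGET FIN
Paper proof. Take `η₁` from `neg_exists`, `η = min η₁ (1/100)`-ish (an `IsSol` with smaller `η` is an `IsSol` with `η₁`),
`T, δ₀` from the hypothesis, then `0 < δ ≤ δ₀, η₁, 1/10000` with `100 δ < T/8`. Closeness gives `U, V, W > 0` on
`[0,1]` (`U0 ≥ 1, V0 ≥ 0.55, W0 ≥ 1/8`). `PosK` holds at `t = 0` on `[0,1]` (`init_pos`; `cE_init, and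
`deriv (U 0) s = U0'` etc. because `U 0 = U0` on the open set `Is`), so by continuity (`cU, ..., cV2`) and
compactness of `[0,1]` there is `t₀ ∈ (0, T/4)` with `PosK` on `[0,1]` at time `t₀`. At `t₁ = 3T/4`:
`EE < 0`. The flow is `g t = ` the metric of `metric_of` for `U (t₀+t), ...`, `0 ≤ t < T - t₀` (any fixed metric for
other `t`); `ricci_of`, `pos_of`, `neg_of` finish. -/
theorem main_of (H : ∀ η > 0, ∃ T > 0, ∃ δ₀ > 0, ∀ δ, 0 ≤ δ → δ ≤ δ₀ →
      ∃ U V W : ℝ → ℝ → ℝ, IsSol T δ η U V W) :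
    ∃ (T : ℝ) (g : ℝ → Metric 5 S5), 0 < T ∧ IsRicciFlow T g ∧ PosSecond (g 0) ∧
      ∃ t ∈ Ioo 0 T, ¬ PosSecond (g t) := by
  obtain ⟨η₁, hη₁, hneg⟩ := neg_exists
  obtain ⟨T, hT, δ₀, hδ₀, hex⟩ := H (min η₁ (1/100)) (by positivity)
  obtain ⟨δ, hδ, hd0, hd1, hd2, hd3⟩ : ∃ δ > 0, δ ≤ δ₀ ∧ δ ≤ η₁ ∧ δ ≤ 1/10000 ∧ δ ≤ T/1000 := by
    refine ⟨min (min δ₀ η₁) (min (1/10000) (T/1000)), by positivity, ?_, ?_, ?_, ?_⟩
    · exact (min_le_left _ _).trans (min_le_left _ _)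
    · exact (min_le_left _ _).trans (min_le_right _ _)
    · exact (min_le_right _ _).trans (min_le_left _ _)
    · exact (min_le_right _ _).trans (min_le_right _ _)
  obtain ⟨U, V, W, hsol⟩ := hex δ hδ.le hd0
  have hneg' := hneg T δ hδ.le hd1 U V W (Fin83.IsSol.mono hsol (min_le_left _ _))
  have hpos : ∀ t ∈ Ioo 0 T, ∀ s ∈ Icc (0:ℝ) 1, 0 < U t s ∧ 0 < V t s ∧ 0 ≤ W t s := by
    intro t ht s hs
    obtain ⟨a, b, c, _⟩ := hsol.close t ht s hs
    have hm : min η₁ (1/100) ≤ 1/100 := min_le_right _ _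
    have a1 := neg_le_of_abs_le a
    have b1 := neg_le_of_abs_le b
    have c1 := neg_le_of_abs_le c
    have hs0 := hs.1
    have hs1 := hs.2
    have e1 : (1 : ℝ) ≤ U0 s := by unfold U0; linarith
    have e2 : (1/2 : ℝ) ≤ V0 δ s := by
      unfold V0
      have h1 : δ * s * (1 - s) ≤ 1/10000 := by
        have h2 : s * (1 - s) ≤ 1 := by nlinarith
        have h3 : 0 ≤ s * (1 - s) := mul_nonneg hs0 (by linarith)
        calc δ * s * (1 - s) = δ * (s * (1 - s)) := by ring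
          _ ≤ 1/10000 * 1 := mul_le_mul hd2 h2 h3 (by norm_num)
          _ = 1/10000 := by ring
      have h4 : 0 ≤ s ^ 2 := sq_nonneg s
      linarith
    have e3 : (1/8 : ℝ) ≤ W0 δ s := by
      unfold W0
      have : 0 ≤ (18963/125000+δ) * s := mul_nonneg (by linarith) hs0
      linarith
    refine ⟨by linarith, by linarith, by linarith⟩
  -- positivity at time `t₀`
  have hPK : ∀ s ∈ Icc (0:ℝ) 1, ∀ᶠ z : ℝ × ℝ in 𝓝 (0, s), z ∈ Ico 0 T ×ˢ Icc (0:ℝ) 1 →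
      PosK z.2 (U z.1 z.2) (V z.1 z.2) (W z.1 z.2) (deriv (U z.1) z.2) (deriv (V z.1) z.2)
        (deriv (W z.1) z.2) (deriv (deriv (U z.1)) z.2) (deriv (deriv (V z.1)) z.2) := by
    intro s hs
    rw [← eventually_nhdsWithin_iff]
    have hmem : ((0 : ℝ), s) ∈ Ico 0 T ×ˢ Icc (0:ℝ) 1 := ⟨⟨le_rfl, hT⟩, hs⟩
    have hsI : s ∈ Is := Icc_sub_Is hs
    obtain ⟨iU, iV, iW⟩ := hsol.init s hsI
    have dU : ∀ s ∈ Is, deriv (U 0) s = U0' := fun s hs => by
      rw [deriv_eq_Is (fun s hs => (hsol.init s hs).1) s hs, deriv_U0]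
    have dV : ∀ s ∈ Is, deriv (V 0) s = V0' δ s := fun s hs => by
      rw [deriv_eq_Is (fun s hs => (hsol.init s hs).2.1) s hs, deriv_V0]
    have dW : ∀ s ∈ Is, deriv (W 0) s = W0' δ := fun s hs => by
      rw [deriv_eq_Is (fun s hs => (hsol.init s hs).2.2) s hs, deriv_W0]
    have dU2 : deriv (deriv (U 0)) s = 0 := by
      rw [deriv_eq_Is (g := fun _ => U0') dU s hsI, deriv_const]
    have dV2 : deriv (deriv (V 0)) s = V0'' δ := by
      rw [deriv_eq_Is (g := V0' δ) dV s hsI, deriv_V0']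
    have cE0 : cE s (U 0 s) (V 0 s) (W 0 s) = 1 := by rw [iU, iV, iW, cE_init]
    refine posK_tendsto (s' := s) continuous_snd.continuousWithinAt (hsol.cU _ hmem)
      (hsol.cV _ hmem) (hsol.cW _ hmem) (hsol.cU1 _ hmem) (hsol.cV1 _ hmem) (hsol.cW1 _ hmem)
      (hsol.cU2 _ hmem) (hsol.cV2 _ hmem) ?_ ?_ ?_ ?_
    · show U 0 s ≠ 0
      rw [iU]; exact (U0_pos hs.1).ne'
    · show V 0 s ≠ 0
      rw [iV]; exact (V0_pos hd2 hs.1 hs.2).ne'
    · show cE s (U 0 s) (V 0 s) (W 0 s) ≠ 0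
      rw [cE0]; exact one_ne_zero
    · have := init_pos hδ hd2 hs.1 hs.2
      show PosK s (U 0 s) (V 0 s) (W 0 s) (deriv (U 0) s) (deriv (V 0) s) (deriv (W 0) s)
        (deriv (deriv (U 0)) s) (deriv (deriv (V 0)) s)
      simp only [PosK]
      rw [cE0, dU s hsI, dV s hsI, dW s hsI, dU2, dV2, iU, iV, iW, inv_one]
      exact this
  have hev := isCompact_Icc.eventually_forall_of_forall_eventually (x₀ := (0 : ℝ))
    (P := fun t s => (t, s) ∈ Ico 0 T ×ˢ Icc (0:ℝ) 1 →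
      PosK s (U t s) (V t s) (W t s) (deriv (U t) s) (deriv (V t) s)
        (deriv (W t) s) (deriv (deriv (U t)) s) (deriv (deriv (V t)) s)) hPK
  obtain ⟨t₀, ht₀, ht₀'⟩ : ∃ t₀ ∈ Ioo 0 (T / 4), ∀ s ∈ Icc (0:ℝ) 1,
      PosK s (U t₀ s) (V t₀ s) (W t₀ s) (deriv (U t₀) s) (deriv (V t₀) s)
        (deriv (W t₀) s) (deriv (deriv (U t₀)) s) (deriv (deriv (V t₀)) s) := by
    have h1 : ∀ᶠ t in 𝓝[>] (0 : ℝ), t ∈ Ioo 0 (T / 4) := Ioo_mem_nhdsGT (by linarith)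
    obtain ⟨t, h2, h3⟩ := (h1.and (hev.filter_mono nhdsWithin_le_nhds)).exists
    exact ⟨t, h2, fun s hs => h3 s hs ⟨⟨h2.1.le, by linarith [h2.2]⟩, hs⟩⟩
  have sm : ∀ (F : ℝ → ℝ → ℝ), ContDiffOn ℝ ∞ (fun p : ℝ × ℝ => F p.1 p.2) (Ioo 0 T ×ˢ Is) →
      ∀ t ∈ Ioo 0 T, SmI (F t) := by
    intro F hF t ht
    have h1 : ContDiffOn ℝ ∞ (fun s : ℝ => (t, s)) Is := by fun_prop
    exact hF.comp h1 (fun s hs => ⟨ht, hs⟩)
  have hmet : ∀ t : ℝ, t ∈ Ioo 0 T → ∃ g : Metric 5 S5, ∀ e, g.G e =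
      pullA (Pinv e) (U t) (V t) (W t) := fun t ht =>
    metric_of _ _ _ (sm U hsol.smU t ht) (sm V hsol.smV t ht) (sm W hsol.smW t ht) (hpos t ht)
  have ht₀T : t₀ ∈ Ioo 0 T := ⟨ht₀.1, by linarith [ht₀.2]⟩
  haveI : Nonempty (Metric 5 S5) := ⟨(hmet t₀ ht₀T).choose⟩
  choose! gm hgm using hmet
  set tt : ℝ → ℝ := fun t => if t ∈ Ico 0 (T - t₀) then t₀ + t else t₀ with htt
  have htt1 : ∀ t ∈ Ico 0 (T - t₀), tt t = t₀ + t := fun t ht => by
    simp only [htt]; rw [if_pos ht]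
  have htt2 : ∀ t, tt t ∈ Ioo 0 T := fun t => by
    by_cases ht : t ∈ Ico 0 (T - t₀)
    · rw [htt1 t ht]
      exact ⟨by linarith [ht.1, ht₀.1], by linarith [ht.2]⟩
    · simp only [htt]; rw [if_neg ht]; exact ht₀T
  have hR := ricci_of T U V W hsol.smU hsol.smV hsol.smW hpos
    (fun t ht s hs => hsol.eqU t ht s (Icc_sub_Is ⟨hs.1.le, hs.2.le⟩))
    (fun t ht s hs => hsol.eqV t ht s (Icc_sub_Is ⟨hs.1.le, hs.2.le⟩))
    (fun t ht s hs => hsol.eqW t ht s (Icc_sub_Is ⟨hs.1.le, hs.2.le⟩))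
  refine ⟨T - t₀, fun t => gm (tt t), by linarith [ht₀T.2], ⟨?_, ?_⟩, ?_, ?_⟩
  · intro e he i j
    have h1 : ContDiffOn ℝ ∞ (fun p : ℝ × QTot.Eu 5 => (t₀ + p.1, p.2))
        (Ico 0 (T - t₀) ×ˢ ctarget e) := by fun_prop
    have h2 := ((hR e he).1 i j).comp h1 (fun p hp =>
      ⟨⟨by linarith [hp.1.1, ht₀.1], by linarith [hp.1.2]⟩, mem_univ _⟩)
    refine h2.congr ?_
    intro p hp
    show (gm (tt p.1)).G e p.2 i j = _
    rw [hgm _ (htt2 _), htt1 _ hp.1]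
    rfl
  · intro e he y _ t ht i j
    have h1 : t₀ + t ∈ Ioo 0 T := htt1 t ht ▸ htt2 t
    have h2 := (hR e he).2 (t₀ + t) h1 y i j
    have h3 : HasDerivAt (fun τ => pullA (Pinv e) (U (t₀ + τ)) (V (t₀ + τ)) (W (t₀ + τ)) y i j)
        (-2 * QTot.Ric (pullA (Pinv e) (U (t₀ + t)) (V (t₀ + t)) (W (t₀ + t))) y i j) t :=
      HasDerivAt.comp_const_add t₀ t h2
    have h4 : (gm (tt t)).G e = pullA (Pinv e) (U (t₀ + t)) (V (t₀ + t)) (W (t₀ + t)) := by
      rw [hgm _ (htt2 _), htt1 _ ht]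
    show HasDerivWithinAt (fun τ => (gm (tt τ)).G e y i j) (-2 * QTot.Ric ((gm (tt t)).G e) y i j)
      (Ico 0 (T - t₀)) t
    rw [h4]
    refine h3.hasDerivWithinAt.congr ?_ ?_
    · intro τ hτ
      show (gm (tt τ)).G e y i j = _
      rw [hgm _ (htt2 _), htt1 _ hτ]
    · show (gm (tt t)).G e y i j = _
      rw [h4]
  · have h0 : tt 0 = t₀ := by
      rw [htt1 0 ⟨le_rfl, by linarith [ht₀T.2]⟩, add_zero]
    show PosSecond (gm (tt 0))
    rw [h0]
    exact pos_of _ _ _ (sm U hsol.smU t₀ ht₀T) (sm V hsol.smV t₀ ht₀T) (sm W hsol.smW t₀ ht₀T)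
      (hpos t₀ ht₀T) ht₀' _ (fun e _ => hgm t₀ ht₀T e)
  · have ht1 : 3 * T / 4 - t₀ ∈ Ioo 0 (T - t₀) := ⟨by linarith [ht₀.2], by linarith⟩
    refine ⟨3 * T / 4 - t₀, ht1, ?_⟩
    have h1 : tt (3 * T / 4 - t₀) = 3 * T / 4 := by
      rw [htt1 _ ⟨ht1.1.le, ht1.2⟩]; ring
    have h2 : 3 * T / 4 ∈ Ioo 0 T := ⟨by linarith, by linarith⟩
    show ¬ PosSecond (gm (tt (3 * T / 4 - t₀)))
    rw [h1]
    refine neg_of _ _ _ (sm U hsol.smU _ h2) (sm V hsol.smV _ h2) (sm W hsol.smW _ h2)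
      (hpos _ h2) ?_ _ (fun e _ => hgm _ h2 e)
    have := hneg' _ h2
    linarith

end Pool.Agent.H858R2
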