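import Mathlib

set_option autoImplicit false
set_option linter.all false
open Finset

namespace Pool.Agent.H858R2

noncomputable section

/-! Banach algebras of power series with norm `∑ (k+1)^m ‖f_k‖`. -/

/-- weight -/
def wt (m k : ℕ) : ℝ := ((k : ℝ) + 1) ^ m

theorem wt_pos (m k : ℕ) : 0 < wt m k := by unfold wt; positivity
theorem one_le_wt (m k : ℕ) : 1 ≤ wt m k := by
  unfold wt
  exact one_le_pow₀ (by have : (0:ℝ) ≤ k := Nat.cast_nonneg k; linarith)
@[simp] theorem wt_zero_left (k : ℕ) : wt 0 k = 1 := by simp [wt]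
@[simp] theorem wt_zero_right (m : ℕ) : wt m 0 = 1 := by simp [wt]
theorem wt_one (k : ℕ) : wt 1 k = (k : ℝ) + 1 := by simp [wt]
theorem wt_add_le (m i j : ℕ) : wt m (i + j) ≤ wt m i * wt m j := by
  unfold wt
  rw [← mul_pow]
  apply pow_le_pow_left₀ (by positivity)
  push_cast
  have h1 : (0:ℝ) ≤ i := Nat.cast_nonneg i
  have h2 : (0:ℝ) ≤ j := Nat.cast_nonneg j
  nlinarith [mul_nonneg h1 h2]

variable (m : ℕ) (R : Type) [NormedCommRing R] [NormedAlgebra ℝ R]

/-- weighted summability -/
def Summ (f : PowerSeries R) : Prop := Summable fun k => wt m k * ‖PowerSeries.coeff k f‖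

variable {m R}

theorem cauchyR (a b : ℕ → ℝ) (ha : Summable a) (hb : Summable b) (ha0 : ∀ k, 0 ≤ a k)
    (hb0 : ∀ k, 0 ≤ b k) :
    Summable (fun n => ∑ kl ∈ antidiagonal n, a kl.1 * b kl.2) ∧
    (∑' n, ∑ kl ∈ antidiagonal n, a kl.1 * b kl.2) = (∑' n, a n) * (∑' n, b n) := by
  have h : Summable fun x : ℕ × ℕ => a x.1 * b x.2 := ha.mul_of_nonneg hb ha0 hb0
  exact ⟨summable_sum_mul_antidiagonal_of_summable_mul h,
    (ha.tsum_mul_tsum_eq_tsum_sum_antidiagonal hb h).symm⟩

theorem Summ.mul_aux {f g : PowerSeries R} (hf : Summ m R f) (hg : Summ m R g) :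
    Summable (fun n => ∑ kl ∈ antidiagonal n, (wt m kl.1 * ‖PowerSeries.coeff kl.1 f‖) *
      (wt m kl.2 * ‖PowerSeries.coeff kl.2 g‖)) ∧
    ∀ n, wt m n * ‖PowerSeries.coeff n (f * g)‖ ≤
      ∑ kl ∈ antidiagonal n, (wt m kl.1 * ‖PowerSeries.coeff kl.1 f‖) *
        (wt m kl.2 * ‖PowerSeries.coeff kl.2 g‖) := by
  constructor
  · exact (cauchyR (fun k => wt m k * ‖PowerSeries.coeff k f‖) (fun k => wt m k * ‖PowerSeries.coeff k g‖)
      hf hg (fun k => mul_nonneg (wt_pos m k).le (norm_nonneg _))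
      (fun k => mul_nonneg (wt_pos m k).le (norm_nonneg _))).1
  · intro n
    rw [PowerSeries.coeff_mul]
    calc wt m n * ‖∑ p ∈ antidiagonal n, PowerSeries.coeff p.1 f * PowerSeries.coeff p.2 g‖
        ≤ wt m n * ∑ p ∈ antidiagonal n, ‖PowerSeries.coeff p.1 f‖ * ‖PowerSeries.coeff p.2 g‖ := by
          apply mul_le_mul_of_nonneg_left _ (wt_pos m n).le
          exact (norm_sum_le _ _).trans (Finset.sum_le_sum fun p _ => norm_mul_le _ _)
      _ ≤ _ := by
          rw [Finset.mul_sum]
          apply Finset.sum_le_sum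
          intro p hp
          have h1 : wt m n ≤ wt m p.1 * wt m p.2 := by
            rw [← (mem_antidiagonal.1 hp)]; exact wt_add_le m p.1 p.2
          calc wt m n * (‖PowerSeries.coeff p.1 f‖ * ‖PowerSeries.coeff p.2 g‖)
              ≤ (wt m p.1 * wt m p.2) * (‖PowerSeries.coeff p.1 f‖ * ‖PowerSeries.coeff p.2 g‖) :=
                mul_le_mul_of_nonneg_right h1 (by positivity)
            _ = _ := by ring

theorem Summ.mul {f g : PowerSeries R} (hf : Summ m R f) (hg : Summ m R g) : Summ m R (f * g) :=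
  Summable.of_nonneg_of_le (fun k => mul_nonneg (wt_pos m k).le (norm_nonneg _))
    (Summ.mul_aux hf hg).2 (Summ.mul_aux hf hg).1

theorem Summ.add {f g : PowerSeries R} (hf : Summ m R f) (hg : Summ m R g) : Summ m R (f + g) := by
  refine Summable.of_nonneg_of_le (fun k => mul_nonneg (wt_pos m k).le (norm_nonneg _)) ?_
    (Summable.add hf hg)
  intro k
  rw [map_add, ← mul_add]
  exact mul_le_mul_of_nonneg_left (norm_add_le _ _) (wt_pos m k).le

theorem summ_C (a : R) : Summ m R (PowerSeries.C a) := by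
  apply summable_of_ne_finset_zero (s := {0})
  intro k hk
  have : k ≠ 0 := by simpa using hk
  simp [PowerSeries.coeff_C, this]

variable (m R)

/-- the subalgebra of weighted summable power series -/
def PSsub : Subalgebra ℝ (PowerSeries R) where
  carrier := {f | Summ m R f}
  mul_mem' := fun ha hb => Summ.mul ha hb
  add_mem' := fun ha hb => Summ.add ha hb
  algebraMap_mem' := fun r => by
    have : algebraMap ℝ (PowerSeries R) r = PowerSeries.C (algebraMap ℝ R r) := by
      rw [PowerSeries.algebraMap_apply]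
    show Summ m R _
    rw [this]
    exact summ_C _

/-- the Banach algebra of weighted summable power series -/
def PS : Type := PSsub m R

instance : CommRing (PS m R) := inferInstanceAs (CommRing (PSsub m R))
instance : Algebra ℝ (PS m R) := inferInstanceAs (Algebra ℝ (PSsub m R))

variable {m R}

/-- underlying power series -/
def PS.val (f : PS m R) : PowerSeries R := f.1

theorem PS.summ (f : PS m R) : Summ m R f.val := f.2

/-- coefficient -/
def cf (k : ℕ) (f : PS m R) : R := PowerSeries.coeff k f.val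

theorem PS.summable (f : PS m R) : Summable fun k => wt m k * ‖cf k f‖ := f.2

@[ext] theorem PS.ext {f g : PS m R} (h : ∀ k, cf k f = cf k g) : f = g :=
  Subtype.ext (PowerSeries.ext h)

@[simp] theorem cf_zero (k : ℕ) : cf k (0 : PS m R) = 0 := map_zero _
@[simp] theorem cf_add (k : ℕ) (f g : PS m R) : cf k (f + g) = cf k f + cf k g := map_add _ _ _
@[simp] theorem cf_neg (k : ℕ) (f : PS m R) : cf k (-f) = - cf k f := map_neg _ _
@[simp] theorem cf_sub (k : ℕ) (f g : PS m R) : cf k (f - g) = cf k f - cf k g := map_sub _ _ _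
@[simp] theorem cf_smul (k : ℕ) (r : ℝ) (f : PS m R) : cf k (r • f) = r • cf k f := by
  show PowerSeries.coeff k (r • f.val) = r • PowerSeries.coeff k f.val
  simp
theorem cf_mul (n : ℕ) (f g : PS m R) :
    cf n (f * g) = ∑ p ∈ antidiagonal n, cf p.1 f * cf p.2 g := PowerSeries.coeff_mul n _ _
theorem cf_one (k : ℕ) : cf k (1 : PS m R) = if k = 0 then 1 else 0 := PowerSeries.coeff_one k

/-- constructor -/
def PS.of (a : ℕ → R) (h : Summable fun k => wt m k * ‖a k‖) : PS m R :=
  ⟨PowerSeries.mk a, by simpa [PSsub, Summ] using h⟩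

@[simp] theorem cf_of (a : ℕ → R) (h : Summable fun k => wt m k * ‖a k‖) (k : ℕ) :
    cf k (PS.of a h) = a k := PowerSeries.coeff_mk k a

/-- the norm -/
def psNorm (f : PS m R) : ℝ := ∑' k, wt m k * ‖cf k f‖

theorem term_nonneg (f : PS m R) (k : ℕ) : 0 ≤ wt m k * ‖cf k f‖ :=
  mul_nonneg (wt_pos m k).le (norm_nonneg _)

theorem term_le_psNorm (f : PS m R) (k : ℕ) : wt m k * ‖cf k f‖ ≤ psNorm f :=
  f.summable.le_tsum k (fun j _ => term_nonneg f j)

instance : NormedAddCommGroup (PS m R) :=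
  AddGroupNorm.toNormedAddCommGroup
    { toFun := psNorm
      map_zero' := by simp [psNorm]
      add_le' := fun f g => by
        unfold psNorm
        rw [← f.summable.tsum_add g.summable]
        refine Summable.tsum_le_tsum ?_ (f + g).summable (f.summable.add g.summable)
        intro k
        rw [cf_add, ← mul_add]
        exact mul_le_mul_of_nonneg_left (norm_add_le _ _) (wt_pos m k).le
      neg' := fun f => by simp [psNorm]
      eq_zero_of_map_eq_zero' := fun f hf => by
        have hf' : psNorm f = 0 := hf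
        ext k
        have h1 := term_le_psNorm f k
        have h2 := term_nonneg f k
        have h3 : wt m k * ‖cf k f‖ = 0 := le_antisymm (hf' ▸ h1) h2
        have h4 := (mul_eq_zero.1 h3).resolve_left (wt_pos m k).ne'
        simpa using h4 }

theorem PS.norm_def (f : PS m R) : ‖f‖ = ∑' k, wt m k * ‖cf k f‖ := rfl

theorem term_le_norm (f : PS m R) (k : ℕ) : wt m k * ‖cf k f‖ ≤ ‖f‖ := term_le_psNorm f k

theorem norm_cf_le (f : PS m R) (k : ℕ) : ‖cf k f‖ ≤ ‖f‖ := by
  have h := term_le_norm f k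
  have h1 := one_le_wt m k
  nlinarith [norm_nonneg (cf k f)]

theorem PS.norm_le_of {f : PS m R} {C : ℝ} (b : ℕ → ℝ) (hb : Summable b)
    (h : ∀ k, wt m k * ‖cf k f‖ ≤ b k) (hC : ∑' k, b k ≤ C) : ‖f‖ ≤ C :=
  (Summable.tsum_le_tsum h f.summable hb).trans hC

theorem ps_norm_mul_le (f g : PS m R) : ‖f * g‖ ≤ ‖f‖ * ‖g‖ := by
  have h2 := (cauchyR (fun k => wt m k * ‖cf k f‖) (fun k => wt m k * ‖cf k g‖)
      f.summable g.summable (term_nonneg f) (term_nonneg g))
  have h3 : ∀ n, wt m n * ‖cf n (f * g)‖ ≤ ∑ kl ∈ antidiagonal n, (wt m kl.1 * ‖cf kl.1 f‖) *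
        (wt m kl.2 * ‖cf kl.2 g‖) := (Summ.mul_aux f.summ g.summ).2
  rw [PS.norm_def f, PS.norm_def g, ← h2.2]
  exact Summable.tsum_le_tsum h3 (f * g).summable h2.1

instance : NormedCommRing (PS m R) :=
  { (inferInstance : NormedAddCommGroup (PS m R)), (inferInstance : CommRing (PS m R)) with
    norm_mul_le := ps_norm_mul_le }

instance : NormedAlgebra ℝ (PS m R) :=
  { (inferInstance : Algebra ℝ (PS m R)) with
    norm_smul_le := fun r f => by
      rw [PS.norm_def, PS.norm_def, ← tsum_mul_left]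
      refine le_of_eq (tsum_congr fun k => ?_)
      rw [cf_smul, norm_smul]
      ring }

/-- constants -/
def Cst (a : R) : PS m R := ⟨PowerSeries.C a, summ_C a⟩

theorem cf_Cst (k : ℕ) (a : R) : cf k (Cst a : PS m R) = if k = 0 then a else 0 :=
  PowerSeries.coeff_C k a

theorem norm_Cst (a : R) : ‖(Cst a : PS m R)‖ = ‖a‖ := by
  rw [PS.norm_def, tsum_eq_single 0]
  · simp [cf_Cst]
  · intro k hk
    simp [cf_Cst, hk]

instance [NormOneClass R] : NormOneClass (PS m R) :=
  ⟨by
    have : (1 : PS m R) = Cst 1 := by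
      ext k; rw [cf_one, cf_Cst]
    rw [this, norm_Cst, norm_one]⟩

end

end Pool.Agent.H858R2
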