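import Mathlib
import Pool.Agent.H858R2.PS

set_option autoImplicit false
set_option linter.all false
open Finset

namespace Pool.Agent.H858R2

noncomputable section

variable {m m' : ℕ} {R S : Type} [NormedCommRing R] [NormedAlgebra ℝ R]
  [NormedCommRing S] [NormedAlgebra ℝ S]

/-! ### completeness -/

/-- isometric embedding in `ℓ¹` -/
def toL1 : PS m R →+ lp (fun _ : ℕ => R) 1 where
  toFun f := ⟨fun k => wt m k • cf k f, by
    apply memℓp_gen
    simp only [ENNReal.toReal_one, Real.rpow_one]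
    refine f.summable.congr fun k => ?_
    rw [norm_smul, Real.norm_of_nonneg (wt_pos m k).le]⟩
  map_zero' := by
    ext k
    simp
  map_add' f g := by
    ext k
    show wt m k • cf k (f + g) = wt m k • cf k f + wt m k • cf k g
    rw [cf_add, smul_add]

theorem toL1_apply (f : PS m R) (k : ℕ) : toL1 f k = wt m k • cf k f := rfl

theorem norm_toL1 (f : PS m R) : ‖toL1 f‖ = ‖f‖ := by
  rw [lp.norm_eq_tsum_rpow (by simp)]
  simp only [ENNReal.toReal_one, Real.rpow_one, ne_eq, one_ne_zero, not_false_eq_true, div_self]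
  rw [PS.norm_def]
  refine tsum_congr fun k => ?_
  rw [toL1_apply, norm_smul, Real.norm_of_nonneg (wt_pos m k).le]

theorem toL1_surj : Function.Surjective (toL1 : PS m R →+ lp (fun _ : ℕ => R) 1) := by
  intro g
  have hg : Summable fun k => ‖g k‖ := by
    have := (lp.memℓp g).summable (by simp)
    simpa using this
  refine ⟨PS.of (fun k => (wt m k)⁻¹ • g k) ?_, ?_⟩
  · refine hg.congr fun k => ?_
    rw [norm_smul, norm_inv, Real.norm_of_nonneg (wt_pos m k).le,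
      mul_inv_cancel_left₀ (wt_pos m k).ne']
  · ext k
    rw [toL1_apply, cf_of, smul_inv_smul₀ (wt_pos m k).ne']

instance [CompleteSpace R] : CompleteSpace (PS m R) := by
  have hiso : Isometry (toL1 : PS m R →+ lp (fun _ : ℕ => R) 1) :=
    AddMonoidHomClass.isometry_of_norm _ norm_toL1
  let e : PS m R ≃ᵢ lp (fun _ : ℕ => R) 1 :=
    ⟨Equiv.ofBijective _ ⟨hiso.injective, toL1_surj⟩, hiso⟩
  exact e.completeSpace

/-! ### operators -/

/-- continuous linear coefficient map -/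
def cfL (k : ℕ) : PS m R →L[ℝ] R :=
  LinearMap.mkContinuous
    { toFun := cf k, map_add' := cf_add k, map_smul' := fun r f => cf_smul k r f } 1
    (fun f => by simpa using norm_cf_le f k)

@[simp] theorem cfL_apply (k : ℕ) (f : PS m R) : cfL k f = cf k f := rfl

theorem opBound {c : ℕ → (R →L[ℝ] S)} {j : ℕ} {C : ℝ}
    (hC : ∀ k, wt m' k * ‖c k‖ ≤ C * wt m (k + j)) (f : PS m R) :
    (∀ k, wt m' k * ‖c k (cf (k + j) f)‖ ≤ C * (wt m (k + j) * ‖cf (k + j) f‖)) ∧
    (Summable fun k => C * (wt m (k + j) * ‖cf (k + j) f‖)) ∧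
    ∑' k, C * (wt m (k + j) * ‖cf (k + j) f‖) ≤ C * ‖f‖ := by
  have hC0 : 0 ≤ C := by
    have h := hC 0
    have h1 : 0 ≤ wt m' 0 * ‖c 0‖ := mul_nonneg (wt_pos _ _).le (norm_nonneg _)
    have h2 := wt_pos m (0 + j)
    by_contra h3
    have : C * wt m (0 + j) < 0 := mul_neg_of_neg_of_pos (not_le.1 h3) h2
    linarith
  have hs : Summable fun k => (wt m (k + j) * ‖cf (k + j) f‖) :=
    (summable_nat_add_iff (f := fun k => wt m k * ‖cf k f‖) j).2 f.summable
  refine ⟨fun k => ?_, hs.mul_left C, ?_⟩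
  · calc wt m' k * ‖c k (cf (k + j) f)‖ ≤ wt m' k * (‖c k‖ * ‖cf (k + j) f‖) :=
          mul_le_mul_of_nonneg_left ((c k).le_opNorm _) (wt_pos _ _).le
      _ = (wt m' k * ‖c k‖) * ‖cf (k + j) f‖ := by ring
      _ ≤ (C * wt m (k + j)) * ‖cf (k + j) f‖ :=
          mul_le_mul_of_nonneg_right (hC k) (norm_nonneg _)
      _ = _ := by ring
  · rw [tsum_mul_left]
    apply mul_le_mul_of_nonneg_left _ hC0
    rw [PS.norm_def, ← f.summable.sum_add_tsum_nat_add j]
    have : 0 ≤ ∑ i ∈ range j, wt m i * ‖cf i f‖ := Finset.sum_nonneg fun i _ => term_nonneg f i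
    linarith

/-- the operator `f ↦ (c_k f_{k+j})_k` -/
def mkOp (m m' j : ℕ) (c : ℕ → (R →L[ℝ] S)) (C : ℝ)
    (hC : ∀ k, wt m' k * ‖c k‖ ≤ C * wt m (k + j)) : PS m R →L[ℝ] PS m' S :=
  LinearMap.mkContinuous
    { toFun := fun f => PS.of (fun k => c k (cf (k + j) f))
        (Summable.of_nonneg_of_le (fun k => mul_nonneg (wt_pos _ _).le (norm_nonneg _))
          (opBound hC f).1 (opBound hC f).2.1)
      map_add' := fun f g => by ext k; simp
      map_smul' := fun r f => by ext k; simp } C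
    (fun f => PS.norm_le_of _ (opBound hC f).2.1
      (fun k => by simpa using (opBound hC f).1 k) (opBound hC f).2.2)

@[simp] theorem cf_mkOp {j : ℕ} {c : ℕ → (R →L[ℝ] S)} {C : ℝ}
    (hC : ∀ k, wt m' k * ‖c k‖ ≤ C * wt m (k + j)) (f : PS m R) (k : ℕ) :
    cf k (mkOp m m' j c C hC f) = c k (cf (k + j) f) :=
  cf_of (fun k => c k (cf (k + j) f)) (Summable.of_nonneg_of_le
    (fun k => mul_nonneg (wt_pos _ _).le (norm_nonneg _)) (opBound hC f).1 (opBound hC f).2.1) k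

theorem norm_mkOp_le {j : ℕ} {c : ℕ → (R →L[ℝ] S)} {C : ℝ}
    (hC : ∀ k, wt m' k * ‖c k‖ ≤ C * wt m (k + j)) : ‖mkOp m m' j c C hC‖ ≤ C := by
  apply LinearMap.mkContinuous_norm_le
  have h := hC 0
  have h1 : 0 ≤ wt m' 0 * ‖c 0‖ := mul_nonneg (wt_pos _ _).le (norm_nonneg _)
  have h2 := wt_pos m (0 + j)
  by_contra h3
  have : C * wt m (0 + j) < 0 := mul_neg_of_neg_of_pos (not_le.1 h3) h2
  linarith

/-! ### homomorphisms -/

theorem mapAux (hm : m' ≤ m) (φ : R →ₐ[ℝ] S) (hφ : ∀ a, ‖φ a‖ ≤ ‖a‖) (x : ℝ) (hx : |x| ≤ 1)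
    (f : PS m R) (k : ℕ) : wt m' k * ‖x ^ k • φ (cf k f)‖ ≤ wt m k * ‖cf k f‖ := by
  have h1 : wt m' k ≤ wt m k := by
    unfold wt
    exact pow_le_pow_right₀ (by have : (0:ℝ) ≤ k := Nat.cast_nonneg k; linarith) hm
  have h2 : ‖x ^ k • φ (cf k f)‖ ≤ ‖cf k f‖ := by
    rw [norm_smul, norm_pow, Real.norm_eq_abs]
    calc |x| ^ k * ‖φ (cf k f)‖ ≤ 1 * ‖cf k f‖ :=
          mul_le_mul (pow_le_one₀ (abs_nonneg x) hx) (hφ _) (norm_nonneg _) zero_le_one
      _ = _ := one_mul _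
  exact mul_le_mul h1 h2 (norm_nonneg _) (wt_pos _ _).le

/-- the algebra homomorphism `(f_k) ↦ (x^k φ(f_k))` -/
def mapHom (m m' : ℕ) (hm : m' ≤ m) (φ : R →ₐ[ℝ] S) (hφ : ∀ a, ‖φ a‖ ≤ ‖a‖) (x : ℝ) (hx : |x| ≤ 1) :
    PS m R →ₐ[ℝ] PS m' S where
  toFun f := PS.of (fun k => x ^ k • φ (cf k f))
    (Summable.of_nonneg_of_le (fun k => mul_nonneg (wt_pos _ _).le (norm_nonneg _))
      (mapAux hm φ hφ x hx f) f.summable)
  map_one' := by
    ext k
    rw [cf_of, cf_one, cf_one]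
    by_cases h : k = 0
    · subst h; simp
    · simp [h]
  map_zero' := by ext k; simp
  map_add' f g := by ext k; simp
  map_mul' f g := by
    ext k
    rw [cf_of, cf_mul, cf_mul, map_sum, Finset.smul_sum]
    refine Finset.sum_congr rfl fun p hp => ?_
    rw [cf_of, cf_of, map_mul, ← mem_antidiagonal.1 hp, pow_add, smul_mul_smul_comm]
  commutes' r := by
    ext k
    rw [cf_of, Algebra.algebraMap_eq_smul_one, Algebra.algebraMap_eq_smul_one, cf_smul, cf_smul,
      cf_one, cf_one]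
    by_cases h : k = 0
    · subst h; simp
    · simp [h]

@[simp] theorem cf_mapHom (hm : m' ≤ m) (φ : R →ₐ[ℝ] S) (hφ : ∀ a, ‖φ a‖ ≤ ‖a‖) (x : ℝ)
    (hx : |x| ≤ 1) (f : PS m R) (k : ℕ) :
    cf k (mapHom m m' hm φ hφ x hx f) = x ^ k • φ (cf k f) :=
  cf_of (fun k => x ^ k • φ (cf k f)) (Summable.of_nonneg_of_le
    (fun k => mul_nonneg (wt_pos _ _).le (norm_nonneg _)) (mapAux hm φ hφ x hx f) f.summable) k

theorem norm_mapHom_le (hm : m' ≤ m) (φ : R →ₐ[ℝ] S) (hφ : ∀ a, ‖φ a‖ ≤ ‖a‖) (x : ℝ)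
    (hx : |x| ≤ 1) (f : PS m R) : ‖mapHom m m' hm φ hφ x hx f‖ ≤ ‖f‖ :=
  PS.norm_le_of _ f.summable (fun k => by rw [cf_mapHom]; exact mapAux hm φ hφ x hx f k) le_rfl

theorem norm_id_le (a : R) : ‖(AlgHom.id ℝ R) a‖ ≤ ‖a‖ := le_of_eq rfl
theorem abs_one_le : |(1:ℝ)| ≤ 1 := by simp

/-- inclusion `PS 1 R → PS 0 R` -/
def inc : PS 1 R →ₐ[ℝ] PS 0 R :=
  mapHom 1 0 (Nat.zero_le 1) (AlgHom.id ℝ R) norm_id_le 1 abs_one_le

@[simp] theorem cf_inc (f : PS 1 R) (k : ℕ) : cf k (inc f) = cf k f := by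
  have h := cf_mapHom (Nat.zero_le 1) (AlgHom.id ℝ R) norm_id_le 1 abs_one_le f k
  have h2 : (1:ℝ) ^ k • (AlgHom.id ℝ R) (cf k f) = cf k f := by
    rw [one_pow, one_smul]; rfl
  exact h.trans h2

theorem norm_inc_le (f : PS 1 R) : ‖inc f‖ ≤ ‖f‖ := norm_mapHom_le _ _ _ _ _ f

/-- `inc` as a continuous linear map -/
def incL : PS 1 R →L[ℝ] PS 0 R :=
  LinearMap.mkContinuous (inc : PS 1 R →ₐ[ℝ] PS 0 R).toLinearMap 1
    (fun f => by simpa using norm_inc_le f)

@[simp] theorem incL_apply (f : PS 1 R) : incL f = inc f := rfl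

theorem norm_incL_le : ‖(incL : PS 1 R →L[ℝ] PS 0 R)‖ ≤ 1 :=
  LinearMap.mkContinuous_norm_le _ zero_le_one _

/-- sum of the coefficients: an algebra homomorphism `PS m ℝ → ℝ` -/
theorem summable_cf (f : PS m R) : Summable fun k => ‖cf k f‖ :=
  Summable.of_nonneg_of_le (fun k => norm_nonneg _)
    (fun k => le_mul_of_one_le_left (norm_nonneg _) (one_le_wt m k)) f.summable

def sumHom [CompleteSpace R] : PS m R →ₐ[ℝ] R where
  toFun f := ∑' k, cf k f
  map_one' := by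
    rw [tsum_eq_single 0]
    · simp [cf_one]
    · intro k hk; simp [cf_one, hk]
  map_zero' := by simp
  map_add' f g := by
    simp only [cf_add]
    exact (summable_cf f).of_norm.tsum_add (summable_cf g).of_norm
  map_mul' f g := by
    simp only [cf_mul]
    exact (tsum_mul_tsum_eq_tsum_sum_antidiagonal_of_summable_norm (summable_cf f)
      (summable_cf g)).symm
  commutes' r := by
    rw [tsum_eq_single 0]
    · rw [Algebra.algebraMap_eq_smul_one, cf_smul, cf_one, Algebra.algebraMap_eq_smul_one]; simp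
    · intro k hk
      rw [Algebra.algebraMap_eq_smul_one, cf_smul, cf_one]; simp [hk]

theorem sumHom_apply [CompleteSpace R] (f : PS m R) : sumHom f = ∑' k, cf k f := rfl

end

end Pool.Agent.H858R2
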