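import Mathlib
import Pool.Agent.H858R2.PS2
import Pool.Agent.H858R2.Duh

set_option autoImplicit false
set_option linter.all false
open Finset Set

namespace Pool.Agent.H858R2

noncomputable section

/-! ### operators on `PS m R` for a ring `R` with elements `ρ`, `iρ` (`ρ * iρ = 1`) -/

section gen
variable {R : Type} [NormedCommRing R] [NormedAlgebra ℝ R]

/-- the element `s` (coefficient `ρ` at `1`) -/
def sEl (m : ℕ) (ρ : R) : PS m R :=
  PS.of (fun k => if k = 1 then ρ else 0) (summable_of_ne_finset_zero (s := {1}) (by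
    intro k hk
    have : k ≠ 1 := by simpa using hk
    simp [this]))

@[simp] theorem cf_sEl (m : ℕ) (ρ : R) (k : ℕ) : cf k (sEl m ρ) = if k = 1 then ρ else 0 :=
  cf_of _ _ k

theorem cf_zero_sEl_mul {m : ℕ} (ρ : R) (f : PS m R) : cf 0 (sEl m ρ * f) = 0 := by
  rw [cf_mul]; simp

theorem cf_succ_sEl_mul {m : ℕ} (ρ : R) (f : PS m R) (k : ℕ) :
    cf (k + 1) (sEl m ρ * f) = ρ * cf k f := by
  rw [cf_mul, Finset.sum_eq_single (1, k)]
  · simp
  · intro p hp hne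
    have : p.1 ≠ 1 := by
      intro h
      apply hne
      have := HasAntidiagonal.mem_antidiagonal.1 hp
      ext
      · exact h
      · simp only; omega
    simp [this]
  · intro h
    exact absurd (HasAntidiagonal.mem_antidiagonal.2 (by show 1 + k = k + 1; omega)) h

theorem norm_sEl (m : ℕ) (ρ : R) : ‖sEl m ρ‖ = 2 ^ m * ‖ρ‖ := by
  rw [PS.norm_def, tsum_eq_single 1]
  · simp [wt]; norm_num
  · intro k hk
    simp [hk]

theorem norm_mulL_le (a : R) : ‖(ContinuousLinearMap.mul ℝ R a)‖ ≤ ‖a‖ :=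
  ContinuousLinearMap.opNorm_mul_apply_le ℝ R a

/-- `D f = ∑ iρ (k+1) f_{k+1}` (derivative with respect to `s`) -/
def Dop (iρ : R) : PS 1 R →L[ℝ] PS 0 R :=
  mkOp 1 0 1 (fun k => ((k : ℝ) + 1) • ContinuousLinearMap.mul ℝ R iρ) ‖iρ‖ (by
    intro k
    rw [wt_zero_left, wt_one, norm_smul, Real.norm_of_nonneg (by positivity)]
    have h := norm_mulL_le iρ
    push_cast
    nlinarith [norm_nonneg iρ, norm_nonneg (ContinuousLinearMap.mul ℝ R iρ),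
      (Nat.cast_nonneg k : (0:ℝ) ≤ k)])

@[simp] theorem cf_Dop (iρ : R) (f : PS 1 R) (k : ℕ) :
    cf k (Dop iρ f) = ((k : ℝ) + 1) • (iρ * cf (k + 1) f) := by
  unfold Dop
  rw [cf_mkOp]
  rfl

theorem norm_Dop_le (iρ : R) : ‖Dop iρ‖ ≤ ‖iρ‖ := norm_mkOp_le _

/-- `J f = ∑ f_k / (k+1)` -/
def Jop : PS 1 R →L[ℝ] PS 1 R :=
  mkOp 1 1 0 (fun k => (((k : ℝ) + 1)⁻¹) • ContinuousLinearMap.id ℝ R) 1 (by
    intro k
    rw [add_zero, wt_one, norm_smul, Real.norm_of_nonneg (by positivity)]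
    have h := ContinuousLinearMap.norm_id_le (𝕜 := ℝ) (E := R)
    have h2 : (0:ℝ) < (k:ℝ) + 1 := by positivity
    rw [← mul_assoc, mul_inv_cancel₀ h2.ne', one_mul, one_mul]
    linarith [(Nat.cast_nonneg k : (0:ℝ) ≤ k)])

@[simp] theorem cf_Jop (f : PS 1 R) (k : ℕ) : cf k (Jop f) = (((k : ℝ) + 1)⁻¹) • cf k f := by
  unfold Jop
  rw [cf_mkOp]
  rfl

theorem norm_Jop_le : ‖(Jop : PS 1 R →L[ℝ] PS 1 R)‖ ≤ 1 := norm_mkOp_le _

/-- `DJ f = ∑ iρ (k+1)/(k+2) f_{k+1}` -/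
def DJop (iρ : R) : PS 1 R →L[ℝ] PS 1 R :=
  mkOp 1 1 1 (fun k => (((k : ℝ) + 1) / ((k : ℝ) + 2)) • ContinuousLinearMap.mul ℝ R iρ) ‖iρ‖ (by
    intro k
    rw [wt_one, wt_one, norm_smul, Real.norm_of_nonneg (by positivity)]
    have h := norm_mulL_le iρ
    have h0 : (0:ℝ) ≤ k := Nat.cast_nonneg k
    have h1 : ((k : ℝ) + 1) / ((k : ℝ) + 2) ≤ 1 := by rw [div_le_one (by positivity)]; linarith
    have h2 : 0 ≤ ((k : ℝ) + 1) / ((k : ℝ) + 2) := by positivity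
    have h3 : ((k : ℝ) + 1) / ((k : ℝ) + 2) * ‖ContinuousLinearMap.mul ℝ R iρ‖ ≤ ‖iρ‖ := by
      nlinarith [norm_nonneg (ContinuousLinearMap.mul ℝ R iρ)]
    push_cast
    nlinarith [norm_nonneg iρ])

@[simp] theorem cf_DJop (iρ : R) (f : PS 1 R) (k : ℕ) :
    cf k (DJop iρ f) = (((k : ℝ) + 1) / ((k : ℝ) + 2)) • (iρ * cf (k + 1) f) := by
  unfold DJop
  rw [cf_mkOp]
  rfl

theorem norm_DJop_le (iρ : R) : ‖DJop iρ‖ ≤ ‖iρ‖ := norm_mkOp_le _

/-- `K f = ∑ (k+1) f_k` -/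
def Kop : PS 1 R →L[ℝ] PS 0 R :=
  mkOp 1 0 0 (fun k => ((k : ℝ) + 1) • ContinuousLinearMap.id ℝ R) 1 (by
    intro k
    rw [add_zero, wt_one, wt_zero_left, norm_smul, Real.norm_of_nonneg (by positivity)]
    have h := ContinuousLinearMap.norm_id_le (𝕜 := ℝ) (E := R)
    nlinarith [(Nat.cast_nonneg k : (0:ℝ) ≤ k)])

@[simp] theorem cf_Kop (f : PS 1 R) (k : ℕ) : cf k (Kop f) = ((k : ℝ) + 1) • cf k f := by
  unfold Kop
  rw [cf_mkOp]
  rfl

/-- `B f = ∑ (3k+1)/(k+1) f_k` -/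
def Bop : PS 1 R →L[ℝ] PS 1 R :=
  mkOp 1 1 0 (fun k => ((3 * (k : ℝ) + 1) / ((k : ℝ) + 1)) • ContinuousLinearMap.id ℝ R) 3 (by
    intro k
    rw [add_zero, wt_one, norm_smul, Real.norm_of_nonneg (by positivity)]
    have h := ContinuousLinearMap.norm_id_le (𝕜 := ℝ) (E := R)
    have h0 : (0:ℝ) ≤ k := Nat.cast_nonneg k
    have h2 : (3 * (k : ℝ) + 1) / ((k : ℝ) + 1) ≤ 3 := by
      rw [div_le_iff₀ (by positivity)]; linarith
    have h3 : 0 ≤ (3 * (k : ℝ) + 1) / ((k : ℝ) + 1) := by positivity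
    have h4 : (3 * (k : ℝ) + 1) / ((k : ℝ) + 1) * ‖ContinuousLinearMap.id ℝ R‖ ≤ 3 := by
      nlinarith [norm_nonneg (ContinuousLinearMap.id ℝ R)]
    nlinarith)

@[simp] theorem cf_Bop (f : PS 1 R) (k : ℕ) :
    cf k (Bop f) = ((3 * (k : ℝ) + 1) / ((k : ℝ) + 1)) • cf k f := by
  unfold Bop
  rw [cf_mkOp]
  rfl

/-- `4 K f - 4 s² D (DJ f) = 4 B f` -/
theorem K_B (ρ iρ : R) (h : ρ * iρ = 1) (f : PS 1 R) :
    4 * Kop f - 4 * (sEl 0 ρ * (sEl 0 ρ * Dop iρ (DJop iρ f))) = inc (4 * Bop f) := by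
  have e4 : ∀ (m : ℕ) (g : PS m R), 4 * g = (4:ℝ) • g := by
    intro m g
    rw [← smul_one_mul (4:ℝ) g]
    congr 1
    ext k
    rw [cf_smul]
    have : (4 : PS m R) = 1 + 1 + 1 + 1 := by norm_num
    rw [this]
    simp only [cf_add]
    rw [show (4:ℝ) = 1 + 1 + 1 + 1 by norm_num]
    simp only [add_smul, one_smul]
  rw [e4, e4, e4, map_smul]
  ext k
  simp only [cf_sub, cf_smul, cf_Kop, cf_inc, cf_Bop]
  have h2 : ∀ x : R, ρ * (ρ * (iρ * (iρ * x))) = x := by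
    intro x
    calc ρ * (ρ * (iρ * (iρ * x))) = (ρ * iρ) * (ρ * iρ) * x := by ring
      _ = x := by rw [h]; ring
  match k with
  | 0 =>
    rw [cf_zero_sEl_mul]
    simp
  | 1 =>
    rw [cf_succ_sEl_mul, cf_zero_sEl_mul]
    simp only [mul_zero, smul_zero, sub_zero]
    norm_num
  | (k + 2) =>
    rw [cf_succ_sEl_mul, cf_succ_sEl_mul, cf_Dop, cf_DJop]
    rw [mul_smul_comm, mul_smul_comm, mul_smul_comm, mul_smul_comm, mul_smul_comm, h2]
    rw [smul_smul, smul_smul, smul_smul, smul_smul, ← sub_smul]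
    congr 1
    push_cast
    field_simp
    ring

end gen

/-! ### the ring `C[0,1]`, the radius -/

/-- `ρ(τ) = (5/4) exp(-τ/20)` -/
def rhoF (t : ℝ) : ℝ := 5 / 4 * Real.exp (-t / 20)
theorem rhoF_pos (t : ℝ) : 0 < rhoF t := by unfold rhoF; positivity
theorem rhoF_cont : Continuous rhoF := by unfold rhoF; fun_prop
def rho : CI := CI.of rhoF rhoF_cont
def irho : CI := CI.of (fun t => (rhoF t)⁻¹) (rhoF_cont.inv₀ fun t => (rhoF_pos t).ne')

theorem ev_rho {t : ℝ} (ht : t ∈ Icc (0:ℝ) 1) : ev rho t = rhoF t := ev_of _ _ ht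
theorem ev_irho {t : ℝ} (ht : t ∈ Icc (0:ℝ) 1) : ev irho t = (rhoF t)⁻¹ := ev_of _ _ ht

theorem rho_mul_irho : rho * irho = 1 := by
  apply CI.ext_ev
  intro t ht
  rw [ev_mul, ev_rho ht, ev_irho ht, mul_inv_cancel₀ (rhoF_pos t).ne', ev_one]

theorem rhoF_ge {t : ℝ} (h : t ≤ 1) : 20 / 17 ≤ rhoF t := by
  unfold rhoF
  have h1 : 19 / 20 ≤ Real.exp (-t / 20) := by
    have := Real.add_one_le_exp (-t / 20)
    linarith
  linarith

theorem norm_rho_le : ‖rho‖ ≤ 5 / 4 := by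
  apply CI.norm_le (by norm_num)
  intro t ht
  rw [ev_rho ht, abs_of_pos (rhoF_pos _)]
  unfold rhoF
  have : Real.exp (-(t:ℝ) / 20) ≤ 1 := Real.exp_le_one_iff.2 (by have := ht.1; linarith)
  linarith

theorem norm_irho_le : ‖irho‖ ≤ 17 / 20 := by
  apply CI.norm_le (by norm_num)
  intro t ht
  rw [ev_irho ht, abs_of_pos (inv_pos.2 (rhoF_pos _))]
  have := rhoF_ge ht.2
  rw [inv_le_comm₀ (rhoF_pos _) (by norm_num)]
  linarith

abbrev PX : Type := PS 1 CI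
abbrev PY : Type := PS 0 CI

/-! ### Duhamel operators -/

/-- a bounded operator with the properties of `duhamel_exists` -/
def DU (ω : ℝ) (hω : 0 ≤ ω) : CI →L[ℝ] CI := (duhamel_exists ω hω).choose

theorem DU_norm (ω : ℝ) (hω : 0 ≤ ω) : ‖DU ω hω‖ ≤ 1 := (duhamel_exists ω hω).choose_spec.1
theorem DU_norm' (ω : ℝ) (hω : 0 ≤ ω) : ω * ‖DU ω hω‖ ≤ 1 :=
  (duhamel_exists ω hω).choose_spec.2.1
theorem DU_zero (ω : ℝ) (hω : 0 ≤ ω) (f : CI) : ev (DU ω hω f) 0 = 0 :=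
  (duhamel_exists ω hω).choose_spec.2.2.1 f
theorem DU_deriv (ω : ℝ) (hω : 0 ≤ ω) (f : CI) (t : ℝ) (ht : t ∈ Ioo (0:ℝ) 1) :
    HasDerivAt (fun τ => ev (DU ω hω f) τ) (-ω * ev (DU ω hω f) t + ev f t) t :=
  (duhamel_exists ω hω).choose_spec.2.2.2 f t ht

/-- `ω_k = k/20 + 4 T (k+1)²` -/
def om (T : ℝ) (k : ℕ) : ℝ := (k : ℝ) / 20 + 4 * |T| * ((k : ℝ) + 1) ^ 2
theorem om_nonneg (T : ℝ) (k : ℕ) : 0 ≤ om T k := by unfold om; positivity

/-- rate of the first-order equation -/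
def omW (k : ℕ) : ℝ := (k : ℝ) / 20
theorem omW_nonneg (k : ℕ) : 0 ≤ omW k := by unfold omW; positivity

/-- coefficients of `SU` -/
def cSU (T : ℝ) (k : ℕ) : CI →L[ℝ] CI := (((k : ℝ) + 1) * |T|) • DU (om T k) (om_nonneg T k)

theorem norm_cSU (T : ℝ) (k : ℕ) :
    ‖cSU T k‖ = (((k : ℝ) + 1) * |T|) * ‖DU (om T k) (om_nonneg T k)‖ := by
  unfold cSU
  rw [norm_smul, Real.norm_of_nonneg (by positivity)]

/-- solution operator of the second-order equations -/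
def SU (T : ℝ) : PY →L[ℝ] PX :=
  mkOp 0 1 0 (cSU T) (1 / 4) (by
    intro k
    rw [wt_one, wt_zero_left, norm_cSU, mul_one]
    have h := DU_norm' (om T k) (om_nonneg T k)
    have h1 : 4 * |T| * ((k : ℝ) + 1) ^ 2 ≤ om T k := by
      unfold om
      have : (0:ℝ) ≤ (k:ℝ) / 20 := by positivity
      linarith
    have h2 := mul_le_mul_of_nonneg_right h1 (norm_nonneg (DU (om T k) (om_nonneg T k)))
    nlinarith)

theorem norm_SU_le (T : ℝ) : ‖SU T‖ ≤ 1 / 4 := norm_mkOp_le _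

@[simp] theorem cf_SU (T : ℝ) (f : PY) (k : ℕ) :
    cf k (SU T f) = (((k : ℝ) + 1) * |T|) • DU (om T k) (om_nonneg T k) (cf k f) := by
  unfold SU
  rw [cf_mkOp]
  rfl

/-- solution operator of the first-order equation -/
def SW (T : ℝ) : PY →L[ℝ] PX :=
  mkOp 0 1 0 (fun k => |T| • DU (omW k) (omW_nonneg k)) (40 * |T|) (by
    intro k
    rw [wt_one, wt_zero_left, norm_smul, norm_abs_eq_norm, Real.norm_eq_abs, mul_one]
    have h := DU_norm' (omW k) (omW_nonneg k)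
    have h1 := DU_norm (omW k) (omW_nonneg k)
    unfold omW at h
    have h2 : ((k:ℝ) + 1) * ‖DU (omW k) (omW_nonneg k)‖ ≤ 40 := by
      unfold omW at *
      nlinarith
    have h3 := mul_le_mul_of_nonneg_left h2 (abs_nonneg T)
    nlinarith)

theorem norm_SW_le (T : ℝ) : ‖SW T‖ ≤ 40 * |T| := norm_mkOp_le _

@[simp] theorem cf_SW (T : ℝ) (f : PY) (k : ℕ) :
    cf k (SW T f) = |T| • DU (omW k) (omW_nonneg k) (cf k f) := by
  unfold SW
  rw [cf_mkOp]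
  rfl

theorem norm_SU_inc_le (T : ℝ) (f : PX) : ‖SU T (inc f)‖ ≤ 40 * |T| * ‖f‖ := by
  have hC : ∀ k : ℕ, wt 1 k * ‖cSU T k‖ ≤ (40 * |T|) * wt 1 (k + 0) := by
    intro k
    rw [add_zero, wt_one, norm_cSU]
    have h := DU_norm' (om T k) (om_nonneg T k)
    have h1 := DU_norm (om T k) (om_nonneg T k)
    have h4 : (k:ℝ) / 20 ≤ om T k := by
      unfold om
      have : (0:ℝ) ≤ 4 * |T| * ((k : ℝ) + 1) ^ 2 := by positivity
      linarith
    have h5 := mul_le_mul_of_nonneg_right h4 (norm_nonneg (DU (om T k) (om_nonneg T k)))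
    have h2 : ((k:ℝ) + 1) * ‖DU (om T k) (om_nonneg T k)‖ ≤ 40 := by nlinarith
    have h3 := mul_le_mul_of_nonneg_left h2 (abs_nonneg T)
    have h6 : (0:ℝ) ≤ (k:ℝ) + 1 := by positivity
    have h7 := mul_le_mul_of_nonneg_left h3 h6
    nlinarith
  have e : SU T (inc f) = mkOp 1 1 0 (cSU T) (40 * |T|) hC f := by
    ext k : 1
    rw [cf_SU, cf_mkOp, cf_inc]
    rfl
  rw [e]
  exact ContinuousLinearMap.le_of_opNorm_le _ (norm_mkOp_le hC) f

end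

end Pool.Agent.H858R2
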