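import Mathlib

set_option autoImplicit false
set_option linter.all false
open Set

namespace Pool.Agent.H858R2

theorem P2aux_comp {X Y : Type} [NormedAddCommGroup X] [NormedSpace ℝ X]
    [NormedAddCommGroup Y] [NormedSpace ℝ Y]
    (ι M : X →L[ℝ] Y) (S : Y →L[ℝ] X) (a q L e d : ℝ) (ha : 0 ≤ a)
    (hS : ‖S‖ ≤ 1 / 4) (hSι : ∀ f, ‖S (ι f)‖ ≤ a * ‖f‖) (hM : ‖M‖ ≤ 4 * q)
    (h h' : X) (p p' : Y) (u u' : X)
    (hh : ‖h - h'‖ ≤ L * d) (hp : ‖p - p'‖ ≤ e * d) (hu : ‖u - u'‖ ≤ d) :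
    ‖S (ι h + p + M u) - S (ι h' + p' + M u')‖ ≤ (a * L + e / 4 + q) * d := by
  have h1 : S (ι h + p + M u) - S (ι h' + p' + M u')
      = S (ι (h - h')) + S (p - p') + S (M (u - u')) := by
    simp only [map_add, map_sub]; abel
  rw [h1]
  have hd : 0 ≤ d := le_trans (norm_nonneg _) hu
  have h2 : ‖S (ι (h - h'))‖ ≤ a * L * d := by
    refine (hSι _).trans ?_
    rw [mul_assoc]
    exact mul_le_mul_of_nonneg_left hh ha
  have h3 : ‖S (p - p')‖ ≤ e / 4 * d := by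
    have := S.le_of_opNorm_le hS (p - p')
    refine this.trans ?_
    nlinarith
  have h4 : ‖S (M (u - u'))‖ ≤ q * d := by
    have h5 := S.le_of_opNorm_le hS (M (u - u'))
    have h6 := M.le_of_opNorm_le hM (u - u')
    have hq : 0 ≤ 4 * q := (norm_nonneg _).trans hM
    nlinarith [mul_le_mul_of_nonneg_left hu hq]
  calc _ ≤ ‖S (ι (h - h'))‖ + ‖S (p - p')‖ + ‖S (M (u - u'))‖ := norm_add₃_le
    _ ≤ _ := by nlinarith

/-- Lipschitz bound near zero for a strictly differentiable map. -/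
theorem P2aux_lip {E F : Type} [NormedAddCommGroup E] [NormedSpace ℝ E]
    [NormedAddCommGroup F] [NormedSpace ℝ F] (f : E → F) (f' : E →L[ℝ] F)
    (hf : HasStrictFDerivAt f f' 0) : ∃ L ≥ 0, ∃ r > 0, ∀ x y, ‖x‖ ≤ r → ‖y‖ ≤ r →
      ‖f x - f y‖ ≤ L * ‖x - y‖ := by
  obtain ⟨K, s, hs, hK⟩ := hf.exists_lipschitzOnWith
  obtain ⟨r, hr, hrs⟩ := Metric.nhds_basis_closedBall.mem_iff.1 hs
  refine ⟨K, K.2, r, hr, fun x y hx hy => ?_⟩
  have hx' : x ∈ s := hrs (by simpa using hx)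
  have hy' : y ∈ s := hrs (by simpa using hy)
  have := hK.dist_le_mul x hx' y hy'
  simpa [dist_eq_norm] using this

/-- approximation by the derivative near zero for a strictly differentiable map. -/
theorem P2aux_app {E F : Type} [NormedAddCommGroup E] [NormedSpace ℝ E]
    [NormedAddCommGroup F] [NormedSpace ℝ F] (f : E → F) (f' : E →L[ℝ] F)
    (hf : HasStrictFDerivAt f f' 0) (ε : ℝ) (hε : 0 < ε) :
    ∃ r > 0, ∀ x y, ‖x‖ ≤ r → ‖y‖ ≤ r →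
      ‖f x - f y - f' (x - y)‖ ≤ ε * ‖x - y‖ := by
  have h1 := hf.isLittleO.def hε
  obtain ⟨r, hr, hrs⟩ := Metric.nhds_basis_closedBall.mem_iff.1 h1
  refine ⟨r, hr, fun x y hx hy => ?_⟩
  have : (x, y) ∈ Metric.closedBall ((0 : E), (0 : E)) r := by
    rw [Metric.mem_closedBall, dist_eq_norm]
    simp only [Prod.norm_def, Prod.fst_sub, Prod.snd_sub, sub_zero]
    exact max_le hx hy
  simpa using hrs this

theorem P2aux_norm3 {X : Type} [NormedAddCommGroup X] (z : X × X × X) (R : ℝ)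
    (h1 : ‖z.1‖ ≤ R) (h2 : ‖z.2.1‖ ≤ R) (h3 : ‖z.2.2‖ ≤ R) : ‖z‖ ≤ R := by
  rw [Prod.norm_def, Prod.norm_def]
  exact max_le h1 (max_le h2 h3)

/-- Contraction principle on the closed ball around zero. -/
theorem P2aux_fix {E : Type} [NormedAddCommGroup E] [NormedSpace ℝ E] [CompleteSpace E]
    (Φ : E → E) (r K : ℝ) (hr : 0 ≤ r) (hK0 : 0 ≤ K) (hK : K < 1)
    (h0 : ‖Φ 0‖ ≤ (1 - K) * r)
    (hL : ∀ x y, ‖x‖ ≤ r → ‖y‖ ≤ r → ‖Φ x - Φ y‖ ≤ K * ‖x - y‖) :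
    ∃ x, ‖x‖ ≤ r ∧ Φ x = x := by
  have hmaps : MapsTo Φ (Metric.closedBall 0 r) (Metric.closedBall 0 r) := by
    intro x hx
    have hx' : ‖x‖ ≤ r := by simpa using hx
    have h1 := hL x 0 hx' (by simpa using hr)
    rw [sub_zero] at h1
    have h2 : ‖Φ x‖ ≤ ‖Φ x - Φ 0‖ + ‖Φ 0‖ := by
      have := norm_add_le (Φ x - Φ 0) (Φ 0)
      simpa using this
    have h3 : ‖Φ x‖ ≤ r := by nlinarith
    simpa using h3
  have hcomp : IsComplete (Metric.closedBall (0 : E) r) := Metric.isClosed_closedBall.isComplete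
  have hcon : ContractingWith (Real.toNNReal K) (hmaps.restrict Φ _ _) := by
    refine ⟨by rwa [Real.toNNReal_lt_one], ?_⟩
    refine LipschitzWith.of_dist_le_mul fun x y => ?_
    have hx : ‖(x : E)‖ ≤ r := by
      have := x.2
      rwa [mem_closedBall_zero_iff] at this
    have hy : ‖(y : E)‖ ≤ r := by
      have := y.2
      rwa [mem_closedBall_zero_iff] at this
    have := hL x y hx hy
    rw [Subtype.dist_eq, Subtype.dist_eq, dist_eq_norm, dist_eq_norm, Real.coe_toNNReal _ hK0]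
    exact this
  obtain ⟨y, hy, hfix, -⟩ := hcon.exists_fixedPoint' hcomp hmaps
    (x := 0) (by simpa using hr) (edist_ne_top _ _)
  exact ⟨y, by simpa using hy, hfix⟩

/-! ## TARGET (abstract fixed point theorem)
Paper proof. Let `C = ‖pU'‖ + ‖pV'‖ + 1`; choose `κ ∈ (0,1]` with `C κ / 4 ≤ (1-q)/8`. Substitute
`w = κ w'` and consider on `X × X × X` (sup norm) the map
`Φ(u,v,w') = (SU T (ι (hU) + pU + M u), SU T (ι (hV) + pV + M v), κ⁻¹ SW T (nW))`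
(arguments `(u, v, κ w', δ)`). By strict differentiability at `0`, on a small ball (in `(z, δ)`),
`hU, hV, nW` are Lipschitz and `pU - pU'`, `pV - pV'` are `ε₁`-Lipschitz; `pU'` only sees `w = κ w'`
(and `δ`), so `Φ(·, δ)` has Lipschitz constant
`≤ max (C₁ T L + C κ / 4 + ε₁ / 4 + q, κ⁻¹ C₁ T L) ≤ (1+q)/2` for small `T`, and
`‖Φ(0,δ)‖ ≤ C₁ T (..) ≤ r (1-q)/2`. Apply the contraction principle on the closed ball of radius `r ≤ η`. -/
theorem fixed_point_abstract {X Y : Type} [NormedAddCommGroup X] [NormedSpace ℝ X]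
    [CompleteSpace X] [NormedAddCommGroup Y] [NormedSpace ℝ Y]
    (ι : X →L[ℝ] Y) (M : X →L[ℝ] Y) (SU SW : ℝ → (Y →L[ℝ] X)) (C₁ q : ℝ)
    (hSU : ∀ T, ‖SU T‖ ≤ 1 / 4) (hSUι : ∀ T f, ‖SU T (ι f)‖ ≤ C₁ * |T| * ‖f‖)
    (hSW : ∀ T, ‖SW T‖ ≤ C₁ * |T|) (hq : q < 1) (hM : ‖M‖ ≤ 4 * q)
    (hU hV : (X × X × X) × ℝ → X) (pU pV nW : (X × X × X) × ℝ → Y)
    (hU' hV' : ((X × X × X) × ℝ) →L[ℝ] X) (pU' pV' nW' : ((X × X × X) × ℝ) →L[ℝ] Y)
    (dhU : HasStrictFDerivAt hU hU' 0) (dhV : HasStrictFDerivAt hV hV' 0)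
    (dpU : HasStrictFDerivAt pU pU' 0) (dpV : HasStrictFDerivAt pV pV' 0)
    (dnW : HasStrictFDerivAt nW nW' 0)
    (pU0 : ∀ δ : ℝ, pU (0, δ) = 0) (pV0 : ∀ δ : ℝ, pV (0, δ) = 0)
    (pU0' : ∀ u v : X, pU' ((u, v, 0), 0) = 0) (pV0' : ∀ u v : X, pV' ((u, v, 0), 0) = 0)
    (η : ℝ) (hη : 0 < η) :
    ∃ T₀ > 0, ∃ δ₀ > 0, ∀ T, |T| ≤ T₀ → ∀ δ, |δ| ≤ δ₀ → ∃ u v w : X,
      ‖u‖ ≤ η ∧ ‖v‖ ≤ η ∧ ‖w‖ ≤ η ∧
      u = SU T (ι (hU ((u, v, w), δ)) + pU ((u, v, w), δ) + M u) ∧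
      v = SU T (ι (hV ((u, v, w), δ)) + pV ((u, v, w), δ) + M v) ∧
      w = SW T (nW ((u, v, w), δ)) := by
  have hq0 : 0 ≤ q := by
    have := (norm_nonneg M).trans hM
    linarith
  have h1q : 0 < 1 - q := by linarith
  -- constants
  obtain ⟨C, hC1, hCU, hCV⟩ : ∃ C : ℝ, 1 ≤ C ∧ ‖pU'‖ ≤ C ∧ ‖pV'‖ ≤ C := by
    refine ⟨‖pU'‖ + ‖pV'‖ + 1, ?_, ?_, ?_⟩ <;>
    linarith [norm_nonneg pU', norm_nonneg pV']
  obtain ⟨κ, hκ0, hκ1, hκC⟩ : ∃ κ : ℝ, 0 < κ ∧ κ ≤ 1 ∧ C * κ ≤ (1 - q) / 2 := by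
    refine ⟨(1 - q) / (2 * C), by positivity, ?_, ?_⟩
    · rw [div_le_one (by positivity)]; linarith
    · apply le_of_eq; field_simp
  obtain ⟨L1, hL1, r1, hr1, H1⟩ := P2aux_lip hU hU' dhU
  obtain ⟨L2, hL2, r2, hr2, H2⟩ := P2aux_lip hV hV' dhV
  obtain ⟨L3, hL3, r3, hr3, H3⟩ := P2aux_lip nW nW' dnW
  obtain ⟨r4, hr4, H4⟩ := P2aux_app pU pU' dpU ((1 - q) / 2) (by positivity)
  obtain ⟨r5, hr5, H5⟩ := P2aux_app pV pV' dpV ((1 - q) / 2) (by positivity)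
  obtain ⟨r, hr, hrη, hrr1, hrr2, hrr3, hrr4, hrr5⟩ : ∃ r : ℝ, 0 < r ∧ r ≤ η ∧ r ≤ r1 ∧ r ≤ r2 ∧
      r ≤ r3 ∧ r ≤ r4 ∧ r ≤ r5 := by
    refine ⟨min η (min r1 (min r2 (min r3 (min r4 r5)))), ?_, ?_, ?_, ?_, ?_, ?_, ?_⟩
    · simp only [lt_min_iff]; exact ⟨hη, hr1, hr2, hr3, hr4, hr5⟩
    all_goals simp [min_le_iff]
  obtain ⟨L, hL0, hLL1, hLL2, hLL3⟩ : ∃ L : ℝ, 0 ≤ L ∧ L1 ≤ L ∧ L2 ≤ L ∧ L3 ≤ L :=
    ⟨L1 + L2 + L3, by positivity, by linarith, by linarith, by linarith⟩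
  obtain ⟨B, hB0, hB1, hB2, hB3⟩ : ∃ B : ℝ, 0 ≤ B ∧ ‖hU 0‖ + L * r ≤ B ∧ ‖hV 0‖ + L * r ≤ B ∧
      ‖nW 0‖ + L * r ≤ B := by
    refine ⟨‖hU 0‖ + ‖hV 0‖ + ‖nW 0‖ + L * r, by positivity, ?_, ?_, ?_⟩ <;>
    linarith [norm_nonneg (hU 0), norm_nonneg (hV 0), norm_nonneg (nW 0)]
  obtain ⟨D, hD0, hD1⟩ : ∃ D : ℝ, 0 < D ∧ C₁ ≤ D :=
    ⟨|C₁| + 1, by positivity, by linarith [le_abs_self C₁]⟩
  -- time bound
  obtain ⟨T₀, hT₀, hTL, hTB⟩ : ∃ T₀ : ℝ, 0 < T₀ ∧ κ⁻¹ * (D * T₀) * L ≤ (1 - q) / 4 ∧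
      κ⁻¹ * (D * T₀) * B ≤ (1 - q) / 2 * r := by
    have hpos1 : 0 < (1 - q) / 4 * κ / (D * (L + 1)) := by positivity
    have hpos2 : 0 < (1 - q) / 2 * r * κ / (D * (B + 1)) := by positivity
    refine ⟨min ((1 - q) / 4 * κ / (D * (L + 1))) ((1 - q) / 2 * r * κ / (D * (B + 1))),
      lt_min hpos1 hpos2, ?_, ?_⟩
    · have h1 : κ⁻¹ * (D * min ((1 - q) / 4 * κ / (D * (L + 1)))
          ((1 - q) / 2 * r * κ / (D * (B + 1)))) * L ≤
          κ⁻¹ * (D * ((1 - q) / 4 * κ / (D * (L + 1)))) * L := by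
        gcongr
        exact min_le_left _ _
      refine h1.trans ?_
      have h2 : κ⁻¹ * (D * ((1 - q) / 4 * κ / (D * (L + 1)))) * L = (1 - q) / 4 * (L / (L + 1)) := by
        field_simp
      rw [h2]
      have h3 : L / (L + 1) ≤ 1 := by
        rw [div_le_one (by positivity)]; linarith
      nlinarith
    · have h1 : κ⁻¹ * (D * min ((1 - q) / 4 * κ / (D * (L + 1)))
          ((1 - q) / 2 * r * κ / (D * (B + 1)))) * B ≤
          κ⁻¹ * (D * ((1 - q) / 2 * r * κ / (D * (B + 1)))) * B := by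
        gcongr
        exact min_le_right _ _
      refine h1.trans ?_
      have h2 : κ⁻¹ * (D * ((1 - q) / 2 * r * κ / (D * (B + 1)))) * B
          = (1 - q) / 2 * r * (B / (B + 1)) := by
        field_simp
      rw [h2]
      have h3 : B / (B + 1) ≤ 1 := by
        rw [div_le_one (by positivity)]; linarith
      have h4 : 0 < (1 - q) / 2 * r := by positivity
      nlinarith
  have hκi : 1 ≤ κ⁻¹ := (one_le_inv₀ hκ0).2 hκ1
  refine ⟨T₀, hT₀, r, hr, fun T hT δ hδ => ?_⟩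
  have hT0 : 0 ≤ |T| := abs_nonneg T
  have hDT : D * |T| ≤ D * T₀ := mul_le_mul_of_nonneg_left hT hD0.le
  have hDT0 : 0 ≤ D * |T| := by positivity
  have hDT' : D * |T| ≤ κ⁻¹ * (D * T₀) := by
    have : 0 ≤ D * T₀ := by positivity
    nlinarith
  have hSι : ∀ f, ‖SU T (ι f)‖ ≤ (D * |T|) * ‖f‖ := fun f => by
    refine (hSUι T f).trans ?_
    gcongr
  have hSWT : ‖SW T‖ ≤ D * |T| := (hSW T).trans (by gcongr)
  -- the map
  set J : X × X × X → (X × X × X) × ℝ := fun x => ((x.1, x.2.1, κ • x.2.2), δ) with hJ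
  have hJnorm : ∀ x : X × X × X, ‖x‖ ≤ r → ‖J x‖ ≤ r := by
    intro x hx
    simp only [hJ, Prod.norm_def] at hx ⊢
    simp only [max_le_iff, norm_smul, Real.norm_eq_abs, abs_of_pos hκ0] at hx ⊢
    refine ⟨⟨hx.1, hx.2.1, ?_⟩, hδ⟩
    nlinarith [norm_nonneg x.2.2, hx.2.2]
  have hJsub : ∀ x y : X × X × X, ‖J x - J y‖ ≤ ‖x - y‖ := by
    intro x y
    simp only [hJ, Prod.norm_def, Prod.fst_sub, Prod.snd_sub, sub_self, norm_zero]
    simp only [max_le_iff]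
    refine ⟨⟨le_max_left _ _, (le_max_left _ _).trans (le_max_right _ _), ?_⟩,
      le_max_of_le_left (norm_nonneg _)⟩
    rw [← smul_sub, norm_smul, Real.norm_eq_abs, abs_of_pos hκ0]
    refine le_trans ?_ ((le_max_right _ _).trans (le_max_right _ _))
    nlinarith [norm_nonneg (x.2.2 - y.2.2)]
  have hder : ∀ (p' : ((X × X × X) × ℝ) →L[ℝ] Y), ‖p'‖ ≤ C → (∀ u v : X, p' ((u, v, 0), 0) = 0) →
      ∀ x y : X × X × X, ‖p' (J x - J y)‖ ≤ (1 - q) / 2 * ‖x - y‖ := by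
    intro p' hp' hp0 x y
    have h1 : J x - J y = ((x.1 - y.1, x.2.1 - y.2.1, 0), (0 : ℝ)) +
        (((0 : X), (0 : X), κ • (x.2.2 - y.2.2)), (0 : ℝ)) := by
      simp [hJ, smul_sub]
    rw [h1, map_add, hp0, zero_add]
    refine (p'.le_of_opNorm_le hp' _).trans ?_
    have h2 : ‖(((0 : X), (0 : X), κ • (x.2.2 - y.2.2)), (0 : ℝ))‖ = κ * ‖x.2.2 - y.2.2‖ := by
      simp only [Prod.norm_def, norm_zero, norm_smul, Real.norm_eq_abs, abs_of_pos hκ0]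
      have : 0 ≤ κ * ‖x.2.2 - y.2.2‖ := by positivity
      rw [max_eq_right this, max_eq_right this, max_eq_left this]
    rw [h2]
    have h3 : ‖x.2.2 - y.2.2‖ ≤ ‖x - y‖ := by
      have : (x - y).2.2 = x.2.2 - y.2.2 := rfl
      rw [← this]
      exact (norm_snd_le (x - y).2).trans (norm_snd_le (x - y))
    calc C * (κ * ‖x.2.2 - y.2.2‖) = (C * κ) * ‖x.2.2 - y.2.2‖ := by ring
      _ ≤ (1 - q) / 2 * ‖x - y‖ := by gcongr
  have hp : ∀ (p : (X × X × X) × ℝ → Y) (p' : ((X × X × X) × ℝ) →L[ℝ] Y), ‖p'‖ ≤ C →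
      (∀ u v : X, p' ((u, v, 0), 0) = 0) →
      (∀ x y, ‖x‖ ≤ r → ‖y‖ ≤ r → ‖p x - p y - p' (x - y)‖ ≤ (1 - q) / 2 * ‖x - y‖) →
      ∀ x y : X × X × X, ‖x‖ ≤ r → ‖y‖ ≤ r → ‖p (J x) - p (J y)‖ ≤ (1 - q) * ‖x - y‖ := by
    intro p p' hp' hp0 hpp x y hx hy
    have h1 := hpp (J x) (J y) (hJnorm x hx) (hJnorm y hy)
    have h2 := hder p' hp' hp0 x y
    have h3 : ‖p (J x) - p (J y)‖ ≤ ‖p (J x) - p (J y) - p' (J x - J y)‖ + ‖p' (J x - J y)‖ := by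
      have := norm_add_le (p (J x) - p (J y) - p' (J x - J y)) (p' (J x - J y))
      simpa using this
    have h4 := hJsub x y
    nlinarith
  have hh : ∀ {F : Type} [NormedAddCommGroup F] (f : (X × X × X) × ℝ → F) (L' r' : ℝ),
      L' ≤ L → r ≤ r' → (∀ x y, ‖x‖ ≤ r' → ‖y‖ ≤ r' → ‖f x - f y‖ ≤ L' * ‖x - y‖) →
      ∀ x y : X × X × X, ‖x‖ ≤ r → ‖y‖ ≤ r → ‖f (J x) - f (J y)‖ ≤ L * ‖x - y‖ := by
    intro F _ f L' r' hL' hr' hf x y hx hy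
    refine (hf _ _ ((hJnorm x hx).trans hr') ((hJnorm y hy).trans hr')).trans ?_
    exact mul_le_mul hL' (hJsub x y) (norm_nonneg _) hL0
  have hb : ∀ {F : Type} [NormedAddCommGroup F] (f : (X × X × X) × ℝ → F) (L' r' : ℝ),
      L' ≤ L → r ≤ r' → (∀ x y, ‖x‖ ≤ r' → ‖y‖ ≤ r' → ‖f x - f y‖ ≤ L' * ‖x - y‖) →
      ‖f 0‖ + L * r ≤ B → ‖f (J 0)‖ ≤ B := by
    intro F _ f L' r' hL' hr' hf hfB
    have h0 := hJnorm 0 (by simpa using hr.le)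
    have h1 := hf (J 0) 0 (h0.trans hr') (by simpa using hr.le.trans hr')
    rw [sub_zero] at h1
    have h2 : ‖f (J 0)‖ ≤ ‖f (J 0) - f 0‖ + ‖f 0‖ := by
      have := norm_add_le (f (J 0) - f 0) (f 0)
      simpa using this
    have h3 : L' * ‖J 0‖ ≤ L * r := mul_le_mul hL' h0 (norm_nonneg _) hL0
    linarith
  set Φ : X × X × X → X × X × X := fun x =>
    (SU T (ι (hU (J x)) + pU (J x) + M x.1), SU T (ι (hV (J x)) + pV (J x) + M x.2.1),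
      κ⁻¹ • SW T (nW (J x))) with hΦ
  have hJ0 : J 0 = ((0 : X × X × X), δ) := by simp [hJ]
  have hΦ0 : ‖Φ 0‖ ≤ (1 - (1 + q) / 2) * r := by
    have e1 : (1 - (1 + q) / 2) * r = (1 - q) / 2 * r := by ring
    rw [e1]
    simp only [hΦ, Prod.norm_def, Prod.fst_zero, Prod.snd_zero, map_zero, add_zero]
    rw [max_le_iff, max_le_iff]
    have hDB : D * |T| * B ≤ (1 - q) / 2 * r := by
      refine le_trans ?_ hTB
      exact mul_le_mul_of_nonneg_right hDT' hB0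
    refine ⟨?_, ?_, ?_⟩
    · have hz : pU (J 0) = 0 := by rw [hJ0]; exact pU0 δ
      rw [hz, add_zero]
      refine (hSι _).trans (le_trans ?_ hDB)
      exact mul_le_mul_of_nonneg_left (hb hU L1 r1 hLL1 hrr1 H1 hB1) hDT0
    · have hz : pV (J 0) = 0 := by rw [hJ0]; exact pV0 δ
      rw [hz, add_zero]
      refine (hSι _).trans (le_trans ?_ hDB)
      exact mul_le_mul_of_nonneg_left (hb hV L2 r2 hLL2 hrr2 H2 hB2) hDT0
    · rw [norm_smul, norm_inv, Real.norm_eq_abs, abs_of_pos hκ0]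
      have h1 := (SW T).le_of_opNorm_le hSWT (nW (J 0))
      have h2 := hb nW L3 r3 hLL3 hrr3 H3 hB3
      have h3 : D * |T| * ‖nW (J 0)‖ ≤ D * T₀ * B := by
        apply mul_le_mul hDT h2 (norm_nonneg _) (by positivity)
      calc κ⁻¹ * ‖SW T (nW (J 0))‖ ≤ κ⁻¹ * (D * T₀ * B) := by
            apply mul_le_mul_of_nonneg_left (h1.trans h3) (by positivity)
        _ = κ⁻¹ * (D * T₀) * B := by ring
        _ ≤ _ := hTB
  have hΦL : ∀ x y, ‖x‖ ≤ r → ‖y‖ ≤ r → ‖Φ x - Φ y‖ ≤ (1 + q) / 2 * ‖x - y‖ := by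
    intro x y hx hy
    have hd : 0 ≤ ‖x - y‖ := norm_nonneg _
    have hDL : D * |T| * L ≤ (1 - q) / 4 := by
      refine le_trans ?_ hTL
      exact mul_le_mul_of_nonneg_right hDT' hL0
    refine P2aux_norm3 _ _ ?_ ?_ ?_
    · have h1 := P2aux_comp ι M (SU T) (D * |T|) q L (1 - q) ‖x - y‖ hDT0 (hSU T) hSι hM
        (hU (J x)) (hU (J y)) (pU (J x)) (pU (J y)) x.1 y.1
        (hh hU L1 r1 hLL1 hrr1 H1 x y hx hy)
        (hp pU pU' hCU pU0' (fun a b ha hb' => H4 a b (ha.trans hrr4) (hb'.trans hrr4)) x y hx hy)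
        (norm_fst_le (x - y))
      refine h1.trans ?_
      apply mul_le_mul_of_nonneg_right _ hd
      linarith
    · have h1 := P2aux_comp ι M (SU T) (D * |T|) q L (1 - q) ‖x - y‖ hDT0 (hSU T) hSι hM
        (hV (J x)) (hV (J y)) (pV (J x)) (pV (J y)) x.2.1 y.2.1
        (hh hV L2 r2 hLL2 hrr2 H2 x y hx hy)
        (hp pV pV' hCV pV0' (fun a b ha hb' => H5 a b (ha.trans hrr5) (hb'.trans hrr5)) x y hx hy)
        ((norm_fst_le (x - y).2).trans (norm_snd_le (x - y)))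
      refine h1.trans ?_
      apply mul_le_mul_of_nonneg_right _ hd
      linarith
    · show ‖κ⁻¹ • SW T (nW (J x)) - κ⁻¹ • SW T (nW (J y))‖ ≤ _
      rw [← smul_sub, ← map_sub, norm_smul, norm_inv, Real.norm_eq_abs, abs_of_pos hκ0]
      have h1 := (SW T).le_of_opNorm_le hSWT (nW (J x) - nW (J y))
      have h2 := hh nW L3 r3 hLL3 hrr3 H3 x y hx hy
      have h3 : D * |T| * ‖nW (J x) - nW (J y)‖ ≤ D * T₀ * (L * ‖x - y‖) := by
        apply mul_le_mul hDT h2 (norm_nonneg _) (by positivity)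
      calc κ⁻¹ * ‖SW T (nW (J x) - nW (J y))‖ ≤ κ⁻¹ * (D * T₀ * (L * ‖x - y‖)) := by
            apply mul_le_mul_of_nonneg_left (h1.trans h3) (by positivity)
        _ = (κ⁻¹ * (D * T₀) * L) * ‖x - y‖ := by ring
        _ ≤ (1 - q) / 4 * ‖x - y‖ := mul_le_mul_of_nonneg_right hTL hd
        _ ≤ _ := by
            apply mul_le_mul_of_nonneg_right _ hd
            linarith
  obtain ⟨x, hxr, hxfix⟩ := P2aux_fix Φ r ((1 + q) / 2) hr.le (by linarith) (by linarith) hΦ0 hΦL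
  have e1 : SU T (ι (hU (J x)) + pU (J x) + M x.1) = x.1 := congrArg Prod.fst hxfix
  have e2 : SU T (ι (hV (J x)) + pV (J x) + M x.2.1) = x.2.1 :=
    congrArg (fun z : X × X × X => z.2.1) hxfix
  have e3 : κ⁻¹ • SW T (nW (J x)) = x.2.2 := congrArg (fun z : X × X × X => z.2.2) hxfix
  have hx1 : ‖x.1‖ ≤ r := (norm_fst_le x).trans hxr
  have hx2 : ‖x.2.1‖ ≤ r := (norm_fst_le x.2).trans ((norm_snd_le x).trans hxr)
  have hx3 : ‖x.2.2‖ ≤ r := (norm_snd_le x.2).trans ((norm_snd_le x).trans hxr)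
  refine ⟨x.1, x.2.1, κ • x.2.2, hx1.trans hrη, hx2.trans hrη, ?_, e1.symm, e2.symm, ?_⟩
  · rw [norm_smul, Real.norm_eq_abs, abs_of_pos hκ0]
    have : κ * ‖x.2.2‖ ≤ 1 * r := mul_le_mul hκ1 hx3 (norm_nonneg _) zero_le_one
    linarith
  · have e4 : κ • x.2.2 = SW T (nW (J x)) := by
      conv_lhs => rw [← e3]
      rw [smul_smul, mul_inv_cancel₀ hκ0.ne', one_smul]
    exact e4

end Pool.Agent.H858R2
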