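import Mathlib
import Pool.Agent.H858R2.P1
import Pool.Agent.H858R2.P2
import Pool.Agent.H858R2.Sys

set_option autoImplicit false
set_option linter.all false
open Set

namespace Pool.Agent.H858R2

noncomputable section

/-- the element `s` -/
def sX : PX := sEl 1 rho
def sY : PY := sEl 0 rho

/-- initial data as elements of the algebra -/
def UX0 : PX := 1 + (323/1000:ℝ) • sX
def VX0 (δ : ℝ) : PX := (69/125:ℝ) • 1 + (37037/125000:ℝ) • sX + (18963/125000:ℝ) • sX ^ 2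
  - δ • (sX * (1 - sX))
def WX0 (δ : ℝ) : PX := (1/8:ℝ) • 1 + (18963/125000+δ) • sX
def UX0' : PX := (323/1000:ℝ) • 1
def VX0' (δ : ℝ) : PX := (37037/125000:ℝ) • 1 + (18963/62500:ℝ) • sX - δ • (1 - (2:ℝ) • sX)
def WX0' (δ : ℝ) : PX := (18963/125000+δ) • 1
def VX0'' (δ : ℝ) : PX := (18963/62500+2*δ) • 1

/-- the state `(U, V, W)` and its derivatives, as functions of the unknowns `u, v, w`:
`U = U0 + J u`, `V = V0 + J v`, `W = W0 + w` -/
def Uf (u : PX) : PX := UX0 + Jop u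
def U1f (u : PX) : PX := UX0' + DJop irho u
def U2f (u : PX) : PY := Dop irho (DJop irho u)
def Vf (δ : ℝ) (v : PX) : PX := VX0 δ + Jop v
def V1f (δ : ℝ) (v : PX) : PX := VX0' δ + DJop irho v
def V2f (δ : ℝ) (v : PX) : PY := inc (VX0'' δ) + Dop irho (DJop irho v)
def Wf (δ : ℝ) (w : PX) : PX := WX0 δ + w
def W1f (δ : ℝ) (w : PX) : PY := inc (WX0' δ) + Dop irho w
def Ef (δ : ℝ) (u v w : PX) : PX := cE sX (Uf u) (Vf δ v) (Wf δ w)

/-- the right-hand sides -/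
def FUf (δ : ℝ) (u v w : PX) : PY :=
  fU sY (inc (Uf u)) (inc (Vf δ v)) (inc (Wf δ w)) (inc (U1f u)) (inc (V1f δ v)) (W1f δ w)
    (U2f u) (inc (Ring.inverse (Vf δ v))) (inc (Ring.inverse (Ef δ u v w)))
def FVf (δ : ℝ) (u v w : PX) : PY :=
  fV sY (inc (Uf u)) (inc (Vf δ v)) (inc (Wf δ w)) (inc (U1f u)) (inc (V1f δ v)) (W1f δ w)
    (V2f δ v) (inc (Ring.inverse (Uf u))) (inc (Ring.inverse (Ef δ u v w)))
def FWf (δ : ℝ) (u v w : PX) : PY :=
  fW sY (inc (Uf u)) (inc (Vf δ v)) (inc (Wf δ w)) (inc (U1f u)) (inc (V1f δ v)) (W1f δ w)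
    (U2f u) (V2f δ v) (inc (Ring.inverse (Uf u))) (inc (Ring.inverse (Vf δ v)))
    (inc (Ring.inverse (Ef δ u v w)))

/-- `(u, v, w)` is a solution of the integral equations -/
structure FP (T δ : ℝ) (u v w : PX) : Prop where
  Tpos : 0 < T
  unitU : IsUnit (Uf u)
  unitV : IsUnit (Vf δ v)
  unitE : IsUnit (Ef δ u v w)
  eqU : u = SU T (FUf δ u v w + 4 * Kop u)
  eqV : v = SU T (FVf δ u v w + 4 * Kop v)
  eqW : w = SW T (FWf δ u v w)

end

end Pool.Agent.H858R2
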