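import Mathlib
import Pool.Agent.H858R2.P3

set_option autoImplicit false
set_option linter.all false
open Set
open scoped ContDiff

namespace Pool.Agent.H858R2

noncomputable section

theorem cf_sX_pow (n k : ℕ) : cf k (sX ^ n) = if k = n then rho ^ n else 0 := by
  induction n generalizing k with
  | zero => simp [cf_one]
  | succ n ih =>
    rw [pow_succ']
    cases k with
    | zero =>
      unfold sX
      rw [cf_zero_sEl_mul]
      simp
    | succ k =>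
      unfold sX at ih ⊢
      rw [cf_succ_sEl_mul, ih]
      by_cases h : k = n
      · subst h; simp [pow_succ']
      · simp [h]

theorem norm_sX_pow_le (n : ℕ) : ‖sX ^ n‖ ≤ ((n : ℝ) + 1) * (5/4) ^ n := by
  rw [PS.norm_def, tsum_eq_single n]
  · rw [cf_sX_pow, if_pos rfl, wt_one]
    apply mul_le_mul_of_nonneg_left _ (by positivity)
    exact (norm_pow_le _ _).trans (pow_le_pow_left₀ (norm_nonneg _) norm_rho_le n)
  · intro k hk
    rw [cf_sX_pow, if_neg hk]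
    simp

theorem norm_smul_sX_pow_le (r : ℝ) (n : ℕ) : ‖r • sX ^ n‖ ≤ |r| * (((n : ℝ) + 1) * (5/4) ^ n) := by
  rw [norm_smul, Real.norm_eq_abs]
  exact mul_le_mul_of_nonneg_left (norm_sX_pow_le n) (abs_nonneg r)

theorem unit_U : IsUnit UX0 := by
  have e : UX0 = 1 - ((-(323/1000):ℝ) • sX ^ 1) := by
    unfold UX0; rw [pow_one, neg_smul, sub_neg_eq_add]
  rw [e]
  apply isUnit_one_sub_of_norm_lt_one
  refine (norm_smul_sX_pow_le _ _).trans_lt ?_
  rw [abs_neg, abs_of_pos (by norm_num)]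
  norm_num

theorem unit_V : IsUnit (VX0 0) := by
  set W : PX := (453/250:ℝ) • 1 + (-243/250:ℝ) • sX + (3/125:ℝ) • sX ^ 2 + (127/500:ℝ) • sX ^ 3 + (-143/1000:ℝ) • sX ^ 4 with hW
  have e : 1 - VX0 0 * W = (-7/31250 : ℝ) • sX ^ 0 + (-10761/31250000 : ℝ) • sX ^ 1 + (-531/3906250 : ℝ) • sX ^ 2 + (4287/31250000 : ℝ) • sX ^ 3 + (449/12500000 : ℝ) • sX ^ 4 + (479689/125000000 : ℝ) • sX ^ 5 + (2711709/125000000 : ℝ) • sX ^ 6 := by
    rw [hW]
    unfold VX0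
    simp only [zero_smul, sub_zero, add_mul, mul_add, smul_mul_smul_comm, mul_one, one_mul, pow_zero,
      pow_one]
    simp only [← pow_succ, ← pow_succ', ← pow_add, Nat.reduceAdd]
    simp only [← sq, ← pow_mul, Nat.reduceMul]
    module
  have h : ‖1 - VX0 0 * W‖ < 1 := by
    rw [e]
    refine lt_of_le_of_lt (norm_add_le_of_le (norm_add_le_of_le (norm_add_le_of_le
      (norm_add_le_of_le (norm_add_le_of_le (norm_add_le_of_le (norm_smul_sX_pow_le _ _)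
      (norm_smul_sX_pow_le _ _)) (norm_smul_sX_pow_le _ _)) (norm_smul_sX_pow_le _ _))
      (norm_smul_sX_pow_le _ _)) (norm_smul_sX_pow_le _ _)) (norm_smul_sX_pow_le _ _)) ?_
    norm_num [abs_of_pos, abs_of_neg, abs_lt]
  have h2 := isUnit_one_sub_of_norm_lt_one h
  rw [sub_sub_cancel] at h2
  exact isUnit_of_mul_isUnit_left h2

theorem E_init (δ : ℝ) : Ef δ 0 0 0 = 1 := by
  unfold Ef Uf Vf Wf
  simp only [map_zero, add_zero, cE, UX0, VX0, WX0, Algebra.smul_def, mul_one, map_add]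
  have h1 : algebraMap ℝ PX (1/8) = 1 - algebraMap ℝ PX (69/125) - algebraMap ℝ PX (323/1000) := by
    rw [← map_one (algebraMap ℝ PX), ← map_sub, ← map_sub]; norm_num
  have h2 : algebraMap ℝ PX (37037/125000) = 1 - algebraMap ℝ PX (69/125)
      - algebraMap ℝ PX (18963/125000) := by
    rw [← map_one (algebraMap ℝ PX), ← map_sub, ← map_sub]; norm_num
  rw [h1, h2]
  ring

/-! ### the maps of the abstract fixed point theorem -/

abbrev ZZ : Type := (PX × PX × PX) × ℝ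

def fA1 (x : ZZ) : PX := Uf x.1.1
def fA2 (x : ZZ) : PX := Vf x.2 x.1.2.1
def fA3 (x : ZZ) : PX := Wf x.2 x.1.2.2
def fA4 (x : ZZ) : PX := U1f x.1.1
def fA5 (x : ZZ) : PX := V1f x.2 x.1.2.1
def fA6 (x : ZZ) : PX := WX0' x.2
def fA8 (x : ZZ) : PX := VX0'' x.2
def fE (x : ZZ) : PX := cE sX (fA1 x) (fA2 x) (fA3 x)

theorem sm1 : ContDiff ℝ ∞ fA1 := by unfold fA1 Uf; fun_prop
theorem sm2 : ContDiff ℝ ∞ fA2 := by unfold fA2 Vf VX0; fun_prop
theorem sm3 : ContDiff ℝ ∞ fA3 := by unfold fA3 Wf WX0; fun_prop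
theorem sm4 : ContDiff ℝ ∞ fA4 := by unfold fA4 U1f; fun_prop
theorem sm5 : ContDiff ℝ ∞ fA5 := by unfold fA5 V1f VX0'; fun_prop
theorem sm6 : ContDiff ℝ ∞ fA6 := by unfold fA6 WX0'; fun_prop
theorem sm8 : ContDiff ℝ ∞ fA8 := by unfold fA8 VX0''; fun_prop
theorem smE : ContDiff ℝ ∞ fE := by
  have h1 := sm1
  have h2 := sm2
  have h3 := sm3
  unfold fE cE
  fun_prop

theorem fA1_zero : fA1 0 = UX0 := by
  show UX0 + Jop 0 = UX0
  rw [map_zero, add_zero]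
theorem fA2_zero : fA2 0 = VX0 0 := by
  show VX0 0 + Jop 0 = VX0 0
  rw [map_zero, add_zero]
theorem fE_zero : fE 0 = 1 := E_init 0

theorem smInv {f : ZZ → PX} (hf : ContDiff ℝ ∞ f) (h0 : IsUnit (f 0)) :
    ContDiffAt ℝ ∞ (fun x => Ring.inverse (f x)) 0 := by
  obtain ⟨w, hw⟩ := h0
  have h := contDiffAt_ringInverse (n := ∞) ℝ w
  rw [hw] at h
  exact h.comp 0 hf.contDiffAt

theorem iU_sm : ContDiffAt ℝ ∞ (fun x => Ring.inverse (fA1 x)) 0 :=
  smInv sm1 (by rw [fA1_zero]; exact unit_U)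
theorem iV_sm : ContDiffAt ℝ ∞ (fun x => Ring.inverse (fA2 x)) 0 :=
  smInv sm2 (by rw [fA2_zero]; exact unit_V)
theorem iE_sm : ContDiffAt ℝ ∞ (fun x => Ring.inverse (fE x)) 0 :=
  smInv smE (by rw [fE_zero]; exact isUnit_one)

/-- the lower order parts -/
def hU (x : ZZ) : PX :=
  fU sX (fA1 x) (fA2 x) (fA3 x) (fA4 x) (fA5 x) (fA6 x) 0 (Ring.inverse (fA2 x))
    (Ring.inverse (fE x)) + 4 * Bop x.1.1
def hV (x : ZZ) : PX :=
  fV sX (fA1 x) (fA2 x) (fA3 x) (fA4 x) (fA5 x) (fA6 x) (fA8 x) (Ring.inverse (fA1 x))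
    (Ring.inverse (fE x)) + 4 * Bop x.1.2.1
def pU (x : ZZ) : PY :=
  incL ((Ring.inverse (fE x) - 1) * (4 * sX * (1 - sX))) * Dop irho (DJop irho x.1.1)
    - incL (2 * Ring.inverse (fE x) ^ 2 * (1 - sX) ^ 2 * sX * (fA1 x + sX * fA4 x))
      * Dop irho x.1.2.2
def pV (x : ZZ) : PY :=
  incL ((Ring.inverse (fE x) - 1) * (4 * sX * (1 - sX))) * Dop irho (DJop irho x.1.2.1)
    + incL (2 * Ring.inverse (fE x) ^ 2 * sX ^ 2 * (1 - sX) * (fA2 x - (1 - sX) * fA5 x))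
      * Dop irho x.1.2.2
def nW (x : ZZ) : PY :=
  fW (incL sX) (incL (fA1 x)) (incL (fA2 x)) (incL (fA3 x)) (incL (fA4 x)) (incL (fA5 x))
    (W1f x.2 x.1.2.2) (U2f x.1.1) (V2f x.2 x.1.2.1) (incL (Ring.inverse (fA1 x)))
    (incL (Ring.inverse (fA2 x))) (incL (Ring.inverse (fE x)))

theorem hU_sm : ContDiffAt ℝ ∞ hU 0 := by
  have h1 := sm1.contDiffAt (x := (0:ZZ))
  have h2 := sm2.contDiffAt (x := (0:ZZ))
  have h3 := sm3.contDiffAt (x := (0:ZZ))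
  have h4 := sm4.contDiffAt (x := (0:ZZ))
  have h5 := sm5.contDiffAt (x := (0:ZZ))
  have h6 := sm6.contDiffAt (x := (0:ZZ))
  have hE := smE.contDiffAt (x := (0:ZZ))
  have hiV := iV_sm
  have hiE := iE_sm
  unfold hU fU cQ cE1
  fun_prop

theorem hV_sm : ContDiffAt ℝ ∞ hV 0 := by
  have h1 := sm1.contDiffAt (x := (0:ZZ))
  have h2 := sm2.contDiffAt (x := (0:ZZ))
  have h3 := sm3.contDiffAt (x := (0:ZZ))
  have h4 := sm4.contDiffAt (x := (0:ZZ))
  have h5 := sm5.contDiffAt (x := (0:ZZ))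
  have h6 := sm6.contDiffAt (x := (0:ZZ))
  have h8 := sm8.contDiffAt (x := (0:ZZ))
  have hiU := iU_sm
  have hiE := iE_sm
  unfold hV fV cR cE1
  fun_prop

theorem nW_sm : ContDiffAt ℝ ∞ nW 0 := by
  have h1 := sm1.contDiffAt (x := (0:ZZ))
  have h2 := sm2.contDiffAt (x := (0:ZZ))
  have h3 := sm3.contDiffAt (x := (0:ZZ))
  have h4 := sm4.contDiffAt (x := (0:ZZ))
  have h5 := sm5.contDiffAt (x := (0:ZZ))
  have hiU := iU_sm
  have hiV := iV_sm
  have hiE := iE_sm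
  have k1 : ContDiffAt ℝ ∞ (fun x : ZZ => incL (fA1 x)) 0 := by fun_prop
  have k2 : ContDiffAt ℝ ∞ (fun x : ZZ => incL (fA2 x)) 0 := by fun_prop
  have k3 : ContDiffAt ℝ ∞ (fun x : ZZ => incL (fA3 x)) 0 := by fun_prop
  have k4 : ContDiffAt ℝ ∞ (fun x : ZZ => incL (fA4 x)) 0 := by fun_prop
  have k5 : ContDiffAt ℝ ∞ (fun x : ZZ => incL (fA5 x)) 0 := by fun_prop
  have k6 : ContDiffAt ℝ ∞ (fun x : ZZ => W1f x.2 x.1.2.2) 0 := by
    unfold W1f WX0'
    simp only [← incL_apply]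
    fun_prop
  have k7 : ContDiffAt ℝ ∞ (fun x : ZZ => U2f x.1.1) 0 := by unfold U2f; fun_prop
  have k8 : ContDiffAt ℝ ∞ (fun x : ZZ => V2f x.2 x.1.2.1) 0 := by
    unfold V2f VX0''
    simp only [← incL_apply]
    fun_prop
  have j1 : ContDiffAt ℝ ∞ (fun x : ZZ => incL (Ring.inverse (fA1 x))) 0 := by fun_prop
  have j2 : ContDiffAt ℝ ∞ (fun x : ZZ => incL (Ring.inverse (fA2 x))) 0 := by fun_prop
  have j3 : ContDiffAt ℝ ∞ (fun x : ZZ => incL (Ring.inverse (fE x))) 0 := by fun_prop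
  unfold nW fW kRF kRH a1 a2 b1 b2 cQ cR cE1 cQ1 cR1
  fun_prop

end

end Pool.Agent.H858R2
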