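import Mathlib
import Pool.Agent.H858R2.P3a

set_option autoImplicit false
set_option linter.all false
open Set
open scoped ContDiff

namespace Pool.Agent.H858R2

noncomputable section

theorem inc_sX : inc sX = sY := by
  ext k
  unfold sX sY
  rw [cf_inc, cf_sEl, cf_sEl]

/-- the linear top order part -/
def Mop : PX →L[ℝ] PY :=
  (ContinuousLinearMap.mul ℝ PY (4 * sY)).comp ((Dop irho).comp (DJop irho))

theorem Mop_apply (f : PX) : Mop f = 4 * sY * Dop irho (DJop irho f) := rfl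

theorem norm_sY_le : ‖sY‖ ≤ 5 / 4 := by
  unfold sY
  rw [norm_sEl, pow_zero, one_mul]
  exact norm_rho_le

theorem norm_four_le : ‖(4 : PY)‖ ≤ 4 := by
  have : (4 : PY) = algebraMap ℝ PY 4 := by rw [map_ofNat]
  rw [this, norm_algebraMap']
  norm_num

theorem norm_Mop_le : ‖Mop‖ ≤ 4 * (289/320) := by
  have h1 : ‖ContinuousLinearMap.mul ℝ PY (4 * sY)‖ ≤ 5 := by
    refine (ContinuousLinearMap.opNorm_mul_apply_le ℝ PY _).trans ?_
    refine (norm_mul_le _ _).trans ?_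
    calc ‖(4:PY)‖ * ‖sY‖ ≤ 4 * (5/4) :=
          mul_le_mul norm_four_le norm_sY_le (norm_nonneg _) (by norm_num)
      _ = 5 := by norm_num
  have h2 : ‖(Dop irho).comp (DJop irho)‖ ≤ 17/20 * (17/20) := by
    refine (ContinuousLinearMap.opNorm_comp_le _ _).trans ?_
    exact mul_le_mul ((norm_Dop_le irho).trans norm_irho_le)
      ((norm_DJop_le irho).trans norm_irho_le) (norm_nonneg _) (by norm_num)
  refine (ContinuousLinearMap.opNorm_comp_le _ _).trans ?_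
  calc _ ≤ 5 * (17/20 * (17/20)) := mul_le_mul h1 h2 (norm_nonneg _) (by norm_num)
    _ = _ := by norm_num

theorem FU_split (x : ZZ) : FUf x.2 x.1.1 x.1.2.1 x.1.2.2 + 4 * Kop x.1.1 =
    incL (hU x) + pU x + Mop x.1.1 := by
  have hK := K_B rho irho rho_mul_irho x.1.1
  rw [Mop_apply]
  unfold FUf hU pU fU
  simp only [incL_apply, map_add, map_mul, map_sub, map_pow, map_one, map_ofNat, map_zero,
    cE1, cQ, inc_sX] at hK ⊢
  unfold W1f U2f
  simp only [fA1, fA2, fA3, fA4, fA5, fA6, fE, Ef] at *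
  change 4 * Kop x.1.1 - 4 * (sY * (sY * Dop irho (DJop irho x.1.1))) = 4 * inc (Bop x.1.1) at hK
  linear_combination hK

theorem FV_split (x : ZZ) : FVf x.2 x.1.1 x.1.2.1 x.1.2.2 + 4 * Kop x.1.2.1 =
    incL (hV x) + pV x + Mop x.1.2.1 := by
  have hK := K_B rho irho rho_mul_irho x.1.2.1
  rw [Mop_apply]
  unfold FVf hV pV fV
  simp only [incL_apply, map_add, map_mul, map_sub, map_pow, map_one, map_ofNat, map_zero,
    cE1, cR, inc_sX] at hK ⊢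
  unfold W1f V2f
  simp only [fA1, fA2, fA3, fA4, fA5, fA6, fA8, fE, Ef] at *
  change 4 * Kop x.1.2.1 - 4 * (sY * (sY * Dop irho (DJop irho x.1.2.1))) = 4 * inc (Bop x.1.2.1) at hK
  linear_combination hK

theorem FW_eq (x : ZZ) : FWf x.2 x.1.1 x.1.2.1 x.1.2.2 = nW x := by
  unfold FWf nW
  simp only [incL_apply, inc_sX, fA1, fA2, fA3, fA4, fA5, fE, Ef]

/-! strict derivatives -/

def L1 : ZZ →L[ℝ] PY :=
  ((Dop irho).comp (DJop irho)).comp
    ((ContinuousLinearMap.fst ℝ PX (PX × PX)).comp (ContinuousLinearMap.fst ℝ (PX × PX × PX) ℝ))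
def L2 : ZZ →L[ℝ] PY :=
  ((Dop irho).comp (DJop irho)).comp
    ((ContinuousLinearMap.fst ℝ PX PX).comp ((ContinuousLinearMap.snd ℝ PX (PX × PX)).comp
      (ContinuousLinearMap.fst ℝ (PX × PX × PX) ℝ)))
def L3 : ZZ →L[ℝ] PY :=
  (Dop irho).comp
    ((ContinuousLinearMap.snd ℝ PX PX).comp ((ContinuousLinearMap.snd ℝ PX (PX × PX)).comp
      (ContinuousLinearMap.fst ℝ (PX × PX × PX) ℝ)))

def G0 (x : ZZ) : PY := incL ((Ring.inverse (fE x) - 1) * (4 * sX * (1 - sX)))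
def G1 (x : ZZ) : PY := incL (2 * Ring.inverse (fE x) ^ 2 * (1 - sX) ^ 2 * sX * (fA1 x + sX * fA4 x))
def G2 (x : ZZ) : PY :=
  incL (2 * Ring.inverse (fE x) ^ 2 * sX ^ 2 * (1 - sX) * (fA2 x - (1 - sX) * fA5 x))

theorem G0_zero : G0 0 = 0 := by
  unfold G0
  rw [fE_zero, Ring.inverse_one, sub_self, zero_mul, map_zero]

theorem G0_sm : ContDiffAt ℝ ∞ G0 0 := by
  have hiE := iE_sm
  unfold G0
  fun_prop
theorem G1_sm : ContDiffAt ℝ ∞ G1 0 := by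
  have h1 := sm1.contDiffAt (x := (0:ZZ))
  have h4 := sm4.contDiffAt (x := (0:ZZ))
  have hiE := iE_sm
  unfold G1
  fun_prop
theorem G2_sm : ContDiffAt ℝ ∞ G2 0 := by
  have h2 := sm2.contDiffAt (x := (0:ZZ))
  have h5 := sm5.contDiffAt (x := (0:ZZ))
  have hiE := iE_sm
  unfold G2
  fun_prop

theorem pU_eq : pU = fun x => G0 x * L1 x - G1 x * L3 x := rfl
theorem pV_eq : pV = fun x => G0 x * L2 x + G2 x * L3 x := rfl

theorem infty_ne : (∞ : WithTop ℕ∞) ≠ 0 := by simp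

theorem pU_der : ∃ pU' : ZZ →L[ℝ] PY, HasStrictFDerivAt pU pU' 0 ∧
    ∀ u v : PX, pU' ((u, v, 0), 0) = 0 := by
  have g0 := G0_sm.hasStrictFDerivAt infty_ne
  have g1 := G1_sm.hasStrictFDerivAt infty_ne
  have l1 : HasStrictFDerivAt (fun x => L1 x) L1 0 := L1.hasStrictFDerivAt
  have l3 : HasStrictFDerivAt (fun x => L3 x) L3 0 := L3.hasStrictFDerivAt
  have key := (g0.mul l1).sub (g1.mul l3)
  refine ⟨_, by rw [pU_eq]; exact key, ?_⟩
  intro u v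
  have e3 : L3 ((u, v, 0), 0) = 0 := by
    show Dop irho 0 = 0
    exact map_zero _
  simp only [G0_zero, map_zero, zero_smul, add_zero, zero_sub, zero_add,
    ContinuousLinearMap.neg_apply, ContinuousLinearMap.smul_apply, ContinuousLinearMap.sub_apply,
    ContinuousLinearMap.add_apply, e3, smul_zero, neg_zero, sub_zero]

theorem pV_der : ∃ pV' : ZZ →L[ℝ] PY, HasStrictFDerivAt pV pV' 0 ∧
    ∀ u v : PX, pV' ((u, v, 0), 0) = 0 := by
  have g0 := G0_sm.hasStrictFDerivAt infty_ne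
  have g1 := G2_sm.hasStrictFDerivAt infty_ne
  have l1 : HasStrictFDerivAt (fun x => L2 x) L2 0 := L2.hasStrictFDerivAt
  have l3 : HasStrictFDerivAt (fun x => L3 x) L3 0 := L3.hasStrictFDerivAt
  have key := (g0.mul l1).add (g1.mul l3)
  refine ⟨_, by rw [pV_eq]; exact key, ?_⟩
  intro u v
  have e3 : L3 ((u, v, 0), 0) = 0 := by
    show Dop irho 0 = 0
    exact map_zero _
  simp only [G0_zero, map_zero, zero_smul, add_zero, zero_sub, zero_add,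
    ContinuousLinearMap.neg_apply, ContinuousLinearMap.smul_apply, ContinuousLinearMap.sub_apply,
    ContinuousLinearMap.add_apply, e3, smul_zero, neg_zero, sub_zero]

theorem pU_zero (δ : ℝ) : pU (0, δ) = 0 := by
  have h1 : L1 (0, δ) = 0 := by
    show Dop irho (DJop irho 0) = 0
    rw [map_zero, map_zero]
  have h3 : L3 (0, δ) = 0 := by
    show Dop irho 0 = 0
    rw [map_zero]
  rw [pU_eq]
  simp only [h1, h3, mul_zero, sub_zero]
theorem pV_zero (δ : ℝ) : pV (0, δ) = 0 := by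
  have h1 : L2 (0, δ) = 0 := by
    show Dop irho (DJop irho 0) = 0
    rw [map_zero, map_zero]
  have h3 : L3 (0, δ) = 0 := by
    show Dop irho 0 = 0
    rw [map_zero]
  rw [pV_eq]
  simp only [h1, h3, mul_zero, add_zero]

theorem unit_nhds {f : ZZ → PX} (hf : ContDiff ℝ ∞ f) (h0 : IsUnit (f 0)) :
    ∃ ε > 0, ∀ x : ZZ, ‖x‖ < ε → IsUnit (f x) := by
  have h1 : ∀ᶠ x in nhds (0:ZZ), IsUnit (f x) :=
    hf.continuous.continuousAt.eventually (Units.isOpen.mem_nhds h0)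
  obtain ⟨ε, hε, h⟩ := Metric.eventually_nhds_iff.1 h1
  exact ⟨ε, hε, fun x hx => h (by simpa [dist_zero_right] using hx)⟩

theorem abs_app (η : ℝ) (hη : 0 < η) : ∃ T₀ > 0, ∃ δ₀ > 0, ∀ T, |T| ≤ T₀ → ∀ δ, |δ| ≤ δ₀ →
    ∃ u v w : PX, ‖u‖ ≤ η ∧ ‖v‖ ≤ η ∧ ‖w‖ ≤ η ∧
      u = SU T (incL (hU ((u, v, w), δ)) + pU ((u, v, w), δ) + Mop u) ∧
      v = SU T (incL (hV ((u, v, w), δ)) + pV ((u, v, w), δ) + Mop v) ∧
      w = SW T (nW ((u, v, w), δ)) := by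
  obtain ⟨pU', dpU, pU0'⟩ := pU_der
  obtain ⟨pV', dpV, pV0'⟩ := pV_der
  have dhU := hU_sm.hasStrictFDerivAt infty_ne
  have dhV := hV_sm.hasStrictFDerivAt infty_ne
  have dnW := nW_sm.hasStrictFDerivAt infty_ne
  have hq : (289/320 : ℝ) < 1 := by norm_num
  have key := fixed_point_abstract (incL : PX →L[ℝ] PY) Mop SU SW 40 (289/320)
    norm_SU_le norm_SU_inc_le norm_SW_le hq norm_Mop_le hU hV pU pV nW
    _ _ pU' pV' _ dhU dhV dpU dpV dnW pU_zero pV_zero pU0' pV0' η hη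
  exact key

theorem norm_ZZ_le {u v w : PX} {δ e : ℝ} (hu : ‖u‖ ≤ e) (hv : ‖v‖ ≤ e) (hw : ‖w‖ ≤ e)
    (hδ0 : 0 ≤ δ) (hδ : δ ≤ e) : ‖(((u, v, w), δ) : ZZ)‖ ≤ e := by
  apply norm_prod_le_iff.2
  refine ⟨norm_prod_le_iff.2 ⟨hu, norm_prod_le_iff.2 ⟨hv, hw⟩⟩, ?_⟩
  rw [Real.norm_of_nonneg hδ0]
  exact hδ

theorem eqs_FP {T δ : ℝ} {u v w : PX} (hT : 0 < T)
    (h1 : IsUnit (fA1 ((u, v, w), δ))) (h2 : IsUnit (fA2 ((u, v, w), δ)))
    (h3 : IsUnit (fE ((u, v, w), δ)))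
    (eu : u = SU T (incL (hU ((u, v, w), δ)) + pU ((u, v, w), δ) + Mop u))
    (ev : v = SU T (incL (hV ((u, v, w), δ)) + pV ((u, v, w), δ) + Mop v))
    (ew : w = SW T (nW ((u, v, w), δ))) : FP T δ u v w := by
  have e1 := FU_split ((u, v, w), δ)
  have e2 := FV_split ((u, v, w), δ)
  have e3 := FW_eq ((u, v, w), δ)
  simp only at e1 e2 e3
  refine ⟨hT, h1, h2, h3, ?_, ?_, ?_⟩
  · rw [e1]; exact eu
  · rw [e2]; exact ev
  · rw [e3]; exact ew

/-! ## P3 -/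
theorem fp_exists' (η : ℝ) (hη : 0 < η) : ∃ T > 0, ∃ δ₀ > 0, ∀ δ, 0 ≤ δ → δ ≤ δ₀ →
    ∃ u v w : PX, ‖u‖ ≤ η ∧ ‖v‖ ≤ η ∧ ‖w‖ ≤ η ∧ FP T δ u v w := by
  obtain ⟨e1, he1, H1⟩ := unit_nhds sm1 (by rw [fA1_zero]; exact unit_U)
  obtain ⟨e2, he2, H2⟩ := unit_nhds sm2 (by rw [fA2_zero]; exact unit_V)
  obtain ⟨e3, he3, H3⟩ := unit_nhds smE (by rw [fE_zero]; exact isUnit_one)
  obtain ⟨e, hepos, l1, l2, l3⟩ : ∃ e : ℝ, 0 < e ∧ e < e1 ∧ e < e2 ∧ e < e3 := by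
    refine ⟨min (min e1 e2) e3 / 2, by positivity, ?_, ?_, ?_⟩
    · have : min (min e1 e2) e3 ≤ e1 := (min_le_left _ _).trans (min_le_left _ _)
      linarith
    · have : min (min e1 e2) e3 ≤ e2 := (min_le_left _ _).trans (min_le_right _ _)
      linarith
    · have : min (min e1 e2) e3 ≤ e3 := min_le_right _ _
      linarith
  obtain ⟨T₀, hT₀, δ₀, hδ₀, H⟩ := abs_app (min η e) (lt_min hη hepos)
  refine ⟨T₀, hT₀, min δ₀ e, lt_min hδ₀ hepos, ?_⟩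
  intro δ hδ0 hδ1
  obtain ⟨u, v, w, hu, hv, hw, eu, ev, ew⟩ := H T₀ (by rw [abs_of_pos hT₀]) δ
    (by rw [abs_of_nonneg hδ0]; exact hδ1.trans (min_le_left _ _))
  have hx : ‖(((u, v, w), δ) : ZZ)‖ ≤ e :=
    norm_ZZ_le (hu.trans (min_le_right _ _)) (hv.trans (min_le_right _ _))
      (hw.trans (min_le_right _ _)) hδ0 (hδ1.trans (min_le_right _ _))
  exact ⟨u, v, w, hu.trans (min_le_left _ _), hv.trans (min_le_left _ _),
    hw.trans (min_le_left _ _), eqs_FP hT₀ (H1 _ (hx.trans_lt l1)) (H2 _ (hx.trans_lt l2))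
    (H3 _ (hx.trans_lt l3)) eu ev ew⟩

end

end Pool.Agent.H858R2
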