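import Mathlib
import Pool.Agent.H858R2.P3
import Pool.Agent.H858R2.P0

set_option autoImplicit false
set_option linter.all false
open scoped ContDiff
open Set

namespace Pool.Agent.H858R2

noncomputable section

/-! ### evaluation -/

/-- `r / ρ(τ)`, clamped to `[-1,1]` -/
def xx (r τ : ℝ) : ℝ := max (-1) (min 1 (r / rhoF τ))

theorem abs_xx_le (r τ : ℝ) : |xx r τ| ≤ 1 := by
  unfold xx
  rw [abs_le]
  exact ⟨le_max_left _ _, max_le (by norm_num) (min_le_left _ _)⟩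

theorem abs_div_rhoF_le {r τ : ℝ} (hr : |r| ≤ 20/17) (hτ : τ ≤ 1) : |r / rhoF τ| ≤ 1 := by
  rw [abs_div, abs_of_pos (rhoF_pos τ), div_le_one (rhoF_pos τ)]
  exact hr.trans (rhoF_ge hτ)

theorem xx_eq {r τ : ℝ} (hr : |r| ≤ 20/17) (hτ : τ ≤ 1) : xx r τ = r / rhoF τ := by
  have h := abs_le.1 (abs_div_rhoF_le hr hτ)
  unfold xx
  rw [min_eq_right h.2, max_eq_right h.1]

/-- the algebra homomorphism `f ↦ (f_k(τ) (r/ρ(τ))^k)_k` -/
def crvH (m : ℕ) (r τ : ℝ) : PS m CI →ₐ[ℝ] PS 0 ℝ :=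
  mapHom m 0 (Nat.zero_le m) (evH τ) (norm_evH_le τ) (xx r τ) (abs_xx_le r τ)

/-- the curve `τ ↦ (f_k(τ) (r/ρ(τ))^k)_k` in `PS 0 ℝ` -/
def crv {m : ℕ} (r : ℝ) (f : PS m CI) (τ : ℝ) : PS 0 ℝ := crvH m r τ f

theorem cf_crv {m : ℕ} (r : ℝ) (f : PS m CI) (τ : ℝ) (k : ℕ) :
    cf k (crv r f τ) = xx r τ ^ k * ev (cf k f) τ :=
  cf_mapHom (Nat.zero_le m) (evH τ) (norm_evH_le τ) (xx r τ) (abs_xx_le r τ) f k

theorem norm_crv_le {m : ℕ} (r : ℝ) (f : PS m CI) (τ : ℝ) : ‖crv r f τ‖ ≤ ‖f‖ :=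
  norm_mapHom_le _ _ _ _ _ f

theorem crv_inc (r : ℝ) (f : PX) (τ : ℝ) : crv r (inc f) τ = crv r f τ := by
  ext k
  rw [cf_crv, cf_crv, cf_inc]

/-- the value at `s` -/
def fn {m : ℕ} (f : PS m CI) (τ s : ℝ) : ℝ := sumHom (crv s f τ)

theorem fn_eq {m : ℕ} (f : PS m CI) (τ s : ℝ) : fn f τ s = ∑' k, xx s τ ^ k * ev (cf k f) τ := by
  unfold fn
  rw [sumHom_apply]
  exact tsum_congr fun k => cf_crv s f τ k

theorem abs_fn_le {m : ℕ} (f : PS m CI) (τ s : ℝ) : |fn f τ s| ≤ ‖f‖ := by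
  unfold fn
  rw [sumHom_apply]
  refine le_trans ?_ (norm_crv_le s f τ)
  rw [PS.norm_def]
  have h := summable_cf (crv s f τ)
  calc |∑' k, cf k (crv s f τ)| = ‖∑' k, cf k (crv s f τ)‖ := rfl
    _ ≤ ∑' k, ‖cf k (crv s f τ)‖ := norm_tsum_le_tsum_norm h
    _ = _ := by simp

theorem fn_add {m : ℕ} (f g : PS m CI) (τ s : ℝ) : fn (f + g) τ s = fn f τ s + fn g τ s := by
  unfold fn crv; rw [map_add, map_add]
theorem fn_sub {m : ℕ} (f g : PS m CI) (τ s : ℝ) : fn (f - g) τ s = fn f τ s - fn g τ s := by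
  unfold fn crv; rw [map_sub, map_sub]
theorem fn_mul {m : ℕ} (f g : PS m CI) (τ s : ℝ) : fn (f * g) τ s = fn f τ s * fn g τ s := by
  unfold fn crv; rw [map_mul, map_mul]
theorem fn_pow {m : ℕ} (f : PS m CI) (n : ℕ) (τ s : ℝ) : fn (f ^ n) τ s = fn f τ s ^ n := by
  unfold fn crv; rw [map_pow, map_pow]
theorem fn_one {m : ℕ} (τ s : ℝ) : fn (1 : PS m CI) τ s = 1 := by
  unfold fn crv; rw [map_one, map_one]
theorem fn_zero {m : ℕ} (τ s : ℝ) : fn (0 : PS m CI) τ s = 0 := by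
  unfold fn crv; rw [map_zero, map_zero]
theorem fn_neg {m : ℕ} (f : PS m CI) (τ s : ℝ) : fn (-f) τ s = -fn f τ s := by
  unfold fn crv; rw [map_neg, map_neg]
theorem fn_smul {m : ℕ} (a : ℝ) (f : PS m CI) (τ s : ℝ) : fn (a • f) τ s = a * fn f τ s := by
  unfold fn crv; rw [map_smul, map_smul, smul_eq_mul]
theorem fn_inc (f : PX) (τ s : ℝ) : fn (inc f) τ s = fn f τ s := by
  unfold fn; rw [crv_inc]

theorem crv_sEl {m : ℕ} {r τ : ℝ} (hr : |r| ≤ 20/17) (hτ : τ ∈ Icc (0:ℝ) 1) :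
    crv r (sEl m rho) τ = sEl 0 r := by
  ext k
  rw [cf_crv, cf_sEl, cf_sEl]
  by_cases h : k = 1
  · subst h
    rw [if_pos rfl, if_pos rfl, xx_eq hr hτ.2, ev_rho hτ, pow_one,
      div_mul_cancel₀ _ (rhoF_pos τ).ne']
  · simp [h]

theorem fn_sX {s τ : ℝ} (hs : |s| ≤ 20/17) (hτ : τ ∈ Icc (0:ℝ) 1) : fn sX τ s = s := by
  unfold fn sX
  rw [crv_sEl hs hτ, sumHom_apply, tsum_eq_single 1]
  · simp
  · intro k hk; simp [hk]

/-! ## TARGET P4a : space derivative -/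

/-! ## TARGET P4b : joint continuity -/

/-- `F` is (up to the factor `T`) the time derivative of `f`, coefficientwise -/
def TD {m : ℕ} (T : ℝ) (f : PS m CI) (F : PY) : Prop :=
  ∀ k : ℕ, ∀ τ ∈ Ioo (0:ℝ) 1, HasDerivAt (fun x => (rhoF x)⁻¹ ^ k * ev (cf k f) x)
    (T * ((rhoF τ)⁻¹ ^ k * ev (cf k F) τ)) τ

/-! ## TARGET P4c : the integral equations give the coefficientwise evolution equations -/

/-! ## TARGET P4d : time derivative of the curves -/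


/-! ## TARGET P4e : change of radius -/

/-! ## TARGET P4f : smoothness of the curves. Induction on `n`: all curves (all `r < 20/17`) are `C^n` on
`(0,1)`; `(crv r U)' = T • crv r FU` and `crv r FU = fU (s_r) (crv r U) .. ` is a smooth function
(`Ring.inverse` at units) of `crv r' (U,V,W)`, `crv r'' (U, V, W)` by `radius_change`
(`crv r (U2) = Dr (crv r' U1) = Dr (Dr' (crv r'' U))`). -/

/-! ## TARGET P4g : joint smoothness -/

end

end Pool.Agent.H858R2
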