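import Mathlib
import Pool.Agent.H858R2.P4Def

set_option autoImplicit false
set_option linter.all false
open scoped ContDiff
open Set

namespace Pool.Agent.H858R2
namespace P4abP

noncomputable section

/-! ### P4b -/

theorem xx_cont : Continuous (fun p : ℝ × ℝ => xx p.2 p.1) := by
  unfold xx
  have : Continuous (fun p : ℝ × ℝ => p.2 / rhoF p.1) :=
    continuous_snd.div (rhoF_cont.comp continuous_fst) (fun p => (rhoF_pos _).ne')
  exact continuous_const.max (continuous_const.min this)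

theorem fn_cont {m : ℕ} (f : PS m CI) :
    ContinuousOn (fun p : ℝ × ℝ => fn f p.1 p.2) (Icc 0 1 ×ˢ Icc (-20/17) (20/17)) := by
  apply Continuous.continuousOn
  have e : (fun p : ℝ × ℝ => fn f p.1 p.2) =
      fun p : ℝ × ℝ => ∑' k, xx p.2 p.1 ^ k * ev (cf k f) p.1 := by
    funext p; exact fn_eq f p.1 p.2
  rw [e]
  refine continuous_tsum (fun k => ?_) (summable_cf f) (fun k p => ?_)
  · exact (xx_cont.pow k).mul ((continuous_ev _).comp continuous_fst)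
  · rw [norm_mul, norm_pow, Real.norm_eq_abs, Real.norm_eq_abs]
    calc |xx p.2 p.1| ^ k * |ev (cf k f) p.1| ≤ 1 * ‖cf k f‖ :=
          mul_le_mul (pow_le_one₀ (abs_nonneg _) (abs_xx_le _ _)) (abs_ev_le _ _) (abs_nonneg _)
            zero_le_one
      _ = _ := one_mul _

/-! ### P4a -/

theorem fn_deriv (f : PX) {s τ : ℝ} (hs : |s| < 20/17) (hτ : τ ∈ Icc (0:ℝ) 1) :
    HasDerivAt (fun x => fn f τ x) (fn (Dop irho f) τ s) s := by
  set ρ := rhoF τ with hρ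
  have hρ0 : 0 < ρ := rhoF_pos τ
  set a : ℕ → ℝ := fun k => ev (cf k f) τ with ha
  have hmem : s ∈ Ioo (-(20/17) : ℝ) (20/17) := abs_lt.1 hs
  have hsum : Summable fun k : ℕ => ((k:ℝ) + 1) * ‖cf k f‖ := by
    refine f.summable.congr fun k => ?_
    rw [wt_one]
  set g : ℕ → ℝ → ℝ := fun k x => (x / ρ) ^ k * a k with hg
  set g' : ℕ → ℝ → ℝ := fun k x => ((k:ℝ) * (x / ρ) ^ (k - 1) * ρ⁻¹) * a k with hg'
  have hd : ∀ n y, y ∈ Ioo (-(20/17) : ℝ) (20/17) → HasDerivAt (g n) (g' n y) y := by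
    intro n y hy
    have h1 : HasDerivAt (fun x : ℝ => x / ρ) ρ⁻¹ y := by
      simpa [div_eq_mul_inv] using (hasDerivAt_id y).mul_const ρ⁻¹
    exact (h1.pow n).mul_const (a n)
  have hb : ∀ n y, y ∈ Ioo (-(20/17) : ℝ) (20/17) →
      ‖g' n y‖ ≤ ρ⁻¹ * (((n:ℝ) + 1) * ‖cf n f‖) := by
    intro n y hy
    have hy1 : |y / ρ| ≤ 1 := abs_div_rhoF_le (abs_lt.2 hy).le hτ.2
    simp only [hg', norm_mul, norm_pow, Real.norm_eq_abs]
    have e1 : |y / ρ| ^ (n - 1) ≤ 1 := pow_le_one₀ (abs_nonneg _) hy1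
    have e2 : |a n| ≤ ‖cf n f‖ := abs_ev_le _ _
    have e3 : |(n:ℝ)| ≤ (n:ℝ) + 1 := by rw [abs_of_nonneg (Nat.cast_nonneg n)]; linarith
    have e4 : |ρ⁻¹| = ρ⁻¹ := abs_of_pos (inv_pos.2 hρ0)
    rw [e4]
    have e5 : 0 < ρ⁻¹ := inv_pos.2 hρ0
    calc |(n:ℝ)| * |y / ρ| ^ (n - 1) * ρ⁻¹ * |a n|
        ≤ ((n:ℝ) + 1) * 1 * ρ⁻¹ * ‖cf n f‖ := by gcongr
      _ = _ := by ring
  have hs0 : Summable fun n => g n s := by
    refine Summable.of_norm_bounded (summable_cf f) (fun n => ?_)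
    simp only [hg, norm_mul, norm_pow, Real.norm_eq_abs]
    have hy1 : |s / ρ| ≤ 1 := abs_div_rhoF_le hs.le hτ.2
    calc |s / ρ| ^ n * |a n| ≤ 1 * ‖cf n f‖ :=
          mul_le_mul (pow_le_one₀ (abs_nonneg _) hy1) (abs_ev_le _ _) (abs_nonneg _) zero_le_one
      _ = _ := one_mul _
  have key := hasDerivAt_tsum_of_isPreconnected (hsum.mul_left ρ⁻¹) isOpen_Ioo
    isPreconnected_Ioo hd hb hmem hs0 hmem
  have e1 : ∑' n, g' n s = fn (Dop irho f) τ s := by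
    have hs' : Summable fun n => g' n s :=
      Summable.of_norm_bounded (hsum.mul_left ρ⁻¹) (fun n => hb n s hmem)
    rw [hs'.tsum_eq_zero_add, fn_eq]
    have : g' 0 s = 0 := by simp [hg']
    rw [this, zero_add]
    refine tsum_congr fun k => ?_
    rw [cf_Dop, ev_smul, ev_mul, ev_irho hτ, xx_eq hs.le hτ.2]
    simp only [hg', Nat.add_sub_cancel, ha]
    push_cast
    ring
  rw [e1] at key
  refine key.congr_of_eventuallyEq ?_
  filter_upwards [isOpen_Ioo.mem_nhds hmem] with x hx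
  rw [fn_eq]
  refine tsum_congr fun k => ?_
  rw [xx_eq (abs_lt.2 hx).le hτ.2]

/-! ### P4g -/

/-- the evaluation functionals as a power series -/
def evalP : FormalMultilinearSeries ℝ ℝ (PS 0 ℝ →L[ℝ] ℝ) :=
  fun k => ContinuousMultilinearMap.mkPiRing ℝ (Fin k) (cfL k : PS 0 ℝ →L[ℝ] ℝ)

theorem norm_cfL_le (k : ℕ) : ‖(cfL k : PS 0 ℝ →L[ℝ] ℝ)‖ ≤ 1 :=
  LinearMap.mkContinuous_norm_le _ zero_le_one _

theorem evalP_radius : 1 ≤ evalP.radius := by
  have := evalP.le_radius_of_bound (r := 1) 1 (fun n => by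
    simp only [NNReal.coe_one, one_pow, mul_one]
    unfold evalP
    rw [ContinuousMultilinearMap.norm_mkPiRing]
    exact norm_cfL_le n)
  simpa using this

theorem evalP_ball : HasFPowerSeriesOnBall evalP.sum evalP 0 evalP.radius :=
  evalP.hasFPowerSeriesOnBall (lt_of_lt_of_le zero_lt_one evalP_radius)

theorem mem_eball {x : ℝ} (hx : |x| < 1) : x ∈ Metric.eball (0:ℝ) evalP.radius := by
  rw [Metric.mem_eball, edist_zero_right]
  refine lt_of_lt_of_le ?_ evalP_radius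
  rw [Real.enorm_eq_ofReal_abs, ENNReal.ofReal_lt_one]
  exact hx

theorem evalP_smooth : ContDiffOn ℝ ∞ evalP.sum (Ioo (-1) 1) := by
  have h2 := evalP_ball.analyticOnNhd
  have h3 : ContDiffOn ℝ ∞ evalP.sum (Metric.eball 0 evalP.radius) :=
    h2.contDiffOn Metric.isOpen_eball.uniqueDiffOn
  exact h3.mono fun x hx => mem_eball (abs_lt.2 hx)

theorem evalP_apply {x : ℝ} (hx : |x| < 1) (g : PS 0 ℝ) :
    evalP.sum x g = ∑' k, x ^ k * cf k g := by
  have h := evalP_ball.hasSum (y := x) (mem_eball hx)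
  have h2 := (ContinuousLinearMap.apply ℝ ℝ g).hasSum h
  rw [zero_add] at h2
  have h3 := h2.tsum_eq
  have e : (ContinuousLinearMap.apply ℝ ℝ g) (evalP.sum x) = evalP.sum x g := rfl
  rw [← e, ← h3]
  refine tsum_congr fun k => ?_
  simp [evalP, ContinuousMultilinearMap.mkPiRing_apply]

theorem fn_smooth {m : ℕ} (f : PS m CI)
    (h : ∀ r : ℝ, 0 < r → r < 20/17 → ContDiffOn ℝ ∞ (crv r f) (Ioo 0 1)) :
    ContDiffOn ℝ ∞ (fun p : ℝ × ℝ => fn f p.1 p.2) (Ioo 0 1 ×ˢ Ioo (-20/17) (20/17)) := by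
  rintro ⟨τ, s⟩ ⟨hτ, hs⟩
  have hs' : |s| < 20/17 := by
    rw [abs_lt]; constructor
    · have := hs.1; simp only at this ⊢; linarith
    · exact hs.2
  obtain ⟨r, hr1, hr2⟩ := exists_between hs'
  have hr0 : 0 < r := lt_of_le_of_lt (abs_nonneg _) hr1
  apply ContDiffAt.contDiffWithinAt
  have hopen : IsOpen (Ioo (0:ℝ) 1 ×ˢ Ioo (-r) r) := isOpen_Ioo.prod isOpen_Ioo
  have hmem : ((τ, s) : ℝ × ℝ) ∈ Ioo (0:ℝ) 1 ×ˢ Ioo (-r) r := ⟨hτ, abs_lt.1 hr1⟩
  have h1 : ContDiffOn ℝ ∞ (fun p : ℝ × ℝ => evalP.sum (p.2 / r)) (Ioo (0:ℝ) 1 ×ˢ Ioo (-r) r) := by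
    refine evalP_smooth.comp (contDiff_snd.div_const r).contDiffOn ?_
    rintro ⟨x, y⟩ ⟨hx, hy⟩
    have : |y / r| < 1 := by
      rw [abs_div, abs_of_pos hr0, div_lt_one hr0]; exact abs_lt.2 hy
    exact abs_lt.1 this
  have h2 : ContDiffOn ℝ ∞ (fun p : ℝ × ℝ => crv r f p.1) (Ioo (0:ℝ) 1 ×ˢ Ioo (-r) r) :=
    (h r hr0 hr2).comp contDiff_fst.contDiffOn (fun p hp => hp.1)
  have h3 := h1.clm_apply h2
  refine ((h3.congr ?_).contDiffAt (hopen.mem_nhds hmem))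
  rintro ⟨x, y⟩ ⟨hx, hy⟩
  simp only at hx hy ⊢
  have hy1 : |y| < r := abs_lt.2 hy
  have hyr : |y / r| < 1 := by
    rw [abs_div, abs_of_pos hr0, div_lt_one hr0]; exact hy1
  rw [evalP_apply hyr, fn_eq]
  refine tsum_congr fun k => ?_
  rw [cf_crv, xx_eq (by linarith) hx.2.le, xx_eq (by rw [abs_of_pos hr0]; exact hr2.le) hx.2.le,
    ← mul_assoc, ← mul_pow]
  congr 2
  have := (rhoF_pos x).ne'
  field_simp

end

end P4abP
end Pool.Agent.H858R2
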