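import Mathlib
import Pool.Agent.H858R2.P4Def

set_option autoImplicit false
set_option linter.all false
open scoped ContDiff
open Set

namespace Pool.Agent.H858R2.P4cdP

open Pool.Agent.H858R2

noncomputable section

theorem hd {f g : ℝ → ℝ} {a b x : ℝ} (h : HasDerivAt f a x) (hf : ∀ y, g y = f y) (hab : b = a) :
    HasDerivAt g b x := by
  have : g = f := funext hf
  subst this
  subst hab
  exact h

/-! ### coefficients of the constant part -/

/-- every coefficient is a constant multiple of `ρ^k` -/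
def Cn (f : PX) : Prop := ∃ a : ℕ → ℝ, ∀ k, ∀ x ∈ Icc (0:ℝ) 1, ev (cf k f) x = a k * rhoF x ^ k

theorem Cn_add {f g : PX} (hf : Cn f) (hg : Cn g) : Cn (f + g) := by
  obtain ⟨a, ha⟩ := hf
  obtain ⟨b, hb⟩ := hg
  refine ⟨fun k => a k + b k, fun k x hx => ?_⟩
  rw [cf_add, ev_add, ha k x hx, hb k x hx]; ring

theorem Cn_sub {f g : PX} (hf : Cn f) (hg : Cn g) : Cn (f - g) := by
  obtain ⟨a, ha⟩ := hf
  obtain ⟨b, hb⟩ := hg
  refine ⟨fun k => a k - b k, fun k x hx => ?_⟩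
  rw [cf_sub, ev_sub, ha k x hx, hb k x hx]; ring

theorem Cn_smul {f : PX} (c : ℝ) (hf : Cn f) : Cn (c • f) := by
  obtain ⟨a, ha⟩ := hf
  refine ⟨fun k => c * a k, fun k x hx => ?_⟩
  rw [cf_smul, ev_smul, ha k x hx]; ring

theorem ev_sum {ι : Type} (s : Finset ι) (g : ι → CI) (x : ℝ) :
    ev (∑ i ∈ s, g i) x = ∑ i ∈ s, ev (g i) x := map_sum (evH x) g s

theorem Cn_mul {f g : PX} (hf : Cn f) (hg : Cn g) : Cn (f * g) := by
  obtain ⟨a, ha⟩ := hf
  obtain ⟨b, hb⟩ := hg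
  refine ⟨fun k => ∑ p ∈ Finset.HasAntidiagonal.antidiagonal k, a p.1 * b p.2, fun k x hx => ?_⟩
  rw [cf_mul, ev_sum, Finset.sum_mul]
  refine Finset.sum_congr rfl fun p hp => ?_
  rw [ev_mul, ha _ x hx, hb _ x hx, ← Finset.HasAntidiagonal.mem_antidiagonal.1 hp, pow_add]; ring

theorem Cn_one : Cn 1 := by
  refine ⟨fun k => if k = 0 then 1 else 0, fun k x hx => ?_⟩
  rw [cf_one]
  by_cases h : k = 0
  · subst h; simp
  · simp [h]

theorem Cn_sX : Cn sX := by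
  refine ⟨fun k => if k = 1 then 1 else 0, fun k x hx => ?_⟩
  unfold sX
  rw [cf_sEl]
  by_cases h : k = 1
  · subst h; simp [ev_rho hx]
  · simp [h]

theorem Cn_UX0 : Cn UX0 := Cn_add Cn_one (Cn_smul _ Cn_sX)

theorem Cn_VX0 (δ : ℝ) : Cn (VX0 δ) := by
  unfold VX0
  rw [pow_two]
  exact Cn_sub (Cn_add (Cn_add (Cn_smul _ Cn_one) (Cn_smul _ Cn_sX))
    (Cn_smul _ (Cn_mul Cn_sX Cn_sX))) (Cn_smul _ (Cn_mul Cn_sX (Cn_sub Cn_one Cn_sX)))

theorem Cn_WX0 (δ : ℝ) : Cn (WX0 δ) := Cn_add (Cn_smul _ Cn_one) (Cn_smul _ Cn_sX)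

theorem Cn_deriv {f : PX} (hf : Cn f) (k : ℕ) {τ : ℝ} (hτ : τ ∈ Ioo (0:ℝ) 1) :
    HasDerivAt (fun x => (rhoF x)⁻¹ ^ k * ev (cf k f) x) 0 τ := by
  obtain ⟨a, ha⟩ := hf
  have h1 : (fun x => (rhoF x)⁻¹ ^ k * ev (cf k f) x) =ᶠ[nhds τ] fun _ => a k := by
    filter_upwards [Ioo_mem_nhds hτ.1 hτ.2] with x hx
    rw [ha k x ⟨hx.1.le, hx.2.le⟩, inv_pow]
    have := rhoF_pos x
    field_simp
  exact (hasDerivAt_const τ (a k)).congr_of_eventuallyEq h1

theorem rhoF_inv_deriv (k : ℕ) (τ : ℝ) :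
    HasDerivAt (fun x => (rhoF x)⁻¹ ^ k) ((k:ℝ) / 20 * (rhoF τ)⁻¹ ^ k) τ := by
  have h1 : HasDerivAt rhoF (-(1/20) * rhoF τ) τ := by
    unfold rhoF
    have h2 : HasDerivAt (fun x : ℝ => -x / 20) (-1 / 20) τ := by
      simpa using ((hasDerivAt_id τ).neg).div_const 20
    have h3 := (h2.exp).const_mul (5/4)
    exact hd h3 (fun y => rfl) (by ring)
  have h4 := (h1.inv (rhoF_pos τ).ne').pow k
  refine hd h4 (fun y => rfl) ?_
  have h5 := (rhoF_pos τ).ne'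
  rcases Nat.eq_zero_or_pos k with h | h
  · subst h; simp
  · obtain ⟨n, rfl⟩ : ∃ n, k = n + 1 := ⟨k - 1, by omega⟩
    rw [Nat.add_sub_cancel, pow_succ, Pi.inv_apply]
    field_simp

theorem TD_core (T : ℝ) (k : ℕ) (g F : CI) {τ : ℝ}
    (hg : HasDerivAt (fun x => ev g x) (-((k:ℝ) / 20) * ev g τ + ev F τ) τ) :
    HasDerivAt (fun x => (rhoF x)⁻¹ ^ k * (T * ev g x)) (T * ((rhoF τ)⁻¹ ^ k * ev F τ)) τ := by
  have h := (rhoF_inv_deriv k τ).mul (hg.const_mul T)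
  exact hd h (fun y => rfl) (by ring)

theorem TD_second {T : ℝ} (hT : 0 < T) {f0 u : PX} {F : PY} (h0 : Cn f0)
    (hu : u = SU T (F + 4 * Kop u)) : TD T (f0 + Jop u) F := by
  intro k τ hτ
  set g := DU (om T k) (om_nonneg T k) (cf k (F + 4 * Kop u)) with hg
  have hk : (0:ℝ) < (k:ℝ) + 1 := by positivity
  have h1 : cf k u = (((k : ℝ) + 1) * T) • g := by
    conv_lhs => rw [hu]
    rw [cf_SU, abs_of_pos hT]
  have h2 : cf k (Jop u) = T • g := by
    rw [cf_Jop, h1, smul_smul]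
    congr 1
    field_simp
  have h3 : cf k (F + 4 * Kop u) = cf k F + (4 * ((k:ℝ) + 1) ^ 2 * T) • g := by
    have e4 : (4 : PY) * Kop u = (4:ℝ) • Kop u := by
      have e5 : (4 : PY) = (4:ℝ) • (1 : PY) := by
        have e6 : (4 : PY) = 1 + 1 + 1 + 1 := by norm_num
        rw [e6, show (4:ℝ) = 1 + 1 + 1 + 1 by norm_num]
        simp only [add_smul, one_smul]
      rw [e5, smul_one_mul]
    rw [cf_add, e4, cf_smul, cf_Kop, h1, smul_smul, smul_smul]
    congr 2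
    ring
  have h4 := DU_deriv (om T k) (om_nonneg T k) (cf k (F + 4 * Kop u)) τ hτ
  rw [← hg] at h4
  have h5 : HasDerivAt (fun x => ev g x) (-((k:ℝ) / 20) * ev g τ + ev (cf k F) τ) τ := by
    refine hd h4 (fun y => rfl) ?_
    rw [h3, ev_add, ev_smul]
    unfold om
    rw [abs_of_pos hT]
    ring
  have h6 := (Cn_deriv h0 k hτ).add (TD_core T k g (cf k F) h5)
  refine hd h6 (fun x => ?_) (zero_add _).symm
  simp only [Pi.add_apply]
  rw [cf_add, ev_add, h2, ev_smul]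
  ring

theorem TD_first {T : ℝ} (hT : 0 < T) {f0 w : PX} {F : PY} (h0 : Cn f0)
    (hw : w = SW T F) : TD T (f0 + w) F := by
  intro k τ hτ
  set g := DU (omW k) (omW_nonneg k) (cf k F) with hg
  have h1 : cf k w = T • g := by
    conv_lhs => rw [hw]
    rw [cf_SW, abs_of_pos hT]
  have h4 := DU_deriv (omW k) (omW_nonneg k) (cf k F) τ hτ
  rw [← hg] at h4
  have h6 := (Cn_deriv h0 k hτ).add (TD_core T k g (cf k F) h4)
  refine hd h6 (fun x => ?_) (zero_add _).symm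
  simp only [Pi.add_apply]
  rw [cf_add, ev_add, h1, ev_smul]
  ring

/-! ## P4c : the integral equations give the coefficientwise evolution equations -/
theorem TD_of_FP {T δ : ℝ} {u v w : PX} (h : FP T δ u v w) :
    TD T (Uf u) (FUf δ u v w) ∧ TD T (Vf δ v) (FVf δ u v w) ∧ TD T (Wf δ w) (FWf δ u v w) :=
  ⟨TD_second h.Tpos Cn_UX0 h.eqU, TD_second h.Tpos (Cn_VX0 δ) h.eqV,
    TD_first h.Tpos (Cn_WX0 δ) h.eqW⟩

/-! ## P4d : time derivative of the curves -/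

/-- basis element -/
def bE (k : ℕ) : PS 0 ℝ :=
  PS.of (fun j => if j = k then 1 else 0) (summable_of_ne_finset_zero (s := {k}) (by
    intro j hj
    have : j ≠ k := by simpa using hj
    simp [this]))

theorem cf_bE (k j : ℕ) : cf j (bE k) = if j = k then 1 else 0 := cf_of _ _ j

theorem norm_bE (k : ℕ) : ‖bE k‖ = 1 := by
  rw [PS.norm_def, tsum_eq_single k]
  · simp [cf_bE]
  · intro j hj; simp [cf_bE, hj]

theorem hasSum_bE (g : PS 0 ℝ) : HasSum (fun k => cf k g • bE k) g := by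
  have hs : Summable (fun k => cf k g • bE k) := by
    apply Summable.of_norm
    refine (summable_cf g).congr fun k => ?_
    rw [norm_smul, norm_bE, mul_one]
  have h1 : (∑' k, cf k g • bE k) = g := by
    ext j
    have h2 : cf j (∑' k, cf k g • bE k) = ∑' k, cf j (cf k g • bE k) :=
      (cfL j : PS 0 ℝ →L[ℝ] ℝ).map_tsum hs
    rw [h2, tsum_eq_single j]
    · rw [cf_smul, cf_bE]; simp
    · intro k hk
      rw [cf_smul, cf_bE]; simp [hk.symm]
  rw [← h1]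
  conv => enter [1, k]; rw [h1]
  exact hs.hasSum

theorem cf_crv_eq {m : ℕ} {r τ : ℝ} (hr : |r| ≤ 20/17) (hτ : τ ∈ Ioo (0:ℝ) 1) (f : PS m CI)
    (k : ℕ) : cf k (crv r f τ) = r ^ k * ((rhoF τ)⁻¹ ^ k * ev (cf k f) τ) := by
  rw [cf_crv, xx_eq hr hτ.2.le, div_eq_mul_inv, mul_pow, mul_assoc]

theorem crv_deriv {m : ℕ} {T : ℝ} {f : PS m CI} {F : PY} (h : TD T f F) {r τ : ℝ}
    (hr : |r| ≤ 20/17) (hτ : τ ∈ Ioo (0:ℝ) 1) :
    HasDerivAt (crv r f) (T • crv r F τ) τ := by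
  have e1 : crv r f = fun z => ∑' k, cf k (crv r f z) • bE k := by
    ext1 z
    exact (hasSum_bE _).tsum_eq.symm
  have e2 : T • crv r F τ = ∑' k, (T * cf k (crv r F τ)) • bE k := by
    have := (hasSum_bE (T • crv r F τ)).tsum_eq.symm
    rw [this]
    refine tsum_congr fun k => ?_
    rw [cf_smul, smul_eq_mul]
  rw [e1, e2]
  have hu : Summable fun k => |T| * ‖cf k F‖ := (summable_cf F).mul_left _
  refine hasDerivAt_tsum_of_isPreconnected (t := Ioo (0:ℝ) 1)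
    (g := fun k z => cf k (crv r f z) • bE k)
    (g' := fun k z => (T * cf k (crv r F z)) • bE k) hu isOpen_Ioo isPreconnected_Ioo ?_ ?_ hτ
    (hasSum_bE _).summable hτ
  · intro k y hy
    have h1 := (h k y hy).const_mul (r ^ k)
    have h2 : HasDerivAt (fun x => cf k (crv r f x)) (T * cf k (crv r F y)) y := by
      have h3 : (fun x => cf k (crv r f x)) =ᶠ[nhds y]
          fun x => r ^ k * ((rhoF x)⁻¹ ^ k * ev (cf k f) x) := by
        filter_upwards [Ioo_mem_nhds hy.1 hy.2] with x hx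
        exact cf_crv_eq hr hx f k
      have h4 : T * cf k (crv r F y) = r ^ k * (T * ((rhoF y)⁻¹ ^ k * ev (cf k F) y)) := by
        rw [cf_crv_eq hr hy F k]; ring
      rw [h4]
      exact h1.congr_of_eventuallyEq h3
    exact h2.smul_const (bE k)
  · intro k y hy
    rw [norm_smul, norm_bE, mul_one, norm_mul, Real.norm_eq_abs]
    apply mul_le_mul_of_nonneg_left _ (abs_nonneg T)
    rw [cf_crv, norm_mul, norm_pow, Real.norm_eq_abs]
    have h1 : |xx r y| ^ k ≤ 1 := pow_le_one₀ (abs_nonneg _) (abs_xx_le r y)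
    have h2 : ‖ev (cf k F) y‖ ≤ ‖cf k F‖ := abs_ev_le _ y
    calc |xx r y| ^ k * ‖ev (cf k F) y‖ ≤ 1 * ‖cf k F‖ :=
          mul_le_mul h1 h2 (norm_nonneg _) zero_le_one
      _ = _ := one_mul _

/-- `sumHom` as a continuous linear map -/
def sumL : PS 0 ℝ →L[ℝ] ℝ :=
  LinearMap.mkContinuous (sumHom : PS 0 ℝ →ₐ[ℝ] ℝ).toLinearMap 1 (fun f => by
    show ‖sumHom f‖ ≤ 1 * ‖f‖
    rw [one_mul, sumHom_apply, PS.norm_def]
    refine (norm_tsum_le_tsum_norm (summable_cf f)).trans (le_of_eq ?_)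
    simp)

theorem sumL_apply (f : PS 0 ℝ) : sumL f = sumHom f := rfl

theorem fn_tderiv {m : ℕ} {T : ℝ} {f : PS m CI} {F : PY} (h : TD T f F) {s τ : ℝ}
    (hs : |s| ≤ 20/17) (hτ : τ ∈ Ioo (0:ℝ) 1) :
    HasDerivAt (fun x => fn f x s) (T * fn F τ s) τ := by
  have h1 := sumL.hasFDerivAt.comp_hasDerivAt τ (crv_deriv h hs hτ)
  have h2 : sumL (T • crv s F τ) = T * fn F τ s := by
    rw [map_smul, smul_eq_mul]; rfl
  rw [h2] at h1
  exact h1

end

end Pool.Agent.H858R2.P4cdP
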