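import Mathlib
import Pool.Agent.H858R2.P4cd

set_option autoImplicit false
set_option linter.all false
open scoped ContDiff
open Set

namespace Pool.Agent.H858R2

noncomputable section

theorem TD_of_FP {T δ : ℝ} {u v w : PX} (h : FP T δ u v w) :
    TD T (Uf u) (FUf δ u v w) ∧ TD T (Vf δ v) (FVf δ u v w) ∧ TD T (Wf δ w) (FWf δ u v w) :=
  P4cdP.TD_of_FP h

theorem crv_deriv {m : ℕ} {T : ℝ} {f : PS m CI} {F : PY} (h : TD T f F) {r τ : ℝ}
    (hr : |r| ≤ 20/17) (hτ : τ ∈ Ioo (0:ℝ) 1) :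
    HasDerivAt (crv r f) (T • crv r F τ) τ :=
  P4cdP.crv_deriv h hr hτ

theorem fn_tderiv {m : ℕ} {T : ℝ} {f : PS m CI} {F : PY} (h : TD T f F) {s τ : ℝ}
    (hs : |s| ≤ 20/17) (hτ : τ ∈ Ioo (0:ℝ) 1) :
    HasDerivAt (fun x => fn f x s) (T * fn F τ s) τ :=
  P4cdP.fn_tderiv h hs hτ

end

end Pool.Agent.H858R2
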