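import Mathlib
import Pool.Agent.H858R2.P4c

set_option autoImplicit false
set_option linter.all false
open scoped ContDiff
open Set

namespace Pool.Agent.H858R2.P4efP

open Pool.Agent.H858R2

noncomputable section

theorem succ_mul_pow_le {x : ℝ} (h0 : 0 ≤ x) (h1 : x < 1) (k : ℕ) :
    ((k : ℝ) + 1) * x ^ k ≤ 1 / (1 - x) := by
  have h2 : ∑ j ∈ Finset.range (k + 1), x ^ j ≤ 1 / (1 - x) := by
    rw [geom_sum_eq h1.ne, le_div_iff₀ (by linarith)]
    have h3 : 0 ≤ x ^ (k + 1) := pow_nonneg h0 _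
    have h4 : x - 1 ≠ 0 := by linarith
    have : (x ^ (k + 1) - 1) / (x - 1) * (1 - x) = 1 - x ^ (k + 1) := by
      field_simp
      ring
    rw [this]
    linarith
  refine le_trans ?_ h2
  calc ((k : ℝ) + 1) * x ^ k = ∑ j ∈ Finset.range (k + 1), x ^ k := by
        rw [Finset.sum_const, Finset.card_range, nsmul_eq_mul]; push_cast; ring
    _ ≤ _ := Finset.sum_le_sum fun j hj => by
        rw [Finset.mem_range] at hj
        exact pow_le_pow_of_le_one h0 h1.le (by omega)

/-! ## TARGET P4e : change of radius -/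
theorem radius_change {r r' : ℝ} (h0 : 0 < r) (h1 : r < r') (h2 : r' ≤ 20/17) :
    ∃ Rr Dr : PS 0 ℝ →L[ℝ] PS 0 ℝ,
      (∀ (m : ℕ) (f : PS m CI), ∀ τ ∈ Icc (0:ℝ) 1, crv r f τ = Rr (crv r' f τ)) ∧
      (∀ f : PX, ∀ τ ∈ Icc (0:ℝ) 1, crv r (Dop irho f) τ = Dr (crv r' f τ)) := by
  have hr' : 0 < r' := h0.trans h1
  have hq0 : 0 ≤ r / r' := by positivity
  have hq1 : r / r' < 1 := by rwa [div_lt_one hr']
  have hid := ContinuousLinearMap.norm_id_le (𝕜 := ℝ) (E := ℝ)
  have hb1 : ∀ k : ℕ, wt 0 k * ‖((r / r') ^ k) • ContinuousLinearMap.id ℝ ℝ‖ ≤ 1 * wt 0 (k + 0) := by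
    intro k
    rw [wt_zero_left, wt_zero_left, one_mul, mul_one, norm_smul, Real.norm_of_nonneg (by positivity)]
    have := pow_le_one₀ (n := k) hq0 hq1.le
    have h3 : 0 ≤ (r / r') ^ k := by positivity
    nlinarith [norm_nonneg (ContinuousLinearMap.id ℝ ℝ)]
  have hb2 : ∀ k : ℕ, wt 0 k * ‖(((k : ℝ) + 1) * (r / r') ^ k / r') • ContinuousLinearMap.id ℝ ℝ‖ ≤
      (1 / (1 - r / r') / r') * wt 0 (k + 1) := by
    intro k
    rw [wt_zero_left, wt_zero_left, one_mul, mul_one, norm_smul, Real.norm_of_nonneg (by positivity)]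
    have h4 : ((k : ℝ) + 1) * (r / r') ^ k / r' ≤ 1 / (1 - r / r') / r' :=
      div_le_div_of_nonneg_right (succ_mul_pow_le hq0 hq1 k) hr'.le
    have h3 : 0 ≤ ((k : ℝ) + 1) * (r / r') ^ k / r' := by positivity
    nlinarith [norm_nonneg (ContinuousLinearMap.id ℝ ℝ)]
  refine ⟨mkOp 0 0 0 _ _ hb1, mkOp 0 0 1 _ _ hb2, ?_, ?_⟩
  · intro m f τ hτ
    ext k
    rw [cf_mkOp, cf_crv, add_zero, cf_crv]
    rw [xx_eq (by rw [abs_of_pos h0]; linarith) hτ.2, xx_eq (by rw [abs_of_pos hr']; exact h2) hτ.2]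
    have hρ := (rhoF_pos τ).ne'
    simp only [ContinuousLinearMap.smul_apply, ContinuousLinearMap.id_apply, smul_eq_mul]
    rw [← mul_assoc, ← mul_pow]
    congr 2
    field_simp
  · intro f τ hτ
    ext k
    rw [cf_mkOp, cf_crv, cf_crv, cf_Dop]
    rw [xx_eq (by rw [abs_of_pos h0]; linarith) hτ.2, xx_eq (by rw [abs_of_pos hr']; exact h2) hτ.2]
    have hρ := (rhoF_pos τ).ne'
    simp only [ContinuousLinearMap.smul_apply, ContinuousLinearMap.id_apply, smul_eq_mul, ev_smul,
      ev_mul, ev_irho hτ]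
    rw [pow_succ, div_pow, div_pow, div_pow]
    field_simp

/-! ### relations between the derivatives -/

theorem irho_mul_rho : irho * rho = 1 := by rw [mul_comm, rho_mul_irho]

theorem cf_sX (k : ℕ) : cf k sX = if k = 1 then rho else 0 := cf_sEl 1 rho k

theorem cf_sX_mul_succ (f : PX) (k : ℕ) : cf (k + 1) (sX * f) = rho * cf k f :=
  cf_succ_sEl_mul rho f k

theorem cf_sX_mul_zero (f : PX) : cf 0 (sX * f) = 0 := cf_zero_sEl_mul rho f

theorem Dop_sX : Dop irho sX = 1 := by
  ext k : 1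
  rw [cf_Dop, cf_sX, cf_one]
  by_cases h : k = 0
  · subst h; simp [irho_mul_rho]
  · simp [h]

theorem Dop_one : Dop irho (1 : PX) = 0 := by
  ext k : 1
  rw [cf_Dop, cf_one, cf_zero]
  simp

theorem Dop_sX_sq : Dop irho (sX ^ 2) = (2:ℝ) • inc sX := by
  ext k : 1
  rw [cf_Dop, pow_two, cf_sX_mul_succ, cf_smul, cf_inc, cf_sX]
  by_cases h : k = 1
  · subst h
    simp only [if_true]
    rw [← mul_assoc, irho_mul_rho, one_mul]
    norm_num
  · simp [h]

theorem inc_sX : inc sX = sY := by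
  ext k : 1
  rw [cf_inc]
  unfold sX sY
  rw [cf_sEl, cf_sEl]

theorem Dop_sX_one_sub : Dop irho (sX * (1 - sX)) = 1 - (2:ℝ) • inc sX := by
  have : sX * (1 - sX) = sX - sX ^ 2 := by ring
  rw [this, map_sub, Dop_sX, Dop_sX_sq]

theorem Dop_Jop (f : PX) : Dop irho (Jop f) = inc (DJop irho f) := by
  ext k : 1
  rw [cf_Dop, cf_Jop, cf_inc, cf_DJop]
  rw [mul_smul_comm, smul_smul]
  congr 1
  push_cast
  have : (k : ℝ) + 1 + 1 = (k : ℝ) + 2 := by ring
  rw [this]
  rfl

theorem inc_smul (a : ℝ) (f : PX) : inc (a • f) = a • inc f := map_smul inc a f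

theorem Dop_Uf (u : PX) : Dop irho (Uf u) = inc (U1f u) := by
  unfold Uf U1f UX0 UX0'
  rw [map_add, map_add, map_smul, Dop_one, Dop_sX, Dop_Jop, map_add, inc_smul, map_one]
  simp

theorem Dop_U1f (u : PX) : Dop irho (U1f u) = U2f u := by
  unfold U1f U2f UX0'
  rw [map_add, map_smul, Dop_one]
  simp

theorem Dop_Vf (δ : ℝ) (v : PX) : Dop irho (Vf δ v) = inc (V1f δ v) := by
  unfold Vf V1f VX0 VX0'
  rw [map_add, map_sub, map_add, map_add, map_smul, map_smul, map_smul, map_smul, Dop_one, Dop_sX,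
    Dop_sX_sq, Dop_sX_one_sub, Dop_Jop]
  rw [map_add, map_sub, map_add, inc_smul, inc_smul, inc_smul, map_sub, map_one, inc_smul]
  rw [smul_zero, zero_add, smul_smul]
  norm_num

theorem Dop_V1f (δ : ℝ) (v : PX) : Dop irho (V1f δ v) = V2f δ v := by
  unfold V1f V2f VX0' VX0''
  rw [map_add, map_sub, map_add, map_smul, map_smul, map_smul, map_sub, map_smul, Dop_one, Dop_sX]
  rw [inc_smul, map_one, smul_zero, zero_add, zero_sub, smul_neg, sub_neg_eq_add, smul_smul,
    ← add_smul]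
  congr 2
  ring

theorem Dop_Wf (δ : ℝ) (w : PX) : Dop irho (Wf δ w) = W1f δ w := by
  unfold Wf W1f WX0 WX0'
  rw [map_add, map_add, map_smul, map_smul, Dop_one, Dop_sX, inc_smul, map_one, smul_zero, zero_add]

/-! ### smooth curves -/

/-- all curves of `f` are `C^n` -/
def SM (n : ℕ) {m : ℕ} (f : PS m CI) : Prop :=
  ∀ r : ℝ, 0 < r → r < 20/17 → ContDiffOn ℝ n (crv r f) (Ioo 0 1)

section SM
variable {n m : ℕ} {f g : PS m CI}

theorem SM.add (hf : SM n f) (hg : SM n g) : SM n (f + g) := by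
  intro r h0 h1
  have e : crv r (f + g) = fun τ => crv r f τ + crv r g τ := by
    funext τ; unfold crv; rw [map_add]
  rw [e]; exact (hf r h0 h1).add (hg r h0 h1)

theorem SM.sub (hf : SM n f) (hg : SM n g) : SM n (f - g) := by
  intro r h0 h1
  have e : crv r (f - g) = fun τ => crv r f τ - crv r g τ := by
    funext τ; unfold crv; rw [map_sub]
  rw [e]; exact (hf r h0 h1).sub (hg r h0 h1)

theorem SM.mul (hf : SM n f) (hg : SM n g) : SM n (f * g) := by
  intro r h0 h1
  have e : crv r (f * g) = fun τ => crv r f τ * crv r g τ := by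
    funext τ; unfold crv; rw [map_mul]
  rw [e]; exact (hf r h0 h1).mul (hg r h0 h1)

theorem SM.neg (hf : SM n f) : SM n (-f) := by
  intro r h0 h1
  have e : crv r (-f) = fun τ => -crv r f τ := by
    funext τ; unfold crv; rw [map_neg]
  rw [e]; exact (hf r h0 h1).neg

theorem SM.pow (hf : SM n f) (k : ℕ) : SM n (f ^ k) := by
  intro r h0 h1
  have e : crv r (f ^ k) = fun τ => crv r f τ ^ k := by
    funext τ; unfold crv; rw [map_pow]
  rw [e]; exact (hf r h0 h1).pow k

theorem SM.one : SM n (1 : PS m CI) := by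
  intro r h0 h1
  have e : crv r (1 : PS m CI) = fun _ => 1 := by
    funext τ; unfold crv; rw [map_one]
  rw [e]; exact contDiffOn_const

theorem SM.ofNat (k : ℕ) [k.AtLeastTwo] : SM n (OfNat.ofNat k : PS m CI) := by
  intro r h0 h1
  have e : crv r (OfNat.ofNat k : PS m CI) = fun _ => OfNat.ofNat k := by
    funext τ; unfold crv; rw [map_ofNat]
  rw [e]; exact contDiffOn_const

theorem SM.sEl : SM n (sEl m rho) := by
  intro r h0 h1
  refine ContDiffOn.congr (f := fun _ => Pool.Agent.H858R2.sEl 0 r) contDiffOn_const ?_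
  intro τ hτ
  exact crv_sEl (by rw [abs_of_pos h0]; exact h1.le) ⟨hτ.1.le, hτ.2.le⟩

theorem SM.incl {f : PX} (hf : SM n f) : SM n (inc f) := by
  intro r h0 h1
  have e : crv r (inc f) = crv r f := by
    funext τ; rw [crv_inc]
  rw [e]; exact hf r h0 h1

theorem SM.of_inc {f : PX} (hf : SM n (inc f)) : SM n f := by
  intro r h0 h1
  have e : crv r (inc f) = crv r f := by
    funext τ; rw [crv_inc]
  rw [← e]; exact hf r h0 h1

theorem SM.D {f : PX} (hf : SM n f) : SM n (Dop irho f) := by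
  intro r h0 h1
  set r' := (r + 20 / 17) / 2 with hr'
  have h2 : r < r' := by rw [hr']; linarith
  have h3 : r' < 20 / 17 := by rw [hr']; linarith
  obtain ⟨Rr, Dr, -, hD⟩ := radius_change h0 h2 h3.le
  refine ContDiffOn.congr (f := fun τ => Dr (crv r' f τ)) ?_ ?_
  · exact Dr.contDiff.comp_contDiffOn (hf r' (h0.trans h2) h3)
  · intro τ hτ
    exact hD f τ ⟨hτ.1.le, hτ.2.le⟩

theorem SM.inv (hu : IsUnit f) (hf : SM n f) : SM n (Ring.inverse f) := by
  intro r h0 h1
  obtain ⟨U, rfl⟩ := hu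
  have e : ∀ τ, crv r (Ring.inverse (U : PS m CI)) τ =
      Ring.inverse ((Units.map (crvH m r τ : PS m CI →* PS 0 ℝ) U : (PS 0 ℝ)ˣ) : PS 0 ℝ) := by
    intro τ
    rw [Ring.inverse_unit, Ring.inverse_unit]
    rfl
  have e2 : ∀ τ, ((Units.map (crvH m r τ : PS m CI →* PS 0 ℝ) U : (PS 0 ℝ)ˣ) : PS 0 ℝ) =
      crv r (U : PS m CI) τ := fun τ => rfl
  intro τ hτ
  have h2 : ContDiffAt ℝ n Ring.inverse (crv r (U : PS m CI) τ) := by
    rw [← e2 τ]
    exact contDiffAt_ringInverse ℝ _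
  have h3 := h2.comp_contDiffWithinAt τ (hf r h0 h1 τ hτ)
  refine h3.congr ?_ ?_
  · intro y _
    rw [e y, e2 y]; rfl
  · rw [e τ, e2 τ]; rfl
end SM

/-! ## TARGET P4f : smoothness of the curves. -/
theorem sm_all {T δ : ℝ} {u v w : PX} (h : FP T δ u v w) (n : ℕ) :
    SM n (Uf u) ∧ SM n (Vf δ v) ∧ SM n (Wf δ w) := by
  obtain ⟨tU, tV, tW⟩ := TD_of_FP h
  have hd : ∀ {f : PX} {F : PY}, TD T f F → ∀ r : ℝ, 0 < r → r < 20/17 → ∀ τ ∈ Ioo (0:ℝ) 1,
      HasDerivAt (crv r f) (T • crv r F τ) τ := fun ht r h0 h1 τ hτ =>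
    crv_deriv ht (by rw [abs_of_pos h0]; exact h1.le) hτ
  have hstep : ∀ (n : ℕ) {f : PX} {F : PY}, TD T f F → SM n F → SM (n + 1) f := by
    intro n f F ht hF r h0 h1
    have hh := hd ht r h0 h1
    have : ((n + 1 : ℕ) : WithTop ℕ∞) = (n : WithTop ℕ∞) + 1 := by push_cast; rfl
    rw [this, contDiffOn_succ_iff_deriv_of_isOpen isOpen_Ioo]
    refine ⟨fun τ hτ => (hh τ hτ).differentiableAt.differentiableWithinAt, ?_, ?_⟩
    · intro hω
      exact absurd hω (by simp)
    · refine ContDiffOn.congr (f := fun τ => T • crv r F τ) ((hF r h0 h1).const_smul T) ?_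
      intro τ hτ
      exact (hh τ hτ).deriv
  induction n with
  | zero =>
    have h0 : ∀ {f : PX} {F : PY}, TD T f F → SM 0 f := by
      intro f F ht r h0 h1
      rw [Nat.cast_zero, contDiffOn_zero]
      exact fun τ hτ => (hd ht r h0 h1 τ hτ).continuousAt.continuousWithinAt
    exact ⟨h0 tU, h0 tV, h0 tW⟩
  | succ n ih =>
    obtain ⟨iU, iV, iW⟩ := ih
    have iU1 : SM n (inc (U1f u)) := by rw [← Dop_Uf]; exact iU.D
    have iV1 : SM n (inc (V1f δ v)) := by rw [← Dop_Vf]; exact iV.D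
    have iW1 : SM n (W1f δ w) := by rw [← Dop_Wf]; exact iW.D
    have iU2 : SM n (U2f u) := by rw [← Dop_U1f]; exact iU1.of_inc.D
    have iV2 : SM n (V2f δ v) := by rw [← Dop_V1f]; exact iV1.of_inc.D
    have is : SM n sY := SM.sEl
    have isX : SM n sX := SM.sEl
    have iE : SM n (Ef δ u v w) := by
      unfold Ef
      simp only [cE]
      exact (((SM.one.sub isX).mul iU).add (isX.mul iV)).add ((isX.mul (SM.one.sub isX)).mul iW)
    have jU : SM n (inc (Uf u)) := iU.incl
    have jV : SM n (inc (Vf δ v)) := iV.incl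
    have jW : SM n (inc (Wf δ w)) := iW.incl
    have jiU : SM n (inc (Ring.inverse (Uf u))) := (SM.inv h.unitU iU).incl
    have jiV : SM n (inc (Ring.inverse (Vf δ v))) := (SM.inv h.unitV iV).incl
    have jiE : SM n (inc (Ring.inverse (Ef δ u v w))) := (SM.inv h.unitE iE).incl
    refine ⟨hstep n tU ?_, hstep n tV ?_, hstep n tW ?_⟩
    · unfold FUf
      generalize inc (Uf u) = U at *
      generalize inc (Vf δ v) = V at *
      generalize inc (Wf δ w) = W at *
      generalize inc (U1f u) = U1 at *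
      generalize inc (V1f δ v) = V1 at *
      generalize W1f δ w = W1 at *
      generalize U2f u = U2 at *
      generalize inc (Ring.inverse (Vf δ v)) = iVv at *
      generalize inc (Ring.inverse (Ef δ u v w)) = iEe at *
      simp only [fU, cE1, cQ]
      repeat' with_reducible first | assumption | apply SM.mul | apply SM.add | apply SM.sub | apply SM.neg | apply SM.pow | exact SM.one | exact SM.ofNat _
    · unfold FVf
      generalize inc (Uf u) = U at *
      generalize inc (Vf δ v) = V at *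
      generalize inc (Wf δ w) = W at *
      generalize inc (U1f u) = U1 at *
      generalize inc (V1f δ v) = V1 at *
      generalize W1f δ w = W1 at *
      generalize V2f δ v = V2 at *
      generalize inc (Ring.inverse (Uf u)) = iUu at *
      generalize inc (Ring.inverse (Ef δ u v w)) = iEe at *
      simp only [fV, cE1, cR]
      repeat' with_reducible first | assumption | apply SM.mul | apply SM.add | apply SM.sub | apply SM.neg | apply SM.pow | exact SM.one | exact SM.ofNat _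
    · unfold FWf
      generalize inc (Uf u) = U at *
      generalize inc (Vf δ v) = V at *
      generalize inc (Wf δ w) = W at *
      generalize inc (U1f u) = U1 at *
      generalize inc (V1f δ v) = V1 at *
      generalize W1f δ w = W1 at *
      generalize U2f u = U2 at *
      generalize V2f δ v = V2 at *
      generalize inc (Ring.inverse (Uf u)) = iUu at *
      generalize inc (Ring.inverse (Vf δ v)) = iVv at *
      generalize inc (Ring.inverse (Ef δ u v w)) = iEe at *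
      simp only [fW, a1, a2, b1, b2, kRF, kRH, cE1, cQ, cR, cQ1, cR1]
      repeat' with_reducible first | assumption | apply SM.mul | apply SM.add | apply SM.sub | apply SM.neg | apply SM.pow | exact SM.one | exact SM.ofNat _

theorem crv_smooth {T δ : ℝ} {u v w : PX} (h : FP T δ u v w) {r : ℝ} (h0 : 0 < r) (h1 : r < 20/17) :
    ContDiffOn ℝ ∞ (crv r (Uf u)) (Ioo 0 1) ∧ ContDiffOn ℝ ∞ (crv r (Vf δ v)) (Ioo 0 1) ∧
      ContDiffOn ℝ ∞ (crv r (Wf δ w)) (Ioo 0 1) :=
  ⟨contDiffOn_infty.2 fun n => (sm_all h n).1 r h0 h1,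
    contDiffOn_infty.2 fun n => (sm_all h n).2.1 r h0 h1,
    contDiffOn_infty.2 fun n => (sm_all h n).2.2 r h0 h1⟩

end

end Pool.Agent.H858R2.P4efP
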