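import Mathlib
import Pool.Agent.H858R2.P4ab
import Pool.Agent.H858R2.P4ef

set_option autoImplicit false
set_option linter.all false
open scoped ContDiff
open Set

namespace Pool.Agent.H858R2

noncomputable section

theorem fn_deriv (f : PX) {s τ : ℝ} (hs : |s| < 20/17) (hτ : τ ∈ Icc (0:ℝ) 1) :
    HasDerivAt (fun x => fn f τ x) (fn (Dop irho f) τ s) s :=
  P4abP.fn_deriv f hs hτ

theorem fn_cont {m : ℕ} (f : PS m CI) :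
    ContinuousOn (fun p : ℝ × ℝ => fn f p.1 p.2) (Icc 0 1 ×ˢ Icc (-20/17) (20/17)) :=
  P4abP.fn_cont f

theorem crv_smooth {T δ : ℝ} {u v w : PX} (h : FP T δ u v w) {r : ℝ} (h0 : 0 < r) (h1 : r < 20/17) :
    ContDiffOn ℝ ∞ (crv r (Uf u)) (Ioo 0 1) ∧ ContDiffOn ℝ ∞ (crv r (Vf δ v)) (Ioo 0 1) ∧
      ContDiffOn ℝ ∞ (crv r (Wf δ w)) (Ioo 0 1) :=
  P4efP.crv_smooth h h0 h1

theorem fn_smooth {m : ℕ} (f : PS m CI)
    (h : ∀ r : ℝ, 0 < r → r < 20/17 → ContDiffOn ℝ ∞ (crv r f) (Ioo 0 1)) :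
    ContDiffOn ℝ ∞ (fun p : ℝ × ℝ => fn f p.1 p.2) (Ioo 0 1 ×ˢ Ioo (-20/17) (20/17)) :=
  P4abP.fn_smooth f h

end

end Pool.Agent.H858R2
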