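import Mathlib
import Pool.Agent.H858R2.P3b
import Pool.Agent.H858R2.P4

set_option autoImplicit false
set_option linter.all false
open scoped ContDiff
open Set

namespace Pool.Agent.H858R2

noncomputable section

/-! ### derivatives of the state in the algebra -/

theorem Dop_sX : Dop irho sX = 1 := by
  ext k
  rw [cf_Dop, cf_one]
  unfold sX
  rw [cf_sEl]
  by_cases h : k = 0
  · subst h
    rw [if_pos rfl, if_pos rfl, mul_comm, rho_mul_irho]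
    simp
  · rw [if_neg (by omega), if_neg h, mul_zero, smul_zero]

theorem Dop_one : Dop irho (1 : PX) = 0 := by
  ext k
  rw [cf_Dop, cf_one, cf_zero, if_neg (by omega), mul_zero, smul_zero]

theorem Dop_sX_sq : Dop irho (sX ^ 2) = (2:ℝ) • sY := by
  ext k
  rw [cf_Dop, cf_sX_pow, cf_smul]
  unfold sY
  rw [cf_sEl]
  by_cases h : k = 1
  · subst h
    rw [if_pos rfl, if_pos rfl, pow_two]
    have : irho * (rho * rho) = rho := by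
      rw [← mul_assoc, mul_comm irho rho, rho_mul_irho, one_mul]
    rw [this]
    norm_num
  · rw [if_neg (by omega), if_neg h, mul_zero, smul_zero, smul_zero]

theorem Dop_Jop (f : PX) : Dop irho (Jop f) = inc (DJop irho f) := by
  ext k
  rw [cf_Dop, cf_Jop, cf_inc, cf_DJop, mul_smul_comm, smul_smul]
  congr 1
  push_cast
  have h1 : (k:ℝ) + 1 + 1 ≠ 0 := by positivity
  have h2 : (k:ℝ) + 2 ≠ 0 := by positivity
  field_simp
  ring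

theorem Dop_Uf (u : PX) : Dop irho (Uf u) = inc (U1f u) := by
  unfold Uf U1f UX0 UX0'
  rw [map_add, map_add, map_smul, Dop_one, Dop_sX, Dop_Jop, map_add, map_smul, map_one, zero_add]

theorem Dop_U1f (u : PX) : Dop irho (U1f u) = U2f u := by
  unfold U1f U2f UX0'
  rw [map_add, map_smul, Dop_one, smul_zero, zero_add]

theorem Dop_Vf (δ : ℝ) (v : PX) : Dop irho (Vf δ v) = inc (V1f δ v) := by
  unfold Vf V1f VX0 VX0'
  have e : sX * (1 - sX) = sX - sX ^ 2 := by ring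
  rw [e]
  simp only [map_add, map_sub, map_smul, Dop_one, Dop_sX, Dop_Jop, Dop_sX_sq, map_one, inc_sX,
    smul_zero, zero_add]
  congr 1
  rw [smul_smul, smul_sub, show (18963/125000*2:ℝ) = 18963/62500 by norm_num]

theorem Dop_V1f (δ : ℝ) (v : PX) : Dop irho (V1f δ v) = V2f δ v := by
  unfold V1f V2f VX0' VX0''
  simp only [map_add, map_sub, map_smul, Dop_one, Dop_sX, map_one, smul_zero, zero_add]
  congr 1
  rw [zero_sub, smul_neg, sub_neg_eq_add, smul_smul, ← add_smul]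
  congr 1
  ring

theorem Dop_Wf (δ : ℝ) (w : PX) : Dop irho (Wf δ w) = W1f δ w := by
  unfold Wf W1f WX0 WX0'
  rw [map_add, map_add, map_smul, map_smul, Dop_one, Dop_sX, map_smul, map_one, smul_zero, zero_add]

/-! ### the initial data as functions -/

theorem fn_UX0 {s τ : ℝ} (hs : |s| ≤ 20/17) (hτ : τ ∈ Icc (0:ℝ) 1) : fn UX0 τ s = U0 s := by
  unfold UX0 U0
  rw [fn_add, fn_one, fn_smul, fn_sX hs hτ]
theorem fn_VX0 (δ : ℝ) {s τ : ℝ} (hs : |s| ≤ 20/17) (hτ : τ ∈ Icc (0:ℝ) 1) :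
    fn (VX0 δ) τ s = V0 δ s := by
  unfold VX0 V0
  simp only [fn_add, fn_sub, fn_mul, fn_pow, fn_one, fn_smul, fn_sX hs hτ]
  ring
theorem fn_WX0 (δ : ℝ) {s τ : ℝ} (hs : |s| ≤ 20/17) (hτ : τ ∈ Icc (0:ℝ) 1) :
    fn (WX0 δ) τ s = W0 δ s := by
  unfold WX0 W0
  simp only [fn_add, fn_one, fn_smul, fn_sX hs hτ]
  ring
theorem fn_UX0' {s τ : ℝ} (hs : |s| ≤ 20/17) (hτ : τ ∈ Icc (0:ℝ) 1) : fn UX0' τ s = U0' := by
  unfold UX0' U0'
  simp only [fn_one, fn_smul]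
  ring
theorem fn_VX0' (δ : ℝ) {s τ : ℝ} (hs : |s| ≤ 20/17) (hτ : τ ∈ Icc (0:ℝ) 1) :
    fn (VX0' δ) τ s = V0' δ s := by
  unfold VX0' V0'
  simp only [fn_add, fn_sub, fn_one, fn_smul, fn_sX hs hτ]
  ring
theorem fn_WX0' (δ : ℝ) {s τ : ℝ} (hs : |s| ≤ 20/17) (hτ : τ ∈ Icc (0:ℝ) 1) :
    fn (WX0' δ) τ s = W0' δ := by
  unfold WX0' W0'
  simp only [fn_one, fn_smul]
  ring
theorem fn_VX0'' (δ : ℝ) {s τ : ℝ} (hs : |s| ≤ 20/17) (hτ : τ ∈ Icc (0:ℝ) 1) :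
    fn (VX0'' δ) τ s = V0'' δ := by
  unfold VX0'' V0''
  simp only [fn_one, fn_smul]
  ring

/-! ### inverses -/

theorem fn_inverse {f : PX} (hf : IsUnit f) (τ s : ℝ) :
    fn (Ring.inverse f) τ s = (fn f τ s)⁻¹ := by
  have h := Ring.mul_inverse_cancel f hf
  have h2 : fn f τ s * fn (Ring.inverse f) τ s = 1 := by rw [← fn_mul, h, fn_one]
  exact eq_inv_of_mul_eq_one_right h2

theorem fn_E (δ : ℝ) (u v w : PX) {s τ : ℝ} (hs : |s| ≤ 20/17) (hτ : τ ∈ Icc (0:ℝ) 1) :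
    fn (Ef δ u v w) τ s = cE s (fn (Uf u) τ s) (fn (Vf δ v) τ s) (fn (Wf δ w) τ s) := by
  unfold Ef cE
  simp only [fn_add, fn_sub, fn_mul, fn_one, fn_sX hs hτ]

theorem fn_num {m : ℕ} (n : ℕ) [n.AtLeastTwo] (τ s : ℝ) :
    fn (OfNat.ofNat n : PS m CI) τ s = OfNat.ofNat n := by
  unfold fn crv
  rw [map_ofNat, map_ofNat]

theorem fn_two {m : ℕ} (τ s : ℝ) : fn (2 : PS m CI) τ s = 2 := fn_num 2 τ s
theorem fn_three {m : ℕ} (τ s : ℝ) : fn (3 : PS m CI) τ s = 3 := fn_num 3 τ s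
theorem fn_four {m : ℕ} (τ s : ℝ) : fn (4 : PS m CI) τ s = 4 := fn_num 4 τ s
theorem fn_six {m : ℕ} (τ s : ℝ) : fn (6 : PS m CI) τ s = 6 := fn_num 6 τ s
theorem fn_eight {m : ℕ} (τ s : ℝ) : fn (8 : PS m CI) τ s = 8 := fn_num 8 τ s
theorem fn_ten {m : ℕ} (τ s : ℝ) : fn (10 : PS m CI) τ s = 10 := fn_num 10 τ s

theorem fn_sY {s τ : ℝ} (hs : |s| ≤ 20/17) (hτ : τ ∈ Icc (0:ℝ) 1) : fn sY τ s = s := by
  rw [← inc_sX, fn_inc, fn_sX hs hτ]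

theorem fn_FU {T δ : ℝ} {u v w : PX} (h : FP T δ u v w) {s τ : ℝ} (hs : |s| ≤ 20/17)
    (hτ : τ ∈ Icc (0:ℝ) 1) :
    fn (FUf δ u v w) τ s = fU s (fn (Uf u) τ s) (fn (Vf δ v) τ s) (fn (Wf δ w) τ s)
      (fn (U1f u) τ s) (fn (V1f δ v) τ s) (fn (W1f δ w) τ s) (fn (U2f u) τ s)
      (fn (Vf δ v) τ s)⁻¹ (cE s (fn (Uf u) τ s) (fn (Vf δ v) τ s) (fn (Wf δ w) τ s))⁻¹ := by
  rw [← fn_E δ u v w hs hτ, ← fn_inverse h.unitV, ← fn_inverse h.unitE]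
  unfold FUf fU cE1 cQ
  simp only [fn_add, fn_sub, fn_mul, fn_pow, fn_one, fn_neg, fn_inc, fn_sY hs hτ, fn_two, fn_three,
    fn_four, fn_six, fn_eight, fn_ten]

theorem fn_FV {T δ : ℝ} {u v w : PX} (h : FP T δ u v w) {s τ : ℝ} (hs : |s| ≤ 20/17)
    (hτ : τ ∈ Icc (0:ℝ) 1) :
    fn (FVf δ u v w) τ s = fV s (fn (Uf u) τ s) (fn (Vf δ v) τ s) (fn (Wf δ w) τ s)
      (fn (U1f u) τ s) (fn (V1f δ v) τ s) (fn (W1f δ w) τ s) (fn (V2f δ v) τ s)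
      (fn (Uf u) τ s)⁻¹ (cE s (fn (Uf u) τ s) (fn (Vf δ v) τ s) (fn (Wf δ w) τ s))⁻¹ := by
  rw [← fn_E δ u v w hs hτ, ← fn_inverse h.unitU, ← fn_inverse h.unitE]
  unfold FVf fV cE1 cR
  simp only [fn_add, fn_sub, fn_mul, fn_pow, fn_one, fn_neg, fn_inc, fn_sY hs hτ, fn_two, fn_three,
    fn_four, fn_six, fn_eight, fn_ten]

theorem fn_FW {T δ : ℝ} {u v w : PX} (h : FP T δ u v w) {s τ : ℝ} (hs : |s| ≤ 20/17)
    (hτ : τ ∈ Icc (0:ℝ) 1) :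
    fn (FWf δ u v w) τ s = fW s (fn (Uf u) τ s) (fn (Vf δ v) τ s) (fn (Wf δ w) τ s)
      (fn (U1f u) τ s) (fn (V1f δ v) τ s) (fn (W1f δ w) τ s) (fn (U2f u) τ s) (fn (V2f δ v) τ s)
      (fn (Uf u) τ s)⁻¹ (fn (Vf δ v) τ s)⁻¹
      (cE s (fn (Uf u) τ s) (fn (Vf δ v) τ s) (fn (Wf δ w) τ s))⁻¹ := by
  rw [← fn_E δ u v w hs hτ, ← fn_inverse h.unitU, ← fn_inverse h.unitV, ← fn_inverse h.unitE]
  unfold FWf fW kRF kRH a1 a2 b1 b2 cE1 cQ cR cQ1 cR1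
  simp only [fn_add, fn_sub, fn_mul, fn_pow, fn_one, fn_neg, fn_inc, fn_sY hs hτ, fn_two, fn_three,
    fn_four, fn_six, fn_eight, fn_ten]

end

end Pool.Agent.H858R2
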