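import Mathlib
import Pool.Agent.H858R2.P5

set_option autoImplicit false
set_option linter.all false
open scoped ContDiff Topology
open Set

namespace Pool.Agent.H858R2

noncomputable section

theorem Is_sub {s : ℝ} (hs : s ∈ Is) : |s| < 20/17 := by
  have h1 : -1/16 < s := hs.1
  have h2 : s < 17/16 := hs.2
  rw [abs_lt]
  constructor <;> linarith
theorem Icc_sub {s : ℝ} (hs : s ∈ Icc (0:ℝ) 1) : |s| < 20/17 := by
  have h1 := hs.1
  have h2 := hs.2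
  rw [abs_lt]
  constructor <;> linarith

/-- time rescaling -/
def fs {m : ℕ} (T : ℝ) (f : PS m CI) (t s : ℝ) : ℝ := fn f (t / T) s

theorem tau_mem {T t : ℝ} (hT : 0 < T) (ht : t ∈ Ico 0 T) : t / T ∈ Icc (0:ℝ) 1 :=
  ⟨div_nonneg ht.1 hT.le, by rw [div_le_one hT]; exact ht.2.le⟩
theorem tau_mem' {T t : ℝ} (hT : 0 < T) (ht : t ∈ Ioo 0 T) : t / T ∈ Ioo (0:ℝ) 1 :=
  ⟨div_pos ht.1 hT, by rw [div_lt_one hT]; exact ht.2⟩

theorem fs_deriv (f : PX) (T : ℝ) {t s : ℝ} (hT : 0 < T) (ht : t ∈ Ico 0 T) (hs : |s| < 20/17) :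
    HasDerivAt (fs T f t) (fs T (Dop irho f) t s) s := fn_deriv f hs (tau_mem hT ht)

theorem deriv_fs (f : PX) (T : ℝ) {t s : ℝ} (hT : 0 < T) (ht : t ∈ Ico 0 T) (hs : |s| < 20/17) :
    deriv (fs T f t) s = fs T (Dop irho f) t s := (fs_deriv f T hT ht hs).deriv

theorem fs_inc (T : ℝ) (f : PX) (t s : ℝ) : fs T (inc f) t s = fs T f t s := fn_inc f _ s

theorem deriv2_fs (f g : PX) (T : ℝ) {t s : ℝ} (hg : Dop irho f = inc g) (hT : 0 < T)
    (ht : t ∈ Ico 0 T) (hs : |s| < 20/17) :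
    deriv (deriv (fs T f t)) s = fs T (Dop irho g) t s := by
  have h : deriv (fs T f t) =ᶠ[𝓝 s] fs T g t := by
    have ho : IsOpen {x : ℝ | |x| < 20/17} := isOpen_lt continuous_abs continuous_const
    filter_upwards [ho.mem_nhds hs] with x hx
    rw [deriv_fs f T hT ht hx, hg, fs_inc]
  rw [h.deriv_eq, deriv_fs g T hT ht hs]

theorem fs_smooth {m : ℕ} (f : PS m CI) {T : ℝ} (hT : 0 < T)
    (h : ∀ r : ℝ, 0 < r → r < 20/17 → ContDiffOn ℝ ∞ (crv r f) (Ioo 0 1)) :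
    ContDiffOn ℝ ∞ (fun p : ℝ × ℝ => fs T f p.1 p.2) (Ioo 0 T ×ˢ Is) := by
  have h1 := fn_smooth f h
  have h2 : ContDiffOn ℝ ∞ (fun p : ℝ × ℝ => (p.1 / T, p.2)) (Ioo 0 T ×ˢ Is) := by
    apply ContDiff.contDiffOn
    fun_prop
  exact h1.comp h2 (fun p hp => ⟨tau_mem' hT hp.1, by
    have := abs_lt.1 (Is_sub hp.2)
    exact ⟨by simp only; linarith [this.1], this.2⟩⟩)

theorem fs_cont {m : ℕ} (f : PS m CI) {T : ℝ} (hT : 0 < T) :
    ContinuousOn (fun p : ℝ × ℝ => fs T f p.1 p.2) (Ico 0 T ×ˢ Icc 0 1) := by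
  have h1 := fn_cont f
  have h2 : ContinuousOn (fun p : ℝ × ℝ => (p.1 / T, p.2)) (Ico 0 T ×ˢ Icc 0 1) := by
    apply Continuous.continuousOn
    fun_prop
  have h3 : MapsTo (fun p : ℝ × ℝ => (p.1 / T, p.2)) (Ico 0 T ×ˢ Icc 0 1)
      (Icc 0 1 ×ˢ Icc (-20/17) (20/17)) := by
    intro p hp
    have h4 := abs_lt.1 (Icc_sub hp.2)
    have h5 : (-20/17 : ℝ) ≤ p.2 := by linarith [h4.1]
    have h6 : p.2 ≤ 20/17 := h4.2.le
    exact Set.mk_mem_prod (tau_mem hT hp.1) (Set.mem_Icc.2 ⟨h5, h6⟩)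
  have h7 := ContinuousOn.comp h1 h2 h3
  refine h7.congr ?_
  intro p hp
  rfl

theorem fs_tderiv {m : ℕ} {T : ℝ} {f : PS m CI} {F : PY} (hT : 0 < T) (h : TD T f F) {s t : ℝ}
    (hs : |s| < 20/17) (ht : t ∈ Ioo 0 T) :
    HasDerivAt (fun x => fs T f x s) (fs T F t s) t := by
  have h1 := fn_tderiv h hs.le (tau_mem' hT ht)
  have h2 : HasDerivAt (fun x : ℝ => x / T) (1 / T) t := (hasDerivAt_id t).div_const T
  have h3 := HasDerivAt.comp t h1 h2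
  refine h3.congr_deriv ?_
  unfold fs
  field_simp

theorem fn_zero_of {m : ℕ} {f : PS m CI} (h : ∀ k, ev (cf k f) 0 = 0) (s : ℝ) : fn f 0 s = 0 := by
  rw [fn_eq]
  simp [h]

theorem ev_SU_zero (T : ℝ) (f : PY) (k : ℕ) : ev (cf k (SU T f)) 0 = 0 := by
  rw [cf_SU, ev_smul, DU_zero, mul_zero]
theorem ev_SW_zero (T : ℝ) (f : PY) (k : ℕ) : ev (cf k (SW T f)) 0 = 0 := by
  rw [cf_SW, ev_smul, DU_zero, mul_zero]

theorem abs_fs_le {m : ℕ} (T : ℝ) (f : PS m CI) (t s : ℝ) : |fs T f t s| ≤ ‖f‖ := abs_fn_le f _ s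

theorem isSol_of_FP {T δ η : ℝ} {u v w : PX} (hu : ‖u‖ ≤ η) (hv : ‖v‖ ≤ η) (hw : ‖w‖ ≤ η)
    (h : FP T δ u v w) : IsSol T δ η (fs T (Uf u)) (fs T (Vf δ v)) (fs T (Wf δ w)) := by
  have hT := h.Tpos
  obtain ⟨tdU, tdV, tdW⟩ := TD_of_FP h
  have h0 : (0:ℝ) ∈ Icc (0:ℝ) 1 := ⟨le_rfl, zero_le_one⟩
  have z0 : (0:ℝ) / T = 0 := zero_div T
  -- derivatives
  have dU : ∀ t ∈ Ico 0 T, ∀ s : ℝ, |s| < 20/17 → deriv (fs T (Uf u) t) s = fs T (U1f u) t s := by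
    intro t ht s hs
    rw [deriv_fs _ T hT ht hs, Dop_Uf, fs_inc]
  have dV : ∀ t ∈ Ico 0 T, ∀ s : ℝ, |s| < 20/17 →
      deriv (fs T (Vf δ v) t) s = fs T (V1f δ v) t s := by
    intro t ht s hs
    rw [deriv_fs _ T hT ht hs, Dop_Vf, fs_inc]
  have dW : ∀ t ∈ Ico 0 T, ∀ s : ℝ, |s| < 20/17 →
      deriv (fs T (Wf δ w) t) s = fs T (W1f δ w) t s := by
    intro t ht s hs
    rw [deriv_fs _ T hT ht hs, Dop_Wf]
  have dU2 : ∀ t ∈ Ico 0 T, ∀ s : ℝ, |s| < 20/17 →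
      deriv (deriv (fs T (Uf u) t)) s = fs T (U2f u) t s := by
    intro t ht s hs
    rw [deriv2_fs _ _ T (Dop_Uf u) hT ht hs, Dop_U1f]
  have dV2 : ∀ t ∈ Ico 0 T, ∀ s : ℝ, |s| < 20/17 →
      deriv (deriv (fs T (Vf δ v) t)) s = fs T (V2f δ v) t s := by
    intro t ht s hs
    rw [deriv2_fs _ _ T (Dop_Vf δ v) hT ht hs, Dop_V1f]
  have sub : ∀ {t}, t ∈ Ioo 0 T → t ∈ Ico 0 T := fun ht => ⟨ht.1.le, ht.2⟩
  -- norms
  have nJu : ∀ f : PX, ‖f‖ ≤ η → ‖Jop f‖ ≤ η := by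
    intro f hf
    have := ContinuousLinearMap.le_of_opNorm_le Jop norm_Jop_le f
    linarith
  have nDJ : ∀ f : PX, ‖f‖ ≤ η → ‖DJop irho f‖ ≤ η := by
    intro f hf
    have := ContinuousLinearMap.le_of_opNorm_le (DJop irho)
      ((norm_DJop_le irho).trans norm_irho_le) f
    have h2 := norm_nonneg f
    linarith
  have nD : ∀ f : PX, ‖f‖ ≤ η → ‖Dop irho f‖ ≤ η := by
    intro f hf
    have := ContinuousLinearMap.le_of_opNorm_le (Dop irho)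
      ((norm_Dop_le irho).trans norm_irho_le) f
    have h2 := norm_nonneg f
    linarith
  refine
    { smU := fs_smooth _ hT fun r a b => (crv_smooth h a b).1
      smV := fs_smooth _ hT fun r a b => (crv_smooth h a b).2.1
      smW := fs_smooth _ hT fun r a b => (crv_smooth h a b).2.2
      eqU := ?_, eqV := ?_, eqW := ?_, init := ?_
      cU := fs_cont _ hT, cV := fs_cont _ hT, cW := fs_cont _ hT
      cU1 := ?_, cV1 := ?_, cW1 := ?_, cU2 := ?_, cV2 := ?_, close := ?_ }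
  · intro t ht s hs
    have hs' := Is_sub hs
    rw [dU t (sub ht) s hs', dV t (sub ht) s hs', dW t (sub ht) s hs', dU2 t (sub ht) s hs']
    have e := fn_FU h hs'.le (tau_mem hT (sub ht))
    exact (fs_tderiv hT tdU hs' ht).congr_deriv e
  · intro t ht s hs
    have hs' := Is_sub hs
    rw [dU t (sub ht) s hs', dV t (sub ht) s hs', dW t (sub ht) s hs', dV2 t (sub ht) s hs']
    have e := fn_FV h hs'.le (tau_mem hT (sub ht))
    exact (fs_tderiv hT tdV hs' ht).congr_deriv e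
  · intro t ht s hs
    have hs' := Is_sub hs
    rw [dU t (sub ht) s hs', dV t (sub ht) s hs', dW t (sub ht) s hs', dU2 t (sub ht) s hs',
      dV2 t (sub ht) s hs']
    have e := fn_FW h hs'.le (tau_mem hT (sub ht))
    exact (fs_tderiv hT tdW hs' ht).congr_deriv e
  · intro s hs
    have hs' := (Is_sub hs).le
    have eu : ∀ k, ev (cf k u) 0 = 0 := by intro k; rw [h.eqU]; exact ev_SU_zero _ _ _
    have ev' : ∀ k, ev (cf k v) 0 = 0 := by intro k; rw [h.eqV]; exact ev_SU_zero _ _ _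
    have ew : ∀ k, ev (cf k w) 0 = 0 := by intro k; rw [h.eqW]; exact ev_SW_zero _ _ _
    refine ⟨?_, ?_, ?_⟩
    · unfold fs Uf
      rw [z0, fn_add, fn_UX0 hs' h0, fn_zero_of (fun k => by rw [cf_Jop, ev_smul, eu, mul_zero]),
        add_zero]
    · unfold fs Vf
      rw [z0, fn_add, fn_VX0 δ hs' h0, fn_zero_of (fun k => by rw [cf_Jop, ev_smul, ev', mul_zero]),
        add_zero]
    · unfold fs Wf
      rw [z0, fn_add, fn_WX0 δ hs' h0, fn_zero_of ew, add_zero]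
  · exact (fs_cont (U1f u) hT).congr fun p hp => dU p.1 hp.1 p.2 (Icc_sub hp.2)
  · exact (fs_cont (V1f δ v) hT).congr fun p hp => dV p.1 hp.1 p.2 (Icc_sub hp.2)
  · exact (fs_cont (W1f δ w) hT).congr fun p hp => dW p.1 hp.1 p.2 (Icc_sub hp.2)
  · exact (fs_cont (U2f u) hT).congr fun p hp => dU2 p.1 hp.1 p.2 (Icc_sub hp.2)
  · exact (fs_cont (V2f δ v) hT).congr fun p hp => dV2 p.1 hp.1 p.2 (Icc_sub hp.2)
  · intro t ht s hs
    have hs' := Icc_sub hs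
    have hτ := tau_mem hT (sub ht)
    rw [dU t (sub ht) s hs', dV t (sub ht) s hs', dW t (sub ht) s hs', dU2 t (sub ht) s hs',
      dV2 t (sub ht) s hs']
    unfold fs Uf Vf Wf U1f V1f W1f U2f V2f
    rw [fn_add, fn_add, fn_add, fn_add, fn_add, fn_add, fn_add, fn_inc, fn_inc,
      fn_UX0 hs'.le hτ, fn_VX0 δ hs'.le hτ, fn_WX0 δ hs'.le hτ, fn_UX0' hs'.le hτ,
      fn_VX0' δ hs'.le hτ, fn_WX0' δ hs'.le hτ, fn_VX0'' δ hs'.le hτ]
    simp only [add_sub_cancel_left]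
    exact ⟨(abs_fn_le _ _ _).trans (nJu u hu), (abs_fn_le _ _ _).trans (nJu v hv),
      (abs_fn_le _ _ _).trans hw, (abs_fn_le _ _ _).trans (nDJ u hu),
      (abs_fn_le _ _ _).trans (nDJ v hv), (abs_fn_le _ _ _).trans (nD w hw),
      (abs_fn_le _ _ _).trans (nD _ (nDJ u hu)), (abs_fn_le _ _ _).trans (nD _ (nDJ v hv))⟩

/-- Short-time existence. -/
theorem pde_exists (η : ℝ) (hη : 0 < η) : ∃ T > 0, ∃ δ₀ > 0, ∀ δ, 0 ≤ δ → δ ≤ δ₀ →
    ∃ U V W : ℝ → ℝ → ℝ, IsSol T δ η U V W := by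
  obtain ⟨T, hT, δ₀, hδ₀, H⟩ := fp_exists' η hη
  refine ⟨T, hT, δ₀, hδ₀, fun δ h0 h1 => ?_⟩
  obtain ⟨u, v, w, hu, hv, hw, h⟩ := H δ h0 h1
  exact ⟨_, _, _, isSol_of_FP hu hv hw h⟩

end

end Pool.Agent.H858R2
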