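import Mathlib
import Pool.Agent.H858R2.P6
import Pool.Agent.H858R2.Fin
import Pool.Agent.H858R2.Max

set_option autoImplicit false
set_option linter.all false
open scoped ContDiff Manifold Topology Matrix
open Set

namespace Pool.Agent.H858R2

open Pool.Agent.QTot

theorem ctarget_univ (e : OpenPartialHomeomorph S5 (En 5)) (he : e ∈ atlas (En 5) S5) (y : Eu 5) :
    y ∈ ctarget e := by
  have h := (chart_pkg e he).1
  show WithLp.toLp 2 y ∈ e.target
  rw [h]
  exact mem_univ _

/-- positivity only depends on the metric in the charts -/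
theorem PosSecond_congr {g g' : Metric 5 S5}
    (h : ∀ e ∈ atlas (En 5) S5, ∀ y ∈ ctarget e, g'.G e y = g.G e y) :
    PosSecond g' ↔ PosSecond g := by
  have h2 : ∀ e ∈ atlas (En 5) S5, g'.G e = g.G e := fun e he =>
    funext fun y => h e he y (ctarget_univ e he y)
  unfold PosSecond
  constructor
  · intro H e he
    have := H e he
    rw [h2 e he] at this
    exact this
  · intro H e he
    have := H e he
    rw [h2 e he]
    exact this

/-- Positivity of the curvature operator of the second kind is not preserved by the Ricci flow on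
the closed manifold `S⁵`. -/
theorem not_preserved : ∃ (T : EReal) (g : ℝ → Metric 5 S5), MaximalRicciFlow T g ∧
    PosSecond (g 0) ∧ ∃ t : ℝ, 0 < t ∧ (t : EReal) < T ∧ ¬ PosSecond (g t) := by
  obtain ⟨T, g, hT, hg, h0, t, ht, hn⟩ := main_of (fun η hη => pde_exists η hη)
  obtain ⟨T', g', hmax, hle, heq⟩ := exists_maximal T g hT hg
  refine ⟨T', g', hmax, ?_, t, ht.1, ?_, ?_⟩
  · exact (PosSecond_congr (heq 0 ⟨le_rfl, hT⟩)).2 h0
  · exact lt_of_lt_of_le (EReal.coe_lt_coe_iff.2 ht.2) hle
  · rw [PosSecond_congr (heq t ⟨ht.1.le, ht.2⟩)]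
    exact hn

end Pool.Agent.H858R2
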