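import Mathlib
import Pool.Agent.H858R2.G4b
import Pool.Agent.H858R2.G4m

set_option autoImplicit false
set_option linter.all false
open scoped ContDiff Manifold Topology Matrix
open Set Filter

/-! Sanity check of the definitions of `Defs.lean`: on the round sphere `S⁵` of curvature `1` the
curvature operator of the second kind is the identity on traceless symmetric tensors. -/

namespace Pool.Agent.H858R2.Round

open Pool.Agent.QTot Pool.Agent.H858R2 Pool.Agent.H858R2.G4b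

theorem form_one (g : Fin 5 → ℝ) (Φ : Mt 5) (hΦ : Φ.IsSymm)
    (htr : ∑ a, g a * Φ a a = 0) :
    ∑ a, ∑ b, KM 1 1 1 1 1 a b * g a * g b * (Φ a b * Φ b a - Φ a a * Φ b b) =
      ∑ a, ∑ b, g a * g b * Φ a b ^ 2 := by
  have h1 : ∀ a b, KM 1 1 1 1 1 a b * g a * g b * (Φ a b * Φ b a - Φ a a * Φ b b) =
      g a * g b * Φ a b ^ 2 - (g a * Φ a a) * (g b * Φ b b) := by
    intro a b
    have hs := hΦ.apply a b
    rw [hs]
    by_cases h : a = b
    · subst h
      simp [KM]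
      ring
    · have : KM 1 1 1 1 1 a b = 1 := by
        unfold KM
        rw [if_neg h]
        split_ifs <;> rfl
      rw [this]
      ring
  simp only [h1, Finset.sum_sub_distrib, ← Finset.mul_sum, htr, mul_zero, Finset.sum_const_zero,
    sub_zero]

section good
variable {u v w : ℝ → ℝ} (hu : SmI u) (hv : SmI v) (hw : SmI w)
    (hpos : ∀ s ∈ Icc (0:ℝ) 1, 0 < u s ∧ 0 < v s ∧ 0 ≤ w s)
include hu hv hw hpos

theorem good_eq 
    (hc : ∀ s ∈ Icc (0:ℝ) 1, rfS u v w s = 1 ∧ ffS u v w s = 1 ∧ rhS u v w s = 1 ∧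
      hhS u v w s = 1 ∧ fhS u v w s = 1)
    (g : Metric 5 S5) (e : OpenPartialHomeomorph S5 (En 5)) (he : e ∈ atlas (En 5) S5)
    (hg : g.G e = pullA (Pinv e) u v w) {y : Eu 5} (h0 : 0 < sz (Pinv e y))
    (h1 : sz (Pinv e y) < 1) (Ψ : Mt 5) (hΨ : Ψ.IsSymm) (htr : (g.G e y * Ψ).trace = 0) :
    Q2 (fun a b c d => R4 (g.G e) a b c d y) Ψ = (g.G e y * Ψ * (g.G e y * Ψ)).trace := by
  obtain ⟨χ, r, hr0, hr1, hr2, hχ, hχy, hJ, hpull⟩ := chart_pull e he y h0 h1
  have hp := hpull u v w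
  rw [← hg] at hp
  have hu' := ctarget_univ he
  have hG : ∀ i j, ContDiffAt ℝ ∞ (fun x => g.G e x i j) (χ (pt r)) := by
    intro i j
    have := g.smooth e he i j
    rw [hu'] at this
    exact (contDiffOn_univ.1 this).contDiffAt
  have hPD : ∀ x, (g.G e x).PosDef := fun x => g.posDef e he x (by rw [hu']; trivial)
  have hsym : ∀ x, (g.G e x).IsSymm := by
    intro x
    have := (hPD x).isHermitian
    rwa [Matrix.IsHermitian, Matrix.conjTranspose_eq_transpose_of_trivial] at this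
  have hd : (g.G e (χ (pt r))).det ≠ 0 := (hPD _).det_pos.ne'
  set J := Jac χ (pt r) with hJdef
  have hJu : IsUnit J.det := isUnit_iff_ne_zero.2 hJ
  set Φ : Mt 5 := J⁻¹ * Ψ * (J⁻¹)ᵀ with hΦdef
  have hΦΨ : J * Φ * Jᵀ = Ψ := by
    have e1 : (J⁻¹)ᵀ * Jᵀ = 1 := by
      rw [← Matrix.transpose_mul, Matrix.mul_nonsing_inv _ hJu, Matrix.transpose_one]
    calc J * Φ * Jᵀ = (J * J⁻¹) * Ψ * ((J⁻¹)ᵀ * Jᵀ) := by
          rw [hΦdef]; simp only [Matrix.mul_assoc]
      _ = Ψ := by rw [Matrix.mul_nonsing_inv _ hJu, e1, Matrix.one_mul, Matrix.mul_one]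
  have hΦs : Φ.IsSymm := by
    unfold Matrix.IsSymm
    rw [hΦdef, Matrix.transpose_mul, Matrix.transpose_mul, Matrix.transpose_transpose, hΨ.eq,
      Matrix.mul_assoc]
  set D := DG (Er u v w) (Fr u) (Hr v) (pt r) with hD
  have hDJ : Jᵀ * g.G e y * J = D := by
    have := hp.eq_of_nhds
    unfold pull at this
    rw [hχy] at this
    exact this
  have t1 : (g.G e y * Ψ).trace = (D * Φ).trace := by
    rw [← hΦΨ, ← hDJ]
    calc (g.G e y * (J * Φ * Jᵀ)).trace = ((g.G e y * J * Φ) * Jᵀ).trace := by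
          simp only [Matrix.mul_assoc]
      _ = (Jᵀ * (g.G e y * J * Φ)).trace := Matrix.trace_mul_comm _ _
      _ = _ := by simp only [Matrix.mul_assoc]
  have t2 : (g.G e y * Ψ * (g.G e y * Ψ)).trace = (D * Φ * (D * Φ)).trace := by
    rw [← hΦΨ, ← hDJ]
    calc (g.G e y * (J * Φ * Jᵀ) * (g.G e y * (J * Φ * Jᵀ))).trace
        = ((g.G e y * J * Φ * Jᵀ * g.G e y * J * Φ) * Jᵀ).trace := by
          simp only [Matrix.mul_assoc]
      _ = (Jᵀ * (g.G e y * J * Φ * Jᵀ * g.G e y * J * Φ)).trace := Matrix.trace_mul_comm _ _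
      _ = _ := by simp only [Matrix.mul_assoc]
  have hDd : D = Matrix.diagonal (fun i => dgv (Er u v w) (Fr u) (Hr v) i (pt r)) := rfl
  obtain ⟨pE, pF, pH⟩ := pos_r hu hv hw hpos hr0 hr1
  have hgp : ∀ i, 0 < dgv (Er u v w) (Fr u) (Hr v) i (pt r) := dgv_pos pE pF pH
  have hs : Real.sin r ^ 2 ∈ Icc (0:ℝ) 1 := ⟨sq_nonneg _, Real.sin_sq_le_one r⟩
  have t3 : ∑ a, dgv (Er u v w) (Fr u) (Hr v) a (pt r) * Φ a a = 0 := by
    rw [← htr, t1, hDd]
    simp [Matrix.trace, Matrix.diagonal_mul]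
  have t4 : (D * Φ * (D * Φ)).trace = ∑ a, ∑ b, dgv (Er u v w) (Fr u) (Hr v) a (pt r) *
      dgv (Er u v w) (Fr u) (Hr v) b (pt r) * Φ a b ^ 2 := by
    have hm : ∀ a b, (D * Φ) a b = dgv (Er u v w) (Fr u) (Hr v) a (pt r) * Φ a b := by
      intro a b
      rw [hDd, Matrix.diagonal_mul]
    have ht : (D * Φ * (D * Φ)).trace = ∑ a, ∑ b, (D * Φ) a b * (D * Φ) b a := by
      simp only [Matrix.trace, Matrix.diag_apply]
      refine Finset.sum_congr rfl fun a _ => ?_
      rw [Matrix.mul_apply]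
    rw [ht]
    refine Finset.sum_congr rfl fun a _ => Finset.sum_congr rfl fun b _ => ?_
    rw [hm, hm, hΦs.apply a b]
    ring
  have main := form_one (fun i => dgv (Er u v w) (Fr u) (Hr v) i (pt r)) Φ hΦs t3
  rw [t2, t4]
  have q1 := Q2_pull hχ hJ hG (Filter.Eventually.of_forall hsym) hd Φ
  rw [hχy, ← hJdef, hΦΨ] at q1
  rw [← q1]
  have q2 : (fun a b c d => R4 (pull χ (g.G e)) a b c d (pt r)) =
      (fun a b c d => R4 (DG (Er u v w) (Fr u) (Hr v)) a b c d (pt r)) := by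
    funext a b c d
    exact R4_congr hp a b c d
  rw [q2, Q2_DG hu hv hw hpos hr0 hr1]
  obtain ⟨k1, k2, k3, k4, k5⟩ := hc _ hs
  rw [k1, k2, k3, k4, k5]
  exact main

end good

section final
variable {u v w : ℝ → ℝ} (hu : SmI u) (hv : SmI v) (hw : SmI w)
    (hpos : ∀ s ∈ Icc (0:ℝ) 1, 0 < u s ∧ 0 < v s ∧ 0 ≤ w s)
include hu hv hw hpos

theorem all_eq 
    (hc : ∀ s ∈ Icc (0:ℝ) 1, rfS u v w s = 1 ∧ ffS u v w s = 1 ∧ rhS u v w s = 1 ∧
      hhS u v w s = 1 ∧ fhS u v w s = 1)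
    (g : Metric 5 S5) (e : OpenPartialHomeomorph S5 (En 5)) (he : e ∈ atlas (En 5) S5)
    (hg : g.G e = pullA (Pinv e) u v w) (y : Eu 5) (Ψ : Mt 5) (hΨ : Ψ.IsSymm)
    (htr : (g.G e y * Ψ).trace = 0) :
    Q2 (fun a b c d => R4 (g.G e) a b c d y) Ψ = (g.G e y * Ψ * (g.G e y * Ψ)).trace := by
  have hu' := ctarget_univ he
  have hG : ∀ x, ∀ i j, ContDiffAt ℝ ∞ (fun x => g.G e x i j) x := by
    intro x i j
    have := g.smooth e he i j
    rw [hu'] at this
    exact (contDiffOn_univ.1 this).contDiffAt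
  have hPD : ∀ x, (g.G e x).PosDef := fun x => g.posDef e he x (by rw [hu']; trivial)
  have hsym : ∀ x, (g.G e x).IsSymm := by
    intro x
    have := (hPD x).isHermitian
    rwa [Matrix.IsHermitian, Matrix.conjTranspose_eq_transpose_of_trivial] at this
  have hd : ∀ x, (g.G e x).det ≠ 0 := fun x => (hPD _).det_pos.ne'
  have hinvsym : ∀ x, ((g.G e x)⁻¹).IsSymm := by
    intro x
    unfold Matrix.IsSymm
    rw [Matrix.transpose_nonsing_inv, (hsym x).eq]
  -- continuity of all the ingredients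
  have cR : ∀ a b c d, Continuous (R4 (g.G e) a b c d) := fun a b c d =>
    continuous_iff_continuousAt.2 fun x => R4_cont (hG x) (hd x) a b c d
  have cG : ∀ i j, Continuous (fun x => g.G e x i j) := fun i j =>
    continuous_iff_continuousAt.2 fun x => (hG x i j).continuousAt
  have cI : ∀ i j, Continuous (fun x => (g.G e x)⁻¹ i j) := fun i j =>
    continuous_iff_continuousAt.2 fun x =>
      (N2.inv_smooth (k := 0) (fun i j => contDiffAt_infty.1 (hG x i j) 0) (hd x) i j).continuousAt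
  have cT : Continuous (fun x => (g.G e x * Ψ).trace) := by
    simp only [Matrix.trace, Matrix.diag_apply, Matrix.mul_apply]
    exact continuous_finsetSum _ fun i _ => continuous_finsetSum _ fun j _ =>
      (cG i j).mul continuous_const
  let Ψ' : Eu 5 → Mt 5 := fun x => Ψ - ((g.G e x * Ψ).trace / 5) • (g.G e x)⁻¹
  have cP : ∀ i j, Continuous (fun x => Ψ' x i j) := by
    intro i j
    simp only [Ψ', Matrix.sub_apply, Matrix.smul_apply, smul_eq_mul]
    exact continuous_const.sub ((cT.div_const _).mul (cI i j))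
  have cQ : Continuous (fun x => Q2 (fun a b c d => R4 (g.G e) a b c d x) (Ψ' x)) := by
    unfold Q2
    exact continuous_finsetSum _ fun a _ => continuous_finsetSum _ fun b _ =>
      continuous_finsetSum _ fun c _ => continuous_finsetSum _ fun d _ =>
      ((cR a b c d).mul (cP a c)).mul (cP b d)
  have cN : Continuous (fun x => (g.G e x * Ψ' x * (g.G e x * Ψ' x)).trace) := by
    have hm : ∀ i j, Continuous (fun x => (g.G e x * Ψ' x) i j) := by
      intro i j
      simp only [Matrix.mul_apply]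
      exact continuous_finsetSum _ fun k _ => (cG i k).mul (cP k j)
    have : ∀ x, (g.G e x * Ψ' x * (g.G e x * Ψ' x)).trace =
        ∑ i, ∑ j, (g.G e x * Ψ' x) i j * (g.G e x * Ψ' x) j i := by
      intro x
      simp only [Matrix.trace, Matrix.diag_apply]
      refine Finset.sum_congr rfl fun a _ => ?_
      rw [Matrix.mul_apply]
    simp only [this]
    exact continuous_finsetSum _ fun i _ => continuous_finsetSum _ fun j _ => (hm i j).mul (hm j i)
  have hcl : IsClosed {x | Q2 (fun a b c d => R4 (g.G e) a b c d x) (Ψ' x) =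
      (g.G e x * Ψ' x * (g.G e x * Ψ' x)).trace} := isClosed_eq cQ cN
  have hden := good_dense e he
  have hsub : {x : Eu 5 | 0 < sz (Pinv e x) ∧ sz (Pinv e x) < 1} ⊆
      {x | Q2 (fun a b c d => R4 (g.G e) a b c d x) (Ψ' x) =
      (g.G e x * Ψ' x * (g.G e x * Ψ' x)).trace} := by
    rintro x ⟨h0, h1⟩
    refine good_eq hu hv hw hpos hc g e he hg h0 h1 (Ψ' x) ?_ ?_
    · simp only [Ψ']
      exact hΨ.sub ((hinvsym x).smul _)
    · simp only [Ψ']
      rw [Matrix.mul_sub, Matrix.mul_smul, Matrix.mul_nonsing_inv _ (isUnit_iff_ne_zero.2 (hd x)),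
        Matrix.trace_sub, Matrix.trace_smul, Matrix.trace_one]
      simp
  have hall := hcl.closure_subset_iff.2 hsub
  rw [hden.closure_eq] at hall
  have := hall (mem_univ y)
  simp only [mem_setOf_eq, Ψ', htr, zero_div, zero_smul, sub_zero] at this
  exact this

end final

theorem one_sm : SmI (fun _ => (1 : ℝ)) := contDiffOn_const
theorem zero_sm : SmI (fun _ => (0 : ℝ)) := contDiffOn_const

theorem sec_one {s : ℝ} (hs : s ∈ Icc (0:ℝ) 1) :
    rfS (fun _ => 1) (fun _ => 1) (fun _ => 0) s = 1 ∧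
    ffS (fun _ => 1) (fun _ => 1) (fun _ => 0) s = 1 ∧
    rhS (fun _ => 1) (fun _ => 1) (fun _ => 0) s = 1 ∧
    hhS (fun _ => 1) (fun _ => 1) (fun _ => 0) s = 1 ∧
    fhS (fun _ => 1) (fun _ => 1) (fun _ => 0) s = 1 := by
  have h1 : deriv (fun _ : ℝ => (1:ℝ)) = fun _ => 0 := by
    funext x; simp
  have h2 : deriv (fun _ : ℝ => (0:ℝ)) = fun _ => 0 := by
    funext x; simp
  unfold rfS ffS rhS hhS fhS
  simp only [h1, h2]
  simp [cE, kRF, kRH, kFF, kHH, kFH, cE1, cQ, cR]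

/-- **Sanity check.** On the unit round sphere `S⁵` (the metric `pullA (Pinv e) 1 1 0`), for every
orthonormal frame `F` and every traceless symmetric `φ`, the curvature operator of the second kind
gives `|φ|²`. -/
theorem round_check (e : OpenPartialHomeomorph S5 (En 5)) (he : e ∈ atlas (En 5) S5)
    (y : Eu 5) (F : Mt 5)
    (hF : Fᵀ * pullA (Pinv e) (fun _ => 1) (fun _ => 1) (fun _ => 0) y * F = 1)
    (φ : Mt 5) (hφ : φ.IsSymm) (hφt : φ.trace = 0) :
    second (pullA (Pinv e) (fun _ => 1) (fun _ => 1) (fun _ => 0)) y F φ =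
      ∑ i, ∑ j, φ i j ^ 2 := by
  have hpos : ∀ s ∈ Icc (0:ℝ) 1, 0 < (fun _ => (1:ℝ)) s ∧ 0 < (fun _ => (1:ℝ)) s ∧
      0 ≤ (fun _ => (0:ℝ)) s := fun s _ => ⟨one_pos, one_pos, le_rfl⟩
  obtain ⟨g, hg⟩ := metric_of (fun _ => 1) (fun _ => 1) (fun _ => 0) one_sm one_sm zero_sm hpos
  rw [← hg e] at hF ⊢
  rw [second_eq]
  have t1 : (g.G e y * (F * φ * Fᵀ)).trace = 0 := by
    calc (g.G e y * (F * φ * Fᵀ)).trace = ((g.G e y * F * φ) * Fᵀ).trace := by
          simp only [Matrix.mul_assoc]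
      _ = (Fᵀ * (g.G e y * F * φ)).trace := Matrix.trace_mul_comm _ _
      _ = ((Fᵀ * g.G e y * F) * φ).trace := by simp only [Matrix.mul_assoc]
      _ = 0 := by rw [hF, Matrix.one_mul, hφt]
  have t2 : (g.G e y * (F * φ * Fᵀ) * (g.G e y * (F * φ * Fᵀ))).trace = (φ * φ).trace := by
    calc (g.G e y * (F * φ * Fᵀ) * (g.G e y * (F * φ * Fᵀ))).trace
        = ((g.G e y * F * φ * Fᵀ * g.G e y * F * φ) * Fᵀ).trace := by
          simp only [Matrix.mul_assoc]
      _ = (Fᵀ * (g.G e y * F * φ * Fᵀ * g.G e y * F * φ)).trace := Matrix.trace_mul_comm _ _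
      _ = ((Fᵀ * g.G e y * F) * φ * ((Fᵀ * g.G e y * F) * φ)).trace := by
          simp only [Matrix.mul_assoc]
      _ = (φ * φ).trace := by rw [hF, Matrix.one_mul]
  have hs : (F * φ * Fᵀ).IsSymm := by
    unfold Matrix.IsSymm
    rw [Matrix.transpose_mul, Matrix.transpose_mul, Matrix.transpose_transpose, hφ.eq,
      Matrix.mul_assoc]
  have h := all_eq one_sm one_sm zero_sm hpos (fun s hs => sec_one hs) g e he (hg e) y
    (F * φ * Fᵀ) hs t1
  rw [h, t2]
  simp only [Matrix.trace, Matrix.diag_apply]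
  refine Finset.sum_congr rfl fun i _ => ?_
  rw [Matrix.mul_apply]
  refine Finset.sum_congr rfl fun j _ => ?_
  rw [hφ.apply i j]
  ring

/-- the metric `pullA P 1 1 0` is the metric induced by the Euclidean one of `ℝ⁶` -/
theorem round_metric (P : Eu 5 → (Fin 6 → ℝ)) (y : Eu 5) :
    pullA P (fun _ => 1) (fun _ => 1) (fun _ => 0) y = (JP P y)ᵀ * JP P y := by
  have h : ambG (fun _ => 1) (fun _ => 1) (fun _ => 0) (P y) = 1 := by
    ext a b
    simp [ambG, Matrix.one_apply]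
  unfold pullA
  rw [h, Matrix.mul_one]

end Pool.Agent.H858R2.Round
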